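import Mathlib

section

/-!
# Recursively enumerable predicates: closure properties and indices
-/

set_option autoImplicit false

namespace Pool.Agent.Lib.MP_53c40f_lc

open Nat.Partrec (Code)

/-- the program with index `e` halts on input `x` within `s` steps -/
def haltN (s e x : ℕ) : Bool := (Nat.Partrec.Code.evaln s (Denumerable.ofNat Code e) x).isSome

/-- the program with index `e` halts on input `x` -/
def halt (e x : ℕ) : Prop := ∃ s, haltN s e x = true

theorem primrec_haltN : Primrec (fun a : ℕ × ℕ × ℕ => haltN a.1 a.2.1 a.2.2) := by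
  have h1 : Primrec (fun a : ℕ × ℕ × ℕ =>
      Nat.Partrec.Code.evaln a.1 (Denumerable.ofNat Code a.2.1) a.2.2) := by
    have h2 : Primrec (fun a : ℕ × ℕ × ℕ => ((a.1, Denumerable.ofNat Code a.2.1), a.2.2)) :=
      (Primrec.fst.pair ((Primrec.ofNat Code).comp (Primrec.fst.comp Primrec.snd))).pair
        (Primrec.snd.comp Primrec.snd)
    exact Nat.Partrec.Code.primrec_evaln.comp h2
  exact Primrec.option_isSome.comp h1

theorem haltN_mono {s s' e x : ℕ} (h : s ≤ s') (hs : haltN s e x = true) : haltN s' e x = true := by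
  unfold haltN at hs ⊢
  rw [Option.isSome_iff_exists] at hs ⊢
  obtain ⟨y, hy⟩ := hs
  exact ⟨y, Nat.Partrec.Code.evaln_mono h hy⟩

theorem haltN_lt {s e x : ℕ} (hs : haltN s e x = true) : x < s := by
  unfold haltN at hs
  rw [Option.isSome_iff_exists] at hs
  obtain ⟨y, hy⟩ := hs
  exact Nat.Partrec.Code.evaln_bound hy

section closure

variable {α β : Type} [Primcodable α] [Primcodable β]

/-- normal form of r.e. predicates -/
theorem re_iff {p : α → Prop} :
    REPred p ↔ ∃ D : α → ℕ → Bool, Computable₂ D ∧ ∀ a, p a ↔ ∃ n, D a n = true := by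
  constructor
  · intro hp
    have h1 : Nat.Partrec fun n => Part.bind (Encodable.decode (α := α) n) fun a =>
        (Part.assert (p a) fun _ => Part.some ()).map Encodable.encode := hp
    obtain ⟨c, hc⟩ := Nat.Partrec.Code.exists_code.1 h1
    refine ⟨fun a n => (Nat.Partrec.Code.evaln n c (Encodable.encode a)).isSome, ?_, ?_⟩
    · have h2 : Primrec (fun q : α × ℕ => ((q.2, c), Encodable.encode q.1)) :=
        (Primrec.snd.pair (Primrec.const c)).pair (Primrec.encode.comp Primrec.fst)
      exact (Primrec.option_isSome.comp (Nat.Partrec.Code.primrec_evaln.comp h2)).to_comp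
    · intro a
      have h3 : p a ↔ ∃ y, y ∈ Nat.Partrec.Code.eval c (Encodable.encode a) := by
        rw [hc]
        simp
      rw [h3]
      constructor
      · rintro ⟨y, hy⟩
        obtain ⟨k, hk⟩ := Nat.Partrec.Code.evaln_complete.1 hy
        exact ⟨k, Option.isSome_iff_exists.2 ⟨y, hk⟩⟩
      · rintro ⟨k, hk⟩
        obtain ⟨y, hy⟩ := Option.isSome_iff_exists.1 hk
        exact ⟨y, Nat.Partrec.Code.evaln_complete.2 ⟨k, hy⟩⟩
  · rintro ⟨D, hD, h⟩
    have h1 : Partrec fun a => Nat.rfind (fun n => (D a n : Part Bool)) := by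
      apply Partrec.rfind
      exact hD.partrec₂
    refine h1.dom_re.of_eq fun a => ?_
    rw [h]
    refine Nat.rfind_dom.trans ?_
    constructor
    · rintro ⟨n, hn, -⟩
      exact ⟨n, by simpa using hn⟩
    · rintro ⟨n, hn⟩
      exact ⟨n, by simpa using hn, fun _ => trivial⟩

theorem re_of_dec {p : α → Prop} (D : α → Bool) (hD : Computable D) (h : ∀ a, p a ↔ D a = true) :
    REPred p := by
  rw [re_iff]
  exact ⟨fun a _ => D a, hD.comp Computable.fst, fun a => by rw [h]; simp⟩

theorem re_comp {p : β → Prop} (hp : REPred p) {f : α → β} (hf : Computable f) :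
    REPred (fun a => p (f a)) := by
  rw [re_iff] at hp ⊢
  obtain ⟨D, hD, h⟩ := hp
  exact ⟨fun a n => D (f a) n, hD.comp (hf.comp Computable.fst) Computable.snd, fun a => h (f a)⟩

private theorem re_unpair_fst : Computable (fun n : ℕ => n.unpair.1) :=
  Computable.fst.comp Computable.unpair

private theorem re_unpair_snd : Computable (fun n : ℕ => n.unpair.2) :=
  Computable.snd.comp Computable.unpair

theorem re_and {p q : α → Prop} (hp : REPred p) (hq : REPred q) : REPred (fun a => p a ∧ q a) := by
  rw [re_iff] at hp hq ⊢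
  obtain ⟨D, hD, h⟩ := hp
  obtain ⟨E, hE, h'⟩ := hq
  refine ⟨fun a n => D a n.unpair.1 && E a n.unpair.2, ?_, fun a => ?_⟩
  · exact Primrec.and.to_comp.comp
      (hD.comp Computable.fst (re_unpair_fst.comp Computable.snd))
      (hE.comp Computable.fst (re_unpair_snd.comp Computable.snd))
  · rw [h, h']
    constructor
    · rintro ⟨⟨n, hn⟩, m, hm⟩
      exact ⟨Nat.pair n m, by simp [hn, hm]⟩
    · rintro ⟨n, hn⟩
      rw [Bool.and_eq_true] at hn
      exact ⟨⟨_, hn.1⟩, _, hn.2⟩

theorem re_or {p q : α → Prop} (hp : REPred p) (hq : REPred q) : REPred (fun a => p a ∨ q a) := by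
  rw [re_iff] at hp hq ⊢
  obtain ⟨D, hD, h⟩ := hp
  obtain ⟨E, hE, h'⟩ := hq
  refine ⟨fun a n => D a n || E a n, ?_, fun a => ?_⟩
  · exact Primrec.or.to_comp.comp hD hE
  · rw [h, h']
    constructor
    · rintro (⟨n, hn⟩ | ⟨n, hn⟩)
      · exact ⟨n, by simp [hn]⟩
      · exact ⟨n, by simp [hn]⟩
    · rintro ⟨n, hn⟩
      rw [Bool.or_eq_true] at hn
      rcases hn with hn | hn
      · exact Or.inl ⟨_, hn⟩
      · exact Or.inr ⟨_, hn⟩

theorem re_ex {p : α × β → Prop} (hp : REPred p) : REPred (fun a => ∃ b, p (a, b)) := by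
  rw [re_iff] at hp ⊢
  obtain ⟨D, hD, h⟩ := hp
  refine ⟨fun a m => Option.casesOn (Encodable.decode (α := β) m.unpair.1) false
    fun b => D (a, b) m.unpair.2, ?_, fun a => ?_⟩
  · have h1 : Computable fun q : α × ℕ => Encodable.decode (α := β) q.2.unpair.1 :=
      Computable.decode.comp (re_unpair_fst.comp Computable.snd)
    have h2 : Computable₂ fun (q : α × ℕ) (b : β) => D (q.1, b) q.2.unpair.2 :=
      hD.comp ((Computable.fst.comp Computable.fst).pair Computable.snd)
        (re_unpair_snd.comp (Computable.snd.comp Computable.fst))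
    exact Computable.option_casesOn h1 (Computable.const false) h2
  · constructor
    · rintro ⟨b, hb⟩
      obtain ⟨n, hn⟩ := (h _).1 hb
      refine ⟨Nat.pair (Encodable.encode b) n, ?_⟩
      simp [Nat.unpair_pair, Encodable.encodek, hn]
    · rintro ⟨m, hm⟩
      cases hd : Encodable.decode (α := β) m.unpair.1 with
      | none => simp [hd] at hm
      | some b =>
        refine ⟨b, (h _).2 ⟨m.unpair.2, ?_⟩⟩
        simpa [hd] using hm

/-- bounded existential quantification of a computable relation -/
private theorem re_bex {D : α → ℕ → Bool} (hD : Computable₂ D) :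
    ∃ E : α → ℕ → Bool, Computable₂ E ∧ ∀ a N, E a N = true ↔ ∃ n < N, D a n = true := by
  refine ⟨fun a N => Nat.rec (motive := fun _ => Bool) false (fun n ih => ih || D a n) N, ?_, ?_⟩
  · have h1 : Computable₂ fun (q : α × ℕ) (r : ℕ × Bool) => (r.2 || D q.1 r.1) :=
      Primrec.or.to_comp.comp (Computable.snd.comp Computable.snd)
        (hD.comp (Computable.fst.comp Computable.fst) (Computable.fst.comp Computable.snd))
    exact Computable.nat_rec Computable.snd (Computable.const false) h1
  · intro a N
    induction N with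
    | zero => simp
    | succ N ih =>
      simp only [Bool.or_eq_true]
      rw [ih]
      constructor
      · rintro (⟨n, hn, h⟩ | h)
        · exact ⟨n, by omega, h⟩
        · exact ⟨N, by omega, h⟩
      · rintro ⟨n, hn, h⟩
        rcases Nat.lt_succ_iff_lt_or_eq.1 hn with hn | rfl
        · exact Or.inl ⟨n, hn, h⟩
        · exact Or.inr h

/-- bounded universal quantification of a computable relation -/
private theorem re_bal {D : α → ℕ → Bool} (hD : Computable₂ D) {f : α → ℕ} (hf : Computable f) :
    ∃ E : α → Bool, Computable E ∧ ∀ a, E a = true ↔ ∀ i < f a, D a i = true := by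
  refine ⟨fun a => Nat.rec (motive := fun _ => Bool) true (fun n ih => ih && D a n) (f a), ?_, ?_⟩
  · have h1 : Computable₂ fun (q : α) (r : ℕ × Bool) => (r.2 && D q r.1) :=
      Primrec.and.to_comp.comp (Computable.snd.comp Computable.snd)
        (hD.comp Computable.fst (Computable.fst.comp Computable.snd))
    exact Computable.nat_rec hf (Computable.const true) h1
  · intro a
    beta_reduce
    generalize f a = N
    induction N with
    | zero => simp
    | succ N ih =>
      simp only [Bool.and_eq_true]
      rw [ih]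
      constructor
      · rintro ⟨h1, h2⟩ i hi
        rcases Nat.lt_succ_iff_lt_or_eq.1 hi with hi | rfl
        · exact h1 i hi
        · exact h2
      · intro h
        exact ⟨fun i hi => h i (by omega), h N (by omega)⟩

theorem re_ball {p : α × ℕ → Prop} (hp : REPred p) {f : α → ℕ} (hf : Computable f) :
    REPred (fun a => ∀ i < f a, p (a, i)) := by
  rw [re_iff] at hp
  obtain ⟨D, hD, h⟩ := hp
  obtain ⟨E, hE, hE'⟩ := re_bex hD
  have hE2 : Computable₂ fun (q : α × ℕ) (i : ℕ) => E (q.1, i) q.2 :=
    hE.comp ((Computable.fst.comp Computable.fst).pair Computable.snd)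
      (Computable.snd.comp Computable.fst)
  obtain ⟨F, hF, hF'⟩ := re_bal (α := α × ℕ) hE2 (f := fun q => f q.1) (hf.comp Computable.fst)
  rw [re_iff]
  refine ⟨fun a N => F (a, N), hF.comp (Computable.fst.pair Computable.snd), fun a => ?_⟩
  have key : ∀ k : ℕ, (∀ i < k, p (a, i)) → ∃ N, ∀ i < k, ∃ n < N, D (a, i) n = true := by
    intro k
    induction k with
    | zero => exact fun _ => ⟨0, fun i hi => absurd hi (Nat.not_lt_zero i)⟩
    | succ k ih =>
      intro hk
      obtain ⟨N, hN⟩ := ih fun i hi => hk i (by omega)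
      obtain ⟨n, hn⟩ := (h _).1 (hk k (by omega))
      refine ⟨max N (n + 1), fun i hi => ?_⟩
      rcases Nat.lt_succ_iff_lt_or_eq.1 hi with hi | rfl
      · obtain ⟨m, hm, hm'⟩ := hN i hi
        exact ⟨m, lt_of_lt_of_le hm (le_max_left _ _), hm'⟩
      · exact ⟨n, lt_of_lt_of_le (Nat.lt_succ_self n) (le_max_right _ _), hn⟩
  constructor
  · intro ha
    obtain ⟨N, hN⟩ := key (f a) ha
    refine ⟨N, (hF' (a, N)).2 fun i hi => ?_⟩
    exact (hE' (a, i) N).2 (hN i hi)
  · rintro ⟨N, hN⟩ i hi
    obtain ⟨n, -, hn⟩ := (hE' (a, i) N).1 ((hF' (a, N)).1 hN i hi)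
    exact (h _).2 ⟨n, hn⟩

end closure

end Pool.Agent.Lib.MP_53c40f_lc
end

section

/-!
# The finite injury process

For a parameter `c : ℕ` we run a process with a stack of levels.  A level is `(H, t, F)`: `H` is
the value of the level, `t` codes a tree of thresholds, and `F` is `none` as long as the
requirement of the level has not acted, and `some l` afterwards, `l` being the list of the frozen
values.  Flattening the stack gives the list of the current values `h c s 0, h c s 1, …`
(positions beyond the stack have the current value `c + s`).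
-/

set_option autoImplicit false

namespace Pool.Agent.Lib.MP_53c40f_lc

/-- threshold at the root of the tree coded by `t` -/
def th (t : ℕ) : ℕ := t.unpair.1

/-- subtree used for the next level if the requirement has not acted -/
def tl (t : ℕ) : ℕ := t.unpair.2.unpair.1

/-- subtree used for the next level if the requirement has acted -/
def tr (t : ℕ) : ℕ := t.unpair.2.unpair.2

/-- `(value, tree, frozen values)` -/
abbrev Level := ℕ × ℕ × Option (List ℕ)

abbrev State := List Level

/-- the values of the positions that belong to a level -/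
def vals (l : Level) : List ℕ := l.1 :: l.2.2.getD []

/-- all values of a state -/
def flat (st : State) : List ℕ := st.flatMap vals

/-- the tree of the next level -/
def child (l : Level) : ℕ := if l.2.2.isSome then tr l.2.1 else tl l.2.1

/-- the value at position `j` in state `st` at stage `s` -/
def hv (c s : ℕ) (st : State) (j : ℕ) : ℕ := (flat st).getD j (c + s)

/-- the first `j` values -/
def hl (c s : ℕ) (st : State) (j : ℕ) : List ℕ := (List.range j).map (hv c s st)

/-- the input on which the adversary of level `i` is run -/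
def args (c : ℕ) (o : List ℕ) (n v : ℕ) : ℕ := Encodable.encode (c, o, n, v)

/-- adversary `i` outputs a value `v ≤ L` on argument `i`, using at most `L` values -/
def actTest (c s i : ℕ) (st : State) (L : ℕ) : Bool :=
  decide (∃ j < L + 1, ∃ v < L + 1, haltN s i (args c (hl c s st j) i v) = true)

/-- least `L ≤ θ` that passes the test -/
def actL (c s i : ℕ) (st : State) (θ : ℕ) : Option ℕ :=
  (List.range (θ + 1)).find? (fun L => actTest c s i st L)

/-- a program `e ≤ i` halts on an input `x ≤ H` in exactly `s + 1` steps -/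
def newTest (s i H : ℕ) : Bool :=
  decide (∃ e < i + 1, ∃ x < H + 1, haltN (s + 1) e x = true ∧ haltN s e x = false)

/-- there is an event at level `i` -/
def ev (c s : ℕ) (st : State) (i : ℕ) : Bool :=
  match st[i]? with
  | none => false
  | some l => (l.2.2.isNone && (actL c s i st (th l.2.1)).isSome) || newTest s i l.1

/-- the level at which the next step takes place: the first one with an event, or the last one -/
def idx (c s : ℕ) (st : State) : ℕ :=
  min ((List.range st.length).findIdx (ev c s st)) (st.length - 1)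

/-- position of level `i` -/
def pos (st : State) (i : ℕ) : ℕ := (flat (st.take i)).length

/-- level `l` (number `i`) after the step -/
def upd (c s i : ℕ) (st : State) (l : Level) : Level :=
  if l.2.2.isSome then l else
    match actL c s i st (th l.2.1) with
    | none => l
    | some L => (l.1, l.2.1, some ((hl c s st (max L (pos st i) + 1)).drop (pos st i + 1)))

/-- one step of the process -/
def step (c s : ℕ) (st : State) : State :=
  match st[idx c s st]? with
  | none => st
  | some l =>
    st.take (idx c s st) ++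
      [upd c s (idx c s st) st l, (c + s + 1, child (upd c s (idx c s st) st l), none)]

/-- the state at stage `s` for the parameter `c = ⟨u, t⟩` -/
def st (c : ℕ) : ℕ → State
  | 0 => [(c, c.unpair.2, none)]
  | s + 1 => step c s (st c s)

/-- the value at position `j` at stage `s` -/
def h (c s j : ℕ) : ℕ := hv c s (st c s) j

end Pool.Agent.Lib.MP_53c40f_lc
end

section

/-!
# Invariants of the process
-/

set_option autoImplicit false

namespace Pool.Agent.Lib.MP_53c40f_lc

theorem st_ne (c s : ℕ) : st c s ≠ [] := by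
  induction s with
  | zero => simp [st]
  | succ s ih =>
    have hlen : 0 < (st c s).length := List.length_pos_of_ne_nil ih
    have hi : idx c s (st c s) < (st c s).length := by
      unfold idx
      have := Nat.min_le_right ((List.range (st c s).length).findIdx (ev c s (st c s)))
        ((st c s).length - 1)
      omega
    have hst : st c (s + 1) = step c s (st c s) := rfl
    rw [hst]
    unfold step
    rw [List.getElem?_eq_getElem hi]
    simp

theorem idx_lt (c s : ℕ) (S : State) (hS : S ≠ []) : idx c s S < S.length := by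
  have hlen : 0 < S.length := List.length_pos_of_ne_nil hS
  unfold idx
  have := Nat.min_le_right ((List.range S.length).findIdx (ev c s S)) (S.length - 1)
  omega

theorem flat_append (S T : State) : flat (S ++ T) = flat S ++ flat T := by
  unfold flat
  rw [List.flatMap_append]

theorem flat_split (S : State) (i : ℕ) (l : Level) (hl : S[i]? = some l) :
    flat S = flat (S.take i) ++ (vals l ++ flat (S.drop (i + 1))) := by
  obtain ⟨hi, hli⟩ := List.getElem?_eq_some_iff.1 hl
  have h1 : S = S.take i ++ l :: S.drop (i + 1) := by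
    rw [← hli, ← List.drop_eq_getElem_cons hi, List.take_append_drop]
  conv_lhs => rw [h1]
  rw [flat_append]
  unfold flat
  rw [List.flatMap_cons]

theorem hl_eq_take (c s : ℕ) (S : State) (J : ℕ) (hJ : J ≤ (flat S).length) :
    hl c s S J = (flat S).take J := by
  apply List.ext_getElem
  · unfold hl
    rw [List.length_map, List.length_range, List.length_take, min_eq_left hJ]
  · intro n h1 h2
    unfold hl at h1 ⊢
    rw [List.length_map, List.length_range] at h1
    rw [List.getElem_map, List.getElem_range, List.getElem_take]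
    unfold hv
    rw [List.getD_eq_getElem _ _ (by omega)]

theorem take_hl (c s : ℕ) (S : State) (m n : ℕ) (h : m ≤ n) :
    (hl c s S n).take m = hl c s S m := by
  unfold hl
  rw [← List.map_take, List.take_range, min_eq_left h]

/-- the values after one step -/
theorem flat_step (c s : ℕ) (S : State) (hS : S ≠ []) :
    ∃ J, 1 ≤ J ∧ flat (step c s S) = hl c s S J ++ [c + s + 1] := by
  have hi := idx_lt c s S hS
  obtain ⟨l, hl0⟩ : ∃ l, S[idx c s S]? = some l := ⟨S[idx c s S], List.getElem?_eq_getElem hi⟩
  have hst : step c s S = S.take (idx c s S) ++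
      [upd c s (idx c s S) S l, (c + s + 1, child (upd c s (idx c s S) S l), none)] := by
    unfold step
    rw [hl0]
  have hfl : flat (step c s S) = flat (S.take (idx c s S)) ++
      (vals (upd c s (idx c s S) S l) ++ [c + s + 1]) := by
    rw [hst, flat_append]
    congr 1
  have hsp := flat_split S (idx c s S) l hl0
  have hpos : pos S (idx c s S) = (flat (S.take (idx c s S))).length := rfl
  by_cases hcase : upd c s (idx c s S) S l = l
  · rw [hcase] at hfl
    refine ⟨(flat (S.take (idx c s S)) ++ vals l).length, ?_, ?_⟩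
    · rw [List.length_append]
      unfold vals
      rw [List.length_cons]
      omega
    · rw [hl_eq_take, hfl]
      · rw [← List.append_assoc]
        congr 1
        conv_rhs => rw [hsp]
        rw [← List.append_assoc, List.take_left']
        rfl
      · conv_rhs => rw [hsp]
        rw [← List.append_assoc, List.length_append (bs := flat _)]
        omega
  · have hupd : ∃ L, upd c s (idx c s S) S l = (l.1, l.2.1,
        some ((hl c s S (max L (pos S (idx c s S)) + 1)).drop (pos S (idx c s S) + 1))) := by
      unfold upd at hcase ⊢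
      split at hcase
      · exact absurd rfl hcase
      · rename_i hn
        split at hcase
        · exact absurd rfl hcase
        · rename_i L hL
          refine ⟨L, ?_⟩
          rw [if_neg hn]
    obtain ⟨L, hL⟩ := hupd
    refine ⟨max L (pos S (idx c s S)) + 1, by omega, ?_⟩
    rw [hfl, hL]
    have h1 : vals (l.1, l.2.1,
        some ((hl c s S (max L (pos S (idx c s S)) + 1)).drop (pos S (idx c s S) + 1))) =
        [l.1] ++ (hl c s S (max L (pos S (idx c s S)) + 1)).drop (pos S (idx c s S) + 1) := rfl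
    rw [h1]
    have h2 : flat (S.take (idx c s S)) ++ [l.1] =
        (hl c s S (max L (pos S (idx c s S)) + 1)).take (pos S (idx c s S) + 1) := by
      rw [take_hl _ _ _ _ _ (by omega), hl_eq_take]
      · conv_rhs => rw [hsp]
        have h3 : flat (S.take (idx c s S)) ++ (vals l ++ flat (S.drop (idx c s S + 1))) =
            (flat (S.take (idx c s S)) ++ [l.1]) ++
              (l.2.2.getD [] ++ flat (S.drop (idx c s S + 1))) := by
          unfold vals
          simp
        rw [h3, List.take_left']
        rw [List.length_append, hpos]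
        rfl
      · conv_rhs => rw [hsp]
        unfold vals
        rw [List.length_append, List.length_append, List.length_cons, hpos]
        omega
    rw [List.append_assoc, ← List.append_assoc (flat _), h2, ← List.append_assoc,
      List.take_append_drop]

theorem hv_le_of (c s : ℕ) (S : State) (h : ∀ x ∈ flat S, x ≤ c + s) (j : ℕ) :
    hv c s S j ≤ c + s := by
  unfold hv
  rcases Nat.lt_or_ge j (flat S).length with hj | hj
  · rw [List.getD_eq_getElem _ _ hj]
    exact h _ (List.getElem_mem hj)
  · rw [List.getD_eq_default _ _ hj]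

/-- all values of a state are at most `c + s` -/
theorem flat_le (c s : ℕ) : ∀ x ∈ flat (st c s), x ≤ c + s := by
  induction s with
  | zero =>
    intro x hx
    have h1 : flat (st c 0) = [c] := rfl
    rw [h1, List.mem_singleton] at hx
    omega
  | succ s ih =>
    intro x hx
    obtain ⟨J, _, hJ⟩ := flat_step c s (st c s) (st_ne c s)
    have hst : st c (s + 1) = step c s (st c s) := rfl
    rw [hst, hJ, List.mem_append, List.mem_singleton] at hx
    rcases hx with hx | hx
    · unfold hl at hx
      rw [List.mem_map] at hx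
      obtain ⟨j, _, hj⟩ := hx
      have := hv_le_of c s (st c s) ih j
      omega
    · omega

theorem upd_fst' (c s i : ℕ) (S : State) (l : Level) : (upd c s i S l).1 = l.1 := by
  unfold upd
  split
  · rfl
  · split <;> rfl

theorem upd_snd_fst' (c s i : ℕ) (S : State) (l : Level) : (upd c s i S l).2.1 = l.2.1 := by
  unfold upd
  split
  · rfl
  · split <;> rfl

/-- the first level -/
theorem st_zero (c s : ℕ) : ∃ l, (st c s)[0]? = some l ∧ l.1 = c ∧ l.2.1 = c.unpair.2 := by
  induction s with
  | zero => exact ⟨(c, c.unpair.2, none), rfl, rfl, rfl⟩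
  | succ s ih =>
    obtain ⟨l, h1, h2, h3⟩ := ih
    have hi := idx_lt c s (st c s) (st_ne c s)
    obtain ⟨l0, hl0⟩ : ∃ l, (st c s)[idx c s (st c s)]? = some l := ⟨_, List.getElem?_eq_getElem hi⟩
    have hst : st c (s + 1) = (st c s).take (idx c s (st c s)) ++
        [upd c s (idx c s (st c s)) (st c s) l0,
          (c + s + 1, child (upd c s (idx c s (st c s)) (st c s) l0), none)] := by
      show step c s (st c s) = _
      unfold step
      rw [hl0]
    rcases Nat.eq_zero_or_pos (idx c s (st c s)) with h0 | h0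
    · refine ⟨upd c s (idx c s (st c s)) (st c s) l0, ?_, ?_, ?_⟩
      · rw [hst]
        generalize upd c s (idx c s (st c s)) (st c s) l0 = u
        rw [h0]
        rfl
      · rw [upd_fst']
        rw [h0, h1] at hl0
        rw [← Option.some.inj hl0, h2]
      · rw [upd_snd_fst']
        rw [h0, h1] at hl0
        rw [← Option.some.inj hl0, h3]
    · refine ⟨l, ?_, h2, h3⟩
      rw [hst, List.getElem?_append_left (by rw [List.length_take]; omega),
        List.getElem?_take_of_lt h0, h1]

/-- how the values change in one step: positions below some `J ≥ 1` keep their value, the others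
get the new value `c + s + 1` -/
theorem h_step (c s : ℕ) : ∃ J, 1 ≤ J ∧ (flat (st c (s + 1))).length = J + 1 ∧
    (∀ j < J, h c (s + 1) j = h c s j) ∧ ∀ j, J ≤ j → h c (s + 1) j = c + s + 1 := by
  obtain ⟨J, hJ1, hJ⟩ := flat_step c s (st c s) (st_ne c s)
  have hst : st c (s + 1) = step c s (st c s) := rfl
  have hlen : (hl c s (st c s) J).length = J := by
    unfold hl
    rw [List.length_map, List.length_range]
  refine ⟨J, hJ1, ?_, ?_, ?_⟩
  · rw [hst, hJ, List.length_append, hlen]
    rfl
  · intro j hj
    unfold h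
    conv_lhs => unfold hv
    rw [hst, hJ, List.getD_append _ _ _ _ (by rw [hlen]; exact hj),
      List.getD_eq_getElem _ _ (by rw [hlen]; exact hj)]
    unfold hl
    rw [List.getElem_map, List.getElem_range]
  · intro j hj
    unfold h hv
    rw [hst, hJ, List.getD_append_right _ _ _ _ (by rw [hlen]; exact hj), hlen]
    rcases Nat.eq_zero_or_pos (j - J) with h0 | h0
    · rw [h0]
      rfl
    · rw [List.getD_eq_default _ _ (by simp; omega)]
      omega

theorem h_le (c s j : ℕ) : h c s j ≤ c + s := hv_le_of c s (st c s) (flat_le c s) j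

theorem h_mono_stage (c j : ℕ) : Monotone (fun s => h c s j) := by
  refine monotone_nat_of_le_succ fun s => ?_
  obtain ⟨J, _, _, h1, h2⟩ := h_step c s
  rcases Nat.lt_or_ge j J with hj | hj
  · exact (h1 j hj).ge
  · have h3 : h c (s + 1) j = c + s + 1 := h2 j hj
    have h4 := h_le c s j
    show h c s j ≤ h c (s + 1) j
    omega

theorem h_mono_pos (c s : ℕ) : Monotone (fun j => h c s j) := by
  induction s with
  | zero =>
    intro i j hij
    show h c 0 i ≤ h c 0 j
    have h1 : ∀ k, h c 0 k = c := by
      intro k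
      have h2 : h c 0 k = [c].getD k (c + 0) := rfl
      rw [h2]
      rcases k with _ | k
      · rfl
      · rfl
    rw [h1, h1]
  | succ s ih =>
    intro i j hij
    show h c (s + 1) i ≤ h c (s + 1) j
    obtain ⟨J, _, _, h1, h2⟩ := h_step c s
    rcases Nat.lt_or_ge j J with hj | hj
    · rw [h1 j hj, h1 i (by omega)]
      exact ih hij
    · have h3 := h_le c (s + 1) i
      rw [h2 j hj]
      omega

theorem h_zero (c s : ℕ) : h c s 0 = c := by
  induction s with
  | zero => rfl
  | succ s ih =>
    obtain ⟨J, hJ, _, h1, _⟩ := h_step c s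
    rw [h1 0 (by omega), ih]

/-- levels `0, …, i` exist and do not change from stage `S` on -/
def Stab (c i S : ℕ) : Prop :=
  ∀ s, S ≤ s → i < (st c s).length ∧ (st c s).take (i + 1) = (st c S).take (i + 1)

end Pool.Agent.Lib.MP_53c40f_lc
end

section

/-!
# Every level stabilises
-/

set_option autoImplicit false

namespace Pool.Agent.Lib.MP_53c40f_lc

theorem sg9_idx_lt (c s : ℕ) {S : State} (hS : S ≠ []) : idx c s S < S.length := by
  have h1 : 0 < S.length := List.length_pos_iff.2 hS
  unfold idx
  omega

theorem sg9_step (c s : ℕ) {S : State} (hS : S ≠ []) : ∃ l, S[idx c s S]? = some l ∧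
    step c s S = S.take (idx c s S) ++
      [upd c s (idx c s S) S l, (c + s + 1, child (upd c s (idx c s S) S l), none)] := by
  have h1 := sg9_idx_lt c s hS
  refine ⟨S[idx c s S], List.getElem?_eq_getElem h1, ?_⟩
  unfold step
  rw [List.getElem?_eq_getElem h1]

theorem sg9_length (c s : ℕ) : (st c (s + 1)).length = idx c s (st c s) + 2 := by
  obtain ⟨l, _, h2⟩ := sg9_step c s (st_ne c s)
  show (step c s (st c s)).length = _
  rw [h2, List.length_append, List.length_take,
    Nat.min_eq_left (sg9_idx_lt c s (st_ne c s)).le]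
  rfl

theorem sg9_below (c s k : ℕ) (hk : k < idx c s (st c s)) : (st c (s + 1))[k]? = (st c s)[k]? := by
  obtain ⟨l, _, h2⟩ := sg9_step c s (st_ne c s)
  show (step c s (st c s))[k]? = _
  rw [h2, List.getElem?_append_left, List.getElem?_take_of_lt hk]
  rw [List.length_take, Nat.min_eq_left (sg9_idx_lt c s (st_ne c s)).le]
  exact hk

theorem sg9_at (c s : ℕ) : ∃ l, (st c s)[idx c s (st c s)]? = some l ∧
    (st c (s + 1))[idx c s (st c s)]? = some (upd c s (idx c s (st c s)) (st c s) l) ∧
    (st c (s + 1))[idx c s (st c s) + 1]? =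
      some (c + s + 1, child (upd c s (idx c s (st c s)) (st c s) l), none) := by
  obtain ⟨l, h1, h2⟩ := sg9_step c s (st_ne c s)
  have h3 : ((st c s).take (idx c s (st c s))).length = idx c s (st c s) := by
    rw [List.length_take, Nat.min_eq_left (sg9_idx_lt c s (st_ne c s)).le]
  refine ⟨l, h1, ?_, ?_⟩
  · show (step c s (st c s))[idx c s (st c s)]? = _
    rw [h2, List.getElem?_append_right (by rw [h3]), h3, Nat.sub_self]
    rfl
  · show (step c s (st c s))[idx c s (st c s) + 1]? = _
    rw [h2, List.getElem?_append_right (by rw [h3]; exact Nat.le_succ _), h3,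
      Nat.add_sub_cancel_left]
    rfl

theorem sg9_upd_of_some {c s i : ℕ} {S : State} {l : Level} (h : l.2.2.isSome = true) :
    upd c s i S l = l := by
  unfold upd
  rw [if_pos h]

theorem sg9_upd_cases (c s i : ℕ) (S : State) (l : Level) :
    upd c s i S l = l ∨ (upd c s i S l).2.2.isSome = true := by
  unfold upd
  split
  · exact Or.inl rfl
  · split
    · exact Or.inl rfl
    · exact Or.inr rfl

/-- A level which exists and is never removed from stage `S` on is eventually constant. -/
theorem sg9_const (c i S : ℕ) (h : ∀ s, S ≤ s → i < (st c s).length ∧ i ≤ idx c s (st c s)) :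
    ∃ S', S ≤ S' ∧ ∀ s, S' ≤ s → (st c s)[i]? = (st c S')[i]? := by
  -- one step
  have step1 : ∀ s, S ≤ s → ∀ l, (st c s)[i]? = some l →
      (st c (s + 1))[i]? = some l ∨ ∃ l', (st c (s + 1))[i]? = some l' ∧ l'.2.2.isSome = true := by
    intro s hs l hl
    rcases Nat.lt_or_eq_of_le (h s hs).2 with h1 | h1
    · left
      rw [sg9_below c s i h1, hl]
    · obtain ⟨l1, e1, e2, _⟩ := sg9_at c s
      rw [← h1] at e1 e2
      rw [hl] at e1
      have e3 : l = l1 := Option.some.inj e1
      subst e3
      rcases sg9_upd_cases c s i (st c s) l with h2 | h2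
      · left
        rw [e2, h2]
      · exact Or.inr ⟨_, e2, h2⟩
  by_cases hA : ∃ s1, S ≤ s1 ∧ ∃ l, (st c s1)[i]? = some l ∧ l.2.2.isSome = true
  · obtain ⟨s1, hs1, l, hl, hl2⟩ := hA
    refine ⟨s1, hs1, ?_⟩
    intro s hs
    induction s, hs using Nat.le_induction with
    | base => rfl
    | succ s hs ih =>
      rw [hl] at ih ⊢
      rcases Nat.lt_or_eq_of_le (h s (hs1.trans hs)).2 with h1 | h1
      · rw [sg9_below c s i h1, ih]
      · obtain ⟨l1, e1, e2, _⟩ := sg9_at c s
        rw [← h1] at e1 e2
        rw [ih] at e1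
        have e3 : l = l1 := Option.some.inj e1
        subst e3
        rw [e2, sg9_upd_of_some hl2]
  · push Not at hA
    refine ⟨S, le_rfl, ?_⟩
    intro s hs
    induction s, hs using Nat.le_induction with
    | base => rfl
    | succ s hs ih =>
      rw [← ih]
      obtain ⟨l, hl⟩ : ∃ l, (st c s)[i]? = some l :=
        ⟨_, List.getElem?_eq_getElem (h s hs).1⟩
      rcases step1 s hs l hl with h1 | ⟨l', h1, h2⟩
      · rw [h1, hl]
      · exact absurd h2 (hA (s + 1) (hs.trans (Nat.le_succ s)) l' h1)

theorem sg9_mono {c i S S' : ℕ} (h : Stab c i S) (hS : S ≤ S') : Stab c i S' := by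
  intro s hs
  refine ⟨(h s (hS.trans hs)).1, ?_⟩
  rw [(h s (hS.trans hs)).2, (h S' hS).2]

theorem sg9_newTest (i H : ℕ) : ∃ B, ∀ s, B ≤ s → newTest s i H = false := by
  have h1 : ∀ᶠ s in Filter.atTop, ∀ e ∈ Set.Iio (i + 1), ∀ x ∈ Set.Iio (H + 1),
      ¬ (haltN (s + 1) e x = true ∧ haltN s e x = false) := by
    rw [Filter.eventually_all_finite (Set.finite_Iio _)]
    intro e _
    rw [Filter.eventually_all_finite (Set.finite_Iio _)]
    intro x _
    by_cases h : ∃ s0, haltN s0 e x = true
    · obtain ⟨s0, hs0⟩ := h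
      filter_upwards [Filter.eventually_ge_atTop s0] with s hs
      rintro ⟨_, h2⟩
      rw [haltN_mono hs hs0] at h2
      exact absurd h2 (by simp)
    · push Not at h
      filter_upwards with s
      rintro ⟨h2, _⟩
      exact h _ h2
  obtain ⟨B, hB⟩ := Filter.eventually_atTop.1 h1
  refine ⟨B, fun s hs => ?_⟩
  unfold newTest
  rw [decide_eq_false_iff_not]
  rintro ⟨e, he, x, hx, h2⟩
  exact hB s hs e he x hx h2

theorem sg9_getElem {c i S : ℕ} (h : Stab c i S) {s : ℕ} (hs : S ≤ s) {k : ℕ} (hk : k ≤ i) :
    (st c s)[k]? = (st c S)[k]? := by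
  have h1 := congrArg (fun l : State => l[k]?) (h s hs).2
  simp only [List.getElem?_take_of_lt (Nat.lt_succ_of_le hk)] at h1
  exact h1

theorem sg9_mem_flat {S : State} {k : ℕ} {l : Level} (h : S[k]? = some l) : l.1 ∈ flat S := by
  unfold flat
  rw [List.mem_flatMap]
  exact ⟨l, List.mem_of_getElem? h, List.mem_cons_self⟩

/-- If the levels `0, …, i` are stable, the process works at the levels `≥ i`. -/
theorem sg9_idx_ge {c i S : ℕ} (h : Stab c i S) {s : ℕ} (hs : S ≤ s) :
    i ≤ idx c s (st c s) := by
  by_contra hcon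
  push Not at hcon
  have h1 := (h (s + 1) (hs.trans (Nat.le_succ s))).1
  rw [sg9_length] at h1
  have h2 : idx c s (st c s) + 1 = i := by omega
  obtain ⟨l, _, _, e3⟩ := sg9_at c s
  rw [h2] at e3
  have e4 : (st c (s + 1))[i]? = (st c s)[i]? := by
    rw [sg9_getElem h (hs.trans (Nat.le_succ s)) le_rfl, sg9_getElem h hs le_rfl]
  rw [e4] at e3
  have h5 := flat_le c s _ (sg9_mem_flat e3)
  simp only at h5
  omega

/-- finite injury: every level stabilises -/
theorem exists_stab (c i : ℕ) : ∃ S, Stab c i S := by
  induction i with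
  | zero =>
    have h0 : ∀ s, 0 ≤ s → 0 < (st c s).length ∧ 0 ≤ idx c s (st c s) :=
      fun s _ => ⟨List.length_pos_iff.2 (st_ne c s), Nat.zero_le _⟩
    obtain ⟨S', _, hS'⟩ := sg9_const c 0 0 h0
    refine ⟨S', fun s hs => ⟨(h0 s (Nat.zero_le s)).1, ?_⟩⟩
    rw [List.take_add_one, List.take_add_one, hS' s hs]
    simp
  | succ i ih =>
    obtain ⟨S, hS⟩ := ih
    obtain ⟨l, hl⟩ : ∃ l, (st c S)[i]? = some l :=
      ⟨_, List.getElem?_eq_getElem (hS S le_rfl).1⟩
    obtain ⟨B, hB⟩ := sg9_newTest i l.1
    -- after stage `S + 1` level `i + 1` exists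
    have hlen : ∀ s, S + 1 ≤ s → i + 1 < (st c s).length := by
      intro s hs
      obtain ⟨r, rfl⟩ : ∃ r, s = r + 1 := ⟨s - 1, by omega⟩
      rw [sg9_length]
      have := sg9_idx_ge hS (s := r) (by omega)
      omega
    have hidx : ∀ s, max (S + 1) B ≤ s → i + 1 ≤ idx c s (st c s) := by
      intro s hs
      have hs1 : S + 1 ≤ s := (le_max_left _ _).trans hs
      have hs2 : B ≤ s := (le_max_right _ _).trans hs
      have hsS : S ≤ s := by omega
      rcases Nat.lt_or_eq_of_le (sg9_idx_ge hS hsS) with h1 | h1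
      · exact h1
      · exfalso
        have hl' : (st c s)[i]? = some l := by rw [sg9_getElem hS hsS le_rfl, hl]
        have hev : ev c s (st c s) i = true := by
          have h2 : idx c s (st c s) = (List.range (st c s).length).findIdx (ev c s (st c s)) := by
            have := hlen s hs1
            unfold idx at h1 ⊢
            omega
          have h3 : (List.range (st c s).length).findIdx (ev c s (st c s)) <
              (List.range (st c s).length).length := by
            rw [← h2, ← h1, List.length_range]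
            have := hlen s hs1
            omega
          have h4 := List.findIdx_getElem (w := h3)
          rw [List.getElem_range, ← h2, ← h1] at h4
          exact h4
        unfold ev at hev
        rw [hl'] at hev
        simp only [hB s hs2, Bool.or_false, Bool.and_eq_true] at hev
        obtain ⟨l1, e1, e2, _⟩ := sg9_at c s
        rw [← h1] at e1 e2
        rw [hl'] at e1
        have e3 : l = l1 := Option.some.inj e1
        subst e3
        rw [sg9_getElem hS (by omega : S ≤ s + 1) le_rfl, hl] at e2
        have e4 : l = upd c s i (st c s) l := Option.some.inj e2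
        have e5 : (upd c s i (st c s) l).2.2.isSome = true := by
          unfold upd
          have h6 : ¬ (l.2.2.isSome = true) := by
            have := hev.1
            simpa using this
          rw [if_neg h6]
          obtain ⟨L, hL⟩ := Option.isSome_iff_exists.1 hev.2
          rw [hL]
          rfl
        rw [← e4] at e5
        have h7 := hev.1
        rw [Option.isNone_iff_eq_none] at h7
        rw [h7] at e5
        exact absurd e5 (by simp)
    obtain ⟨S', hS'1, hS'2⟩ := sg9_const c (i + 1) (max (S + 1) B)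
      (fun s hs => ⟨hlen s ((le_max_left _ _).trans hs), hidx s hs⟩)
    have hSS' : S ≤ S' := by
      have := (le_max_left (S + 1) B).trans hS'1
      omega
    refine ⟨S', fun s hs => ⟨hlen s (((le_max_left _ _).trans hS'1).trans hs), ?_⟩⟩
    rw [List.take_add_one, List.take_add_one (l := st c S'), hS'2 s hs,
      ((sg9_mono hS hSS') s hs).2]

end Pool.Agent.Lib.MP_53c40f_lc
end

section

/-!
# Final values of the process
-/

set_option autoImplicit false

namespace Pool.Agent.Lib.MP_53c40f_lc

open Classical in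
/-- a stage from which on the levels `0, …, i` do not change -/
noncomputable def stabT (c i : ℕ) : ℕ := Nat.find (exists_stab c i)

/-- the final level number `i` -/
noncomputable def fl (c i : ℕ) : Level := ((st c (stabT c i))[i]?).getD (0, 0, none)

/-- value of the final level `i` -/
noncomputable def H (c i : ℕ) : ℕ := (fl c i).1

/-- tree of the final level `i` -/
noncomputable def tree (c i : ℕ) : ℕ := (fl c i).2.1

/-- the requirement of the final level `i` has acted -/
noncomputable def acted (c i : ℕ) : Bool := (fl c i).2.2.isSome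

/-- position of the final level `i` -/
noncomputable def beta (c : ℕ) : ℕ → ℕ
  | 0 => 0
  | i + 1 => beta c i + (vals (fl c i)).length

/-- final value at position `j` -/
noncomputable def hf (c j : ℕ) : ℕ := h c (stabT c j) j

/-- the first `j` final values -/
noncomputable def hist (c j : ℕ) : List ℕ := (List.range j).map (hf c)

/-- position and value of level `n` at stage `s` -/
def lev (c s n : ℕ) : Option (ℕ × ℕ) := ((st c s)[n]?).map (fun l => (pos (st c s) n, l.1))

/-- at stage `s` level `n` has position `v`, and position and value are the same at stage `s'` if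
`s ≤ s'` -/
def stb (c n s v s' : ℕ) : Bool :=
  decide (s' < s ∨ (lev c s' n = lev c s n ∧ (lev c s n).map Prod.fst = some v))

/-- the entries of a state after one step -/
theorem step_get (c s : ℕ) (S : State) (hS : S ≠ []) :
    ∃ l, S[idx c s S]? = some l ∧ (step c s S).length = idx c s S + 2 ∧
      (step c s S).take (idx c s S) = S.take (idx c s S) ∧
      (step c s S)[idx c s S]? = some (upd c s (idx c s S) S l) ∧
      (step c s S)[idx c s S + 1]? =
        some (c + s + 1, child (upd c s (idx c s S) S l), none) := by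
  have hlen : 0 < S.length := List.length_pos_of_ne_nil hS
  have hi : idx c s S < S.length := by
    unfold idx
    have := Nat.min_le_right ((List.range S.length).findIdx (ev c s S)) (S.length - 1)
    omega
  obtain ⟨l, hl⟩ : ∃ l, S[idx c s S]? = some l := ⟨S[idx c s S], List.getElem?_eq_getElem hi⟩
  have hst : step c s S = S.take (idx c s S) ++
      [upd c s (idx c s S) S l, (c + s + 1, child (upd c s (idx c s S) S l), none)] := by
    unfold step
    rw [hl]
  have htl : (S.take (idx c s S)).length = idx c s S := by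
    rw [List.length_take]
    omega
  refine ⟨l, hl, ?_, ?_, ?_, ?_⟩
  · rw [hst, List.length_append, htl]
    simp
  · rw [hst, List.take_append_of_le_length (by rw [htl]), List.take_take, min_self]
  · rw [hst, List.getElem?_append_right (by rw [htl]), htl]
    simp
  · rw [hst, List.getElem?_append_right (by rw [htl]; omega), htl]
    simp

theorem upd_fst (c s i : ℕ) (S : State) (l : Level) : (upd c s i S l).1 = l.1 := by
  unfold upd
  split
  · rfl
  · split <;> rfl

theorem upd_snd_fst (c s i : ℕ) (S : State) (l : Level) : (upd c s i S l).2.1 = l.2.1 := by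
  unfold upd
  split
  · rfl
  · split <;> rfl

/-- the value of a level determines the stage of its creation; since then the levels before it
have not changed -/
theorem creation (c s : ℕ) : ∀ j l, 1 ≤ j → (st c s)[j]? = some l →
    ∃ s0, l.1 = c + s0 + 1 ∧ s0 + 1 ≤ s ∧ ∀ s', s0 + 1 ≤ s' → s' ≤ s →
      (st c s').take j = (st c s).take j ∧
        ∃ l', (st c s')[j]? = some l' ∧ l'.1 = l.1 ∧ l'.2.1 = l.2.1 := by
  induction s with
  | zero =>
    intro j l hj hl
    have : (st c 0)[j]? = none := by
      rw [List.getElem?_eq_none_iff]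
      simp [st]
      exact hj
    rw [this] at hl
    exact absurd hl (by simp)
  | succ s ih =>
    intro j l hj hl
    obtain ⟨l0, h0, hlen, htake, hi, hi1⟩ := step_get c s (st c s) (st_ne c s)
    set i0 := idx c s (st c s) with hi0
    have hst : st c (s + 1) = step c s (st c s) := rfl
    rw [← hst] at hlen htake hi hi1
    have hjlt : j < i0 + 2 := by
      rw [← hlen]
      by_contra hcon
      rw [List.getElem?_eq_none_iff.2 (by omega)] at hl
      exact absurd hl (by simp)
    have htj : ∀ k, k ≤ i0 → (st c (s + 1)).take k = (st c s).take k := by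
      intro k hk
      have h1 := congrArg (List.take k) htake
      rwa [List.take_take, List.take_take, min_eq_left hk] at h1
    rcases lt_trichotomy j i0 with h | h | h
    · have hget : (st c s)[j]? = some l := by
        have h1 := htj i0 le_rfl
        have h2 : ((st c (s + 1)).take i0)[j]? = ((st c s).take i0)[j]? := by rw [h1]
        rw [List.getElem?_take_of_lt h, List.getElem?_take_of_lt h] at h2
        rw [← h2]
        exact hl
      obtain ⟨s0, hv, hle, hall⟩ := ih j l hj hget
      refine ⟨s0, hv, by omega, ?_⟩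
      intro s' h1 h2
      rcases Nat.lt_or_ge s s' with h3 | h3
      · have : s' = s + 1 := by omega
        subst this
        exact ⟨rfl, l, hl, rfl, rfl⟩
      · obtain ⟨ha, hb⟩ := hall s' h1 h3
        exact ⟨by rw [ha, htj j h.le], hb⟩
    · rw [h] at hl hj ⊢
      obtain ⟨s0, hv, hle, hall⟩ := ih i0 l0 hj h0
      have hl' : l = upd c s i0 (st c s) l0 := by
        have h1 := hl
        rw [hi] at h1
        exact (Option.some.inj h1).symm
      refine ⟨s0, by rw [hl', upd_fst]; exact hv, by omega, ?_⟩
      intro s' h1 h2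
      rcases Nat.lt_or_ge s s' with h3 | h3
      · have : s' = s + 1 := by omega
        subst this
        exact ⟨rfl, l, hl, rfl, rfl⟩
      · obtain ⟨ha, l', hb, hc, hd⟩ := hall s' h1 h3
        refine ⟨by rw [ha, htj _ le_rfl], l', hb, ?_, ?_⟩
        · rw [hc, hl', upd_fst]
        · rw [hd, hl', upd_snd_fst]
    · have hj' : j = i0 + 1 := by omega
      subst hj'
      have hl' : l = (c + s + 1, child (upd c s i0 (st c s) l0), none) := by
        have h1 := hl
        rw [hi1] at h1
        exact (Option.some.inj h1).symm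
      refine ⟨s, by rw [hl'], le_rfl, ?_⟩
      intro s' h1 h2
      have : s' = s + 1 := by omega
      subst this
      exact ⟨rfl, l, hl, rfl, rfl⟩

/-- from stage `stabT c i` on the levels `0, …, i` are the final ones -/
theorem fl_spec (c i : ℕ) : ∀ s, stabT c i ≤ s → ∀ j, j ≤ i → (st c s)[j]? = some (fl c j) := by
  classical
  have hT : ∀ k, Stab c k (stabT c k) := fun k => Nat.find_spec (exists_stab c k)
  intro s hs j hj
  have h1 := (hT i s hs).2
  have h2 := (hT i (max s (stabT c j)) (hs.trans (le_max_left _ _))).2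
  have h3 := (hT j (max s (stabT c j)) (le_max_right _ _)).2
  have h4 := (hT j (stabT c j) le_rfl).1
  have h5 : (st c s)[j]? = (st c (max s (stabT c j)))[j]? := by
    have h6 : ((st c s).take (i + 1))[j]? = ((st c (max s (stabT c j))).take (i + 1))[j]? := by
      rw [h1, h2]
    rwa [List.getElem?_take_of_lt (by omega), List.getElem?_take_of_lt (by omega)] at h6
  have h7 : (st c (max s (stabT c j)))[j]? = (st c (stabT c j))[j]? := by
    have h6 : ((st c (max s (stabT c j))).take (j + 1))[j]? = ((st c (stabT c j)).take (j + 1))[j]? := by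
      rw [h3]
    rwa [List.getElem?_take_of_lt (by omega), List.getElem?_take_of_lt (by omega)] at h6
  rw [h5, h7]
  unfold fl
  rw [List.getElem?_eq_getElem h4]
  rfl

theorem stab_from_aux (c i s : ℕ) (hs : H c (i + 1) ≤ c + s) :
    (∀ j, j ≤ i → (st c s)[j]? = some (fl c j)) ∧
      ∃ l, (st c s)[i + 1]? = some l ∧ l.1 = H c (i + 1) ∧ l.2.1 = tree c (i + 1) := by
  have hT := fl_spec c (i + 1) (max (stabT c (i + 1)) s) (le_max_left _ _)
  obtain ⟨s0, hv, hle, hall⟩ := creation c (max (stabT c (i + 1)) s) (i + 1) (fl c (i + 1))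
    (by omega) (hT (i + 1) le_rfl)
  have hH : H c (i + 1) = c + s0 + 1 := hv
  obtain ⟨ha, l', hb, hc, hd⟩ := hall s (by omega) (le_max_right _ _)
  refine ⟨?_, l', hb, hc, hd⟩
  intro j hj
  have h1 : ((st c s).take (i + 1))[j]? =
      ((st c (max (stabT c (i + 1)) s)).take (i + 1))[j]? := by rw [ha]
  rw [List.getElem?_take_of_lt (by omega), List.getElem?_take_of_lt (by omega)] at h1
  rw [h1]
  exact hT j (by omega)

/-- since the creation of the final level `i + 1`, the levels `0, …, i + 1` have kept their values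
and trees, and the levels `0, …, i` have not changed at all -/
theorem stab_from (c i s : ℕ) (hs : H c (i + 1) ≤ c + s) :
    Stab c i s ∧ (∀ j, j ≤ i → (st c s)[j]? = some (fl c j)) ∧
      ∃ l, (st c s)[i + 1]? = some l ∧ l.1 = H c (i + 1) ∧ l.2.1 = tree c (i + 1) := by
  obtain ⟨h1, h2⟩ := stab_from_aux c i s hs
  refine ⟨?_, h1, h2⟩
  intro s' hs'
  obtain ⟨h3, l, h4, _, _⟩ := stab_from_aux c i s' (by omega)
  constructor
  · by_contra hcon
    rw [List.getElem?_eq_none_iff.2 (by omega)] at h4
    exact absurd h4 (by simp)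
  · apply List.ext_getElem?
    intro j
    by_cases hj : j < i + 1
    · rw [List.getElem?_take_of_lt hj, List.getElem?_take_of_lt hj, h3 j (by omega),
        h1 j (by omega)]
    · rw [List.getElem?_take, List.getElem?_take, if_neg hj, if_neg hj]

/-- nothing happens at the levels `0, …, i` after the creation of the final level `i + 1` -/
theorem no_event (c i s : ℕ) (hs : H c (i + 1) ≤ c + s) : ∀ j, j ≤ i → ev c s (st c s) j = false := by
  intro j hj
  by_contra hcon
  rw [Bool.not_eq_false] at hcon
  obtain ⟨h3, l, h4, h5, _⟩ := stab_from_aux c i s hs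
  have hlen : i + 1 < (st c s).length := by
    by_contra hcon
    rw [List.getElem?_eq_none_iff.2 (by omega)] at h4
    exact absurd h4 (by simp)
  have hidx : idx c s (st c s) ≤ j := by
    unfold idx
    refine (min_le_left _ _).trans ?_
    by_contra hlt
    have h6 : j < List.findIdx (ev c s (st c s)) (List.range (st c s).length) := by omega
    have h7 := List.not_of_lt_findIdx h6
    simp only [List.getElem_range] at h7
    rw [hcon] at h7
    exact absurd h7 (by simp)
  obtain ⟨l0, h0, hlen', htake, hi, hi1⟩ := step_get c s (st c s) (st_ne c s)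
  obtain ⟨_, l2, h6, h7, _⟩ := stab_from_aux c i (s + 1) (by omega)
  have hst : st c (s + 1) = step c s (st c s) := rfl
  rw [← hst] at hlen' hi1
  have hlt : i + 1 < (st c (s + 1)).length := by
    by_contra hcon
    rw [List.getElem?_eq_none_iff.2 (by omega)] at h6
    exact absurd h6 (by simp)
  have hii : idx c s (st c s) = i := by omega
  rw [hii] at hi1
  rw [hi1] at h6
  have h8 : l2.1 = c + s + 1 := by rw [← Option.some.inj h6]
  omega

end Pool.Agent.Lib.MP_53c40f_lc
end

section

/-!
# The process is primitive recursive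
-/

set_option autoImplicit false

namespace Pool.Agent.Lib.MP_53c40f_lc

section sg7

variable {α : Type} [Primcodable α]

theorem sg7_ex {R : α → ℕ → Prop} (hR : PrimrecPred fun p : α × ℕ => R p.1 p.2) {f : α → ℕ}
    (hf : Primrec f) : PrimrecPred fun a => ∃ x < f a, R a x := by
  have h : PrimrecRel fun (x : ℕ) (a : α) => R a x := hR.comp (Primrec.snd.pair Primrec.fst)
  have h2 : PrimrecRel fun (n : List ℕ) (a : α) => ∃ x ∈ n, R a x := PrimrecRel.exists_mem_list h
  refine (PrimrecPred.comp h2 ((Primrec.list_range.comp hf).pair Primrec.id)).of_eq fun a => ?_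
  simp

theorem sg7_eq_true {f : α → Bool} (hf : Primrec f) : PrimrecPred fun a => f a = true :=
  Primrec.eq.comp hf (Primrec.const true)

theorem sg7_vals : Primrec vals :=
  Primrec.list_cons.comp Primrec.fst
    (Primrec.option_getD.comp (Primrec.snd.comp Primrec.snd) (Primrec.const []))

theorem sg7_flat : Primrec flat :=
  Primrec.list_flatMap Primrec.id (sg7_vals.comp Primrec.snd).to₂

theorem sg7_hv {c s j : α → ℕ} {S : α → State} (hc : Primrec c) (hs : Primrec s)
    (hS : Primrec S) (hj : Primrec j) : Primrec fun a => hv (c a) (s a) (S a) (j a) := by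
  have h1 : Primrec fun a => ((flat (S a))[j a]?).getD (c a + s a) :=
    Primrec.option_getD.comp (Primrec.list_getElem?.comp (sg7_flat.comp hS) hj)
      (Primrec.nat_add.comp hc hs)
  refine h1.of_eq fun a => ?_
  unfold hv
  rw [List.getD_eq_getElem?_getD]

theorem sg7_hl {c s j : α → ℕ} {S : α → State} (hc : Primrec c) (hs : Primrec s)
    (hS : Primrec S) (hj : Primrec j) : Primrec fun a => hl (c a) (s a) (S a) (j a) :=
  Primrec.list_map (Primrec.list_range.comp hj)
    (sg7_hv (hc.comp Primrec.fst) (hs.comp Primrec.fst) (hS.comp Primrec.fst) Primrec.snd).to₂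

theorem sg7_args {c n v : α → ℕ} {o : α → List ℕ} (hc : Primrec c) (ho : Primrec o)
    (hn : Primrec n) (hv : Primrec v) : Primrec fun a => args (c a) (o a) (n a) (v a) :=
  Primrec.encode.comp (hc.pair (ho.pair (hn.pair hv)))

theorem sg7_haltN {s e x : α → ℕ} (hs : Primrec s) (he : Primrec e) (hx : Primrec x) :
    Primrec fun a => haltN (s a) (e a) (x a) := primrec_haltN.comp (hs.pair (he.pair hx))

theorem sg7_actTest {c s i L : α → ℕ} {S : α → State} (hc : Primrec c) (hs : Primrec s)
    (hi : Primrec i) (hS : Primrec S) (hL : Primrec L) :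
    Primrec fun a => actTest (c a) (s a) (i a) (S a) (L a) := by
  refine PrimrecPred.decide ?_
  refine sg7_ex ?_ (Primrec.succ.comp hL)
  refine sg7_ex (α := α × ℕ) ?_ (Primrec.succ.comp (hL.comp Primrec.fst))
  apply sg7_eq_true
  have f1 : Primrec fun p : (α × ℕ) × ℕ => p.1.1 := Primrec.fst.comp Primrec.fst
  have f2 : Primrec fun p : (α × ℕ) × ℕ => p.1.2 := Primrec.snd.comp Primrec.fst
  exact sg7_haltN (hs.comp f1) (hi.comp f1)
    (sg7_args (hc.comp f1) (sg7_hl (hc.comp f1) (hs.comp f1) (hS.comp f1) f2) (hi.comp f1)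
      Primrec.snd)

theorem sg7_find {β : Type} [Primcodable β] {l : α → List β} {P : α → β → Bool} (hl : Primrec l)
    (hP : Primrec₂ P) : Primrec fun a => (l a).find? (P a) := by
  have h1 : Primrec₂ fun (a : α) (b : β) => cond (P a b) (some b) none :=
    Primrec.cond hP (Primrec.option_some.comp Primrec.snd) (Primrec.const none)
  refine (Primrec.list_head?.comp (Primrec.listFilterMap hl h1)).of_eq fun a => ?_
  induction l a with
  | nil => rfl
  | cons b t ih =>
    rw [List.filterMap_cons, List.find?_cons]
    cases hb : P a b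
    · simpa [hb] using ih
    · simp

theorem sg7_actL {c s i θ : α → ℕ} {S : α → State} (hc : Primrec c) (hs : Primrec s)
    (hi : Primrec i) (hS : Primrec S) (hθ : Primrec θ) :
    Primrec fun a => actL (c a) (s a) (i a) (S a) (θ a) :=
  sg7_find (Primrec.list_range.comp (Primrec.succ.comp hθ))
    (sg7_actTest (hc.comp Primrec.fst) (hs.comp Primrec.fst) (hi.comp Primrec.fst)
      (hS.comp Primrec.fst) Primrec.snd).to₂

theorem sg7_newTest {s i H : α → ℕ} (hs : Primrec s) (hi : Primrec i) (hH : Primrec H) :
    Primrec fun a => newTest (s a) (i a) (H a) := by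
  refine PrimrecPred.decide ?_
  refine sg7_ex ?_ (Primrec.succ.comp hi)
  refine sg7_ex (α := α × ℕ) ?_ (Primrec.succ.comp (hH.comp Primrec.fst))
  have f1 : Primrec fun p : (α × ℕ) × ℕ => p.1.1 := Primrec.fst.comp Primrec.fst
  have f2 : Primrec fun p : (α × ℕ) × ℕ => p.1.2 := Primrec.snd.comp Primrec.fst
  refine PrimrecPred.and ?_ ?_
  · exact sg7_eq_true (sg7_haltN (Primrec.succ.comp (hs.comp f1)) f2 Primrec.snd)
  · exact Primrec.eq.comp (sg7_haltN (hs.comp f1) f2 Primrec.snd) (Primrec.const false)

theorem sg7_th {t : α → ℕ} (ht : Primrec t) : Primrec fun a => th (t a) :=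
  Primrec.fst.comp (Primrec.unpair.comp ht)

theorem sg7_tl {t : α → ℕ} (ht : Primrec t) : Primrec fun a => tl (t a) :=
  Primrec.fst.comp (Primrec.unpair.comp (Primrec.snd.comp (Primrec.unpair.comp ht)))

theorem sg7_tr {t : α → ℕ} (ht : Primrec t) : Primrec fun a => tr (t a) :=
  Primrec.snd.comp (Primrec.unpair.comp (Primrec.snd.comp (Primrec.unpair.comp ht)))

theorem sg7_isNone {β : Type} [Primcodable β] : Primrec (@Option.isNone β) :=
  (Primrec.option_casesOn Primrec.id (Primrec.const true)
    (Primrec.const false).to₂).of_eq fun o => by cases o <;> rfl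

theorem sg7_ev {c s i : α → ℕ} {S : α → State} (hc : Primrec c) (hs : Primrec s)
    (hS : Primrec S) (hi : Primrec i) : Primrec fun a => ev (c a) (s a) (S a) (i a) := by
  have g1 : Primrec₂ fun (a : α) (l : Level) =>
      ((l.2.2.isNone && (actL (c a) (s a) (i a) (S a) (th l.2.1)).isSome) ||
        newTest (s a) (i a) l.1) := by
    have f1 : Primrec fun p : α × Level => p.1 := Primrec.fst
    have fl : Primrec fun p : α × Level => p.2 := Primrec.snd
    refine Primrec.or.comp (Primrec.and.comp ?_ ?_) ?_
    · exact sg7_isNone.comp (Primrec.snd.comp (Primrec.snd.comp fl))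
    · exact Primrec.option_isSome.comp (sg7_actL (hc.comp f1) (hs.comp f1) (hi.comp f1)
        (hS.comp f1) (sg7_th (Primrec.fst.comp (Primrec.snd.comp fl))))
    · exact sg7_newTest (hs.comp f1) (hi.comp f1) (Primrec.fst.comp fl)
  refine (Primrec.option_casesOn (Primrec.list_getElem?.comp hS hi) (Primrec.const false)
    g1).of_eq fun a => ?_
  unfold ev
  cases h : (S a)[i a]? <;> simp

theorem sg7_idx {c s : α → ℕ} {S : α → State} (hc : Primrec c) (hs : Primrec s)
    (hS : Primrec S) : Primrec fun a => idx (c a) (s a) (S a) := by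
  have hlen : Primrec fun a => (S a).length := Primrec.list_length.comp hS
  refine Primrec.nat_min.comp (Primrec.list_findIdx (Primrec.list_range.comp hlen) ?_)
    (Primrec.nat_sub.comp hlen (Primrec.const 1))
  exact (sg7_ev (hc.comp Primrec.fst) (hs.comp Primrec.fst) (hS.comp Primrec.fst)
    Primrec.snd).to₂

theorem sg7_pos {i : α → ℕ} {S : α → State} (hS : Primrec S) (hi : Primrec i) :
    Primrec fun a => pos (S a) (i a) :=
  Primrec.list_length.comp (sg7_flat.comp (Primrec.list_take.comp hi hS))

theorem sg7_drop {β : Type} [Primcodable β] {n : α → ℕ} {l : α → List β} (hn : Primrec n)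
    (hl : Primrec l) : Primrec fun a => (l a).drop (n a) := Primrec.list_drop.comp hn hl

theorem sg7_upd {c s i : α → ℕ} {S : α → State} {l : α → Level} (hc : Primrec c)
    (hs : Primrec s) (hi : Primrec i) (hS : Primrec S) (hl' : Primrec l) :
    Primrec fun a => upd (c a) (s a) (i a) (S a) (l a) := by
  have g1 : Primrec₂ fun (a : α) (L : ℕ) => (((l a).1, (l a).2.1,
      some ((hl (c a) (s a) (S a) (max L (pos (S a) (i a)) + 1)).drop (pos (S a) (i a) + 1))) :
        Level) := by
    have f1 : Primrec fun p : α × ℕ => p.1 := Primrec.fst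
    have hp : Primrec fun p : α × ℕ => pos (S p.1) (i p.1) := sg7_pos (hS.comp f1) (hi.comp f1)
    have hll : Primrec fun p : α × ℕ => l p.1 := hl'.comp f1
    refine (Primrec.fst.comp hll).pair ((Primrec.fst.comp (Primrec.snd.comp hll)).pair
      (Primrec.option_some.comp (sg7_drop (Primrec.succ.comp hp)
        (sg7_hl (hc.comp f1) (hs.comp f1) (hS.comp f1)
          (Primrec.succ.comp (Primrec.nat_max.comp Primrec.snd hp))))))
  have g2 : Primrec fun a => (Option.casesOn (actL (c a) (s a) (i a) (S a) (th (l a).2.1)) (l a)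
      (fun L => (((l a).1, (l a).2.1,
      some ((hl (c a) (s a) (S a) (max L (pos (S a) (i a)) + 1)).drop (pos (S a) (i a) + 1))) :
        Level)) : Level) :=
    Primrec.option_casesOn (sg7_actL hc hs hi hS (sg7_th (Primrec.fst.comp (Primrec.snd.comp hl'))))
      hl' g1
  refine (Primrec.cond (Primrec.option_isSome.comp (Primrec.snd.comp (Primrec.snd.comp hl')))
    hl' g2).of_eq fun a => ?_
  unfold upd
  cases h1 : (l a).2.2.isSome
  · simp only [cond_false, Bool.false_eq_true, if_false]
    cases actL (c a) (s a) (i a) (S a) (th (l a).2.1) <;> rfl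
  · simp

theorem sg7_child {l : α → Level} (hl' : Primrec l) : Primrec fun a => child (l a) := by
  refine (Primrec.cond (Primrec.option_isSome.comp (Primrec.snd.comp (Primrec.snd.comp hl')))
    (sg7_tr (Primrec.fst.comp (Primrec.snd.comp hl')))
    (sg7_tl (Primrec.fst.comp (Primrec.snd.comp hl')))).of_eq fun a => ?_
  unfold child
  cases (l a).2.2.isSome <;> simp

theorem sg7_step {c s : α → ℕ} {S : α → State} (hc : Primrec c) (hs : Primrec s)
    (hS : Primrec S) : Primrec fun a => step (c a) (s a) (S a) := by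
  have hi := sg7_idx hc hs hS
  have g1 : Primrec₂ fun (a : α) (l : Level) =>
      ((S a).take (idx (c a) (s a) (S a)) ++ [upd (c a) (s a) (idx (c a) (s a) (S a)) (S a) l,
        (c a + s a + 1, child (upd (c a) (s a) (idx (c a) (s a) (S a)) (S a) l), none)] :
        State) := by
    have f1 : Primrec fun p : α × Level => p.1 := Primrec.fst
    have hu : Primrec fun p : α × Level =>
        upd (c p.1) (s p.1) (idx (c p.1) (s p.1) (S p.1)) (S p.1) p.2 :=
      sg7_upd (hc.comp f1) (hs.comp f1) (hi.comp f1) (hS.comp f1) Primrec.snd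
    refine Primrec.list_append.comp (Primrec.list_take.comp (hi.comp f1) (hS.comp f1))
      (Primrec.list_cons.comp hu (Primrec.list_cons.comp ?_ (Primrec.const [])))
    exact (Primrec.succ.comp (Primrec.nat_add.comp (hc.comp f1) (hs.comp f1))).pair
      ((sg7_child hu).pair (Primrec.const none))
  refine (Primrec.option_casesOn (Primrec.list_getElem?.comp hS hi) hS g1).of_eq fun a => ?_
  unfold step
  cases (S a)[idx (c a) (s a) (S a)]? <;> rfl

end sg7

theorem primrec_step : Primrec (fun a : ℕ × ℕ × State => step a.1 a.2.1 a.2.2) :=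
  sg7_step Primrec.fst (Primrec.fst.comp Primrec.snd) (Primrec.snd.comp Primrec.snd)

theorem primrec_st : Primrec (fun a : ℕ × ℕ => st a.1 a.2) := by
  have h0 : Primrec fun a : ℕ × ℕ => ([(a.1, a.1.unpair.2, none)] : State) :=
    Primrec.list_cons.comp (Primrec.fst.pair ((Primrec.snd.comp
      (Primrec.unpair.comp Primrec.fst)).pair (Primrec.const none))) (Primrec.const [])
  have h1 : Primrec₂ fun (a : ℕ × ℕ) (p : ℕ × State) => step a.1 p.1 p.2 :=
    sg7_step (Primrec.fst.comp Primrec.fst) (Primrec.fst.comp Primrec.snd)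
      (Primrec.snd.comp Primrec.snd)
  refine (Primrec.nat_rec' Primrec.snd h0 h1).of_eq fun a => ?_
  obtain ⟨c, s⟩ := a
  show Nat.rec _ _ s = st c s
  induction s with
  | zero => rfl
  | succ s ih =>
    show step c s (Nat.rec _ _ s) = step c s (st c s)
    rw [← ih]

theorem primrec_h : Primrec (fun a : ℕ × ℕ × ℕ => h a.1 a.2.1 a.2.2) :=
  sg7_hv Primrec.fst (Primrec.fst.comp Primrec.snd)
    (primrec_st.comp (Primrec.fst.pair (Primrec.fst.comp Primrec.snd)))
    (Primrec.snd.comp Primrec.snd)

end Pool.Agent.Lib.MP_53c40f_lc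
end

section

set_option autoImplicit false

namespace Pool.Agent.Lib.MP_53c40f_lc

open Nat.Partrec (Code)

/-- every r.e. predicate has an index -/
theorem re_index {α : Type} [Primcodable α] {p : α → Prop} (hp : REPred p) : ∃ e, ∀ a, p a ↔ halt e (Encodable.encode a) := by
  obtain ⟨c, hc⟩ := Code.exists_code.1 hp
  refine ⟨Encodable.encode c, fun a => ?_⟩
  unfold halt haltN
  rw [Denumerable.ofNat_encode]
  have h1 : (∃ s, (Code.evaln s c (Encodable.encode a)).isSome = true) ↔
      ∃ y, y ∈ Code.eval c (Encodable.encode a) := by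
    constructor
    · rintro ⟨s, hs⟩
      obtain ⟨y, hy⟩ := Option.isSome_iff_exists.1 hs
      exact ⟨y, Code.evaln_complete.2 ⟨s, hy⟩⟩
    · rintro ⟨y, hy⟩
      obtain ⟨s, hs⟩ := Code.evaln_complete.1 hy
      exact ⟨s, Option.isSome_iff_exists.2 ⟨y, hs⟩⟩
  rw [h1, hc]
  simp [Encodable.encodek]

theorem re_halt : REPred (fun a : ℕ × ℕ => halt a.1 a.2) := by
  refine re_iff.2 ⟨fun a n => haltN n a.1 a.2, ?_, fun a => Iff.rfl⟩
  have h1 : Primrec (fun b : (ℕ × ℕ) × ℕ => ((b.2, b.1.1, b.1.2) : ℕ × ℕ × ℕ)) :=
    Primrec.snd.pair ((Primrec.fst.comp Primrec.fst).pair (Primrec.snd.comp Primrec.fst))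
  exact (primrec_haltN.comp h1).to_comp

/-- s-m-n: for every r.e. predicate `p` on `α` there is a computable function `z` with
`p a ↔ halt (z a).unpair.1 (z a).unpair.2` -/
theorem re_smn {α : Type} [Primcodable α] {p : α → Prop} (hp : REPred p) :
    ∃ z : α → ℕ, Computable z ∧ ∀ a, p a ↔ halt (z a).unpair.1 (z a).unpair.2 := by
  obtain ⟨e, he⟩ := re_index hp
  refine ⟨fun a => Nat.pair e (Encodable.encode a), ?_, fun a => ?_⟩
  · exact (Primrec₂.natPair.comp (Primrec.const e) Primrec.encode).to_comp
  · rw [Nat.unpair_pair]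
    exact he a

/-- a program that computes the value of `g` and then runs on it -/
theorem inner_program {g : ℕ →. ℕ} (hg : Nat.Partrec g) :
    ∃ e, ∀ x, ((∃ y, y ∈ g x) → halt e x) ∧ ∀ s, haltN s e x = true → ∃ y, y ∈ g x ∧ y < s := by
  obtain ⟨c, hc⟩ := Code.exists_code.1 hg
  refine ⟨Encodable.encode (Code.comp Code.zero c), fun x => ⟨?_, ?_⟩⟩
  · rintro ⟨y, hy⟩
    have h1 : (0 : ℕ) ∈ Code.eval (Code.comp Code.zero c) x := by
      have h3 : y ∈ Code.eval c x := by rw [hc]; exact hy
      exact Part.mem_bind h3 (Part.mem_some 0)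
    obtain ⟨s, hs⟩ := Code.evaln_complete.1 h1
    refine ⟨s, ?_⟩
    unfold haltN
    rw [Denumerable.ofNat_encode]
    exact Option.isSome_iff_exists.2 ⟨0, hs⟩
  · intro s hs
    unfold haltN at hs
    rw [Denumerable.ofNat_encode] at hs
    obtain ⟨z, hz⟩ := Option.isSome_iff_exists.1 hs
    cases s with
    | zero => simp [Code.evaln] at hz
    | succ k =>
      have hz' : z ∈ Code.evaln (k + 1) (Code.comp Code.zero c) x := hz
      rw [Code.evaln] at hz'
      simp only [Option.bind_eq_bind, Option.mem_def, Option.bind_eq_some_iff] at hz'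
      obtain ⟨-, -, y, hy, hy2⟩ := hz'
      refine ⟨y, ?_, ?_⟩
      · rw [← hc]
        exact Code.evaln_complete.2 ⟨k + 1, hy⟩
      · exact Code.evaln_bound (c := Code.zero) (x := z) hy2

/-- a program that dominates a given computable function -/
theorem dominate {f : ℕ → ℕ} (hf : Computable f) :
    ∃ e, ∀ x, halt e x ∧ ∀ s, haltN s e x = true → f x < s := by
  obtain ⟨e, he⟩ := inner_program (Partrec.nat_iff.1 hf)
  refine ⟨e, fun x => ⟨(he x).1 ⟨f x, Part.mem_some _⟩, fun s hs => ?_⟩⟩
  obtain ⟨y, hy, hys⟩ := (he x).2 s hs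
  have h1 : y = f x := Part.mem_some_iff.1 hy
  rwa [h1] at hys

/-- a program that searches for a witness -/
theorem search {D : ℕ → ℕ → Bool} (hD : Computable₂ D) :
    ∃ e, ∀ x, ((∃ y, D x y = true) → halt e x) ∧
      ∀ s, haltN s e x = true → ∃ y < s, D x y = true := by
  have h1 : Partrec (fun x => Nat.rfind (fun y => Part.some (D x y))) := Partrec.rfind hD.partrec₂
  obtain ⟨e, he⟩ := inner_program (Partrec.nat_iff.1 h1)
  refine ⟨e, fun x => ⟨?_, ?_⟩⟩
  · rintro ⟨y, hy⟩
    apply (he x).1
    have h2 : (Nat.rfind (fun y => Part.some (D x y))).Dom := by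
      refine Nat.rfind_dom.2 ⟨y, ?_, fun _ => trivial⟩
      rw [hy]
      exact Part.mem_some _
    exact ⟨_, Part.get_mem h2⟩
  · intro s hs
    obtain ⟨y, hy, hys⟩ := (he x).2 s hs
    refine ⟨y, hys, ?_⟩
    have h3 := Nat.rfind_spec hy
    exact (Part.mem_some_iff.1 h3).symm

end Pool.Agent.Lib.MP_53c40f_lc
end

section

/-!
# Choice of the thresholds
-/

set_option autoImplicit false

namespace Pool.Agent.Lib.MP_53c40f_lc

open Filter

/-- the nonprincipal ultrafilter -/
noncomputable abbrev UU : Filter ℕ := (Filter.hyperfilter ℕ : Filter ℕ)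

/-- the subtree reached at level `i` when the outcomes are `σ 0, σ 1, …` -/
def walk (σ : ℕ → Bool) (t : ℕ) : ℕ → ℕ
  | 0 => t
  | i + 1 => if σ i then tr (walk σ t i) else tl (walk σ t i)

/-- the embedding `F` of the remaining trees is correct at level `n`, for almost all fibres -/
def SelW (σ : ℕ → ℕ → ℕ → Bool) (n : ℕ) (F : ℕ → ℕ → ℕ) : Prop :=
  ∀ᶠ k in UU, ∀ x, walk (σ k (F k x)) (F k x) n = x

/-- the dichotomy at level `n` for the embedding `F` -/
def SelD (σ : ℕ → ℕ → ℕ → Bool) (n : ℕ) (F : ℕ → ℕ → ℕ) : Prop :=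
  (∃ m, ∀ᶠ k in UU, ∀ x, σ k (F k x) n = true ∧ th (walk (σ k (F k x)) (F k x) n) ≤ m) ∨
  (∀ m, ∀ᶠ k in UU, ∀ x, σ k (F k x) n = false ∧ m < th (walk (σ k (F k x)) (F k x) n))

theorem sel_step (σ : ℕ → ℕ → ℕ → Bool) (n : ℕ) (F : ℕ → ℕ → ℕ) (hF : SelW σ n F) :
    ∃ F' : ℕ → ℕ → ℕ, (∀ k x, ∃ x', F' k x = F k x') ∧ SelW σ (n + 1) F' ∧ SelD σ n F' := by
  classical
  by_cases hA : ∃ m, ∀ᶠ k in UU, ∀ s', ∃ θ s, θ ≤ m ∧
      σ k (F k (Nat.pair θ (Nat.pair s s'))) n = true
  · obtain ⟨m, hm⟩ := hA
    have h1 : ∀ k s', ∃ y : ℕ, (∃ θ s, θ ≤ m ∧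
        σ k (F k (Nat.pair θ (Nat.pair s s'))) n = true) →
        σ k (F k y) n = true ∧ th y ≤ m ∧ tr y = s' := by
      intro k s'
      by_cases h : ∃ θ s, θ ≤ m ∧ σ k (F k (Nat.pair θ (Nat.pair s s'))) n = true
      · obtain ⟨θ, s, h2, h3⟩ := h
        exact ⟨Nat.pair θ (Nat.pair s s'), fun _ => ⟨h3, by simpa [th] using h2,
          by simp [tr]⟩⟩
      · exact ⟨0, fun h' => absurd h' h⟩
    choose y hy using h1
    refine ⟨fun k x => F k (y k x), fun k x => ⟨_, rfl⟩, ?_, Or.inl ⟨m, ?_⟩⟩
    · filter_upwards [hF, hm] with k h2 h3 x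
      have h4 := hy k x (h3 x)
      rw [walk, h2, h4.1, if_pos rfl, h4.2.2]
    · filter_upwards [hF, hm] with k h2 h3 x
      have h4 := hy k x (h3 x)
      rw [h2]
      exact ⟨h4.1, h4.2.1⟩
  · push Not at hA
    let G : ℕ → ℕ → Prop := fun k m => ∃ s', ∀ θ s, θ ≤ m →
      σ k (F k (Nat.pair θ (Nat.pair s s'))) n = false
    have hG : ∀ m, ∀ᶠ k in UU, G k m := by
      intro m
      filter_upwards [hA m] with k h3
      obtain ⟨s', h3⟩ := h3
      exact ⟨s', fun θ s h => by simpa using h3 θ s h⟩
    let μ : ℕ → ℕ := fun k => Nat.findGreatest (G k) k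
    have hμ : ∀ᶠ k in UU, G k (μ k) := by
      filter_upwards [hG 0] with k hk
      exact Nat.findGreatest_spec (Nat.zero_le k) hk
    have hμ2 : ∀ m, ∀ᶠ k in UU, m < μ k := by
      intro m
      have h1 : ∀ᶠ k in UU, m + 1 ≤ k := by
        apply Filter.Eventually.filter_mono (Nat.hyperfilter_le_atTop)
        exact Filter.eventually_ge_atTop (m + 1)
      filter_upwards [hG (m + 1), h1] with k h2 h3
      exact Nat.le_findGreatest h3 h2
    have h1 : ∀ k, ∃ s', G k (μ k) → ∀ θ s, θ ≤ μ k →
        σ k (F k (Nat.pair θ (Nat.pair s s'))) n = false := by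
      intro k
      by_cases h : G k (μ k)
      · obtain ⟨s', hs⟩ := h
        exact ⟨s', fun _ => hs⟩
      · exact ⟨0, fun h' => absurd h' h⟩
    choose z hz using h1
    refine ⟨fun k x => F k (Nat.pair (μ k) (Nat.pair x (z k))), fun k x => ⟨_, rfl⟩, ?_,
      Or.inr fun m => ?_⟩
    · filter_upwards [hF, hμ] with k h2 h3 x
      have h4 := hz k h3 (μ k) x le_rfl
      rw [walk, h2, h4]
      simp [tl]
    · filter_upwards [hF, hμ, hμ2 m] with k h2 h3 h5 x
      have h4 := hz k h3 (μ k) x le_rfl
      rw [h2]
      exact ⟨h4, by simpa [th] using h5⟩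

/-- For every system of outcome functions `σ k T` (fibre `k`, tree `T`) there are trees `T k` such
that, for every level `i`, either the outcome is `true` and the threshold is bounded, or the outcome
is `false` and the threshold is infinite. -/
theorem selection (σ : ℕ → ℕ → ℕ → Bool) :
    ∃ T : ℕ → ℕ, ∀ i,
      (∃ m, ∀ᶠ k in UU, σ k (T k) i = true ∧ th (walk (σ k (T k)) (T k) i) ≤ m) ∨
      ((∀ᶠ k in UU, σ k (T k) i = false) ∧
        ∀ m, ∀ᶠ k in UU, m < th (walk (σ k (T k)) (T k) i)) := by
  choose F' h1 h2 h3 using sel_step σ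
  have h0 : SelW σ 0 (fun _ x => x) := Filter.Eventually.of_forall fun k x => rfl
  let Fs : (n : ℕ) → {F : ℕ → ℕ → ℕ // SelW σ n F} := fun n =>
    Nat.rec (motive := fun n => {F : ℕ → ℕ → ℕ // SelW σ n F}) ⟨fun _ x => x, h0⟩
      (fun n F => ⟨F' n F.1 F.2, h2 n F.1 F.2⟩) n
  have hD : ∀ n, SelD σ n (Fs (n + 1)).1 := fun n => h3 n (Fs n).1 (Fs n).2
  have hE : ∀ n N, n ≤ N → ∀ k x, ∃ x', (Fs N).1 k x = (Fs n).1 k x' := by
    intro n N hN
    induction N, hN using Nat.le_induction with
    | base => exact fun k x => ⟨x, rfl⟩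
    | succ N _ ih =>
      intro k x
      obtain ⟨x', hx'⟩ := h1 N (Fs N).1 (Fs N).2 k x
      obtain ⟨x'', hx''⟩ := ih k x'
      exact ⟨x'', hx'.trans hx''⟩
  refine ⟨fun k => (Fs k).1 k 0, fun i => ?_⟩
  have h4 : ∀ᶠ k in UU, i + 1 ≤ k := by
    apply Filter.Eventually.filter_mono (Nat.hyperfilter_le_atTop)
    exact Filter.eventually_ge_atTop (i + 1)
  rcases hD i with ⟨m, hm⟩ | hm
  · left
    refine ⟨m, ?_⟩
    filter_upwards [h4, hm] with k h5 h6
    obtain ⟨x, hx⟩ := hE (i + 1) k h5 k 0
    rw [hx]
    exact h6 x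
  · right
    refine ⟨?_, fun m => ?_⟩
    · filter_upwards [h4, hm 0] with k h5 h6
      obtain ⟨x, hx⟩ := hE (i + 1) k h5 k 0
      rw [hx]
      exact (h6 x).1
    · filter_upwards [h4, hm m] with k h5 h6
      obtain ⟨x, hx⟩ := hE (i + 1) k h5 k 0
      rw [hx]
      exact (h6 x).2

end Pool.Agent.Lib.MP_53c40f_lc
end

section

/-!
# Truth almost everywhere
-/

set_option autoImplicit false

namespace Pool.Agent.Lib.MP_53c40f_lc

open Filter

theorem uu_not {p : ℕ → Prop} : (¬ ∀ᶠ k in UU, p k) ↔ ∀ᶠ k in UU, ¬ p k :=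
  (Ultrafilter.eventually_not (f := Filter.hyperfilter ℕ)).symm

theorem uu_or {p q : ℕ → Prop} :
    (∀ᶠ k in UU, p k ∨ q k) ↔ (∀ᶠ k in UU, p k) ∨ ∀ᶠ k in UU, q k :=
  Ultrafilter.eventually_or

theorem uu_imp {p q : ℕ → Prop} :
    (∀ᶠ k in UU, p k → q k) ↔ ((∀ᶠ k in UU, p k) → ∀ᶠ k in UU, q k) :=
  Ultrafilter.eventually_imp

theorem uu_em (p : ℕ → Prop) : (∀ᶠ k in UU, p k) ∨ ∀ᶠ k in UU, ¬ p k :=
  Ultrafilter.em _ _

theorem uu_false : ¬ ∀ᶠ _k : ℕ in UU, False := by
  intro h
  exact (Filter.hyperfilter ℕ).neBot.ne (Filter.eventually_false_iff_eq_bot.mp h)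

theorem uu_const_iff {p : Prop} : (∀ᶠ _k : ℕ in UU, p) ↔ p := by
  by_cases h : p
  · simp [h]
  · simp only [h, iff_false]
    exact uu_false

theorem uu_exists {p : ℕ → Prop} (h : ∀ᶠ k in UU, p k) : ∃ k, p k := by
  by_contra hc
  push Not at hc
  exact uu_false (h.mono fun k hk => hc k hk)

theorem uu_ge (m : ℕ) : ∀ᶠ k in UU, m ≤ k := by
  have h : UU ≤ atTop := by
    rw [← Nat.cofinite_eq_atTop]
    exact Filter.hyperfilter_le_cofinite
  exact h (Filter.eventually_ge_atTop m)

/-- bounded sequences are constant almost everywhere -/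
theorem uu_const {f : ℕ → ℕ} {m : ℕ} (h : ∀ᶠ k in UU, f k ≤ m) :
    ∃ v ≤ m, ∀ᶠ k in UU, f k = v := by
  induction m with
  | zero => exact ⟨0, le_rfl, h.mono fun k hk => Nat.le_zero.mp hk⟩
  | succ m ih =>
    rcases uu_em (fun k => f k = m + 1) with h1 | h1
    · exact ⟨m + 1, le_rfl, h1⟩
    · obtain ⟨v, hv, hf⟩ := ih (by filter_upwards [h, h1] with k a b; omega)
      exact ⟨v, by omega, hf⟩

/-- sequences in a finite set are constant almost everywhere -/
theorem uu_fin {α : Type} {f : ℕ → α} {s : Set α} (hs : s.Finite) (h : ∀ᶠ k in UU, f k ∈ s) :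
    ∃ v ∈ s, ∀ᶠ k in UU, f k = v := by
  induction s, hs using Set.Finite.induction_on with
  | empty => exact absurd (h.mono fun _ hk => hk) uu_false
  | @insert a s ha hs ih =>
    rcases uu_em (fun k => f k = a) with h1 | h1
    · exact ⟨a, by simp, h1⟩
    · obtain ⟨v, hv, hf⟩ := ih (by
        filter_upwards [h, h1] with k x y
        exact (Set.mem_insert_iff.mp x).resolve_left y)
      exact ⟨v, Set.mem_insert_of_mem _ hv, hf⟩

end Pool.Agent.Lib.MP_53c40f_lc
end

section

/-!
# Generated families of sequences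
-/

set_option autoImplicit false

namespace Pool.Agent.Lib.MP_53c40f_lc

open Filter

/-- the sequences generated by the generators `G 0, G 1, …`: computable functions of a generator,
up to equality almost everywhere -/
def Ms (G : ℕ → ℕ → ℕ) (x : ℕ → ℕ) : Prop :=
  ∃ (n : ℕ) (f : ℕ → ℕ), Computable f ∧ ∀ᶠ k in UU, x k = f (G n k)

/-- `G n` is computable from `G (n + 1)`, every computable function of a generator is bounded by a
generator, and for every decidable relation `D` witnesses for arguments at most `G n` are bounded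
by a generated sequence -/
structure Gen (G : ℕ → ℕ → ℕ) : Prop where
  proj : ∀ n, ∃ f : ℕ → ℕ, Computable f ∧ ∀ᶠ k in UU, G n k = f (G (n + 1) k)
  dom : ∀ (n : ℕ) (f : ℕ → ℕ), Computable f → ∃ m, ∀ᶠ k in UU, f (G n k) ≤ G m k
  settle : ∀ (n : ℕ) (D : ℕ → ℕ → Bool), Computable₂ D → ∃ (m : ℕ) (g : ℕ → ℕ), Computable g ∧
    ∀ᶠ k in UU, ∀ x ≤ G n k, (∃ y, D x y = true) → ∃ y ≤ g (G m k), D x y = true

/-- sequences in a `Primcodable` type -/
def MsT (G : ℕ → ℕ → ℕ) {α : Type} [Primcodable α] (a : ℕ → α) : Prop :=
  Ms G (fun k => Encodable.encode (a k))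

variable {G : ℕ → ℕ → ℕ}

theorem Ms.congr {x y : ℕ → ℕ} (hx : Ms G x) (h : ∀ᶠ k in UU, x k = y k) : Ms G y := by
  obtain ⟨n, f, hf, hx⟩ := hx
  refine ⟨n, f, hf, ?_⟩
  filter_upwards [hx, h] with k h1 h2
  rw [← h2, h1]

theorem msT_nat {x : ℕ → ℕ} : MsT G x ↔ Ms G x := Iff.rfl

/-- bounded search -/
private def srch {α : Type} (E : α → ℕ → Bool) (a : α) (n : ℕ) : ℕ :=
  Nat.rec (motive := fun _ => ℕ) 0 (fun m ih => bif E a ih then ih else m + 1) n

private theorem srch_succ {α : Type} (E : α → ℕ → Bool) (a : α) (n : ℕ) :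
    srch E a (n + 1) = bif E a (srch E a n) then srch E a n else n + 1 := rfl

private theorem srch_spec {α : Type} {E : α → ℕ → Bool} {a : α} {n : ℕ}
    (h : ∃ z ≤ n, E a z = true) : E a (srch E a n) = true := by
  induction n with
  | zero =>
    obtain ⟨z, hz, h⟩ := h
    have : z = 0 := by omega
    rw [this] at h
    exact h
  | succ n ih =>
    rw [srch_succ]
    cases hE : E a (srch E a n) with
    | true => simpa using hE
    | false =>
      obtain ⟨z, hz, h⟩ := h
      have h1 : ¬ z ≤ n := by
        intro hzn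
        rw [ih ⟨z, hzn, h⟩] at hE
        exact absurd hE (by simp)
      have h2 : z = n + 1 := by omega
      rw [h2] at h
      simpa using h

private theorem srch_le {α : Type} (E : α → ℕ → Bool) (a : α) (n : ℕ) : srch E a n ≤ n := by
  induction n with
  | zero => exact le_rfl
  | succ n ih =>
    rw [srch_succ]
    cases E a (srch E a n) with
    | true => simpa using le_trans ih (Nat.le_succ n)
    | false => simp

private theorem srch_comp {α : Type} [Primcodable α] {E : α → ℕ → Bool} (hE : Computable₂ E) :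
    Computable₂ (srch E) := by
  have h1 : Computable₂ fun (q : α × ℕ) (r : ℕ × ℕ) => bif E q.1 r.2 then r.2 else r.1 + 1 :=
    Computable.cond (hE.comp (Computable.fst.comp Computable.fst)
        (Computable.snd.comp Computable.snd))
      (Computable.snd.comp Computable.snd)
      (Computable.succ.comp (Computable.fst.comp Computable.snd))
  exact Computable.nat_rec (Computable.snd (α := α) (β := ℕ)) (Computable.const 0) h1

private theorem proj_le (hG : Gen G) {n m : ℕ} (h : n ≤ m) :
    ∃ f : ℕ → ℕ, Computable f ∧ ∀ᶠ k in UU, G n k = f (G m k) := by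
  induction m, h using Nat.le_induction with
  | base => exact ⟨id, Computable.id, Filter.Eventually.of_forall fun k => rfl⟩
  | succ m hm ih =>
    obtain ⟨f, hf, h1⟩ := ih
    obtain ⟨g, hg, h2⟩ := hG.proj m
    refine ⟨fun x => f (g x), hf.comp hg, ?_⟩
    filter_upwards [h1, h2] with k a b
    rw [a, b]

section

variable {α β : Type} [Primcodable α] [Primcodable β]

theorem MsT.congr {a b : ℕ → α} (ha : MsT G a) (h : ∀ᶠ k in UU, a k = b k) : MsT G b := by
  refine Ms.congr ha ?_
  filter_upwards [h] with k hk
  rw [hk]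

theorem MsT.const (a : α) : MsT G (fun _ => a) :=
  ⟨0, fun _ => Encodable.encode a, Computable.const _, Filter.Eventually.of_forall fun _ => rfl⟩

theorem MsT.comp {a : ℕ → α} (ha : MsT G a) {f : α → β} (hf : Computable f) :
    MsT G (fun k => f (a k)) := by
  obtain ⟨n, g, hg, h⟩ := ha
  refine ⟨n, fun m => Option.casesOn (Encodable.decode (α := α) (g m)) 0
    fun a => Encodable.encode (f a), ?_, ?_⟩
  · have h1 : Computable₂ fun (_ : ℕ) (a : α) => Encodable.encode (f a) :=
      Computable.encode.comp (hf.comp Computable.snd)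
    exact Computable.option_casesOn (Computable.decode.comp hg) (Computable.const 0) h1
  · filter_upwards [h] with k hk
    rw [← hk, Encodable.encodek]

theorem MsT.prod (hG : Gen G) {a : ℕ → α} {b : ℕ → β} (ha : MsT G a) (hb : MsT G b) :
    MsT G (fun k => (a k, b k)) := by
  obtain ⟨n, f, hf, h1⟩ := ha
  obtain ⟨m, g, hg, h2⟩ := hb
  obtain ⟨p, hp, h3⟩ := proj_le hG (le_max_left n m)
  obtain ⟨q, hq, h4⟩ := proj_le hG (le_max_right n m)
  refine ⟨max n m, fun x => Nat.pair (f (p x)) (g (q x)), ?_, ?_⟩
  · exact Primrec₂.natPair.to_comp.comp (hf.comp hp) (hg.comp hq)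
  · filter_upwards [h1, h2, h3, h4] with k a1 a2 a3 a4
    rw [Encodable.encode_prod_val, a1, a2, a3, a4]

private theorem cons_comp {n : ℕ} :
    Computable fun p : ℕ × (Fin n → ℕ) => (Fin.cons p.1 p.2 : Fin (n + 1) → ℕ) := by
  apply Primrec.to_comp
  rw [Primrec.fin_curry]
  have h : ∀ i : Fin (n + 1), Primrec fun p : ℕ × (Fin n → ℕ) =>
      (Fin.cons p.1 p.2 : Fin (n + 1) → ℕ) i := by
    intro i
    refine Fin.cases ?_ (fun j => ?_) i
    · simpa using Primrec.fst
    · have h1 : Primrec fun p : ℕ × (Fin n → ℕ) => p.2 j :=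
        Primrec.fin_app.comp Primrec.snd (Primrec.const j)
      simpa using h1
  exact (Primrec.fin_curry₁.2 h).swap

/-- finitely many generated sequences form a generated sequence of tuples -/
theorem MsT.pi (hG : Gen G) {n : ℕ} {x : Fin n → ℕ → ℕ} (hx : ∀ i, Ms G (x i)) :
    MsT G (fun k => fun i => x i k) := by
  induction n with
  | zero =>
    have h0 : MsT G fun _ : ℕ => (fun i : Fin 0 => (0 : ℕ)) := MsT.const _
    exact h0.congr (Filter.Eventually.of_forall fun k => funext fun i => i.elim0)
  | succ n ih =>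
    have h1 : MsT G fun k => fun i : Fin n => x i.succ k := ih fun i => hx i.succ
    have h2 : MsT G (x 0) := msT_nat.2 (hx 0)
    refine ((MsT.prod hG h2 h1).comp cons_comp).congr (Filter.Eventually.of_forall fun k => ?_)
    funext i
    refine Fin.cases ?_ (fun j => ?_) i
    · rfl
    · rfl

/-- witnesses of r.e. predicates can be chosen in the generated family -/
theorem MsT.wit (hG : Gen G) {a : ℕ → α} (ha : MsT G a) {R : α × β → Prop} (hR : REPred R)
    (h : ∀ᶠ k in UU, ∃ b, R (a k, b)) : ∃ b : ℕ → β, MsT G b ∧ ∀ᶠ k in UU, R (a k, b k) := by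
  obtain ⟨n, f, hf, h1⟩ := ha
  obtain ⟨D, hD, hRD⟩ := re_iff.1 hR
  obtain ⟨-, b0, -⟩ := uu_exists h
  -- the decidable matrix
  let E : ℕ → ℕ → Bool := fun g z => Option.casesOn (Encodable.decode (α := α) (f g)) false
    fun a => Option.casesOn (Encodable.decode (α := β) z.unpair.1) false
      fun b => D (a, b) z.unpair.2
  have hE : Computable₂ E := by
    have e1 : Computable fun q : ℕ × ℕ => Encodable.decode (α := α) (f q.1) :=
      Computable.decode.comp (hf.comp Computable.fst)
    have e2 : Computable₂ fun (q : ℕ × ℕ) (a : α) =>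
        (Option.casesOn (Encodable.decode (α := β) q.2.unpair.1) false
          fun b => D (a, b) q.2.unpair.2 : Bool) := by
      have e3 : Computable fun r : (ℕ × ℕ) × α => Encodable.decode (α := β) r.1.2.unpair.1 :=
        Computable.decode.comp (Computable.fst.comp (Computable.unpair.comp
          (Computable.snd.comp Computable.fst)))
      have e4 : Computable₂ fun (r : (ℕ × ℕ) × α) (b : β) => D (r.2, b) r.1.2.unpair.2 :=
        hD.comp ((Computable.snd.comp Computable.fst).pair Computable.snd)
          (Computable.snd.comp (Computable.unpair.comp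
            (Computable.snd.comp (Computable.fst.comp Computable.fst))))
      exact Computable.option_casesOn e3 (Computable.const false) e4
    exact Computable.option_casesOn e1 (Computable.const false) e2
  obtain ⟨m, g, hg, hset⟩ := hG.settle n E hE
  let z : ℕ → ℕ := fun k => srch E (G n k) (g (G m k))
  have hz : Ms G z := by
    have e1 : MsT G fun k => (G n k, g (G m k)) :=
      MsT.prod hG (msT_nat.2 ⟨n, id, Computable.id, Filter.Eventually.of_forall fun _ => rfl⟩)
        (msT_nat.2 ⟨m, g, hg, Filter.Eventually.of_forall fun _ => rfl⟩)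
    exact msT_nat.1 (e1.comp (srch_comp hE))
  refine ⟨fun k => (Encodable.decode (α := β) (z k).unpair.1).getD b0, ?_, ?_⟩
  · have e1 : Computable fun z : ℕ => (Encodable.decode (α := β) z.unpair.1).getD b0 :=
      Computable.option_getD (Computable.decode.comp (Computable.fst.comp Computable.unpair))
        (Computable.const b0)
    exact (msT_nat.2 hz).comp e1
  · filter_upwards [h, h1, hset] with k hk hk1 hk2
    obtain ⟨b, hb⟩ := hk
    obtain ⟨N, hN⟩ := (hRD _).1 hb
    have e1 : E (G n k) (Nat.pair (Encodable.encode b) N) = true := by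
      simp only [E]
      rw [← hk1, Encodable.encodek, Nat.unpair_pair]
      simp only [Encodable.encodek]
      exact hN
    have e2 : E (G n k) (z k) = true := srch_spec (hk2 _ le_rfl ⟨_, e1⟩)
    simp only [E] at e2
    rw [← hk1, Encodable.encodek] at e2
    cases hd : Encodable.decode (α := β) (z k).unpair.1 with
    | none => rw [hd] at e2; exact absurd e2 (by simp)
    | some b' =>
      rw [hd] at e2
      exact (hRD _).2 ⟨_, e2⟩

end

/-- bounding witnesses -/
theorem Ms.bound (hG : Gen G) {x : ℕ → ℕ} (hx : Ms G x) {D : ℕ → ℕ → Bool} (hD : Computable₂ D) :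
    ∃ b, Ms G b ∧ ∀ᶠ k in UU, ∀ z ≤ x k, (∃ y, D z y = true) → ∃ y ≤ b k, D z y = true := by
  obtain ⟨n, f, hf, h1⟩ := hx
  obtain ⟨m, h2⟩ := hG.dom n f hf
  obtain ⟨m', g, hg, h3⟩ := hG.settle m D hD
  refine ⟨fun k => g (G m' k), ⟨m', g, hg, Filter.Eventually.of_forall fun _ => rfl⟩, ?_⟩
  filter_upwards [h1, h2, h3] with k a1 a2 a3 z hz hy
  exact a3 z (by omega) hy

/-- bounded collection for an r.e. predicate: an r.e. predicate agrees below a generated sequence
with a decidable one that uses a generated bound -/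
theorem Ms.decide_below (hG : Gen G) {x q : ℕ → ℕ} (hx : Ms G x) (hq : Ms G q)
    {R : ℕ × ℕ → Prop} (hR : REPred R) :
    ∃ (b : ℕ → ℕ) (D : ℕ × ℕ × ℕ → Bool), Ms G b ∧ Computable D ∧
      ∀ᶠ k in UU, ∀ z ≤ x k, R (z, q k) ↔ D (z, q k, b k) = true := by
  obtain ⟨D, hD, hRD⟩ := re_iff.1 hR
  have he : Ms G fun k => Nat.pair (x k) (q k) := MsT.prod hG (msT_nat.2 hx) (msT_nat.2 hq)
  have hD' : Computable₂ fun u y : ℕ => D u.unpair y :=
    hD.comp (Computable.unpair.comp Computable.fst) Computable.snd
  obtain ⟨b, hb, h1⟩ := Ms.bound hG he hD'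
  refine ⟨b, fun r => D (r.1, r.2.1) (srch D (r.1, r.2.1) r.2.2), hb, ?_, ?_⟩
  · have e1 : Computable fun r : ℕ × ℕ × ℕ => (r.1, r.2.1) :=
      Computable.fst.pair (Computable.fst.comp Computable.snd)
    exact hD.comp e1 ((srch_comp hD).comp e1 (Computable.snd.comp Computable.snd))
  · filter_upwards [h1] with k hk z hz
    constructor
    · intro hR'
      obtain ⟨y, hy⟩ := (hRD _).1 hR'
      have e2 : Nat.pair z (q k) ≤ Nat.pair (x k) (q k) := by
        rcases Nat.eq_or_lt_of_le hz with e | e
        · rw [e]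
        · exact (Nat.pair_lt_pair_left _ e).le
      obtain ⟨y', hy', hy2⟩ := hk _ e2 ⟨y, by rw [Nat.unpair_pair]; exact hy⟩
      rw [Nat.unpair_pair] at hy2
      exact srch_spec ⟨y', hy', hy2⟩
    · intro hD2
      exact (hRD _).2 ⟨_, hD2⟩

end Pool.Agent.Lib.MP_53c40f_lc
end
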