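import Pool.Agent.Lib.MP_53c40f_lc.FormS
import Pool.Agent.Lib.MP_53c40f_lc.Defs
import Pool.Agent.Lib.MP_53c40f_lc.Mg.G001

section

set_option autoImplicit false

namespace Pool.Agent.Lib.MP_53c40f_lc

theorem sg5_rel2 {R : ℕ → ℕ → Prop} (h : SDef (fun v : Fin 2 → ℕ => R (v 0) (v 1))) {n : ℕ}
    (s t : Tm n) : SDef (fun v : Fin n → ℕ => R (s.eval v) (t.eval v)) :=
  h.subst ![s, t]

theorem sg5_rel3 {R : ℕ → ℕ → ℕ → Prop}
    (h : SDef (fun v : Fin 3 → ℕ => R (v 0) (v 1) (v 2))) {n : ℕ}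
    (s t u : Tm n) : SDef (fun v : Fin n → ℕ => R (s.eval v) (t.eval v) (u.eval v)) :=
  h.subst ![s, t, u]

theorem sg5_acons {n : ℕ} (a : ℕ) (v : Fin n → ℕ) :
    (fun i : Fin n => (acons a v : Fin (n + 1) → ℕ) i.succ) = v := by
  funext i
  simp [acons]

theorem sg5_ex {n : ℕ} {P : ℕ → (Fin n → ℕ) → Prop}
    (h : SDef (fun v : Fin (n + 1) → ℕ => P (v 0) (fun i => v i.succ))) :
    SDef (fun v : Fin n → ℕ => ∃ a, P a v) := by
  refine (SDef.ex h).congr fun v => exists_congr fun a => ?_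
  rw [sg5_acons]
  rfl

theorem sg5_ball {n : ℕ} {P : ℕ → (Fin n → ℕ) → Prop} (t : Tm n)
    (h : SDef (fun v : Fin (n + 1) → ℕ => P (v 0) (fun i => v i.succ))) :
    SDef (fun v : Fin n → ℕ => ∀ a, a < t.eval v → P a v) := by
  refine (SDef.ball t h).congr fun v => forall_congr' fun a => imp_congr Iff.rfl ?_
  rw [sg5_acons]
  rfl

/-- the graph of the pairing function -/
theorem sg5_pair : SDef (fun v : Fin 3 → ℕ => v 0 = Nat.pair (v 1) (v 2)) := by
  refine SDef.of_ddef ((((DDef.lt (.var 1) (.var 2)).and (DDef.eq (.var 0)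
    (.add (.mul (.var 2) (.var 2)) (.var 1)))).or (((DDef.lt (.var 1) (.var 2)).not).and
    (DDef.eq (.var 0) (.add (.add (.mul (.var 1) (.var 1)) (.var 1)) (.var 2))))).congr
    fun v => ?_)
  show ((v 1 < v 2 ∧ v 0 = v 2 * v 2 + v 1) ∨ (¬ v 1 < v 2 ∧ v 0 = v 1 * v 1 + v 1 + v 2)) ↔ _
  unfold Nat.pair
  split_ifs with h
  · simp [h]
  · simp [h]

theorem sg5_pairT {n : ℕ} (s t u : Tm n) :
    SDef (fun v : Fin n → ℕ => s.eval v = Nat.pair (t.eval v) (u.eval v)) :=
  sg5_rel3 (R := fun x y z => x = Nat.pair y z) sg5_pair s t u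

theorem sg5_eqT {n : ℕ} (s t : Tm n) : SDef (fun v : Fin n → ℕ => s.eval v = t.eval v) :=
  SDef.of_ddef (DDef.eq s t)

theorem sg5_ltT {n : ℕ} (s t : Tm n) : SDef (fun v : Fin n → ℕ => s.eval v < t.eval v) :=
  SDef.of_ddef (DDef.lt s t)

theorem sg5_beta_iff (z c i : ℕ) : z = Nat.beta c i ↔ ∃ p q k : ℕ, c = Nat.pair p q ∧
    p = k * ((i + 1) * q + 1) + z ∧ z < (i + 1) * q + 1 := by
  constructor
  · rintro rfl
    refine ⟨c.unpair.1, c.unpair.2, c.unpair.1 / ((i + 1) * c.unpair.2 + 1), ?_, ?_, ?_⟩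
    · rw [Nat.pair_unpair]
    · unfold Nat.beta
      rw [mul_comm]
      exact (Nat.div_add_mod _ _).symm
    · exact Nat.mod_lt _ (Nat.succ_pos _)
  · rintro ⟨p, q, k, rfl, h, hz⟩
    unfold Nat.beta
    rw [Nat.unpair_pair]
    show z = p % ((i + 1) * q + 1)
    rw [h, Nat.mul_add_mod', Nat.mod_eq_of_lt hz]

/-- the graph of Gödel's beta function -/
theorem sg5_beta : SDef (fun v : Fin 3 → ℕ => v 0 = Nat.beta (v 1) (v 2)) := by
  refine SDef.congr (S := fun v : Fin 3 → ℕ => ∃ p q k : ℕ, v 1 = Nat.pair p q ∧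
    p = k * ((v 2 + 1) * q + 1) + v 0 ∧ v 0 < (v 2 + 1) * q + 1) ?_
    (fun v => (sg5_beta_iff _ _ _).symm)
  refine sg5_ex (P := fun p v => ∃ q k : ℕ, v 1 = Nat.pair p q ∧
    p = k * ((v 2 + 1) * q + 1) + v 0 ∧ v 0 < (v 2 + 1) * q + 1) ?_
  refine sg5_ex (P := fun q v => ∃ k : ℕ, v 2 = Nat.pair (v 0) q ∧
    v 0 = k * ((v 3 + 1) * q + 1) + v 1 ∧ v 1 < (v 3 + 1) * q + 1) ?_
  refine sg5_ex (P := fun k v => v 3 = Nat.pair (v 1) (v 0) ∧
    v 1 = k * ((v 4 + 1) * v 0 + 1) + v 2 ∧ v 2 < (v 4 + 1) * v 0 + 1) ?_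
  exact (sg5_pairT (.var 4) (.var 2) (.var 1)).and ((sg5_eqT (.var 2)
    (.add (.mul (.var 0) (.add (.mul (.add (.var 5) .one) (.var 1)) .one)) (.var 3))).and
    (sg5_ltT (.var 3) (.add (.mul (.add (.var 5) .one) (.var 1)) .one)))

theorem sg5_betaT {n : ℕ} (s t u : Tm n) :
    SDef (fun v : Fin n → ℕ => s.eval v = Nat.beta (t.eval v) (u.eval v)) :=
  sg5_rel3 (R := fun x y z => x = Nat.beta y z) sg5_beta s t u

theorem sg5_seq (n : ℕ) (s : ℕ → ℕ) : ∃ c, ∀ y, y ≤ n → Nat.beta c y = s y := by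
  refine ⟨Nat.unbeta (List.ofFn fun i : Fin (n + 1) => s i), fun y hy => ?_⟩
  have h := Nat.beta_unbeta_coe (List.ofFn fun i : Fin (n + 1) => s i)
    ⟨y, by rw [List.length_ofFn]; omega⟩
  rw [h]
  simp only [Fin.getElem_fin, List.getElem_ofFn]

theorem sg5_prec {f g : ℕ →. ℕ} (a n b : ℕ) :
    b ∈ (Nat.rec (f a) (fun y IH => do let i ← IH; g (Nat.pair a (Nat.pair y i))) n : Part ℕ) ↔
      ∃ s : ℕ → ℕ, s 0 ∈ f a ∧ (∀ y, y < n → s (y + 1) ∈ g (Nat.pair a (Nat.pair y (s y)))) ∧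
        s n = b := by
  induction n generalizing b with
  | zero =>
    constructor
    · intro h
      exact ⟨fun _ => b, h, fun y hy => absurd hy (Nat.not_lt_zero y), rfl⟩
    · rintro ⟨s, hs, -, rfl⟩
      exact hs
  | succ n ih =>
    constructor
    · intro h
      obtain ⟨i, hi, hb⟩ := Part.mem_bind_iff.mp h
      obtain ⟨s, hs0, hs1, hs2⟩ := (ih i).mp hi
      refine ⟨fun y => if y = n + 1 then b else s y, ?_, ?_, ?_⟩
      · show (if 0 = n + 1 then b else s 0) ∈ f a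
        rw [if_neg (by omega)]
        exact hs0
      · intro y hy
        show (if y + 1 = n + 1 then b else s (y + 1)) ∈
          g (Nat.pair a (Nat.pair y (if y = n + 1 then b else s y)))
        rw [if_neg (by omega : ¬ y = n + 1)]
        by_cases hyn : y = n
        · subst hyn
          rw [if_pos rfl, hs2]
          exact hb
        · rw [if_neg (by omega)]
          exact hs1 y (by omega)
      · show (if n + 1 = n + 1 then b else s (n + 1)) = b
        rw [if_pos rfl]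
    · rintro ⟨s, hs0, hs1, rfl⟩
      refine Part.mem_bind_iff.mpr ⟨s n, (ih (s n)).mpr ⟨s, hs0, fun y hy => hs1 y (by omega), rfl⟩,
        hs1 n (by omega)⟩

theorem sg5_prec_code {f g : ℕ →. ℕ} (m b : ℕ) :
    b ∈ (Nat.unpaired fun a n => n.rec (f a) fun y IH => do
        let i ← IH
        g (Nat.pair a (Nat.pair y i)) : ℕ →. ℕ) m ↔
      ∃ a n c z, m = Nat.pair a n ∧ z = Nat.beta c 0 ∧ z ∈ f a ∧ b = Nat.beta c n ∧
        ∀ y, y < n → ∃ i j w u, i = Nat.beta c y ∧ j = Nat.beta c (y + 1) ∧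
          w = Nat.pair y i ∧ u = Nat.pair a w ∧ j ∈ g u := by
  constructor
  · intro h
    obtain ⟨s, hs0, hs1, hs2⟩ := (sg5_prec m.unpair.1 m.unpair.2 b).mp h
    obtain ⟨c, hc⟩ := sg5_seq m.unpair.2 s
    refine ⟨m.unpair.1, m.unpair.2, c, s 0, (Nat.pair_unpair m).symm,
      (hc 0 (Nat.zero_le _)).symm, hs0, ?_, fun y hy => ⟨s y, s (y + 1), _, _,
        (hc y hy.le).symm, (hc (y + 1) hy).symm, rfl, rfl, hs1 y hy⟩⟩
    rw [hc _ le_rfl, hs2]
  · rintro ⟨a, n, c, z, rfl, rfl, hz, rfl, H⟩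
    have h1 : Nat.beta c n ∈
        (Nat.rec (f a) (fun y IH => do let i ← IH; g (Nat.pair a (Nat.pair y i))) n : Part ℕ) := by
      refine (sg5_prec a n _).mpr ⟨Nat.beta c, hz, fun y hy => ?_, rfl⟩
      obtain ⟨i, j, w, u, rfl, rfl, rfl, rfl, hj⟩ := H y hy
      exact hj
    simpa [Nat.unpaired] using h1

/-- every partial recursive function has a `Σ₁` graph -/
theorem partrec_rep {f : ℕ →. ℕ} (hf : Nat.Partrec f) :
    SDef (fun v : Fin 2 → ℕ => v 1 ∈ f (v 0)) := by
  induction hf with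
  | zero =>
    refine (sg5_eqT (.var 1) .zero).congr fun v => ?_
    show v 1 = 0 ↔ v 1 ∈ Part.some 0
    rw [Part.mem_some_iff]
  | succ =>
    refine (sg5_eqT (.var 1) (.add (.var 0) .one)).congr fun v => ?_
    show v 1 = v 0 + 1 ↔ v 1 ∈ Part.some (Nat.succ (v 0))
    rw [Part.mem_some_iff]
  | left =>
    refine SDef.congr (S := fun v : Fin 2 → ℕ => ∃ b, v 0 = Nat.pair (v 1) b) ?_ fun v => ?_
    · exact sg5_ex (P := fun b v => v 0 = Nat.pair (v 1) b)
        (sg5_pairT (.var 1) (.var 2) (.var 0))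
    · show _ ↔ v 1 ∈ Part.some (v 0).unpair.1
      rw [Part.mem_some_iff]
      constructor
      · rintro ⟨b, hb⟩
        rw [hb, Nat.unpair_pair]
      · intro h
        exact ⟨(v 0).unpair.2, by rw [h, Nat.pair_unpair]⟩
  | right =>
    refine SDef.congr (S := fun v : Fin 2 → ℕ => ∃ b, v 0 = Nat.pair b (v 1)) ?_ fun v => ?_
    · exact sg5_ex (P := fun b v => v 0 = Nat.pair b (v 1))
        (sg5_pairT (.var 1) (.var 0) (.var 2))
    · show _ ↔ v 1 ∈ Part.some (v 0).unpair.2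
      rw [Part.mem_some_iff]
      constructor
      · rintro ⟨b, hb⟩
        rw [hb, Nat.unpair_pair]
      · intro h
        exact ⟨(v 0).unpair.1, by rw [h, Nat.pair_unpair]⟩
  | @pair f g _ _ ihf ihg =>
    refine SDef.congr (S := fun v : Fin 2 → ℕ => ∃ a b, a ∈ f (v 0) ∧ b ∈ g (v 0) ∧
      v 1 = Nat.pair a b) ?_ fun v => ?_
    · refine sg5_ex (P := fun a v => ∃ b, a ∈ f (v 0) ∧ b ∈ g (v 0) ∧ v 1 = Nat.pair a b) ?_
      refine sg5_ex (P := fun b v => v 0 ∈ f (v 1) ∧ b ∈ g (v 1) ∧ v 2 = Nat.pair (v 0) b) ?_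
      exact (sg5_rel2 (R := fun x y => y ∈ f x) ihf (.var 2) (.var 1)).and
        ((sg5_rel2 (R := fun x y => y ∈ g x) ihg (.var 2) (.var 0)).and
        (sg5_pairT (.var 3) (.var 1) (.var 0)))
    · simp only [Seq.seq, Part.map_eq_map, Part.mem_bind_iff, Part.mem_map_iff]
      constructor
      · rintro ⟨a, b, ha, hb, h⟩
        exact ⟨Nat.pair a, ⟨a, ha, rfl⟩, b, hb, h.symm⟩
      · rintro ⟨_, ⟨a, ha, rfl⟩, b, hb, h⟩
        exact ⟨a, b, ha, hb, h.symm⟩
  | @comp f g _ _ ihf ihg =>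
    refine SDef.congr (S := fun v : Fin 2 → ℕ => ∃ a, a ∈ g (v 0) ∧ v 1 ∈ f a) ?_ fun v => ?_
    · refine sg5_ex (P := fun a v => a ∈ g (v 0) ∧ v 1 ∈ f a) ?_
      exact (sg5_rel2 (R := fun x y => y ∈ g x) ihg (.var 1) (.var 0)).and
        (sg5_rel2 (R := fun x y => y ∈ f x) ihf (.var 0) (.var 2))
    · exact Part.mem_bind_iff.symm
  | @prec f g _ _ ihf ihg =>
    refine SDef.congr (S := fun v : Fin 2 → ℕ => ∃ a n c z, v 0 = Nat.pair a n ∧
      z = Nat.beta c 0 ∧ z ∈ f a ∧ v 1 = Nat.beta c n ∧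
        ∀ y, y < n → ∃ i j w u, i = Nat.beta c y ∧ j = Nat.beta c (y + 1) ∧
          w = Nat.pair y i ∧ u = Nat.pair a w ∧ j ∈ g u) ?_ fun v => (sg5_prec_code _ _).symm
    refine sg5_ex (P := fun a v => ∃ n c z, v 0 = Nat.pair a n ∧
      z = Nat.beta c 0 ∧ z ∈ f a ∧ v 1 = Nat.beta c n ∧
        ∀ y, y < n → ∃ i j w u, i = Nat.beta c y ∧ j = Nat.beta c (y + 1) ∧
          w = Nat.pair y i ∧ u = Nat.pair a w ∧ j ∈ g u) ?_
    refine sg5_ex (P := fun n v => ∃ c z, v 1 = Nat.pair (v 0) n ∧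
      z = Nat.beta c 0 ∧ z ∈ f (v 0) ∧ v 2 = Nat.beta c n ∧
        ∀ y, y < n → ∃ i j w u, i = Nat.beta c y ∧ j = Nat.beta c (y + 1) ∧
          w = Nat.pair y i ∧ u = Nat.pair (v 0) w ∧ j ∈ g u) ?_
    refine sg5_ex (P := fun c v => ∃ z, v 2 = Nat.pair (v 1) (v 0) ∧
      z = Nat.beta c 0 ∧ z ∈ f (v 1) ∧ v 3 = Nat.beta c (v 0) ∧
        ∀ y, y < v 0 → ∃ i j w u, i = Nat.beta c y ∧ j = Nat.beta c (y + 1) ∧
          w = Nat.pair y i ∧ u = Nat.pair (v 1) w ∧ j ∈ g u) ?_
    refine sg5_ex (P := fun z v => v 3 = Nat.pair (v 2) (v 1) ∧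
      z = Nat.beta (v 0) 0 ∧ z ∈ f (v 2) ∧ v 4 = Nat.beta (v 0) (v 1) ∧
        ∀ y, y < v 1 → ∃ i j w u, i = Nat.beta (v 0) y ∧ j = Nat.beta (v 0) (y + 1) ∧
          w = Nat.pair y i ∧ u = Nat.pair (v 2) w ∧ j ∈ g u) ?_
    refine (sg5_pairT (.var 4) (.var 3) (.var 2)).and ((sg5_betaT (.var 0) (.var 1) .zero).and
      ((sg5_rel2 (R := fun x y => y ∈ f x) ihf (.var 3) (.var 0)).and
      ((sg5_betaT (.var 5) (.var 1) (.var 2)).and ?_)))
    refine sg5_ball (P := fun y v => ∃ i j w u, i = Nat.beta (v 1) y ∧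
      j = Nat.beta (v 1) (y + 1) ∧ w = Nat.pair y i ∧ u = Nat.pair (v 3) w ∧ j ∈ g u) (.var 2) ?_
    refine sg5_ex (P := fun i v => ∃ j w u, i = Nat.beta (v 2) (v 0) ∧
      j = Nat.beta (v 2) (v 0 + 1) ∧ w = Nat.pair (v 0) i ∧ u = Nat.pair (v 4) w ∧ j ∈ g u) ?_
    refine sg5_ex (P := fun j v => ∃ w u, v 0 = Nat.beta (v 3) (v 1) ∧
      j = Nat.beta (v 3) (v 1 + 1) ∧ w = Nat.pair (v 1) (v 0) ∧ u = Nat.pair (v 5) w ∧
        j ∈ g u) ?_
    refine sg5_ex (P := fun w v => ∃ u, v 1 = Nat.beta (v 4) (v 2) ∧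
      v 0 = Nat.beta (v 4) (v 2 + 1) ∧ w = Nat.pair (v 2) (v 1) ∧ u = Nat.pair (v 6) w ∧
        v 0 ∈ g u) ?_
    refine sg5_ex (P := fun u v => v 2 = Nat.beta (v 5) (v 3) ∧
      v 1 = Nat.beta (v 5) (v 3 + 1) ∧ v 0 = Nat.pair (v 3) (v 2) ∧ u = Nat.pair (v 7) (v 0) ∧
        v 1 ∈ g u) ?_
    exact (sg5_betaT (.var 3) (.var 6) (.var 4)).and
      ((sg5_betaT (.var 2) (.var 6) (.add (.var 4) .one)).and
      ((sg5_pairT (.var 1) (.var 4) (.var 3)).and ((sg5_pairT (.var 0) (.var 8) (.var 1)).and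
      (sg5_rel2 (R := fun x y => y ∈ g x) ihg (.var 0) (.var 2)))))
  | @rfind f _ ihf =>
    refine SDef.congr (S := fun v : Fin 2 → ℕ => (∃ u, u = Nat.pair (v 0) (v 1) ∧ 0 ∈ f u) ∧
      ∀ m, m < v 1 → ∃ u w, u = Nat.pair (v 0) m ∧ 0 < w ∧ w ∈ f u) ?_ fun v => ?_
    · refine SDef.and ?_ ?_
      · refine sg5_ex (P := fun u v => u = Nat.pair (v 0) (v 1) ∧ 0 ∈ f u) ?_
        exact (sg5_pairT (.var 0) (.var 1) (.var 2)).and
          (sg5_rel2 (R := fun x y => y ∈ f x) ihf (.var 0) .zero)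
      · refine sg5_ball (P := fun m v => ∃ u w, u = Nat.pair (v 0) m ∧ 0 < w ∧ w ∈ f u)
          (.var 1) ?_
        refine sg5_ex (P := fun u v => ∃ w, u = Nat.pair (v 1) (v 0) ∧ 0 < w ∧ w ∈ f u) ?_
        refine sg5_ex (P := fun w v => v 0 = Nat.pair (v 2) (v 1) ∧ 0 < w ∧ w ∈ f (v 0)) ?_
        exact (sg5_pairT (.var 1) (.var 3) (.var 2)).and ((sg5_ltT .zero (.var 0)).and
          (sg5_rel2 (R := fun x y => y ∈ f x) ihf (.var 1) (.var 0)))
    · refine Iff.trans ?_ Nat.mem_rfind.symm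
      simp only [Part.map_eq_map, Part.mem_map_iff, decide_eq_true_eq, decide_eq_false_iff_not]
      constructor
      · rintro ⟨⟨u, rfl, h0⟩, H⟩
        refine ⟨⟨0, h0, rfl⟩, fun {m} hm => ?_⟩
        obtain ⟨u, w, rfl, hw, hwf⟩ := H m hm
        exact ⟨w, hwf, hw.ne'⟩
      · rintro ⟨⟨m, hm, rfl⟩, H⟩
        refine ⟨⟨_, rfl, hm⟩, fun m hm => ?_⟩
        obtain ⟨w, hw, hw0⟩ := H hm
        exact ⟨_, w, rfl, Nat.pos_of_ne_zero hw0, hw⟩

end Pool.Agent.Lib.MP_53c40f_lc
end

section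

set_option autoImplicit false

namespace Pool.Agent.Lib.MP_53c40f_lc

/-- The value of a term is primitive recursive. -/
theorem Tm.primrec {n : ℕ} (t : Tm n) : Primrec (fun v : Fin n → ℕ => t.eval v) := by
  induction t with
  | var i => exact Primrec.fin_app.comp Primrec.id (Primrec.const i)
  | zero => exact Primrec.const 0
  | one => exact Primrec.const 1
  | add s t hs ht => exact Primrec.nat_add.comp hs ht
  | mul s t hs ht => exact Primrec.nat_mul.comp hs ht
  | exp t ht =>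
    have h2 : Primrec (fun n : ℕ => 2 ^ n) := by
      refine (Primrec.nat_rec₁ 1 (f := fun _ y => y + y)
        (Primrec.nat_add.comp Primrec.snd Primrec.snd)).of_eq ?_
      intro n
      induction n with
      | zero => rfl
      | succ n ih =>
        show _ + _ = _
        rw [ih, pow_succ]
        ring
    exact h2.comp ht

theorem primrec_acons {n : ℕ} :
    Primrec (fun p : ℕ × (Fin n → ℕ) => (acons p.1 p.2 : Fin (n + 1) → ℕ)) := by
  rw [Primrec.fin_curry]
  have h : Primrec₂ (fun (i : Fin (n + 1)) (p : ℕ × (Fin n → ℕ)) =>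
      (acons p.1 p.2 : Fin (n + 1) → ℕ) i) := by
    rw [Primrec.fin_curry₁]
    intro i
    refine Fin.cases ?_ (fun j => ?_) i
    · exact Primrec.fst
    · have h := (Primrec.fin_app (n := n) (σ := ℕ)).comp
        (Primrec.snd (α := ℕ) (β := Fin n → ℕ)) (Primrec.const j)
      exact h
  exact h.swap

/-- truth of a `Δ₀` formula in the standard model is primitive recursive -/
theorem D0.primrec {n : ℕ} (φ : D0 n) : PrimrecPred (fun v : Fin n → ℕ => φ.eval v) := by
  induction φ with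
  | eq s t => exact Primrec.eq.comp s.primrec t.primrec
  | lt s t => exact Primrec.nat_lt.comp s.primrec t.primrec
  | neg φ ih => exact ih.not
  | and φ ψ ih1 ih2 => exact ih1.and ih2
  | @ball m t φ ih =>
    have h1 : PrimrecRel (fun (a : ℕ) (v : Fin m → ℕ) => φ.eval (acons a v)) :=
      ih.comp primrec_acons
    have h3 : Primrec (fun v : Fin m → ℕ => List.range (t.eval v)) :=
      Primrec.list_range.comp t.primrec
    have h4 : Primrec (fun v : Fin m → ℕ => v) := Primrec.id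
    refine (PrimrecRel.comp h1.forall_mem_list h3 h4).of_eq fun v => ?_
    show (∀ a ∈ List.range (t.eval v), φ.eval (acons a v)) ↔
      ∀ a : ℕ, a < t.eval v → φ.eval (acons a v)
    simp only [List.mem_range]

end Pool.Agent.Lib.MP_53c40f_lc
end

section

set_option autoImplicit false

namespace Pool.Agent.Lib.MP_53c40f_lc

open Encodable

/-- the graph of the pairing function -/
private theorem pair_rep {m : ℕ} (i j k : Fin m) :
    DDef (fun w : Fin m → ℕ => w i = Nat.pair (w j) (w k) + 1) := by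
  have h1 : DDef (fun w : Fin m → ℕ => (Tm.var j).eval w < (Tm.var k).eval w) := DDef.lt _ _
  have h2 : DDef (fun w : Fin m → ℕ => (Tm.var i).eval w =
      ((((Tm.var k).mul (Tm.var k)).add (Tm.var j)).add Tm.one).eval w) := DDef.eq _ _
  have h3 : DDef (fun w : Fin m → ℕ => (Tm.var i).eval w =
      (((((Tm.var j).mul (Tm.var j)).add (Tm.var j)).add (Tm.var k)).add Tm.one).eval w) :=
    DDef.eq _ _
  refine ((h1.and h2).or (h1.not.and h3)).congr (fun w => ?_)
  simp only [Tm.eval]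
  by_cases h : w j < w k
  · simp only [Nat.pair, h, if_true, true_and, not_true, false_and, or_false]
  · simp only [Nat.pair, h, if_false, false_and, not_false_eq_true, true_and, false_or]

/-- the code of a tuple -/
private def encv {n : ℕ} (v : Fin n → ℕ) : ℕ :=
  @encode (Fin n → ℕ) Primcodable.finArrow.toEncodable v

/-- the graph of the coding of tuples -/
private theorem enc_rep (n : ℕ) : ∀ (m : ℕ) (σ : Fin n → Fin m) (τ : Fin m),
    SDef (fun w : Fin m → ℕ => w τ = encv (fun i => w (σ i))) := by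
  have hl : ∀ {n : ℕ} (v : Fin n → ℕ), encv v = encode (List.ofFn v) := by
    intro n v
    have h1 : encv v = encode (List.Vector.ofFn v) := by
      unfold encv
      rfl
    have h2 : encode (List.Vector.ofFn v) = encode (List.Vector.ofFn v).toList := by
      exact Encodable.Subtype.encode_eq _
    rw [h1, h2, List.Vector.toList_ofFn]
  induction n with
  | zero =>
    intro m σ τ
    refine (SDef.of_ddef (DDef.eq (Tm.var τ) Tm.zero)).congr (fun w => ?_)
    rw [hl]
    simp [Tm.eval]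
  | succ n ih =>
    intro m σ τ
    have h1 := ih (m + 1) (fun i => (σ i.succ).succ) 0
    have h2 := SDef.of_ddef (pair_rep (m := m + 1) τ.succ (σ 0).succ 0)
    refine (h1.and h2).ex.congr (fun w => ?_)
    have hc0 : ∀ a : ℕ, (acons a w : Fin (m + 1) → ℕ) 0 = a := fun a => rfl
    have hcs : ∀ (a : ℕ) (i : Fin m), (acons a w : Fin (m + 1) → ℕ) i.succ = w i := by
      intro a i
      simp [acons]
    simp only [hc0, hcs]
    rw [hl (fun i => w (σ i))]
    rw [List.ofFn_succ, Encodable.encode_list_cons]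
    constructor
    · rintro ⟨a, rfl, h⟩
      rw [h, hl]
      rfl
    · intro h
      refine ⟨_, rfl, ?_⟩
      rw [h, hl]
      rfl

/-- every r.e. relation is `Σ₁`-definable -/
theorem re_rep {n : ℕ} {R : (Fin n → ℕ) → Prop} (hR : REPred R) : SDef R := by
  classical
  have hf : Nat.Partrec (fun k => Part.bind
      (@decode (Fin n → ℕ) Primcodable.finArrow.toEncodable k) fun a =>
      (Part.assert (R a) fun _ => Part.some ()).map encode) := hR
  have h1 := (partrec_rep hf).subst (m := n + 2) ![Tm.var 1, Tm.var 0]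
  have h2 := enc_rep n (n + 2) (fun i => i.succ.succ) 1
  refine ((h2.and h1).ex.ex).congr (fun v => ?_)
  have hc0 : ∀ {k : ℕ} (a : ℕ) (w : Fin k → ℕ), (acons a w : Fin (k + 1) → ℕ) 0 = a :=
    fun a w => rfl
  have hcs : ∀ {k : ℕ} (a : ℕ) (w : Fin k → ℕ) (i : Fin k),
      (acons a w : Fin (k + 1) → ℕ) i.succ = w i := by
    intro k a w i
    simp [acons]
  have hc1 : ∀ (a b : ℕ), (acons a (acons b v) : Fin (n + 2) → ℕ) 1 = b := fun a b => rfl
  simp only [hc1, hcs, hc0, Matrix.cons_val_zero, Matrix.cons_val_one, Tm.eval]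
  constructor
  · rintro ⟨z, y, rfl, h⟩
    simp only [encv, encodek, Part.coe_some, Part.bind_some, Part.mem_map_iff] at h
    obtain ⟨_, h, _⟩ := h
    rw [Part.mem_assert_iff] at h
    exact h.1
  · intro h
    refine ⟨_, encode (), rfl, ?_⟩
    simp only [encv, encodek, Part.coe_some, Part.bind_some, Part.mem_map_iff]
    exact ⟨(), (Part.mem_assert_iff).2 ⟨h, Part.mem_some _⟩, trivial⟩

/-- `Σ₁`-definable relations are r.e. -/
theorem s1_re {n : ℕ} (φ : D0 (n + 1)) : REPred (fun v : Fin n → ℕ => S1 φ v) := by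
  classical
  have hcons : Primrec (fun a : (Fin n → ℕ) × ℕ => (acons a.2 a.1 : Fin (n + 1) → ℕ)) := by
    have h1 : Primrec (fun a : (Fin n → ℕ) × ℕ => (a.2 ::ᵥ List.Vector.ofFn a.1).get) :=
      Primrec.vector_get'.comp (Primrec.vector_cons.comp Primrec.snd
        (Primrec.vector_ofFn'.comp Primrec.fst))
    refine h1.of_eq (fun a => ?_)
    funext i
    refine Fin.cases ?_ (fun j => ?_) i
    · simp [acons]
    · simp [acons]
  obtain ⟨_, hD⟩ := (D0.primrec φ).comp hcons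
  have hp : Partrec₂ (fun (v : Fin n → ℕ) (y : ℕ) =>
      (Part.some (decide (φ.eval (acons y v))) : Part Bool)) := by
    refine Computable.partrec (Computable.of_eq hD.to_comp (fun a => ?_))
    simp
  have hr := (Partrec.rfind hp).dom_re
  refine hr.of_eq (fun v => ?_)
  refine (Nat.rfind_dom (p := fun y => (Part.some (decide (φ.eval (acons y v))) : Part Bool))).trans
    ?_
  constructor
  · rintro ⟨y, hy, _⟩
    exact ⟨y, by simpa using hy⟩
  · rintro ⟨y, hy⟩
    exact ⟨y, by simpa using hy, fun _ => trivial⟩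

end Pool.Agent.Lib.MP_53c40f_lc
end

section

/-!
# The model of generated sequences
-/

set_option autoImplicit false

namespace Pool.Agent.Lib.MP_53c40f_lc

open Filter

/-- equality almost everywhere -/
def msSetoid (G : ℕ → ℕ → ℕ) : Setoid {x : ℕ → ℕ // Ms G x} where
  r x y := ∀ᶠ k in UU, x.1 k = y.1 k
  iseqv :=
    { refl := fun _ => Filter.Eventually.of_forall fun _ => rfl
      symm := fun h => h.mono fun _ h => h.symm
      trans := fun h h' => by filter_upwards [h, h'] with k h1 h2 using h1.trans h2 }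

/-- the model -/
def MM (G : ℕ → ℕ → ℕ) : Type := Quotient (msSetoid G)

variable {G : ℕ → ℕ → ℕ}

/-- the class of a sequence -/
def MM.mk (x : ℕ → ℕ) (hx : Ms G x) : MM G := Quotient.mk (msSetoid G) ⟨x, hx⟩

/-- a representative -/
noncomputable def rep (a : MM G) : ℕ → ℕ := (Quotient.out a : {x : ℕ → ℕ // Ms G x}).1

theorem rep_ms (a : MM G) : Ms G (rep a) := (Quotient.out a : {x : ℕ → ℕ // Ms G x}).2

theorem rep_mk (x : ℕ → ℕ) (hx : Ms G x) : ∀ᶠ k in UU, rep (MM.mk x hx) k = x k := by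
  have h : (msSetoid G).r (Quotient.out (MM.mk x hx)) ⟨x, hx⟩ := Quotient.mk_out _
  exact h

theorem mk_rep (a : MM G) : MM.mk (rep a) (rep_ms a) = a := Quotient.out_eq a

theorem mk_eq {x y : ℕ → ℕ} (hx : Ms G x) (hy : Ms G y) :
    MM.mk x hx = MM.mk y hy ↔ ∀ᶠ k in UU, x k = y k := by
  constructor
  · intro h
    exact Quotient.exact h
  · intro h
    exact Quotient.sound h

theorem eq_iff_rep (a b : MM G) : a = b ↔ ∀ᶠ k in UU, rep a k = rep b k := by
  rw [← mk_eq (rep_ms a) (rep_ms b), mk_rep, mk_rep]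

/-- the class of a sequence, `0` if it is not generated -/
noncomputable def mkD (G : ℕ → ℕ → ℕ) (x : ℕ → ℕ) : MM G := by
  classical
  exact if hx : Ms G x then MM.mk x hx else MM.mk (fun _ => 0)
    ⟨0, fun _ => 0, Computable.const 0, Filter.Eventually.of_forall fun _ => rfl⟩

noncomputable instance instArithMM : Arith (MM G) where
  zero := mkD G (fun _ => 0)
  one := mkD G (fun _ => 1)
  add a b := mkD G (fun k => rep a k + rep b k)
  mul a b := mkD G (fun k => rep a k * rep b k)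
  lt a b := ∀ᶠ k in UU, rep a k < rep b k
  exp2 a := mkD G (fun k => 2 ^ rep a k)

theorem rep_mkD {x : ℕ → ℕ} (hx : Ms G x) : ∀ᶠ k in UU, rep (mkD G x) k = x k := by
  unfold mkD
  rw [dif_pos hx]
  exact rep_mk x hx

theorem rep_acons {n : ℕ} (a : MM G) (v : Fin n → MM G) (k : ℕ) :
    (fun i => rep ((acons a v : Fin (n + 1) → MM G) i) k) =
      (acons (rep a k) (fun i => rep (v i) k) : Fin (n + 1) → ℕ) := by
  funext i
  refine Fin.cases ?_ (fun j => ?_) i
  · simp [acons]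
  · simp [acons]

theorem ms_const (c : ℕ) : Ms G (fun _ => c) := msT_nat.1 (MsT.const c)

theorem ms_add (hG : Gen G) {x y : ℕ → ℕ} (hx : Ms G x) (hy : Ms G y) :
    Ms G (fun k => x k + y k) :=
  msT_nat.1 ((MsT.prod hG (msT_nat.2 hx) (msT_nat.2 hy)).comp
    (f := fun p : ℕ × ℕ => p.1 + p.2) (Primrec.nat_add.comp Primrec.fst Primrec.snd).to_comp)

theorem ms_mul (hG : Gen G) {x y : ℕ → ℕ} (hx : Ms G x) (hy : Ms G y) :
    Ms G (fun k => x k * y k) :=
  msT_nat.1 ((MsT.prod hG (msT_nat.2 hx) (msT_nat.2 hy)).comp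
    (f := fun p : ℕ × ℕ => p.1 * p.2) (Primrec.nat_mul.comp Primrec.fst Primrec.snd).to_comp)

theorem ms_sub (hG : Gen G) {x y : ℕ → ℕ} (hx : Ms G x) (hy : Ms G y) :
    Ms G (fun k => x k - y k) :=
  msT_nat.1 ((MsT.prod hG (msT_nat.2 hx) (msT_nat.2 hy)).comp
    (f := fun p : ℕ × ℕ => p.1 - p.2) (Primrec.nat_sub.comp Primrec.fst Primrec.snd).to_comp)

theorem ms_exp {x : ℕ → ℕ} (hx : Ms G x) : Ms G (fun k => 2 ^ x k) := by
  have h2 : Primrec (fun n : ℕ => 2 ^ n) := by
    refine (Primrec.nat_rec₁ 1 (f := fun _ y => y + y)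
      (Primrec.nat_add.comp Primrec.snd Primrec.snd)).of_eq ?_
    intro n
    induction n with
    | zero => rfl
    | succ n ih =>
      show _ + _ = _
      rw [ih, pow_succ]
      ring
  exact msT_nat.1 ((msT_nat.2 hx).comp h2.to_comp)

theorem rep_zero : ∀ᶠ k in UU, rep (0 : MM G) k = 0 := rep_mkD (ms_const 0)

theorem rep_one : ∀ᶠ k in UU, rep (1 : MM G) k = 1 := rep_mkD (ms_const 1)

theorem rep_add (hG : Gen G) (a b : MM G) : ∀ᶠ k in UU, rep (a + b) k = rep a k + rep b k :=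
  rep_mkD (ms_add hG (rep_ms a) (rep_ms b))

theorem rep_mul (hG : Gen G) (a b : MM G) : ∀ᶠ k in UU, rep (a * b) k = rep a k * rep b k :=
  rep_mkD (ms_mul hG (rep_ms a) (rep_ms b))

theorem rep_exp2 (a : MM G) : ∀ᶠ k in UU, rep (Arith.exp2 a) k = 2 ^ rep a k :=
  rep_mkD (ms_exp (rep_ms a))

theorem lt_iff_rep (a b : MM G) : a < b ↔ ∀ᶠ k in UU, rep a k < rep b k := Iff.rfl

theorem rep_tm (hG : Gen G) {n : ℕ} (t : Tm n) (v : Fin n → MM G) :
    ∀ᶠ k in UU, rep (t.eval v) k = t.eval (fun i => rep (v i) k) := by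
  induction t with
  | var i => exact Filter.Eventually.of_forall fun k => rfl
  | zero => exact rep_zero
  | one => exact rep_one
  | add s t hs ht =>
    filter_upwards [hs, ht, rep_add hG (s.eval v) (t.eval v)] with k h1 h2 h3
    change rep (s.eval v + t.eval v) k = s.eval (fun i => rep (v i) k) +
      t.eval (fun i => rep (v i) k)
    rw [h3, h1, h2]
  | mul s t hs ht =>
    filter_upwards [hs, ht, rep_mul hG (s.eval v) (t.eval v)] with k h1 h2 h3
    change rep (s.eval v * t.eval v) k = s.eval (fun i => rep (v i) k) *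
      t.eval (fun i => rep (v i) k)
    rw [h3, h1, h2]
  | exp t ht =>
    filter_upwards [ht, rep_exp2 (t.eval v)] with k h2 h3
    change rep (Arith.exp2 (t.eval v)) k = 2 ^ t.eval (fun i => rep (v i) k)
    rw [h3, h2]

/-- a decidable relation is r.e. -/
theorem re_of_primrecPred {α : Type} [Primcodable α] {p : α → Prop} (h : PrimrecPred p) :
    REPred p := by
  obtain ⟨_, h⟩ := h
  exact re_of_dec (fun a => decide (p a)) h.to_comp (fun a => by simp)

/-- truth of `Δ₀` formulas is truth almost everywhere -/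
theorem los (hG : Gen G) {n : ℕ} (φ : D0 n) (v : Fin n → MM G) :
    φ.eval v ↔ ∀ᶠ k in UU, φ.eval (fun i => rep (v i) k) := by
  induction φ with
  | eq s t =>
    change s.eval v = t.eval v ↔ ∀ᶠ k in UU, s.eval (fun i => rep (v i) k) =
      t.eval (fun i => rep (v i) k)
    rw [eq_iff_rep]
    constructor
    · intro h
      filter_upwards [h, rep_tm hG s v, rep_tm hG t v] with k h1 h2 h3
      rw [← h2, ← h3, h1]
    · intro h
      filter_upwards [h, rep_tm hG s v, rep_tm hG t v] with k h1 h2 h3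
      rw [h2, h3, h1]
  | lt s t =>
    change s.eval v < t.eval v ↔ ∀ᶠ k in UU, s.eval (fun i => rep (v i) k) <
      t.eval (fun i => rep (v i) k)
    rw [lt_iff_rep]
    constructor
    · intro h
      filter_upwards [h, rep_tm hG s v, rep_tm hG t v] with k h1 h2 h3
      rw [← h2, ← h3]
      exact h1
    · intro h
      filter_upwards [h, rep_tm hG s v, rep_tm hG t v] with k h1 h2 h3
      rw [h2, h3]
      exact h1
  | neg φ ih =>
    change ¬ φ.eval v ↔ ∀ᶠ k in UU, ¬ φ.eval (fun i => rep (v i) k)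
    rw [ih v, uu_not]
  | and φ ψ ih1 ih2 =>
    change (φ.eval v ∧ ψ.eval v) ↔ ∀ᶠ k in UU, (φ.eval (fun i => rep (v i) k) ∧
      ψ.eval (fun i => rep (v i) k))
    rw [ih1 v, ih2 v, Filter.eventually_and]
  | @ball m t φ ih =>
    change (∀ a : MM G, a < t.eval v → φ.eval (acons a v)) ↔
      ∀ᶠ k in UU, ∀ a : ℕ, a < t.eval (fun i => rep (v i) k) →
        φ.eval (acons a (fun i => rep (v i) k))
    constructor
    · intro h
      by_contra hcon
      rw [uu_not] at hcon
      have hex : ∀ᶠ k in UU, ∃ a : ℕ, (fun p : (Fin m → ℕ) × ℕ => p.2 < t.eval p.1 ∧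
          ¬ φ.eval (acons p.2 p.1)) ((fun i => rep (v i) k), a) := by
        refine hcon.mono fun k hk => ?_
        push Not at hk
        exact hk
      have hR : REPred (fun p : (Fin m → ℕ) × ℕ => p.2 < t.eval p.1 ∧
          ¬ φ.eval (acons p.2 p.1)) := by
        refine re_of_primrecPred ?_
        have h1 : PrimrecPred (fun p : (Fin m → ℕ) × ℕ => p.2 < t.eval p.1) :=
          Primrec.nat_lt.comp Primrec.snd (t.primrec.comp Primrec.fst)
        have h2 : PrimrecPred (fun p : (Fin m → ℕ) × ℕ => φ.eval (acons p.2 p.1)) :=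
          (D0.primrec φ).comp (primrec_acons.comp (Primrec.snd.pair Primrec.fst))
        exact h1.and h2.not
      obtain ⟨b, hb, hb2⟩ := MsT.wit hG (MsT.pi hG (fun i => rep_ms (v i))) hR hex
      have hbm : Ms G b := msT_nat.1 hb
      have hlt : mkD G b < t.eval v := by
        rw [lt_iff_rep]
        filter_upwards [hb2, rep_mkD hbm, rep_tm hG t v] with k h1 h2 h3
        rw [h2, h3]
        exact h1.1
      have h4 := (ih (acons (mkD G b) v)).1 (h _ hlt)
      refine uu_false ?_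
      filter_upwards [h4, hb2, rep_mkD hbm] with k h1 h2 h3
      rw [rep_acons, h3] at h1
      exact h2.2 h1
    · intro h a ha
      rw [ih (acons a v)]
      rw [lt_iff_rep] at ha
      filter_upwards [h, ha, rep_tm hG t v] with k h1 h2 h3
      rw [rep_acons]
      exact h1 _ (by rw [← h3]; exact h2)

/-- truth of `Σ₁` formulas is truth almost everywhere -/
theorem losS1 (hG : Gen G) {n : ℕ} (φ : D0 (n + 1)) (v : Fin n → MM G) :
    S1 φ v ↔ ∀ᶠ k in UU, S1 φ (fun i => rep (v i) k) := by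
  constructor
  · rintro ⟨y, hy⟩
    rw [los hG] at hy
    refine hy.mono fun k hk => ?_
    rw [rep_acons] at hk
    exact ⟨_, hk⟩
  · intro h
    have hR : REPred (fun p : (Fin n → ℕ) × ℕ => φ.eval (acons p.2 p.1)) :=
      re_of_primrecPred ((D0.primrec φ).comp
        (primrec_acons.comp (Primrec.snd.pair Primrec.fst)))
    obtain ⟨b, hb, hb2⟩ := MsT.wit hG (MsT.pi hG (fun i => rep_ms (v i))) hR h
    have hbm : Ms G b := msT_nat.1 hb
    refine ⟨mkD G b, ?_⟩
    rw [los hG]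
    filter_upwards [hb2, rep_mkD hbm] with k h1 h2
    rw [rep_acons, h2]
    exact h1

/-- r.e. relations are `Σ₁`-definable in the model -/
theorem re_def (hG : Gen G) {n : ℕ} {R : (Fin n → ℕ) → Prop} (hR : REPred R) :
    ∃ φ : D0 (n + 1), ∀ v : Fin n → MM G, S1 φ v ↔ ∀ᶠ k in UU, R (fun i => rep (v i) k) := by
  obtain ⟨φ, hφ⟩ := re_rep hR
  refine ⟨φ, fun v => ?_⟩
  rw [losS1 hG]
  exact eventually_congr (Filter.Eventually.of_forall fun k => hφ _)

end Pool.Agent.Lib.MP_53c40f_lc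
end

section

/-!
# Instability is r.e.
-/

set_option autoImplicit false

namespace Pool.Agent.Lib.MP_53c40f_lc

theorem sg29_lev {α : Type} [Primcodable α] {c s n : α → ℕ} (hc : Primrec c) (hs : Primrec s)
    (hn : Primrec n) : Primrec fun a => lev (c a) (s a) (n a) := by
  have hS : Primrec fun a => st (c a) (s a) := primrec_st.comp (hc.pair hs)
  have hg : Primrec fun a => (st (c a) (s a))[n a]? := Primrec.list_getElem?.comp hS hn
  refine Primrec.option_map hg ?_
  have h1 : Primrec fun p : α × Level => (pos (st (c p.1) (s p.1)) (n p.1), p.2.1) :=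
    (sg7_pos (hS.comp Primrec.fst) (hn.comp Primrec.fst)).pair (Primrec.fst.comp Primrec.snd)
  exact h1.to₂

theorem primrec_stb :
    Primrec (fun a : (ℕ × ℕ × ℕ × ℕ) × ℕ => stb a.1.1 a.1.2.1 a.1.2.2.1 a.1.2.2.2 a.2) := by
  have hc : Primrec fun a : (ℕ × ℕ × ℕ × ℕ) × ℕ => a.1.1 := Primrec.fst.comp Primrec.fst
  have hn : Primrec fun a : (ℕ × ℕ × ℕ × ℕ) × ℕ => a.1.2.1 :=
    Primrec.fst.comp (Primrec.snd.comp Primrec.fst)
  have hs : Primrec fun a : (ℕ × ℕ × ℕ × ℕ) × ℕ => a.1.2.2.1 :=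
    Primrec.fst.comp (Primrec.snd.comp (Primrec.snd.comp Primrec.fst))
  have hv : Primrec fun a : (ℕ × ℕ × ℕ × ℕ) × ℕ => a.1.2.2.2 :=
    Primrec.snd.comp (Primrec.snd.comp (Primrec.snd.comp Primrec.fst))
  have hs' : Primrec fun a : (ℕ × ℕ × ℕ × ℕ) × ℕ => a.2 := Primrec.snd
  have h1 := sg29_lev hc hs' hn
  have h2 := sg29_lev hc hs hn
  have h3 : Primrec fun a : (ℕ × ℕ × ℕ × ℕ) × ℕ =>
      (lev a.1.1 a.1.2.2.1 a.1.2.1).map Prod.fst :=
    Primrec.option_map h2 (Primrec.fst.comp Primrec.snd).to₂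
  have h4 : PrimrecPred fun a : (ℕ × ℕ × ℕ × ℕ) × ℕ => a.2 < a.1.2.2.1 :=
    Primrec.nat_lt.comp hs' hs
  have h5 : PrimrecPred fun a : (ℕ × ℕ × ℕ × ℕ) × ℕ =>
      lev a.1.1 a.2 a.1.2.1 = lev a.1.1 a.1.2.2.1 a.1.2.1 := Primrec.eq.comp h1 h2
  have h6 : PrimrecPred fun a : (ℕ × ℕ × ℕ × ℕ) × ℕ =>
      (lev a.1.1 a.1.2.2.1 a.1.2.1).map Prod.fst = some a.1.2.2.2 :=
    Primrec.eq.comp h3 (Primrec.option_some.comp hv)
  exact (h4.or (h5.and h6)).decide

/-- `(c, n, s, v)`: the claim that level `n` is stable from stage `s` on, with position `v`, is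
refuted at some stage -/
theorem re_unstb :
    REPred (fun a : ℕ × ℕ × ℕ × ℕ => ∃ s', stb a.1 a.2.1 a.2.2.1 a.2.2.2 s' = false) := by
  refine re_iff.2 ⟨fun a s' => !stb a.1 a.2.1 a.2.2.1 a.2.2.2 s', ?_, fun a => ?_⟩
  · exact (Primrec.not.comp primrec_stb).to_comp.to₂
  · simp

end Pool.Agent.Lib.MP_53c40f_lc
end

section

/-!
# The model satisfies `PA⁻` with exponentiation and `IΣ₁`
-/

set_option autoImplicit false

namespace Pool.Agent.Lib.MP_53c40f_lc

open Filter

variable {G : ℕ → ℕ → ℕ}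

theorem paMinus (hG : Gen G) : PAMinusExp (MM G) where
  add_assoc x y z := by
    rw [eq_iff_rep]
    filter_upwards [rep_add hG (x + y) z, rep_add hG x y, rep_add hG x (y + z), rep_add hG y z]
      with k h1 h2 h3 h4
    rw [h1, h2, h3, h4]
    ring
  add_comm x y := by
    rw [eq_iff_rep]
    filter_upwards [rep_add hG x y, rep_add hG y x] with k h1 h2
    rw [h1, h2]
    ring
  mul_assoc x y z := by
    rw [eq_iff_rep]
    filter_upwards [rep_mul hG (x * y) z, rep_mul hG x y, rep_mul hG x (y * z), rep_mul hG y z]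
      with k h1 h2 h3 h4
    rw [h1, h2, h3, h4]
    ring
  mul_comm x y := by
    rw [eq_iff_rep]
    filter_upwards [rep_mul hG x y, rep_mul hG y x] with k h1 h2
    rw [h1, h2]
    ring
  mul_add x y z := by
    rw [eq_iff_rep]
    filter_upwards [rep_mul hG x (y + z), rep_add hG y z, rep_add hG (x * y) (x * z),
      rep_mul hG x y, rep_mul hG x z] with k h1 h2 h3 h4 h5
    rw [h1, h2, h3, h4, h5]
    ring
  add_zero x := by
    rw [eq_iff_rep]
    filter_upwards [rep_add hG x 0, rep_zero (G := G)] with k h1 h2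
    rw [h1, h2]
    ring
  mul_zero x := by
    rw [eq_iff_rep]
    filter_upwards [rep_mul hG x 0, rep_zero (G := G)] with k h1 h2
    rw [h1, h2]
    ring
  mul_one x := by
    rw [eq_iff_rep]
    filter_upwards [rep_mul hG x 1, rep_one (G := G)] with k h1 h2
    rw [h1, h2]
    ring
  lt_irrefl x := by
    intro h
    rw [lt_iff_rep] at h
    exact uu_false (h.mono fun k hk => lt_irrefl _ hk)
  lt_trans x y z h h' := by
    rw [lt_iff_rep] at h h' ⊢
    filter_upwards [h, h'] with k h1 h2 using lt_trans h1 h2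
  lt_total x y := by
    have h : ∀ᶠ k in UU, rep x k < rep y k ∨ rep x k = rep y k ∨ rep y k < rep x k :=
      Filter.Eventually.of_forall fun k => lt_trichotomy _ _
    rw [uu_or, uu_or] at h
    rcases h with h | h | h
    · exact Or.inl h
    · exact Or.inr (Or.inl ((eq_iff_rep _ _).2 h))
    · exact Or.inr (Or.inr h)
  add_lt_add x y z h := by
    rw [lt_iff_rep] at h ⊢
    filter_upwards [h, rep_add hG x z, rep_add hG y z] with k h1 h2 h3
    rw [h2, h3]
    omega
  mul_lt_mul x y z h h' := by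
    rw [lt_iff_rep] at h h' ⊢
    filter_upwards [h, h', rep_mul hG x z, rep_mul hG y z, rep_zero (G := G)] with k h1 h2 h3 h4 h5
    rw [h3, h4]
    rw [h5] at h1
    exact Nat.mul_lt_mul_of_pos_right h2 h1
  exists_add x y h := by
    rw [lt_iff_rep] at h
    have hm := ms_sub hG (rep_ms y) (rep_ms x)
    refine ⟨mkD G (fun k => rep y k - rep x k), ?_⟩
    rw [eq_iff_rep]
    filter_upwards [h, rep_add hG x (mkD G (fun k => rep y k - rep x k)), rep_mkD hm]
      with k h1 h2 h3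
    rw [h2, h3]
    omega
  zero_lt_one := by
    rw [lt_iff_rep]
    filter_upwards [rep_zero (G := G), rep_one (G := G)] with k h1 h2
    rw [h1, h2]
    exact Nat.one_pos
  one_le x h := by
    rw [lt_iff_rep] at h
    have h' : ∀ᶠ k in UU, rep x k = rep (1 : MM G) k ∨ rep (1 : MM G) k < rep x k := by
      filter_upwards [h, rep_zero (G := G), rep_one (G := G)] with k h1 h2 h3
      rw [h2] at h1
      rw [h3]
      omega
    rw [uu_or] at h'
    rcases h' with h' | h'
    · exact Or.inl ((eq_iff_rep _ _).2 h')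
    · exact Or.inr h'
  zero_le x := by
    have h' : ∀ᶠ k in UU, rep x k = rep (0 : MM G) k ∨ rep (0 : MM G) k < rep x k := by
      filter_upwards [rep_zero (G := G)] with k h2
      rw [h2]
      omega
    rw [uu_or] at h'
    rcases h' with h' | h'
    · exact Or.inl ((eq_iff_rep _ _).2 h')
    · exact Or.inr h'
  exp2_zero := by
    rw [eq_iff_rep]
    filter_upwards [rep_exp2 (0 : MM G), rep_zero (G := G), rep_one (G := G)] with k h1 h2 h3
    rw [h1, h2, h3]
    rfl
  exp2_succ x := by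
    rw [eq_iff_rep]
    filter_upwards [rep_exp2 (x + 1), rep_add hG x 1, rep_one (G := G), rep_exp2 x,
      rep_add hG (Arith.exp2 x) (Arith.exp2 x)] with k h1 h2 h3 h4 h5
    rw [h1, h2, h3, h5, h4, pow_succ]
    ring

/-- a decidable predicate which holds at `0` and fails at `x` changes its value -/
private theorem exists_change {P : ℕ → Bool} {x : ℕ} (h0 : P 0 = true) (hx : P x = false) :
    ∃ y, y + 1 ≤ x ∧ P y = true ∧ P (y + 1) = false := by
  by_contra hcon
  push Not at hcon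
  have h : ∀ y, y ≤ x → P y = true := by
    intro y
    induction y with
    | zero => intro _; exact h0
    | succ y ih =>
      intro hy
      have := hcon y hy (ih (by omega))
      simpa using this
  rw [h x le_rfl] at hx
  exact absurd hx (by simp)

theorem iSigma1 (hG : Gen G) : ISigma1 (MM G) := by
  intro n φ v h0 hs x
  by_contra hcon
  rw [losS1 hG, uu_not] at hcon
  -- the parameters
  have hw : MsT G (fun k => fun i => rep (v i) k) := MsT.pi hG (fun i => rep_ms (v i))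
  obtain ⟨q, hq⟩ : ∃ q : ℕ → ℕ, q = fun k =>
      @Encodable.encode (Fin n → ℕ) Primcodable.toEncodable (fun i => rep (v i) k) := ⟨_, rfl⟩
  have hqm : Ms G q := by rw [hq]; exact hw
  have hR : REPred (fun p : ℕ × ℕ => S1 φ (acons p.1
      (((@Encodable.decode (Fin n → ℕ) Primcodable.toEncodable p.2).getD (fun _ => 0))))) := by
    have hc : Computable (fun p : ℕ × ℕ => (acons p.1
        (((@Encodable.decode (Fin n → ℕ) Primcodable.toEncodable p.2).getD (fun _ => 0))) :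
          Fin (n + 1) → ℕ)) := by
      have h1 : Primrec (fun p : ℕ × ℕ =>
          ((@Encodable.decode (Fin n → ℕ) Primcodable.toEncodable p.2).getD (fun _ => 0))) :=
        Primrec.option_getD.comp (Primrec.decode.comp Primrec.snd) (Primrec.const _)
      exact (primrec_acons.comp (Primrec.fst.pair h1)).to_comp
    exact re_comp (s1_re φ) hc
  obtain ⟨b, D, hb, hD, hbD⟩ := Ms.decide_below hG (rep_ms x) hqm hR
  have hbD' : ∀ᶠ k in UU, ∀ z ≤ rep x k, S1 φ (acons z (fun i => rep (v i) k)) ↔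
      D (z, q k, b k) = true := by
    refine hbD.mono fun k hk z hz => ?_
    rw [← hk z hz, hq]
    simp only [Encodable.encodek, Option.getD_some]
  -- existence of a change
  have hz : ∀ᶠ k in UU, S1 φ (acons 0 (fun i => rep (v i) k)) := by
    have h1 := (losS1 hG _ _).1 h0
    filter_upwards [h1, rep_zero (G := G)] with k h2 h3
    rw [rep_acons, h3] at h2
    exact h2
  have hx' : ∀ᶠ k in UU, ¬ S1 φ (acons (rep x k) (fun i => rep (v i) k)) := by
    refine hcon.mono fun k hk => ?_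
    rw [rep_acons] at hk
    exact hk
  have hex : ∀ᶠ k in UU, ∃ y : ℕ, (fun p : (ℕ × ℕ × ℕ) × ℕ => p.2 + 1 ≤ p.1.1 ∧
      D (p.2, p.1.2.1, p.1.2.2) = true ∧ D (p.2 + 1, p.1.2.1, p.1.2.2) = false)
      ((rep x k, q k, b k), y) := by
    filter_upwards [hz, hx', hbD'] with k h1 h2 h3
    refine exists_change (P := fun z => D (z, q k, b k)) ((h3 0 (Nat.zero_le _)).1 h1) ?_
    have h4 := (h3 (rep x k) le_rfl).not.1 h2
    simpa using h4
  have hRe : REPred (fun p : (ℕ × ℕ × ℕ) × ℕ => p.2 + 1 ≤ p.1.1 ∧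
      D (p.2, p.1.2.1, p.1.2.2) = true ∧ D (p.2 + 1, p.1.2.1, p.1.2.2) = false) := by
    refine re_of_dec (fun p : (ℕ × ℕ × ℕ) × ℕ => (decide (p.2 + 1 ≤ p.1.1) &&
      D (p.2, p.1.2.1, p.1.2.2)) && !D (p.2 + 1, p.1.2.1, p.1.2.2)) ?_ (fun p => by simp; tauto)
    have c1 : Computable (fun p : (ℕ × ℕ × ℕ) × ℕ => decide (p.2 + 1 ≤ p.1.1)) := by
      obtain ⟨_, h⟩ := Primrec.nat_le.comp (Primrec.succ.comp (Primrec.snd (α := ℕ × ℕ × ℕ)
        (β := ℕ))) (Primrec.fst.comp Primrec.fst)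
      refine h.to_comp.of_eq fun p => ?_
      simp
    have p1 : Computable (fun p : (ℕ × ℕ × ℕ) × ℕ => p.1.2.1) :=
      (Primrec.fst.comp (Primrec.snd.comp Primrec.fst)).to_comp
    have p2 : Computable (fun p : (ℕ × ℕ × ℕ) × ℕ => p.1.2.2) :=
      (Primrec.snd.comp (Primrec.snd.comp Primrec.fst)).to_comp
    have c2 : Computable (fun p : (ℕ × ℕ × ℕ) × ℕ => D (p.2, p.1.2.1, p.1.2.2)) :=
      hD.comp (Computable.snd.pair (p1.pair p2))
    have c3 : Computable (fun p : (ℕ × ℕ × ℕ) × ℕ => D (p.2 + 1, p.1.2.1, p.1.2.2)) :=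
      hD.comp ((Computable.succ.comp Computable.snd).pair (p1.pair p2))
    have a1 : Computable₂ (fun a b : Bool => a && b) := Primrec.and.to_comp
    have a2 : Computable (fun a : Bool => !a) := Primrec.not.to_comp
    exact a1.comp (a1.comp c1 c2) (a2.comp c3)
  obtain ⟨y, hy, hy2⟩ := MsT.wit hG (MsT.prod hG (msT_nat.2 (rep_ms x))
    (MsT.prod hG (msT_nat.2 hqm) (msT_nat.2 hb))) hRe hex
  have hym : Ms G y := msT_nat.1 hy
  -- the step
  have h1 : S1 φ (acons (mkD G y) v) := by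
    rw [losS1 hG]
    filter_upwards [hy2, rep_mkD hym, hbD'] with k k1 k2 k3
    rw [rep_acons, k2, k3 (y k) (by have := k1.1; omega)]
    exact k1.2.1
  have h2 := hs _ h1
  rw [losS1 hG] at h2
  refine uu_false ?_
  filter_upwards [h2, hy2, rep_mkD hym, hbD', rep_add hG (mkD G y) 1, rep_one (G := G)]
    with k k1 k2 k3 k4 k5 k6
  rw [rep_acons, k5, k3, k6, k4 (y k + 1) k2.1] at k1
  have k7 := k2.2.2
  rw [k7] at k1
  exact absurd k1 (by simp)

end Pool.Agent.Lib.MP_53c40f_lc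
end
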