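import Pool.Agent.Lib.MP_53c40f_lc.Mg.G002
import Pool.Agent.Lib.MP_53c40f_lc.Mg.G003

section

/-!
# The c.e. sets `A` and `K` of the final model, and certificates
-/

set_option autoImplicit false
set_option linter.unusedSectionVars false

namespace Pool.Agent.Lib.MP_53c40f_lc

open Filter

/-- `x = ⟨j, y⟩` belongs to `A` in fibre `c` if `y < h c s j` for some stage `s` -/
def RA (a : ℕ × ℕ) : Prop := ∃ s, a.1.unpair.2 < h a.2 s a.1.unpair.1

/-- the complete r.e. set -/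
def RK (a : ℕ × ℕ) : Prop := halt a.1.unpair.1 a.1.unpair.2

theorem re_RA : REPred RA := by
  have h1 : REPred (fun x : (ℕ × ℕ) × ℕ => x.1.1.unpair.2 < h x.1.2 x.2 x.1.1.unpair.1) := by
    refine re_of_primrecPred ?_
    have u : Primrec (fun x : (ℕ × ℕ) × ℕ => x.1.1.unpair) :=
      Primrec.unpair.comp (Primrec.fst.comp Primrec.fst)
    have a : Primrec (fun x : (ℕ × ℕ) × ℕ => h x.1.2 x.2 x.1.1.unpair.1) :=
      primrec_h.comp ((Primrec.snd.comp Primrec.fst).pair (Primrec.snd.pair (Primrec.fst.comp u)))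
    exact Primrec.nat_lt.comp (Primrec.snd.comp u) a
  exact re_ex h1

theorem re_RK : REPred RK := by
  have u : Primrec (fun x : ℕ × ℕ => x.1.unpair) := Primrec.unpair.comp Primrec.fst
  exact re_comp (f := fun x : ℕ × ℕ => (x.1.unpair.1, x.1.unpair.2)) re_halt
    ((Primrec.fst.comp u).pair (Primrec.snd.comp u)).to_comp

theorem RA_iff (x c : ℕ) : RA (x, c) ↔ x.unpair.2 < hf c x.unpair.1 := by
  constructor
  · rintro ⟨s, hs⟩
    exact lt_of_lt_of_le hs (h_le_hf c s _)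
  · intro hx
    obtain ⟨S, hS⟩ := hf_eq c x.unpair.1
    exact ⟨S, by
      show x.unpair.2 < h c S x.unpair.1
      rw [hS S le_rfl]
      exact hx⟩

/-- the c.e. set `A` of the model -/
def Aset (Γ : Ctx) (p : ℕ → ℕ → ℕ) : Set (MM (GG Γ p)) := RS (GG Γ p) RA Γ.c

/-- the complete c.e. set of the model -/
def Kset (Γ : Ctx) (p : ℕ → ℕ → ℕ) : Set (MM (GG Γ p)) := RS (GG Γ p) RK (fun _ => 0)

section

variable (Γ : Ctx) (p : ℕ → ℕ → ℕ) (hp : ∀ m k, p m k ≤ Γ.c k)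

include hp

theorem ms_hist (j : ℕ) : MsT (GG Γ p) (fun k => hist (Γ.c k) j) := by
  refine ⟨j, fun x => x.unpair.1, (Primrec.fst.comp Primrec.unpair).to_comp,
    Filter.Eventually.of_forall fun k => ?_⟩
  simp only [GG, Nat.unpair_pair]

theorem ms_qq (m : ℕ) : Ms (GG Γ p) (qq Γ.c p m) := by
  refine ⟨m, fun x => x.unpair.2, (Primrec.snd.comp Primrec.unpair).to_comp,
    Filter.Eventually.of_forall fun k => ?_⟩
  simp only [GG, Nat.unpair_pair]

theorem ms_p (m : ℕ) : Ms (GG Γ p) (p m) := by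
  refine ⟨m + 1, fun x => x.unpair.2.unpair.2, (Primrec.snd.comp (Primrec.unpair.comp
    (Primrec.snd.comp Primrec.unpair))).to_comp, Filter.Eventually.of_forall fun k => ?_⟩
  simp only [GG, qq, Nat.unpair_pair]

theorem ms_c : Ms (GG Γ p) Γ.c := by
  refine ⟨0, fun x => x.unpair.2, (Primrec.snd.comp Primrec.unpair).to_comp,
    Filter.Eventually.of_forall fun k => ?_⟩
  simp only [GG, qq, Nat.unpair_pair]

theorem ms_H (i : ℕ) : Ms (GG Γ p) (fun k => H (Γ.c k) i) := by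
  have h1 := (ms_hist Γ p hp (Γ.bt i + 1)).comp (f := fun l : List ℕ => l.getD (Γ.bt i) 0)
    ((Primrec.list_getD 0).comp Primrec.id (Primrec.const (Γ.bt i))).to_comp
  refine (msT_nat.1 h1).congr ?_
  refine (H_eq_hf Γ i).mono fun k hk => ?_
  rw [hk, hist_getD (Nat.lt_succ_self _)]

/-- every element of the model is bounded by the value of some level -/
theorem ms_bounded {x : ℕ → ℕ} (hx : Ms (GG Γ p) x) : ∃ i, ∀ᶠ k in UU, x k ≤ H (Γ.c k) i := by
  obtain ⟨n, f, hf, hxf⟩ := hx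
  obtain ⟨i1, h1⟩ := hist_bound Γ n
  obtain ⟨i2, h2⟩ := qq_bound Γ p hp n
  obtain ⟨e1, g1⟩ := growth₂ (f := Nat.pair) (Primrec₂.natPair.to_comp)
  obtain ⟨e2, g2⟩ := growth hf
  refine ⟨i1 + i2 + e1 + e2 + 1 + 1, ?_⟩
  filter_upwards [hxf, h1, h2] with k k1 k2 k3
  have m1 : H (Γ.c k) i1 ≤ H (Γ.c k) (i1 + i2 + e1 + e2) := H_mono _ (by omega)
  have m2 : H (Γ.c k) i2 ≤ H (Γ.c k) (i1 + i2 + e1 + e2) := H_mono _ (by omega)
  have a1 := g1 (i1 + i2 + e1 + e2) (by omega) (Γ.c k) _ _ (k2.trans m1) (k3.trans m2)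
  have a2 := g2 (i1 + i2 + e1 + e2 + 1) (by omega) (Γ.c k) _ a1.le
  rw [k1]
  exact a2.le

/-- negative information about `A` only concerns standard columns -/
theorem neg_info (N : MM (GG Γ p)) (hN : Disj N (Aset Γ p)) :
    ∃ j, ∀ᶠ k in UU, ∀ x, (rep N k).testBit x = true →
      x.unpair.1 < j ∧ hf (Γ.c k) x.unpair.1 ≤ x.unpair.2 := by
  have h1 := (disj_iff (gen_GG Γ p hp) re_RA (ms_c Γ p hp) N).1 hN
  obtain ⟨i, hi⟩ := ms_bounded Γ p hp (rep_ms N)
  refine ⟨Γ.bt i, ?_⟩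
  filter_upwards [h1, hi, H_eq_hf Γ i] with k k1 k2 k3 x hx
  have h2 : hf (Γ.c k) x.unpair.1 ≤ x.unpair.2 := by
    have := k1 x hx
    rw [RA_iff] at this
    exact not_lt.1 this
  refine ⟨?_, h2⟩
  have h3 : x < rep N k := lt_of_lt_of_le Nat.lt_two_pow_self (Nat.ge_two_pow_of_testBit hx)
  by_contra hcon
  have h4 := hf_mono (Γ.c k) (not_lt.1 hcon)
  have h5 := Nat.unpair_right_le x
  omega

theorem disj_A_iff (N : MM (GG Γ p)) : Disj N (Aset Γ p) ↔
    ∀ᶠ k in UU, ∀ x, (rep N k).testBit x = true → hf (Γ.c k) x.unpair.1 ≤ x.unpair.2 := by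
  refine (disj_iff (gen_GG Γ p hp) re_RA (ms_c Γ p hp) N).trans ?_
  refine eventually_congr (Filter.Eventually.of_forall fun k => ?_)
  refine forall_congr' fun x => imp_congr Iff.rfl ?_
  rw [RA_iff, not_lt]

theorem sub_A_iff (P : MM (GG Γ p)) : Sub P (Aset Γ p) ↔
    ∀ᶠ k in UU, ∀ x, (rep P k).testBit x = true → x.unpair.2 < hf (Γ.c k) x.unpair.1 := by
  refine (sub_iff (gen_GG Γ p hp) re_RA (ms_c Γ p hp) P).trans ?_
  refine eventually_congr (Filter.Eventually.of_forall fun k => ?_)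
  exact forall_congr' fun x => imp_congr Iff.rfl (RA_iff _ _)

end

end Pool.Agent.Lib.MP_53c40f_lc
end

section

/-!
# Certificates, settling functions, indices of c.e. sets
-/

set_option autoImplicit false

namespace Pool.Agent.Lib.MP_53c40f_lc

open Filter

/-- the codes `P`, `N` contain enough information about `A` to see that `ys` is an initial segment
of the final values -/
def Cert (P N : ℕ) (ys : List ℕ) : Prop :=
  (∀ a < ys.length, N.testBit (Nat.pair a (ys.getD a 0)) = true) ∧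
  ∀ a < ys.length, ∀ y < ys.getD a 0, P.testBit (Nat.pair a y) = true

theorem sg27_pow : Primrec (fun n : ℕ => 2 ^ n) := by
  refine (Primrec.nat_rec₁ 1 (f := fun _ y => y + y)
    (Primrec.nat_add.comp Primrec.snd Primrec.snd)).of_eq ?_
  intro n
  induction n with
  | zero => rfl
  | succ n ih =>
    show _ + _ = _
    rw [ih, pow_succ]
    ring

theorem sg27_testBit : Primrec (fun a : ℕ × ℕ => a.1.testBit a.2) := by
  have h : PrimrecPred (fun a : ℕ × ℕ => a.1 / 2 ^ a.2 % 2 = 1) :=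
    Primrec.eq.comp (Primrec.nat_mod.comp (Primrec.nat_div.comp Primrec.fst
      (sg27_pow.comp Primrec.snd)) (Primrec.const 2)) (Primrec.const 1)
  obtain ⟨hd, h'⟩ := h
  refine h'.of_eq fun a => ?_
  rw [Nat.testBit_eq_decide_div_mod_eq]
  congr

theorem re_Cert : REPred (fun a : ℕ × ℕ × List ℕ => Cert a.1 a.2.1 a.2.2) := by
  unfold Cert
  refine re_and ?_ ?_
  · have h1 : Primrec (fun b : (ℕ × ℕ × List ℕ) × ℕ =>
        b.1.2.1.testBit (Nat.pair b.2 (b.1.2.2.getD b.2 0))) := by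
      refine sg27_testBit.comp ((Primrec.fst.comp (Primrec.snd.comp Primrec.fst)).pair ?_)
      exact Primrec₂.natPair.comp Primrec.snd
        ((Primrec.list_getD 0).comp (Primrec.snd.comp (Primrec.snd.comp Primrec.fst)) Primrec.snd)
    have h2 : REPred (fun b : (ℕ × ℕ × List ℕ) × ℕ =>
        b.1.2.1.testBit (Nat.pair b.2 (b.1.2.2.getD b.2 0)) = true) :=
      re_of_dec _ h1.to_comp fun a => Iff.rfl
    exact re_ball h2 (f := fun a : ℕ × ℕ × List ℕ => a.2.2.length)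
      (Primrec.list_length.comp (Primrec.snd.comp Primrec.snd)).to_comp
  · have h1 : Primrec (fun b : ((ℕ × ℕ × List ℕ) × ℕ) × ℕ =>
        b.1.1.1.testBit (Nat.pair b.1.2 b.2)) := by
      refine sg27_testBit.comp ((Primrec.fst.comp (Primrec.fst.comp Primrec.fst)).pair ?_)
      exact Primrec₂.natPair.comp (Primrec.snd.comp Primrec.fst) Primrec.snd
    have h2 : REPred (fun b : ((ℕ × ℕ × List ℕ) × ℕ) × ℕ =>
        b.1.1.1.testBit (Nat.pair b.1.2 b.2) = true) :=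
      re_of_dec _ h1.to_comp fun a => Iff.rfl
    have h3 := re_ball h2 (f := fun b : (ℕ × ℕ × List ℕ) × ℕ => b.1.2.2.getD b.2 0)
      ((Primrec.list_getD 0).comp (Primrec.snd.comp (Primrec.snd.comp Primrec.fst))
        Primrec.snd).to_comp
    exact re_ball h3 (f := fun a : ℕ × ℕ × List ℕ => a.2.2.length)
      (Primrec.list_length.comp (Primrec.snd.comp Primrec.snd)).to_comp

theorem sg27_add_pow {r n : ℕ} (h : r.testBit n = false) (x : ℕ) :
    (r + 2 ^ n).testBit x = (r.testBit x || decide (x = n)) := by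
  have h1 : r / 2 ^ n % 2 = 0 := by
    rw [Nat.testBit_eq_decide_div_mod_eq, decide_eq_false_iff_not] at h
    omega
  rcases lt_trichotomy x n with hi | hi | hi
  · rw [add_comm, Nat.testBit_two_pow_add_gt hi]
    simp [hi.ne]
  · subst hi
    rw [add_comm, Nat.testBit_two_pow_add_eq, h]
    simp
  · obtain ⟨j, rfl⟩ := Nat.exists_eq_add_of_lt hi
    have h2 : n + j + 1 = j + (n + 1) := by ring
    rw [h2, Nat.testBit_add, Nat.testBit_add]
    have h3 : (r + 2 ^ n) / 2 ^ (n + 1) = r / 2 ^ (n + 1) := by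
      rw [pow_succ, ← Nat.div_div_eq_div_mul, ← Nat.div_div_eq_div_mul,
        Nat.add_div_right _ (by positivity)]
      omega
    rw [h3]
    have h4 : ¬ (j + (n + 1) = n) := by omega
    simp [h4]

/-- codes of finite sets are computable -/
theorem sg27_code : ∃ f : List ℕ → ℕ, Computable f ∧ ∀ l x, (f l).testBit x = true ↔ x ∈ l := by
  refine ⟨fun l => l.foldr (fun i r => bif r.testBit i then r else r + 2 ^ i) 0, ?_, ?_⟩
  · have hstep : Primrec₂ (fun (_ : List ℕ) (p : ℕ × ℕ) =>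
        bif p.2.testBit p.1 then p.2 else p.2 + 2 ^ p.1) := by
      refine Primrec.cond ?_ ?_ ?_
      · exact sg27_testBit.comp ((Primrec.snd.comp Primrec.snd).pair
          (Primrec.fst.comp Primrec.snd))
      · exact Primrec.snd.comp Primrec.snd
      · exact Primrec.nat_add.comp (Primrec.snd.comp Primrec.snd)
          (sg27_pow.comp (Primrec.fst.comp Primrec.snd))
    exact (Primrec.list_foldr Primrec.id (Primrec.const 0) hstep).to_comp
  · intro l x
    induction l with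
    | nil => simp
    | cons i l ih =>
      simp only [List.foldr_cons, List.mem_cons]
      set r := l.foldr (fun i r => bif r.testBit i then r else r + 2 ^ i) 0 with hr
      cases h : r.testBit i with
      | true =>
        simp only [cond_true]
        rw [ih]
        constructor
        · exact Or.inr
        · rintro (h1 | h1)
          · subst h1
            exact ih.1 h
          · exact h1
      | false =>
        simp only [cond_false]
        rw [sg27_add_pow h, Bool.or_eq_true, decide_eq_true_eq, ih]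
        tauto

/-- the list of the pairs `⟨a, y⟩` with `y < l a` -/
def sg27_L (l : List ℕ) : List ℕ :=
  (List.range l.length).flatMap fun a => (List.range (l.getD a 0)).map fun y => Nat.pair a y

theorem sg27_L_comp : Computable sg27_L := by
  have h1 : Primrec₂ (fun (l : List ℕ) (a : ℕ) =>
      (List.range (l.getD a 0)).map fun y => Nat.pair a y) := by
    refine Primrec.list_map (Primrec.list_range.comp ((Primrec.list_getD 0).comp Primrec.fst
      Primrec.snd)) ?_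
    exact Primrec₂.natPair.comp (Primrec.snd.comp Primrec.fst) Primrec.snd
  exact (Primrec.list_flatMap (Primrec.list_range.comp Primrec.list_length) h1).to_comp

theorem sg27_mem_L (l : List ℕ) (x : ℕ) :
    x ∈ sg27_L l ↔ x.unpair.1 < l.length ∧ x.unpair.2 < l.getD x.unpair.1 0 := by
  unfold sg27_L
  simp only [List.mem_flatMap, List.mem_range, List.mem_map]
  constructor
  · rintro ⟨a, ha, y, hy, rfl⟩
    simp only [Nat.unpair_pair]
    exact ⟨ha, hy⟩
  · rintro ⟨h1, h2⟩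
    exact ⟨_, h1, _, h2, Nat.pair_unpair x⟩

/-- the list of the pairs `⟨a, l a⟩` -/
def sg27_M (l : List ℕ) : List ℕ :=
  (List.range l.length).map fun a => Nat.pair a (l.getD a 0)

theorem sg27_M_comp : Computable sg27_M := by
  refine (Primrec.list_map (Primrec.list_range.comp Primrec.list_length) ?_).to_comp
  exact Primrec₂.natPair.comp Primrec.snd ((Primrec.list_getD 0).comp Primrec.fst Primrec.snd)

theorem sg27_mem_M (l : List ℕ) (x : ℕ) :
    x ∈ sg27_M l ↔ x.unpair.1 < l.length ∧ x.unpair.2 = l.getD x.unpair.1 0 := by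
  unfold sg27_M
  simp only [List.mem_range, List.mem_map]
  constructor
  · rintro ⟨a, ha, rfl⟩
    simp only [Nat.unpair_pair, and_true]
    exact ha
  · rintro ⟨h1, h2⟩
    exact ⟨_, h1, by rw [← h2, Nat.pair_unpair]⟩

section

variable (Γ : Ctx) (p : ℕ → ℕ → ℕ) (hp : ∀ m k, p m k ≤ Γ.c k)

include hp

/-- certificates exist for all standard lengths -/
theorem cert_exists (J : ℕ) : ∃ P N : MM (GG Γ p), Sub P (Aset Γ p) ∧ Disj N (Aset Γ p) ∧
    ∀ᶠ k in UU, Cert (rep P k) (rep N k) (hist (Γ.c k) J) := by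
  obtain ⟨f, hf, hmem⟩ := sg27_code
  have hP : Ms (GG Γ p) (fun k => f (sg27_L (hist (Γ.c k) J))) := by
    rw [← msT_nat]
    exact ((ms_hist Γ p hp J).comp sg27_L_comp).comp hf
  have hN : Ms (GG Γ p) (fun k => f (sg27_M (hist (Γ.c k) J))) := by
    rw [← msT_nat]
    exact ((ms_hist Γ p hp J).comp sg27_M_comp).comp hf
  refine ⟨mkD (GG Γ p) (fun k => f (sg27_L (hist (Γ.c k) J))),
    mkD (GG Γ p) (fun k => f (sg27_M (hist (Γ.c k) J))), ?_, ?_, ?_⟩
  · rw [sub_A_iff Γ p hp]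
    filter_upwards [rep_mkD hP] with k h1
    intro x hx
    rw [h1, hmem, sg27_mem_L, hist_length] at hx
    obtain ⟨h2, h3⟩ := hx
    rwa [hist_getD h2] at h3
  · rw [disj_A_iff Γ p hp]
    filter_upwards [rep_mkD hN] with k h1
    intro x hx
    rw [h1, hmem, sg27_mem_M, hist_length] at hx
    obtain ⟨h2, h3⟩ := hx
    rw [hist_getD h2] at h3
    exact h3.ge
  · filter_upwards [rep_mkD hP, rep_mkD hN] with k h1 h2
    rw [h1, h2]
    constructor
    · intro a ha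
      rw [hmem, sg27_mem_M]
      simp only [Nat.unpair_pair, and_true]
      exact ha
    · intro a ha y hy
      rw [hmem, sg27_mem_L]
      simp only [Nat.unpair_pair]
      exact ⟨ha, hy⟩

/-- certificates are correct -/
theorem cert_sound (P N : MM (GG Γ p)) (hP : Sub P (Aset Γ p)) (hN : Disj N (Aset Γ p))
    (ys : ℕ → List ℕ) (h : ∀ᶠ k in UU, Cert (rep P k) (rep N k) (ys k)) :
    ∃ J, ∀ᶠ k in UU, ys k = hist (Γ.c k) J := by
  obtain ⟨j, hj⟩ := neg_info Γ p hp N hN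
  have hlen : ∀ᶠ k in UU, (ys k).length ≤ j := by
    filter_upwards [hj, h] with k h1 h2
    by_contra hcon
    have h3 := (h1 _ (h2.1 j (by omega))).1
    simp only [Nat.unpair_pair] at h3
    omega
  obtain ⟨J, -, hJ⟩ := uu_const hlen
  refine ⟨J, ?_⟩
  filter_upwards [hJ, hj, h, (sub_A_iff Γ p hp P).1 hP] with k h1 h2 h3 h4
  apply List.ext_getElem
  · rw [h1, hist_length]
  · intro a ha ha'
    have h5 := (h2 _ (h3.1 a ha)).2
    simp only [Nat.unpair_pair] at h5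
    have h6 : ¬ hf (Γ.c k) a < (ys k).getD a 0 := by
      intro hlt
      have h7 := h4 _ (h3.2 a ha _ hlt)
      simp only [Nat.unpair_pair] at h7
      omega
    have h8 : (ys k).getD a 0 = (ys k)[a] := by
      simp [List.getD, ha]
    rw [h8] at h5 h6
    have h9 : (hist (Γ.c k) J)[a] = hf (Γ.c k) a := by
      simp [hist]
    rw [h9]
    omega

end

/-- settling function of a c.e. set with index `e` and parameter `r` -/
noncomputable def Xf (Γ : Ctx) (e : ℕ) (r : ℕ → ℕ) (n : ℕ) : ℕ :=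
  sInf {j | ∀ᶠ k in UU, ∀ x < hf (Γ.c k) n, halt e (Nat.pair x (r k)) →
    haltN (hf (Γ.c k) j) e (Nat.pair x (r k)) = true}

theorem Xf_spec (Γ : Ctx) (p : ℕ → ℕ → ℕ) (hp : ∀ m k, p m k ≤ Γ.c k) (e : ℕ) {r : ℕ → ℕ}
    (hr : Ms (GG Γ p) r) (n : ℕ) :
    (∀ᶠ k in UU, ∀ x < hf (Γ.c k) n, halt e (Nat.pair x (r k)) →
      haltN (hf (Γ.c k) (Xf Γ e r n)) e (Nat.pair x (r k)) = true) ∧
    ∀ j < Xf Γ e r n, ∀ᶠ k in UU, ∃ x < hf (Γ.c k) n, halt e (Nat.pair x (r k)) ∧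
      haltN (hf (Γ.c k) j) e (Nat.pair x (r k)) = false := by
  have hne : {j | ∀ᶠ k in UU, ∀ x < hf (Γ.c k) n, halt e (Nat.pair x (r k)) →
      haltN (hf (Γ.c k) j) e (Nat.pair x (r k)) = true}.Nonempty := by
    obtain ⟨i0, hi0⟩ := ms_bounded Γ p hp hr
    obtain ⟨e', he'⟩ := growth₂ (f := Nat.pair) Primrec₂.natPair.to_comp
    set i := max (max n i0) (max e e') with hi
    refine ⟨Γ.bt (i + 2), ?_⟩
    show ∀ᶠ k in UU, _
    filter_upwards [hi0, H_eq_hf Γ i, H_eq_hf Γ (i + 2)] with k h1 h2 h3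
    intro x hx hh
    rw [← h3]
    have h4 : x ≤ H (Γ.c k) i := by
      rw [h2]
      refine hx.le.trans (hf_mono _ ?_)
      have h5 : n ≤ i := by omega
      exact h5.trans ((bt_mono Γ).le_apply)
    have h5 : r k ≤ H (Γ.c k) i := h1.trans (H_mono _ (by omega))
    have h6 := he' i (by omega) (Γ.c k) x (r k) h4 h5
    exact H_close (Γ.c k) (i + 1) e _ (by omega) h6.le hh
  constructor
  · exact Nat.sInf_mem hne
  · intro j hj
    have h1 := Nat.notMem_of_lt_sInf hj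
    have h2 : ¬ ∀ᶠ k in UU, ∀ x < hf (Γ.c k) n, halt e (Nat.pair x (r k)) →
      haltN (hf (Γ.c k) j) e (Nat.pair x (r k)) = true := h1
    rw [uu_not] at h2
    filter_upwards [h2] with k h3
    push Not at h3
    obtain ⟨x, hx, h4, h5⟩ := h3
    exact ⟨x, hx, h4, by simpa using h5⟩

/-- the c.e. set with index `e` and parameter `r` -/
def Cset (Γ : Ctx) (p : ℕ → ℕ → ℕ) (e : ℕ) (r : ℕ → ℕ) : Set (MM (GG Γ p)) :=
  RS (GG Γ p) (fun a => halt e (Nat.pair a.1 a.2)) r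

theorem re_Cset (e : ℕ) : REPred (fun a : ℕ × ℕ => halt e (Nat.pair a.1 a.2)) := by
  have h1 : Computable (fun a : ℕ × ℕ => ((e, Nat.pair a.1 a.2) : ℕ × ℕ)) :=
    ((Primrec.const e).pair (Primrec₂.natPair.comp Primrec.fst Primrec.snd)).to_comp
  exact re_comp re_halt h1

theorem ce_index (Γ : Ctx) (p : ℕ → ℕ → ℕ) (hp : ∀ m k, p m k ≤ Γ.c k) {C : Set (MM (GG Γ p))}
    (hC : CE C) : ∃ e n, C = Cset Γ p e (GG Γ p n) := by
  obtain ⟨R, q, hR, ⟨n, f, hf, hq⟩, rfl⟩ := ce_iff (gen_GG Γ p hp) hC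
  have h1 : Computable (fun u : ℕ => ((u.unpair.1, f u.unpair.2) : ℕ × ℕ)) :=
    (Primrec.fst.comp Primrec.unpair).to_comp.pair
      (hf.comp (Primrec.snd.comp Primrec.unpair).to_comp)
  obtain ⟨e, he⟩ := re_index (re_comp hR h1)
  refine ⟨e, n, ?_⟩
  ext x
  show (∀ᶠ k in UU, R (rep x k, q k)) ↔ ∀ᶠ k in UU, halt e (Nat.pair (rep x k) (GG Γ p n k))
  have h2 : ∀ k, R (rep x k, f (GG Γ p n k)) ↔ halt e (Nat.pair (rep x k) (GG Γ p n k)) := by
    intro k
    have h3 := he (Nat.pair (rep x k) (GG Γ p n k))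
    simp only [Nat.unpair_pair, Encodable.encode_nat] at h3
    exact h3
  constructor
  · intro h
    filter_upwards [h, hq] with k h3 h4
    rw [← h2, ← h4]
    exact h3
  · intro h
    filter_upwards [h, hq] with k h3 h4
    rw [h4, h2]
    exact h3

end Pool.Agent.Lib.MP_53c40f_lc
end

section

/-!
# `K` is complete
-/

set_option autoImplicit false

namespace Pool.Agent.Lib.MP_53c40f_lc

open Filter

namespace FinA

theorem pow2_computable : Computable (fun n : ℕ => 2 ^ n) := by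
  have h : Primrec₂ ((· ^ ·) : ℕ → ℕ → ℕ) := Primrec₂.unpaired'.1 Nat.Primrec.pow
  exact (h.comp (Primrec.const 2) Primrec.id).to_comp

theorem lt_of_testBit {F x : ℕ} (h : F.testBit x = true) : x < F :=
  lt_of_lt_of_le Nat.lt_two_pow_self (Nat.ge_two_pow_of_testBit h)

theorem testBit_computable : Primrec (fun a : ℕ × ℕ => a.1.testBit a.2) := by
  have hpow : Primrec₂ ((· ^ ·) : ℕ → ℕ → ℕ) := Primrec₂.unpaired'.1 Nat.Primrec.pow
  have h1 : Primrec (fun a : ℕ × ℕ => a.1 / 2 ^ a.2 % 2) :=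
    Primrec.nat_mod.comp (Primrec.nat_div.comp Primrec.fst
      (hpow.comp (Primrec.const 2) Primrec.snd)) (Primrec.const 2)
  have h2 : Primrec (fun a : ℕ × ℕ => (a.1 / 2 ^ a.2 % 2) == 1) :=
    Primrec.beq.comp h1 (Primrec.const 1)
  refine h2.of_eq fun a => ?_
  rw [Nat.testBit_eq_decide_div_mod_eq]
  rfl

theorem re_all {R : ℕ × ℕ → Prop} (hR : REPred R) :
    REPred (fun a : ℕ × ℕ => ∀ x < a.1, (a.1.testBit x = false ∨ R (x, a.2))) := by
  have h1 : REPred (fun b : (ℕ × ℕ) × ℕ => b.1.1.testBit b.2 = false ∨ R (b.2, b.1.2)) := by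
    refine re_or ?_ ?_
    · refine re_of_dec (fun b : (ℕ × ℕ) × ℕ => !(b.1.1.testBit b.2)) ?_ (fun b => by simp)
      exact (Primrec.not.comp (testBit_computable.comp
        ((Primrec.fst.comp Primrec.fst).pair Primrec.snd))).to_comp
    · exact re_comp hR (f := fun b : (ℕ × ℕ) × ℕ => (b.2, b.1.2))
        (Computable.snd.pair (Computable.snd.comp Computable.fst))
  exact re_ball h1 Computable.fst

theorem re_some {R : ℕ × ℕ → Prop} (hR : REPred R) :
    REPred (fun a : ℕ × ℕ => ∃ x : ℕ, (a.1.testBit x = true ∧ R (x, a.2))) := by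
  have h1 : REPred (fun b : (ℕ × ℕ) × ℕ => b.1.1.testBit b.2 = true ∧ R (b.2, b.1.2)) := by
    refine re_and ?_ ?_
    · refine re_of_dec (fun b : (ℕ × ℕ) × ℕ => b.1.1.testBit b.2) ?_ (fun b => Iff.rfl)
      exact (testBit_computable.comp
        ((Primrec.fst.comp Primrec.fst).pair Primrec.snd)).to_comp
    · exact re_comp hR (f := fun b : (ℕ × ℕ) × ℕ => (b.2, b.1.2))
        (Computable.snd.pair (Computable.snd.comp Computable.fst))
  exact re_ex h1

theorem re_W {z1 z0 : ℕ × ℕ → ℕ} (h1 : Computable z1) (h0 : Computable z0) :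
    REPred (fun a : ℕ × ℕ × ℕ × ℕ × ℕ =>
      (a.2.1 = 1 ∧ a.2.2.1 = 2 ^ z1 (a.1, a.2.2.2.2)) ∨
      (a.2.1 = 0 ∧ a.2.2.2.1 = 2 ^ z0 (a.1, a.2.2.2.2))) := by
  have hF : Computable (fun a : ℕ × ℕ × ℕ × ℕ × ℕ => a.1) := Computable.fst
  have hi : Computable (fun a : ℕ × ℕ × ℕ × ℕ × ℕ => a.2.1) := Computable.fst.comp Computable.snd
  have hP : Computable (fun a : ℕ × ℕ × ℕ × ℕ × ℕ => a.2.2.1) :=
    Computable.fst.comp (Computable.snd.comp Computable.snd)
  have hN : Computable (fun a : ℕ × ℕ × ℕ × ℕ × ℕ => a.2.2.2.1) :=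
    Computable.fst.comp (Computable.snd.comp (Computable.snd.comp Computable.snd))
  have hq : Computable (fun a : ℕ × ℕ × ℕ × ℕ × ℕ => a.2.2.2.2) :=
    Computable.snd.comp (Computable.snd.comp (Computable.snd.comp Computable.snd))
  have heq : Computable₂ (fun x y : ℕ => x == y) := Primrec.beq.to_comp
  have hand : Computable₂ (fun x y : Bool => x && y) := Primrec.and.to_comp
  refine re_or ?_ ?_
  · refine re_of_dec (fun a : ℕ × ℕ × ℕ × ℕ × ℕ =>
      (a.2.1 == 1) && (a.2.2.1 == 2 ^ z1 (a.1, a.2.2.2.2))) ?_ (fun a => by simp)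
    exact hand.comp (heq.comp hi (Computable.const 1))
      (heq.comp hP (pow2_computable.comp (h1.comp (hF.pair hq))))
  · refine re_of_dec (fun a : ℕ × ℕ × ℕ × ℕ × ℕ =>
      (a.2.1 == 0) && (a.2.2.2.1 == 2 ^ z0 (a.1, a.2.2.2.2))) ?_ (fun a => by simp)
    exact hand.comp (heq.comp hi (Computable.const 0))
      (heq.comp hN (pow2_computable.comp (h0.comp (hF.pair hq))))

end FinA

theorem red_K (Γ : Ctx) (p : ℕ → ℕ → ℕ) (hp : ∀ m k, p m k ≤ Γ.c k) {C : Set (MM (GG Γ p))}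
    (hC : CE C) : Red C (Kset Γ p) := by
  have hG := gen_GG Γ p hp
  obtain ⟨R, q, hR, hq, rfl⟩ := ce_iff hG hC
  obtain ⟨z1, hz1, hz1'⟩ := re_smn (FinA.re_all hR)
  obtain ⟨z0, hz0, hz0'⟩ := re_smn (FinA.re_some hR)
  have hc0 : Ms (GG Γ p) (fun _ => 0) := (MsT.const (G := GG Γ p) (0 : ℕ))
  have hzero : ∀ᶠ k in UU, rep (mkD (GG Γ p) (fun _ => 0)) k = 0 := rep_mkD hc0
  have hms : ∀ (z : ℕ × ℕ → ℕ), Computable z → ∀ F : MM (GG Γ p),
      Ms (GG Γ p) (fun k => 2 ^ z (rep F k, q k)) := by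
    intro z hz F
    have h1 : MsT (GG Γ p) (fun k => (rep F k, q k)) :=
      MsT.prod hG (msT_nat.2 (rep_ms F)) (msT_nat.2 hq)
    exact msT_nat.1 (h1.comp (FinA.pow2_computable.comp hz))
  have hsub : ∀ F : MM (GG Γ p), Sub F (RS (GG Γ p) R q) ↔
      ∀ᶠ k in UU, RK (z1 (rep F k, q k), 0) := by
    intro F
    rw [sub_iff hG hR hq]
    refine eventually_congr (Eventually.of_forall fun k => ?_)
    have h2 := hz1' (rep F k, q k)
    show _ ↔ halt (z1 (rep F k, q k)).unpair.1 (z1 (rep F k, q k)).unpair.2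
    rw [← h2]
    constructor
    · intro h x _
      by_cases hx : (rep F k).testBit x = true
      · exact Or.inr (h x hx)
      · exact Or.inl (by simpa using hx)
    · intro h x hx
      rcases h x (FinA.lt_of_testBit hx) with h3 | h3
      · simp only at h3
        rw [hx] at h3
        exact absurd h3 (by simp)
      · exact h3
  have hdisj : ∀ F : MM (GG Γ p), Disj F (RS (GG Γ p) R q) ↔
      ∀ᶠ k in UU, ¬ RK (z0 (rep F k, q k), 0) := by
    intro F
    rw [disj_iff hG hR hq]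
    refine eventually_congr (Eventually.of_forall fun k => ?_)
    have h2 := hz0' (rep F k, q k)
    show _ ↔ ¬ halt (z0 (rep F k, q k)).unpair.1 (z0 (rep F k, q k)).unpair.2
    rw [← h2]
    simp only [not_exists, not_and]
  have hKs : ∀ P : MM (GG Γ p), Sub P (Kset Γ p) ↔
      ∀ᶠ k in UU, ∀ y, (rep P k).testBit y = true → RK (y, 0) := fun P =>
    sub_iff hG re_RK hc0 P
  have hKd : ∀ P : MM (GG Γ p), Disj P (Kset Γ p) ↔
      ∀ᶠ k in UU, ∀ y, (rep P k).testBit y = true → ¬ RK (y, 0) := fun P =>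
    disj_iff hG re_RK hc0 P
  have hKs0 : Sub (mkD (GG Γ p) (fun _ => 0)) (Kset Γ p) := by
    rw [hKs]
    filter_upwards [hzero] with k hk y hy
    rw [hk] at hy
    simp at hy
  have hKd0 : Disj (mkD (GG Γ p) (fun _ => 0)) (Kset Γ p) := by
    rw [hKd]
    filter_upwards [hzero] with k hk y hy
    rw [hk] at hy
    simp at hy
  rw [red_iff hG]
  refine ⟨_, q, FinA.re_W hz1 hz0, hq, fun F => ?_, fun F => ?_⟩
  · rw [hsub]
    constructor
    · intro h
      have hm := rep_mkD (hms z1 hz1 F)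
      refine ⟨mkD (GG Γ p) (fun k => 2 ^ z1 (rep F k, q k)), mkD (GG Γ p) (fun _ => 0), ?_,
        hKd0, ?_⟩
      · rw [hKs]
        filter_upwards [h, hm] with k h1 h2 y hy
        rw [h2, Nat.testBit_two_pow] at hy
        have hy' : z1 (rep F k, q k) = y := by simpa using hy
        rw [← hy']
        exact h1
      · filter_upwards [hm] with k h2
        exact Or.inl ⟨rfl, h2⟩
    · rintro ⟨P, N, hP, -, hW⟩
      rw [hKs] at hP
      filter_upwards [hP, hW] with k h1 h2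
      rcases h2 with ⟨-, h2⟩ | ⟨h2, -⟩
      · refine h1 _ ?_
        rw [h2, Nat.testBit_two_pow]
        simp
      · exact absurd h2 (by simp)
  · rw [hdisj]
    constructor
    · intro h
      have hm := rep_mkD (hms z0 hz0 F)
      refine ⟨mkD (GG Γ p) (fun _ => 0), mkD (GG Γ p) (fun k => 2 ^ z0 (rep F k, q k)), hKs0,
        ?_, ?_⟩
      · rw [hKd]
        filter_upwards [h, hm] with k h1 h2 y hy
        rw [h2, Nat.testBit_two_pow] at hy
        have hy' : z0 (rep F k, q k) = y := by simpa using hy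
        rw [← hy']
        exact h1
      · filter_upwards [hm] with k h2
        exact Or.inr ⟨rfl, h2⟩
    · rintro ⟨P, N, -, hN, hW⟩
      rw [hKd] at hN
      filter_upwards [hN, hW] with k h1 h2
      rcases h2 with ⟨h2, -⟩ | ⟨-, h2⟩
      · exact absurd h2 (by simp)
      · refine h1 _ ?_
        rw [h2, Nat.testBit_two_pow]
        simp

end Pool.Agent.Lib.MP_53c40f_lc
end

section

/-!
# `A` is incomplete
-/

set_option autoImplicit false

namespace Pool.Agent.Lib.MP_53c40f_lc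

open Filter

theorem sg30_pow : Primrec₂ ((· ^ ·) : ℕ → ℕ → ℕ) := Primrec₂.unpaired'.1 Nat.Primrec.pow

theorem sg30_testBit : Primrec₂ (fun N x : ℕ => N.testBit x) := by
  have h : Primrec₂ (fun N x : ℕ => decide (N / 2 ^ x % 2 = 1)) := by
    have h1 : Primrec (fun a : ℕ × ℕ => a.1 / 2 ^ a.2 % 2) :=
      Primrec.nat_mod.comp (Primrec.nat_div.comp Primrec.fst
        (sg30_pow.comp (Primrec.const 2) Primrec.snd)) (Primrec.const 2)
    exact (PrimrecRel.comp Primrec.eq h1 (Primrec.const 1)).decide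
  exact h.of_eq fun N x => (Nat.testBit_eq_decide_div_mod_eq).symm

theorem sg30_lt {N x : ℕ} (h : N.testBit x = true) : x < N :=
  lt_of_lt_of_le Nat.lt_two_pow_self (Nat.ge_two_pow_of_testBit h)

/-- the matrix of the reduction -/
def sg30_R (W : ℕ × ℕ × ℕ × ℕ × ℕ → Prop) (b f : ℕ → ℕ) (z : ℕ × ℕ × ℕ × ℕ → ℕ) (n0 : ℕ)
    (t : (ℕ × List ℕ × ℕ × ℕ) × (ℕ × ℕ × ℕ)) : Prop :=
  decide (n0 ≤ t.1.2.1.length) = true ∧
  (∀ x < t.2.2.2, (!t.2.2.2.testBit x ||
    (decide (x.unpair.1 < t.1.2.1.length) && decide (t.1.2.1.getD x.unpair.1 0 ≤ x.unpair.2))) =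
      true) ∧
  (∀ x < t.2.2.1, (!t.2.2.1.testBit x) = true ∨ RA (x, b t.1.1)) ∧
  W (2 ^ (z (b t.1.1, t.1.2.2.1 + 1, t.2.1, t.1.2.2.2)), 0, t.2.2.1, t.2.2.2,
    f (Nat.pair (Encodable.encode (t.1.2.1.take n0)) t.1.1))

theorem sg30_re {W : ℕ × ℕ × ℕ × ℕ × ℕ → Prop} (hW : REPred W) {b f : ℕ → ℕ}
    (hb : Computable b) (hf : Computable f) {z : ℕ × ℕ × ℕ × ℕ → ℕ} (hz : Computable z) (n0 : ℕ) :
    REPred (sg30_R W b f z n0) := by
  have p11 : Primrec fun t : (ℕ × List ℕ × ℕ × ℕ) × (ℕ × ℕ × ℕ) => t.1.1 :=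
    Primrec.fst.comp Primrec.fst
  have p121 : Primrec fun t : (ℕ × List ℕ × ℕ × ℕ) × (ℕ × ℕ × ℕ) => t.1.2.1 :=
    Primrec.fst.comp (Primrec.snd.comp Primrec.fst)
  have p1221 : Primrec fun t : (ℕ × List ℕ × ℕ × ℕ) × (ℕ × ℕ × ℕ) => t.1.2.2.1 :=
    Primrec.fst.comp (Primrec.snd.comp (Primrec.snd.comp Primrec.fst))
  have p1222 : Primrec fun t : (ℕ × List ℕ × ℕ × ℕ) × (ℕ × ℕ × ℕ) => t.1.2.2.2 :=
    Primrec.snd.comp (Primrec.snd.comp (Primrec.snd.comp Primrec.fst))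
  have p21 : Primrec fun t : (ℕ × List ℕ × ℕ × ℕ) × (ℕ × ℕ × ℕ) => t.2.1 :=
    Primrec.fst.comp Primrec.snd
  have p221 : Primrec fun t : (ℕ × List ℕ × ℕ × ℕ) × (ℕ × ℕ × ℕ) => t.2.2.1 :=
    Primrec.fst.comp (Primrec.snd.comp Primrec.snd)
  have p222 : Primrec fun t : (ℕ × List ℕ × ℕ × ℕ) × (ℕ × ℕ × ℕ) => t.2.2.2 :=
    Primrec.snd.comp (Primrec.snd.comp Primrec.snd)
  refine re_and ?_ (re_and ?_ (re_and ?_ ?_))
  · refine re_of_dec _ ?_ fun _ => Iff.rfl
    exact (Primrec.nat_le.comp (Primrec.const n0) (Primrec.list_length.comp p121)).decide.to_comp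
  · refine re_ball (p := fun w : ((ℕ × List ℕ × ℕ × ℕ) × (ℕ × ℕ × ℕ)) × ℕ =>
      (!w.1.2.2.2.testBit w.2 || (decide (w.2.unpair.1 < w.1.1.2.1.length) &&
        decide (w.1.1.2.1.getD w.2.unpair.1 0 ≤ w.2.unpair.2))) = true) ?_ p222.to_comp
    refine re_of_dec _ ?_ fun _ => Iff.rfl
    have u1 : Primrec fun w : ((ℕ × List ℕ × ℕ × ℕ) × (ℕ × ℕ × ℕ)) × ℕ => w.2.unpair.1 :=
      Primrec.fst.comp (Primrec.unpair.comp Primrec.snd)
    have u2 : Primrec fun w : ((ℕ × List ℕ × ℕ × ℕ) × (ℕ × ℕ × ℕ)) × ℕ => w.2.unpair.2 :=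
      Primrec.snd.comp (Primrec.unpair.comp Primrec.snd)
    exact (Primrec.or.comp
      (Primrec.not.comp (sg30_testBit.comp (p222.comp Primrec.fst) Primrec.snd))
      (Primrec.and.comp
        (Primrec.nat_lt.comp u1 (Primrec.list_length.comp (p121.comp Primrec.fst))).decide
        (Primrec.nat_le.comp ((Primrec.list_getD 0).comp (p121.comp Primrec.fst) u1)
          u2).decide)).to_comp
  · refine re_ball (p := fun w : ((ℕ × List ℕ × ℕ × ℕ) × (ℕ × ℕ × ℕ)) × ℕ =>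
      (!w.1.2.2.1.testBit w.2) = true ∨ RA (w.2, b w.1.1.1)) ?_ p221.to_comp
    refine re_or (re_of_dec _ ?_ fun _ => Iff.rfl) (re_comp re_RA ?_)
    · exact (Primrec.not.comp (sg30_testBit.comp (p221.comp Primrec.fst) Primrec.snd)).to_comp
    · exact Computable.snd.pair (hb.comp (p11.to_comp.comp Computable.fst))
  · refine re_comp hW ?_
    have hbc : Computable fun t : (ℕ × List ℕ × ℕ × ℕ) × (ℕ × ℕ × ℕ) => b t.1.1 :=
      hb.comp p11.to_comp
    have hzc : Computable fun t : (ℕ × List ℕ × ℕ × ℕ) × (ℕ × ℕ × ℕ) =>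
        z (b t.1.1, t.1.2.2.1 + 1, t.2.1, t.1.2.2.2) :=
      hz.comp (hbc.pair ((Primrec.succ.comp p1221).to_comp.pair
        (p21.to_comp.pair p1222.to_comp)))
    have hfc : Computable fun t : (ℕ × List ℕ × ℕ × ℕ) × (ℕ × ℕ × ℕ) =>
        f (Nat.pair (Encodable.encode (t.1.2.1.take n0)) t.1.1) :=
      hf.comp (Primrec₂.natPair.comp (Primrec.encode.comp
        (Primrec.list_take.comp (Primrec.const n0) p121)) p11).to_comp
    exact (sg30_pow.to_comp.comp (Computable.const 2) hzc).pair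
      ((Computable.const 0).pair (p221.to_comp.pair (p222.to_comp.pair hfc)))

theorem not_red (Γ : Ctx) (p : ℕ → ℕ → ℕ) (hp : ∀ m k, p m k ≤ Γ.c k)
    (hnc : ∀ m, ¬ Comp0 Γ (qq Γ.c p m)) : ¬ Red (Kset Γ p) (Aset Γ p) := by
  intro hred
  have hG : Gen (GG Γ p) := gen_GG Γ p hp
  obtain ⟨W, q0, hW, ⟨n0, f, hf, hq0⟩, -, hdisj⟩ := (red_iff hG _ _).1 hred
  obtain ⟨b, hb, hbq⟩ := qq_base n0
  obtain ⟨z, hz, hzs⟩ := re_smn re_unstb
  apply hnc n0
  have hz0 : Ms (GG Γ p) (fun _ => 0) := msT_nat.1 (MsT.const 0)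
  -- the value of the parameter
  have hpar : ∀ k j, n0 ≤ j →
      Nat.pair (Encodable.encode ((hist (Γ.c k) j).take n0)) (qq Γ.c p n0 k) = GG Γ p n0 k := by
    intro k j hj
    rw [hist_take hj]
    rfl
  -- the set `{z}`
  have hK : ∀ s : ℕ → ℕ, Ms (GG Γ p) s → ∀ n v : ℕ,
      Ms (GG Γ p) (fun k => 2 ^ (z (Γ.c k, n + 1, s k, v))) := by
    intro s hs n v
    have h1 : MsT (GG Γ p) (fun k => (Γ.c k, s k)) :=
      (msT_nat.2 (ms_c Γ p hp)).prod hG (msT_nat.2 hs)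
    refine msT_nat.1 (h1.comp (f := fun a : ℕ × ℕ => 2 ^ (z (a.1, n + 1, a.2, v))) ?_)
    exact sg30_pow.to_comp.comp (Computable.const 2) (hz.comp (Computable.fst.pair
      ((Computable.const (n + 1)).pair (Computable.snd.pair (Computable.const v)))))
  -- disjointness of the set from `K`
  have hKd : ∀ s : ℕ → ℕ, Ms (GG Γ p) s → ∀ n v : ℕ,
      (Disj (mkD (GG Γ p) (fun k => 2 ^ (z (Γ.c k, n + 1, s k, v)))) (Kset Γ p) ↔
        ∀ᶠ k in UU, ∀ s', stb (Γ.c k) (n + 1) (s k) v s' = true) := by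
    intro s hs n v
    unfold Kset
    rw [disj_iff hG re_RK hz0]
    have h2 := rep_mkD (hK s hs n v)
    have h3 : ∀ k, rep (mkD (GG Γ p) (fun k => 2 ^ (z (Γ.c k, n + 1, s k, v)))) k =
        2 ^ (z (Γ.c k, n + 1, s k, v)) →
        ((∀ y, (rep (mkD (GG Γ p) (fun k => 2 ^ (z (Γ.c k, n + 1, s k, v)))) k).testBit y = true →
          ¬ RK (y, 0)) ↔ ∀ s', stb (Γ.c k) (n + 1) (s k) v s' = true) := by
      intro k hk
      rw [hk]
      have h4 := hzs (Γ.c k, n + 1, s k, v)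
      simp only at h4
      constructor
      · intro h5 s'
        have h6 := h5 (z (Γ.c k, n + 1, s k, v)) (by simp [Nat.testBit_two_pow_self])
        unfold RK at h6
        rw [← h4] at h6
        push Not at h6
        simpa using h6 s'
      · intro h5 y hy h6
        have h7 : z (Γ.c k, n + 1, s k, v) = y := by
          simpa [Nat.testBit_two_pow] using hy
        unfold RK at h6
        rw [← h7, ← h4] at h6
        obtain ⟨s', hs'⟩ := h6
        rw [h5 s'] at hs'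
        exact absurd hs' (by simp)
    constructor
    · intro h
      filter_upwards [h, h2] with k hk hk2
      exact (h3 k hk2).1 hk
    · intro h
      filter_upwards [h, h2] with k hk hk2
      exact (h3 k hk2).2 hk
  refine ⟨fun a => ∃ t, sg30_R W b f z n0 (a, t), re_ex (sg30_re hW hb hf hz n0), ?_⟩
  intro n v
  constructor
  · rintro rfl
    -- stages
    have hs : Ms (GG Γ p) (fun k => H (Γ.c k) (n + 2) - Γ.c k) := by
      have h1 : MsT (GG Γ p) (fun k => (H (Γ.c k) (n + 2), Γ.c k)) :=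
        (msT_nat.2 (ms_H Γ p hp (n + 2))).prod hG (msT_nat.2 (ms_c Γ p hp))
      exact msT_nat.1 (h1.comp (f := fun a : ℕ × ℕ => a.1 - a.2) Primrec.nat_sub.to_comp)
    have hd := (hKd _ hs n (Γ.bt (n + 1))).2 (by
      filter_upwards [Γ.hbt (n + 1)] with k hk s'
      obtain ⟨s, hs1, hs2⟩ := stb_complete (Γ.c k) (n + 1)
      have hs3 : H (Γ.c k) (n + 2) - Γ.c k = s := by
        have : H (Γ.c k) (n + 1 + 1) = H (Γ.c k) (n + 2) := rfl
        omega
      rw [hs3, ← hk]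
      exact hs2 s')
    obtain ⟨P, N, hP, hN, hPN⟩ := (hdisj _).1 hd
    obtain ⟨j, hj⟩ := neg_info Γ p hp N hN
    have hP' := (sub_A_iff Γ p hp P).1 hP
    refine ⟨max j n0, ?_⟩
    filter_upwards [hj, hP', hPN, rep_mkD (hK _ hs n (Γ.bt (n + 1))), hq0] with k h1 h2 h3 h4 h5
    refine ⟨(H (Γ.c k) (n + 2) - Γ.c k, rep P k, rep N k), ?_, ?_, ?_, ?_⟩
    · simp
    · intro x _
      simp only [Bool.or_eq_true, Bool.not_eq_true', Bool.and_eq_true, decide_eq_true_eq,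
        hist_length]
      rcases hb1 : (rep N k).testBit x with _ | _
      · left; rfl
      · right
        obtain ⟨h6, h7⟩ := h1 x hb1
        have h8 : x.unpair.1 < max j n0 := lt_of_lt_of_le h6 (le_max_left _ _)
        refine ⟨h8, ?_⟩
        rw [hist_getD h8]
        exact h7
    · intro x _
      simp only [Bool.not_eq_true']
      rcases hb1 : (rep P k).testBit x with _ | _
      · left; rfl
      · right
        rw [hbq, RA_iff]
        exact h2 x hb1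
    · simp only
      rw [hbq, hpar k _ (le_max_right _ _), ← h5, ← h4]
      exact h3
  · rintro ⟨j, hj⟩
    -- the witnesses are generated
    have ha : MsT (GG Γ p) (fun k => ((qq Γ.c p n0 k, hist (Γ.c k) j, n, v) :
        ℕ × List ℕ × ℕ × ℕ)) := by
      have h1 : MsT (GG Γ p) (fun k => (qq Γ.c p n0 k, hist (Γ.c k) j)) :=
        (msT_nat.2 (ms_qq Γ p hp n0)).prod hG (ms_hist Γ p hp j)
      exact h1.comp (f := fun a : ℕ × List ℕ => ((a.1, a.2, n, v) : ℕ × List ℕ × ℕ × ℕ))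
        (Computable.fst.pair (Computable.snd.pair (Computable.const (n, v))))
    obtain ⟨t, ht, ht2⟩ := MsT.wit hG ha (sg30_re hW hb hf hz n0) hj
    have hts : Ms (GG Γ p) (fun k => (t k).1) := msT_nat.1 (ht.comp Computable.fst)
    have htP : Ms (GG Γ p) (fun k => (t k).2.1) :=
      msT_nat.1 (ht.comp (Computable.fst.comp Computable.snd))
    have htN : Ms (GG Γ p) (fun k => (t k).2.2) :=
      msT_nat.1 (ht.comp (Computable.snd.comp Computable.snd))
    have hP : Sub (mkD (GG Γ p) (fun k => (t k).2.1)) (Aset Γ p) := by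
      rw [sub_A_iff Γ p hp]
      filter_upwards [ht2, rep_mkD htP] with k h1 h2 x hx
      rw [h2] at hx
      have h3 := h1.2.2.1 x (sg30_lt hx)
      simp only [hx, Bool.not_true, Bool.false_eq_true, false_or] at h3
      rw [hbq, RA_iff] at h3
      exact h3
    have hN : Disj (mkD (GG Γ p) (fun k => (t k).2.2)) (Aset Γ p) := by
      rw [disj_A_iff Γ p hp]
      filter_upwards [ht2, rep_mkD htN] with k h1 h2 x hx
      rw [h2] at hx
      have h3 := h1.2.1 x (sg30_lt hx)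
      simp only [hx, Bool.not_true, Bool.false_or, Bool.and_eq_true, decide_eq_true_eq,
        hist_length] at h3
      rw [hist_getD h3.1] at h3
      exact h3.2
    have hd := (hdisj (mkD (GG Γ p) (fun k => 2 ^ (z (Γ.c k, n + 1, (t k).1, v))))).2
      ⟨_, _, hP, hN, by
        filter_upwards [ht2, rep_mkD htP, rep_mkD htN, rep_mkD (hK _ hts n v), hq0]
          with k h1 h2 h3 h4 h5
        have h6 := h1.2.2.2
        have h7 : n0 ≤ j := by
          have := h1.1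
          simpa using this
        simp only at h6
        rw [hbq, hpar k _ h7, ← h5] at h6
        rw [h2, h3, h4]
        exact h6⟩
    have h1 := (hKd _ hts n v).1 hd
    obtain ⟨k, hk⟩ := uu_exists (h1.and (Γ.hbt (n + 1)))
    rw [← hk.2]
    exact (stb_sound _ _ _ _ hk.1).1

end Pool.Agent.Lib.MP_53c40f_lc
end

section

/-!
# If the settling function of `C` is coded, then `C` is reducible to `A`
-/

set_option autoImplicit false

namespace Pool.Agent.Lib.MP_53c40f_lc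

open Filter

private theorem FinC_primrec_testBit : Primrec₂ (fun F x : ℕ => F.testBit x) := by
  have h1 : Primrec₂ (fun a b : ℕ => a ^ b) := Primrec₂.unpaired'.1 Nat.Primrec.pow
  have h2 : Primrec₂ (fun F x : ℕ => F / 2 ^ x % 2) :=
    Primrec.nat_mod.comp₂ (Primrec.nat_div.comp₂ Primrec₂.left
      (h1.comp₂ (Primrec₂.const 2) Primrec₂.right)) (Primrec₂.const 2)
  have h3 : Primrec₂ (fun F x : ℕ => (F / 2 ^ x % 2 == 1)) :=
    Primrec.beq.comp₂ h2 (Primrec₂.const 1)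
  refine h3.of_eq fun F x => ?_
  rw [Nat.testBit_eq_decide_div_mod_eq]
  rfl

private theorem FinC_lt_of_testBit {F x : ℕ} (h : F.testBit x = true) : x < F := by
  have h1 : 2 ^ x ≤ F := Nat.ge_two_pow_of_testBit h
  exact lt_of_lt_of_le Nat.lt_two_pow_self h1

/-- the test at one element -/
private def FinC_T (e : ℕ) (a : ℕ × ℕ × ℕ × ℕ × ℕ) (b : List ℕ × ℕ) (x : ℕ) : Bool :=
  !(a.1.testBit x) || (decide (x < b.1.getD b.2 0) &&
    (haltN (b.1.getD (dec a.2.2.2.2.unpair.1 b.2) 0) e (Nat.pair x a.2.2.2.2.unpair.2) ==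
      decide (a.2.1 = 1)))

/-- the relation which reduces `C` to `A` -/
private def FinC_W (e : ℕ) (a : ℕ × ℕ × ℕ × ℕ × ℕ) : Prop :=
  ∃ b : List ℕ × ℕ, (Cert a.2.2.1 a.2.2.2.1 b.1 ∧
    (b.2 < b.1.length ∧ dec a.2.2.2.2.unpair.1 b.2 < b.1.length)) ∧
    ∀ x < a.1, FinC_T e a b x = true

private theorem FinC_primrec_dec : Primrec₂ dec := by
  have h : Primrec₂ (fun p n : ℕ => (Denumerable.ofNat (List ℕ) p).getD n 0) :=
    (Primrec.list_getD 0).comp₂ ((Primrec.ofNat (List ℕ)).comp₂ Primrec₂.left) Primrec₂.right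
  exact h

private theorem FinC_primrec_halt {α : Type} [Primcodable α] {f g : α → ℕ} (e : ℕ)
    (hf : Primrec f) (hg : Primrec g) : Primrec (fun a => haltN (f a) e (g a)) :=
  primrec_haltN.comp (hf.pair ((Primrec.const e).pair hg))

private theorem FinC_re_W (e : ℕ) : REPred (FinC_W e) := by
  unfold FinC_W
  -- projections
  have pa : Primrec (fun c : (ℕ × ℕ × ℕ × ℕ × ℕ) × (List ℕ × ℕ) => c.1) := Primrec.fst
  have pP : Primrec (fun c : (ℕ × ℕ × ℕ × ℕ × ℕ) × (List ℕ × ℕ) => c.1.2.2.1) :=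
    Primrec.fst.comp (Primrec.snd.comp (Primrec.snd.comp Primrec.fst))
  have pN : Primrec (fun c : (ℕ × ℕ × ℕ × ℕ × ℕ) × (List ℕ × ℕ) => c.1.2.2.2.1) :=
    Primrec.fst.comp (Primrec.snd.comp (Primrec.snd.comp (Primrec.snd.comp Primrec.fst)))
  have pq : Primrec (fun c : (ℕ × ℕ × ℕ × ℕ × ℕ) × (List ℕ × ℕ) => c.1.2.2.2.2) :=
    Primrec.snd.comp (Primrec.snd.comp (Primrec.snd.comp (Primrec.snd.comp Primrec.fst)))
  have pi : Primrec (fun c : (ℕ × ℕ × ℕ × ℕ × ℕ) × (List ℕ × ℕ) => c.1.2.1) :=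
    Primrec.fst.comp (Primrec.snd.comp Primrec.fst)
  have pF : Primrec (fun c : (ℕ × ℕ × ℕ × ℕ × ℕ) × (List ℕ × ℕ) => c.1.1) :=
    Primrec.fst.comp Primrec.fst
  have py : Primrec (fun c : (ℕ × ℕ × ℕ × ℕ × ℕ) × (List ℕ × ℕ) => c.2.1) :=
    Primrec.fst.comp Primrec.snd
  have pb : Primrec (fun c : (ℕ × ℕ × ℕ × ℕ × ℕ) × (List ℕ × ℕ) => c.2.2) :=
    Primrec.snd.comp Primrec.snd
  have pq1 : Primrec (fun c : (ℕ × ℕ × ℕ × ℕ × ℕ) × (List ℕ × ℕ) => c.1.2.2.2.2.unpair.1) :=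
    Primrec.fst.comp (Primrec.unpair.comp pq)
  have pq2 : Primrec (fun c : (ℕ × ℕ × ℕ × ℕ × ℕ) × (List ℕ × ℕ) => c.1.2.2.2.2.unpair.2) :=
    Primrec.snd.comp (Primrec.unpair.comp pq)
  have pd : Primrec (fun c : (ℕ × ℕ × ℕ × ℕ × ℕ) × (List ℕ × ℕ) =>
      dec c.1.2.2.2.2.unpair.1 c.2.2) := FinC_primrec_dec.comp pq1 pb
  have plen : Primrec (fun c : (ℕ × ℕ × ℕ × ℕ × ℕ) × (List ℕ × ℕ) => c.2.1.length) :=
    Primrec.list_length.comp py
  have hcert : REPred (fun c : (ℕ × ℕ × ℕ × ℕ × ℕ) × (List ℕ × ℕ) =>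
      Cert c.1.2.2.1 c.1.2.2.2.1 c.2.1) :=
    re_comp re_Cert (f := fun c : (ℕ × ℕ × ℕ × ℕ × ℕ) × (List ℕ × ℕ) =>
      (c.1.2.2.1, c.1.2.2.2.1, c.2.1)) (pP.pair (pN.pair py)).to_comp
  have hlt1 : REPred (fun c : (ℕ × ℕ × ℕ × ℕ × ℕ) × (List ℕ × ℕ) => c.2.2 < c.2.1.length) :=
    re_of_dec (fun c => decide (c.2.2 < c.2.1.length))
      (Primrec.nat_lt.comp pb plen).decide.to_comp (fun c => by simp)
  have hlt2 : REPred (fun c : (ℕ × ℕ × ℕ × ℕ × ℕ) × (List ℕ × ℕ) =>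
      dec c.1.2.2.2.2.unpair.1 c.2.2 < c.2.1.length) :=
    re_of_dec (fun c => decide (dec c.1.2.2.2.2.unpair.1 c.2.2 < c.2.1.length))
      (Primrec.nat_lt.comp pd plen).decide.to_comp (fun c => by simp)
  have hT : REPred (fun d : ((ℕ × ℕ × ℕ × ℕ × ℕ) × (List ℕ × ℕ)) × ℕ =>
      FinC_T e d.1.1 d.1.2 d.2 = true) := by
    refine re_of_dec (fun d => FinC_T e d.1.1 d.1.2 d.2) ?_ (fun d => Iff.rfl)
    refine Primrec.to_comp ?_
    unfold FinC_T
    have qx : Primrec (fun d : ((ℕ × ℕ × ℕ × ℕ × ℕ) × (List ℕ × ℕ)) × ℕ => d.2) := Primrec.snd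
    have qc : Primrec (fun d : ((ℕ × ℕ × ℕ × ℕ × ℕ) × (List ℕ × ℕ)) × ℕ => d.1) := Primrec.fst
    have q1 : Primrec (fun d : ((ℕ × ℕ × ℕ × ℕ × ℕ) × (List ℕ × ℕ)) × ℕ =>
        d.1.1.1.testBit d.2) := FinC_primrec_testBit.comp (pF.comp qc) qx
    have q2 : Primrec (fun d : ((ℕ × ℕ × ℕ × ℕ × ℕ) × (List ℕ × ℕ)) × ℕ =>
        d.1.2.1.getD d.1.2.2 0) := (Primrec.list_getD 0).comp (py.comp qc) (pb.comp qc)
    have q3 : Primrec (fun d : ((ℕ × ℕ × ℕ × ℕ × ℕ) × (List ℕ × ℕ)) × ℕ =>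
        decide (d.2 < d.1.2.1.getD d.1.2.2 0)) := (Primrec.nat_lt.comp qx q2).decide
    have q4 : Primrec (fun d : ((ℕ × ℕ × ℕ × ℕ × ℕ) × (List ℕ × ℕ)) × ℕ =>
        d.1.2.1.getD (dec d.1.1.2.2.2.2.unpair.1 d.1.2.2) 0) :=
      (Primrec.list_getD 0).comp (py.comp qc) (pd.comp qc)
    have q5 : Primrec (fun d : ((ℕ × ℕ × ℕ × ℕ × ℕ) × (List ℕ × ℕ)) × ℕ =>
        Nat.pair d.2 d.1.1.2.2.2.2.unpair.2) := Primrec₂.natPair.comp qx (pq2.comp qc)
    have q6 : Primrec (fun d : ((ℕ × ℕ × ℕ × ℕ × ℕ) × (List ℕ × ℕ)) × ℕ =>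
        haltN (d.1.2.1.getD (dec d.1.1.2.2.2.2.unpair.1 d.1.2.2) 0) e
          (Nat.pair d.2 d.1.1.2.2.2.2.unpair.2)) :=
      FinC_primrec_halt e q4 q5
    have q7 : Primrec (fun d : ((ℕ × ℕ × ℕ × ℕ × ℕ) × (List ℕ × ℕ)) × ℕ =>
        decide (d.1.1.2.1 = 1)) := (Primrec.eq.comp (pi.comp qc) (Primrec.const 1)).decide
    exact Primrec.or.comp (Primrec.not.comp q1)
      (Primrec.and.comp q3 (Primrec.beq.comp q6 q7))
  have hball : REPred (fun c : (ℕ × ℕ × ℕ × ℕ × ℕ) × (List ℕ × ℕ) =>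
      ∀ x < c.1.1, (fun d : ((ℕ × ℕ × ℕ × ℕ × ℕ) × (List ℕ × ℕ)) × ℕ =>
        FinC_T e d.1.1 d.1.2 d.2 = true) (c, x)) :=
    re_ball (f := fun c : (ℕ × ℕ × ℕ × ℕ × ℕ) × (List ℕ × ℕ) => c.1.1) hT pF.to_comp
  have hall := re_and (re_and hcert (re_and hlt1 hlt2)) hball
  exact re_ex hall

/-- the meaning of the test for all elements below `F` -/
private theorem FinC_T_all {e F i P N q : ℕ} {b : List ℕ × ℕ} :
    (∀ x < F, FinC_T e (F, i, P, N, q) b x = true) ↔ ∀ x, F.testBit x = true →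
      x < b.1.getD b.2 0 ∧
      haltN (b.1.getD (dec q.unpair.1 b.2) 0) e (Nat.pair x q.unpair.2) = decide (i = 1) := by
  unfold FinC_T
  constructor
  · intro h x hx
    have h1 := h x (FinC_lt_of_testBit hx)
    simp only [hx, Bool.not_true, Bool.false_or, Bool.and_eq_true, decide_eq_true_eq,
      beq_iff_eq] at h1
    exact h1
  · intro h x _
    by_cases hx : F.testBit x = true
    · have h1 := h x hx
      simp only [hx, Bool.not_true, Bool.false_or, Bool.and_eq_true, decide_eq_true_eq,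
        beq_iff_eq]
      exact h1
    · simp only [Bool.not_eq_true] at hx
      simp [hx]

theorem case_one (Γ : Ctx) (p : ℕ → ℕ → ℕ) (hp : ∀ m k, p m k ≤ Γ.c k) (e n m : ℕ)
    (hcode : ∀ i, ∀ᶠ k in UU, dec (p m k) i = Xf Γ e (GG Γ p n) i) :
    Red (Cset Γ p e (GG Γ p n)) (Aset Γ p) := by
  have hG := gen_GG Γ p hp
  have hr : Ms (GG Γ p) (GG Γ p n) :=
    ⟨n, id, Computable.id, Filter.Eventually.of_forall fun _ => rfl⟩
  have hpm : Ms (GG Γ p) (p m) := ms_p Γ p hp m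
  set r := GG Γ p n with hrdef
  have hq : Ms (GG Γ p) (fun k => Nat.pair (p m k) (r k)) := by
    have h1 : MsT (GG Γ p) (fun k => (p m k, r k)) :=
      MsT.prod hG (msT_nat.2 hpm) (msT_nat.2 hr)
    have h2 : MsT (GG Γ p) (fun k => Nat.pair (p m k) (r k)) :=
      h1.comp (f := fun a : ℕ × ℕ => Nat.pair a.1 a.2)
        (Primrec₂.natPair.comp Primrec.fst Primrec.snd).to_comp
    exact msT_nat.1 h2
  -- membership in `C`, fibrewise
  have hsub : ∀ K : MM (GG Γ p), Sub K (Cset Γ p e r) ↔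
      ∀ᶠ k in UU, ∀ y, (rep K k).testBit y = true → halt e (Nat.pair y (r k)) := fun K =>
    sub_iff hG (re_Cset e) hr K
  have hdisj : ∀ K : MM (GG Γ p), Disj K (Cset Γ p e r) ↔
      ∀ᶠ k in UU, ∀ y, (rep K k).testBit y = true → ¬ halt e (Nat.pair y (r k)) := fun K =>
    disj_iff hG (re_Cset e) hr K
  -- from information about `C` to certificates
  have hto : ∀ (i : ℕ) (K : MM (GG Γ p)),
      (∀ᶠ k in UU, ∀ y, (rep K k).testBit y = true →
        (halt e (Nat.pair y (r k)) ↔ i = 1)) →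
      ∃ P N : MM (GG Γ p), Sub P (Aset Γ p) ∧ Disj N (Aset Γ p) ∧
        ∀ᶠ k in UU, FinC_W e (rep K k, i, rep P k, rep N k, Nat.pair (p m k) (r k)) := by
    intro i K hK
    obtain ⟨l, hl⟩ := ms_bounded Γ p hp (rep_ms K)
    set a := Γ.bt l with ha
    set J := max a (Xf Γ e r a) + 1 with hJ
    have haJ : a < J := by omega
    have hXJ : Xf Γ e r a < J := by omega
    obtain ⟨P, N, hP, hN, hc⟩ := cert_exists Γ p hp J
    refine ⟨P, N, hP, hN, ?_⟩
    have hX := (Xf_spec Γ p hp e hr a).1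
    filter_upwards [hK, hl, H_eq_hf Γ l, hc, hcode a, hX] with k k1 k2 k3 k4 k5 k6
    refine ⟨(hist (Γ.c k) J, a), ⟨k4, ?_, ?_⟩, FinC_T_all.2 ?_⟩
    · show a < (hist (Γ.c k) J).length
      rw [hist_length]; exact haJ
    · show dec (Nat.pair (p m k) (r k)).unpair.1 a < (hist (Γ.c k) J).length
      rw [hist_length, Nat.unpair_pair, k5]
      exact hXJ
    · intro x hx
      have hxa : x < hf (Γ.c k) a := by
        have h1 := FinC_lt_of_testBit hx
        rw [ha, ← k3]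
        omega
      show x < (hist (Γ.c k) J).getD a 0 ∧
        haltN ((hist (Γ.c k) J).getD (dec (Nat.pair (p m k) (r k)).unpair.1 a) 0) e
          (Nat.pair x (Nat.pair (p m k) (r k)).unpair.2) = decide (i = 1)
      rw [Nat.unpair_pair]
      show x < (hist (Γ.c k) J).getD a 0 ∧
        haltN ((hist (Γ.c k) J).getD (dec (p m k) a) 0) e (Nat.pair x (r k)) = decide (i = 1)
      rw [k5, hist_getD haJ, hist_getD hXJ]
      refine ⟨hxa, ?_⟩
      have h2 := k1 x hx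
      by_cases hh : halt e (Nat.pair x (r k))
      · rw [k6 x hxa hh]
        exact (decide_eq_true (h2.1 hh)).symm
      · have h3 : haltN (hf (Γ.c k) (Xf Γ e r a)) e (Nat.pair x (r k)) = false := by
          rw [← Bool.not_eq_true]
          exact fun h => hh ⟨_, h⟩
        rw [h3]
        exact (decide_eq_false (fun h => hh (h2.2 h))).symm
  -- from certificates to information about `C`
  have hfrom : ∀ (i : ℕ) (K P N : MM (GG Γ p)), Sub P (Aset Γ p) → Disj N (Aset Γ p) →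
      (∀ᶠ k in UU, FinC_W e (rep K k, i, rep P k, rep N k, Nat.pair (p m k) (r k))) →
      ∀ᶠ k in UU, ∀ y, (rep K k).testBit y = true → (halt e (Nat.pair y (r k)) ↔ i = 1) := by
    intro i K P N hP hN hW
    have hch : ∀ k, ∃ b : List ℕ × ℕ,
        FinC_W e (rep K k, i, rep P k, rep N k, Nat.pair (p m k) (r k)) →
        (Cert (rep P k) (rep N k) b.1 ∧
          (b.2 < b.1.length ∧ dec (Nat.pair (p m k) (r k)).unpair.1 b.2 < b.1.length)) ∧
          ∀ x < rep K k, FinC_T e (rep K k, i, rep P k, rep N k, Nat.pair (p m k) (r k)) b x =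
            true := by
      intro k
      by_cases h : FinC_W e (rep K k, i, rep P k, rep N k, Nat.pair (p m k) (r k))
      · obtain ⟨b, hb⟩ := h
        exact ⟨b, fun _ => hb⟩
      · exact ⟨([], 0), fun h' => absurd h' h⟩
    choose b hb using hch
    obtain ⟨J, hJ⟩ := cert_sound Γ p hp P N hP hN (fun k => (b k).1)
      (hW.mono fun k hk => (hb k hk).1.1)
    have hbJ : ∀ᶠ k in UU, (b k).2 ≤ J := by
      filter_upwards [hW, hJ] with k k1 k2
      have h1 := (hb k k1).1.2.1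
      rw [k2, hist_length] at h1
      exact h1.le
    obtain ⟨a, -, ha⟩ := uu_const hbJ
    have hX := (Xf_spec Γ p hp e hr a).1
    filter_upwards [hW, hJ, ha, hcode a, hX] with k k1 k2 k3 k4 k5
    intro y hy
    obtain ⟨⟨-, h1, h2⟩, h3⟩ := hb k k1
    have h4 := FinC_T_all.1 h3 y hy
    rw [k2, k3] at h1 h2 h4
    rw [Nat.unpair_pair] at h2 h4
    have h1' : a < J := by rwa [hist_length] at h1
    have h2' : Xf Γ e r a < J := by
      have h5 : dec (p m k) a < (hist (Γ.c k) J).length := h2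
      rwa [hist_length, k4] at h5
    have h4' : y < (hist (Γ.c k) J).getD a 0 ∧
        haltN ((hist (Γ.c k) J).getD (dec (p m k) a) 0) e (Nat.pair y (r k)) = decide (i = 1) := h4
    rw [k4, hist_getD h1', hist_getD h2'] at h4'
    constructor
    · intro hh
      have h6 := k5 y h4'.1 hh
      rw [h4'.2] at h6
      exact of_decide_eq_true h6
    · intro hi
      rw [decide_eq_true hi] at h4'
      exact ⟨_, h4'.2⟩
  refine (red_iff hG _ _).2 ⟨FinC_W e, fun k => Nat.pair (p m k) (r k), FinC_re_W e, hq, ?_, ?_⟩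
  · intro K
    constructor
    · intro hK
      refine hto 1 K (((hsub K).1 hK).mono fun k hk y hy => ?_)
      exact ⟨fun _ => rfl, fun _ => hk y hy⟩
    · rintro ⟨P, N, hP, hN, hW⟩
      refine (hsub K).2 ((hfrom 1 K P N hP hN hW).mono fun k hk y hy => ?_)
      exact (hk y hy).2 rfl
  · intro K
    constructor
    · intro hK
      refine hto 0 K (((hdisj K).1 hK).mono fun k hk y hy => ?_)
      exact ⟨fun h => absurd h (hk y hy), fun h => absurd h (by norm_num)⟩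
    · rintro ⟨P, N, hP, hN, hW⟩
      refine (hdisj K).2 ((hfrom 0 K P N hP hN hW).mono fun k hk y hy => ?_)
      exact fun h => absurd ((hk y hy).1 h) (by norm_num)

end Pool.Agent.Lib.MP_53c40f_lc
end

section

/-!
# Certificates for the final values from information about a set above `A`
-/

set_option autoImplicit false

namespace Pool.Agent.Lib.MP_53c40f_lc

open Filter

/-- `(q, P, N, ys)`: certificates for `ys` from information about a set to which `A` reduces by `W`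
with parameter `q` -/
def Cert2 (W : ℕ × ℕ × ℕ × ℕ × ℕ → Prop) (a : ℕ × ℕ × ℕ × List ℕ) : Prop :=
  ∃ P1 N1 P2 N2 P3 N3 : ℕ, Cert P1 N1 a.2.2.2 ∧ W (P1, 1, P2, N2, a.1) ∧ W (N1, 0, P3, N3, a.1) ∧
    (BitSub P2 a.2.1 ∧ BitSub P3 a.2.1) ∧ (BitSub N2 a.2.2.1 ∧ BitSub N3 a.2.2.1)

/-- the matrix of `Cert2` -/
private def FinD1_M (W : ℕ × ℕ × ℕ × ℕ × ℕ → Prop)
    (c : (ℕ × ℕ × ℕ × List ℕ) × (ℕ × ℕ × ℕ × ℕ × ℕ × ℕ)) : Prop :=
  Cert c.2.1 c.2.2.1 c.1.2.2.2 ∧ W (c.2.1, 1, c.2.2.2.1, c.2.2.2.2.1, c.1.1) ∧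
    W (c.2.2.1, 0, c.2.2.2.2.2.1, c.2.2.2.2.2.2, c.1.1) ∧
    (BitSub c.2.2.2.1 c.1.2.1 ∧ BitSub c.2.2.2.2.2.1 c.1.2.1) ∧
    (BitSub c.2.2.2.2.1 c.1.2.2.1 ∧ BitSub c.2.2.2.2.2.2 c.1.2.2.1)

private theorem FinD1_cert2_iff (W : ℕ × ℕ × ℕ × ℕ × ℕ → Prop) (a : ℕ × ℕ × ℕ × List ℕ) :
    Cert2 W a ↔ ∃ b : ℕ × ℕ × ℕ × ℕ × ℕ × ℕ, FinD1_M W (a, b) := by
  constructor
  · rintro ⟨P1, N1, P2, N2, P3, N3, h⟩
    exact ⟨(P1, N1, P2, N2, P3, N3), h⟩
  · rintro ⟨⟨P1, N1, P2, N2, P3, N3⟩, h⟩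
    exact ⟨P1, N1, P2, N2, P3, N3, h⟩

private theorem FinD1_re_M {W : ℕ × ℕ × ℕ × ℕ × ℕ → Prop} (hW : REPred W) :
    REPred (FinD1_M W) := by
  have a1 : Primrec (fun c : (ℕ × ℕ × ℕ × List ℕ) × (ℕ × ℕ × ℕ × ℕ × ℕ × ℕ) => c.1.1) :=
    Primrec.fst.comp Primrec.fst
  have a2 : Primrec (fun c : (ℕ × ℕ × ℕ × List ℕ) × (ℕ × ℕ × ℕ × ℕ × ℕ × ℕ) => c.1.2.1) :=
    Primrec.fst.comp (Primrec.snd.comp Primrec.fst)
  have a3 : Primrec (fun c : (ℕ × ℕ × ℕ × List ℕ) × (ℕ × ℕ × ℕ × ℕ × ℕ × ℕ) => c.1.2.2.1) :=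
    Primrec.fst.comp (Primrec.snd.comp (Primrec.snd.comp Primrec.fst))
  have a4 : Primrec (fun c : (ℕ × ℕ × ℕ × List ℕ) × (ℕ × ℕ × ℕ × ℕ × ℕ × ℕ) => c.1.2.2.2) :=
    Primrec.snd.comp (Primrec.snd.comp (Primrec.snd.comp Primrec.fst))
  have b1 : Primrec (fun c : (ℕ × ℕ × ℕ × List ℕ) × (ℕ × ℕ × ℕ × ℕ × ℕ × ℕ) => c.2.1) :=
    Primrec.fst.comp Primrec.snd
  have b2 : Primrec (fun c : (ℕ × ℕ × ℕ × List ℕ) × (ℕ × ℕ × ℕ × ℕ × ℕ × ℕ) => c.2.2.1) :=
    Primrec.fst.comp (Primrec.snd.comp Primrec.snd)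
  have b3 : Primrec (fun c : (ℕ × ℕ × ℕ × List ℕ) × (ℕ × ℕ × ℕ × ℕ × ℕ × ℕ) => c.2.2.2.1) :=
    Primrec.fst.comp (Primrec.snd.comp (Primrec.snd.comp Primrec.snd))
  have b4 : Primrec (fun c : (ℕ × ℕ × ℕ × List ℕ) × (ℕ × ℕ × ℕ × ℕ × ℕ × ℕ) => c.2.2.2.2.1) :=
    Primrec.fst.comp (Primrec.snd.comp (Primrec.snd.comp (Primrec.snd.comp Primrec.snd)))
  have b5 : Primrec (fun c : (ℕ × ℕ × ℕ × List ℕ) × (ℕ × ℕ × ℕ × ℕ × ℕ × ℕ) =>
      c.2.2.2.2.2.1) :=
    Primrec.fst.comp (Primrec.snd.comp (Primrec.snd.comp (Primrec.snd.comp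
      (Primrec.snd.comp Primrec.snd))))
  have b6 : Primrec (fun c : (ℕ × ℕ × ℕ × List ℕ) × (ℕ × ℕ × ℕ × ℕ × ℕ × ℕ) =>
      c.2.2.2.2.2.2) :=
    Primrec.snd.comp (Primrec.snd.comp (Primrec.snd.comp (Primrec.snd.comp
      (Primrec.snd.comp Primrec.snd))))
  have c1 := re_comp re_Cert (f := fun c : (ℕ × ℕ × ℕ × List ℕ) × (ℕ × ℕ × ℕ × ℕ × ℕ × ℕ) =>
    (c.2.1, c.2.2.1, c.1.2.2.2)) (b1.pair (b2.pair a4)).to_comp
  have c2 := re_comp hW (f := fun c : (ℕ × ℕ × ℕ × List ℕ) × (ℕ × ℕ × ℕ × ℕ × ℕ × ℕ) =>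
    (c.2.1, 1, c.2.2.2.1, c.2.2.2.2.1, c.1.1))
    (b1.pair ((Primrec.const 1).pair (b3.pair (b4.pair a1)))).to_comp
  have c3 := re_comp hW (f := fun c : (ℕ × ℕ × ℕ × List ℕ) × (ℕ × ℕ × ℕ × ℕ × ℕ × ℕ) =>
    (c.2.2.1, 0, c.2.2.2.2.2.1, c.2.2.2.2.2.2, c.1.1))
    (b2.pair ((Primrec.const 0).pair (b5.pair (b6.pair a1)))).to_comp
  have c4 := re_comp re_BitSub (f := fun c : (ℕ × ℕ × ℕ × List ℕ) × (ℕ × ℕ × ℕ × ℕ × ℕ × ℕ) =>
    (c.2.2.2.1, c.1.2.1)) (b3.pair a2).to_comp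
  have c5 := re_comp re_BitSub (f := fun c : (ℕ × ℕ × ℕ × List ℕ) × (ℕ × ℕ × ℕ × ℕ × ℕ × ℕ) =>
    (c.2.2.2.2.2.1, c.1.2.1)) (b5.pair a2).to_comp
  have c6 := re_comp re_BitSub (f := fun c : (ℕ × ℕ × ℕ × List ℕ) × (ℕ × ℕ × ℕ × ℕ × ℕ × ℕ) =>
    (c.2.2.2.2.1, c.1.2.2.1)) (b4.pair a3).to_comp
  have c7 := re_comp re_BitSub (f := fun c : (ℕ × ℕ × ℕ × List ℕ) × (ℕ × ℕ × ℕ × ℕ × ℕ × ℕ) =>
    (c.2.2.2.2.2.2, c.1.2.2.1)) (b6.pair a3).to_comp
  exact re_and c1 (re_and c2 (re_and c3 (re_and (re_and c4 c5) (re_and c6 c7))))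

theorem re_Cert2 {W : ℕ × ℕ × ℕ × ℕ × ℕ → Prop} (hW : REPred W) : REPred (Cert2 W) :=
  (re_ex (FinD1_re_M hW)).of_eq fun a => (FinD1_cert2_iff W a).symm

theorem Cert2.mono {W : ℕ × ℕ × ℕ × ℕ × ℕ → Prop} {q P N P' N' : ℕ} {ys : List ℕ}
    (h : Cert2 W (q, P, N, ys)) (hP : BitSub P P') (hN : BitSub N N') :
    Cert2 W (q, P', N', ys) := by
  obtain ⟨P1, N1, P2, N2, P3, N3, h1, h2, h3, ⟨h4, h5⟩, h6, h7⟩ := h
  exact ⟨P1, N1, P2, N2, P3, N3, h1, h2, h3, ⟨h4.trans hP, h5.trans hP⟩, h6.trans hN,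
    h7.trans hN⟩

section

variable (Γ : Ctx) (p : ℕ → ℕ → ℕ) (hp : ∀ m k, p m k ≤ Γ.c k)

include hp

theorem cert2_exists {W : ℕ × ℕ × ℕ × ℕ × ℕ → Prop} {q : ℕ → ℕ} {B : Set (MM (GG Γ p))}
    (h : RedBy W q (Aset Γ p) B) (J : ℕ) :
    ∃ P N : MM (GG Γ p), Sub P B ∧ Disj N B ∧
      ∀ᶠ k in UU, Cert2 W (q k, rep P k, rep N k, hist (Γ.c k) J) := by
  have hG := gen_GG Γ p hp
  obtain ⟨P1, N1, hP1, hN1, hc⟩ := cert_exists Γ p hp J
  obtain ⟨P2, N2, hP2, hN2, hW1⟩ := (h.1 P1).1 hP1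
  obtain ⟨P3, N3, hP3, hN3, hW2⟩ := (h.2 N1).1 hN1
  obtain ⟨U, hU1, -, hU3⟩ := exists_union hG P2 P3
  obtain ⟨V, -, hV2, hV3⟩ := exists_union hG N2 N3
  refine ⟨U, V, hU1 B hP2 hP3, hV2 B hN2 hN3, ?_⟩
  filter_upwards [hc, hW1, hW2, hU3, hV3] with k k1 k2 k3 k4 k5
  exact ⟨rep P1 k, rep N1 k, rep P2 k, rep N2 k, rep P3 k, rep N3 k, k1, k2, k3, k4, k5⟩

theorem cert2_sound {W : ℕ × ℕ × ℕ × ℕ × ℕ → Prop} (hW : REPred W) {q : ℕ → ℕ}
    (hq : Ms (GG Γ p) q) {B : Set (MM (GG Γ p))} (h : RedBy W q (Aset Γ p) B)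
    {P N : MM (GG Γ p)} (hP : Sub P B) (hN : Disj N B) {ys : ℕ → List ℕ} (hys : MsT (GG Γ p) ys)
    (hc : ∀ᶠ k in UU, Cert2 W (q k, rep P k, rep N k, ys k)) :
    ∃ J, ∀ᶠ k in UU, ys k = hist (Γ.c k) J := by
  have hG := gen_GG Γ p hp
  have ha : MsT (GG Γ p) (fun k => (q k, rep P k, rep N k, ys k)) :=
    MsT.prod hG (msT_nat.2 hq) (MsT.prod hG (msT_nat.2 (rep_ms P))
      (MsT.prod hG (msT_nat.2 (rep_ms N)) hys))
  obtain ⟨b, hb, hM⟩ := MsT.wit hG ha (FinD1_re_M hW)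
    (hc.mono fun k hk => (FinD1_cert2_iff W _).1 hk)
  have m1 : Ms (GG Γ p) (fun k => (b k).1) := msT_nat.1 (hb.comp Primrec.fst.to_comp)
  have m2 : Ms (GG Γ p) (fun k => (b k).2.1) :=
    msT_nat.1 (hb.comp (Primrec.fst.comp Primrec.snd).to_comp)
  have m3 : Ms (GG Γ p) (fun k => (b k).2.2.1) :=
    msT_nat.1 (hb.comp (Primrec.fst.comp (Primrec.snd.comp Primrec.snd)).to_comp)
  have m4 : Ms (GG Γ p) (fun k => (b k).2.2.2.1) :=
    msT_nat.1 (hb.comp (Primrec.fst.comp (Primrec.snd.comp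
      (Primrec.snd.comp Primrec.snd))).to_comp)
  have m5 : Ms (GG Γ p) (fun k => (b k).2.2.2.2.1) :=
    msT_nat.1 (hb.comp (Primrec.fst.comp (Primrec.snd.comp (Primrec.snd.comp
      (Primrec.snd.comp Primrec.snd)))).to_comp)
  have m6 : Ms (GG Γ p) (fun k => (b k).2.2.2.2.2) :=
    msT_nat.1 (hb.comp (Primrec.snd.comp (Primrec.snd.comp (Primrec.snd.comp
      (Primrec.snd.comp Primrec.snd)))).to_comp)
  have r1 := rep_mkD m1
  have r2 := rep_mkD m2
  have r3 := rep_mkD m3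
  have r4 := rep_mkD m4
  have r5 := rep_mkD m5
  have r6 := rep_mkD m6
  have hP2 : Sub (mkD (GG Γ p) (fun k => (b k).2.2.1)) B := by
    refine sub_of_bitSub hG ?_ hP
    filter_upwards [hM, r3] with k k1 k2
    rw [k2]
    exact k1.2.2.2.1.1
  have hP3 : Sub (mkD (GG Γ p) (fun k => (b k).2.2.2.2.1)) B := by
    refine sub_of_bitSub hG ?_ hP
    filter_upwards [hM, r5] with k k1 k2
    rw [k2]
    exact k1.2.2.2.1.2
  have hN2 : Disj (mkD (GG Γ p) (fun k => (b k).2.2.2.1)) B := by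
    refine disj_of_bitSub hG ?_ hN
    filter_upwards [hM, r4] with k k1 k2
    rw [k2]
    exact k1.2.2.2.2.1
  have hN3 : Disj (mkD (GG Γ p) (fun k => (b k).2.2.2.2.2)) B := by
    refine disj_of_bitSub hG ?_ hN
    filter_upwards [hM, r6] with k k1 k2
    rw [k2]
    exact k1.2.2.2.2.2
  have hA1 : Sub (mkD (GG Γ p) (fun k => (b k).1)) (Aset Γ p) := by
    refine (h.1 _).2 ⟨_, _, hP2, hN2, ?_⟩
    filter_upwards [hM, r1, r3, r4] with k k1 k2 k3 k4
    rw [k2, k3, k4]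
    exact k1.2.1
  have hA2 : Disj (mkD (GG Γ p) (fun k => (b k).2.1)) (Aset Γ p) := by
    refine (h.2 _).2 ⟨_, _, hP3, hN3, ?_⟩
    filter_upwards [hM, r2, r5, r6] with k k1 k2 k3 k4
    rw [k2, k3, k4]
    exact k1.2.2.1
  refine cert_sound Γ p hp _ _ hA1 hA2 ys ?_
  filter_upwards [hM, r1, r2] with k k1 k2 k3
  rw [k2, k3]
  exact k1.1

end

end Pool.Agent.Lib.MP_53c40f_lc
end

section

/-!
# Values of the settling function from information about the set
-/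

set_option autoImplicit false

namespace Pool.Agent.Lib.MP_53c40f_lc

open Filter

private theorem d2_pow : Primrec (fun n : ℕ => 2 ^ n) := by
  refine (Primrec.nat_rec₁ 1 (f := fun _ y => y + y)
    (Primrec.nat_add.comp Primrec.snd Primrec.snd)).of_eq ?_
  intro n
  induction n with
  | zero => rfl
  | succ n ih =>
    show _ + _ = _
    rw [ih, pow_succ]
    ring

private theorem d2_testBit {α : Type} [Primcodable α] {f g : α → ℕ} (hf : Primrec f)
    (hg : Primrec g) : PrimrecPred (fun a => (f a).testBit (g a) = true) := by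
  have h : PrimrecPred (fun a => f a / 2 ^ g a % 2 = 1) :=
    Primrec.eq.comp (Primrec.nat_mod.comp (Primrec.nat_div.comp hf (d2_pow.comp hg))
      (Primrec.const 2)) (Primrec.const 1)
  refine h.of_eq fun a => ?_
  rw [Nat.testBit_eq_decide_div_mod_eq, decide_eq_true_iff]

private theorem d2_all {α : Type} [Primcodable α] {R : α → ℕ → Prop}
    (hR : PrimrecPred fun p : α × ℕ => R p.1 p.2) {f : α → ℕ} (hf : Primrec f) :
    PrimrecPred fun a => ∀ i < f a, R a i := by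
  refine ((sg7_ex (R := fun a i => ¬ R a i) hR.not hf).not).of_eq fun a => ?_
  push Not
  rfl

/-- the code of a decidable subset of an initial segment -/
private def d2_code (D : ℕ → Bool) : ℕ → ℕ
  | 0 => 0
  | n + 1 => bif D n then 2 ^ n + d2_code D n else d2_code D n

private theorem d2_code_lt (D : ℕ → Bool) (n : ℕ) : d2_code D n < 2 ^ n := by
  induction n with
  | zero => simp [d2_code]
  | succ n ih =>
    unfold d2_code
    rw [pow_succ]
    cases D n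
    · simp only [cond_false]; omega
    · simp only [cond_true]; omega

private theorem d2_code_testBit (D : ℕ → Bool) (n x : ℕ) :
    (d2_code D n).testBit x = true ↔ x < n ∧ D x = true := by
  induction n with
  | zero => simp [d2_code]
  | succ n ih =>
    rcases lt_trichotomy x n with hx | rfl | hx
    · unfold d2_code
      cases hD : D n
      · simp only [cond_false]
        rw [ih]
        constructor
        · rintro ⟨_, h⟩; exact ⟨by omega, h⟩
        · rintro ⟨_, h⟩; exact ⟨by omega, h⟩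
      · simp only [cond_true]
        rw [Nat.testBit_two_pow_add_gt hx, ih]
        constructor
        · rintro ⟨_, h⟩; exact ⟨by omega, h⟩
        · rintro ⟨_, h⟩; exact ⟨by omega, h⟩
    · have h0 : (d2_code D x).testBit x = false := Nat.testBit_lt_two_pow (d2_code_lt D x)
      unfold d2_code
      cases hD : D x
      · simp only [cond_false]
        rw [h0]
        simp
      · simp only [cond_true]
        rw [Nat.testBit_two_pow_add_eq, h0]
        simp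
    · have h0 : (d2_code D (n + 1)).testBit x = false := by
        refine Nat.testBit_lt_two_pow (lt_of_lt_of_le (d2_code_lt D (n + 1)) ?_)
        exact Nat.pow_le_pow_right (by norm_num) hx
      rw [h0]
      constructor
      · intro h; exact absurd h (by simp)
      · rintro ⟨h, _⟩; omega

private theorem d2_code_comp {α : Type} [Primcodable α] {D : α → ℕ → Bool} (hD : Computable₂ D)
    {f : α → ℕ} (hf : Computable f) : Computable (fun a => d2_code (D a) (f a)) := by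
  have h1 : Computable₂ (fun (a : α) (q : ℕ × ℕ) =>
      bif D a q.1 then 2 ^ q.1 + q.2 else q.2) := by
    have a1 : Computable (fun p : α × (ℕ × ℕ) => D p.1 p.2.1) :=
      hD.comp Computable.fst (Computable.fst.comp Computable.snd)
    have a2 : Computable (fun p : α × (ℕ × ℕ) => 2 ^ p.2.1 + p.2.2) :=
      (Primrec.nat_add.comp (d2_pow.comp (Primrec.fst.comp Primrec.snd))
        (Primrec.snd.comp Primrec.snd)).to_comp
    exact Computable.cond a1 a2 (Computable.snd.comp Computable.snd)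
  refine (Computable.nat_rec (f := f) (g := fun _ => 0) hf (Computable.const 0) h1).of_eq
    fun a => ?_
  generalize f a = N
  induction N with
  | zero => rfl
  | succ N ih =>
    simp only [d2_code]
    rw [← ih]

private theorem uu_ball {n : ℕ} {P : ℕ → ℕ → Prop} (h : ∀ i < n, ∀ᶠ k in UU, P i k) :
    ∀ᶠ k in UU, ∀ i < n, P i k := by
  induction n with
  | zero => exact Filter.Eventually.of_forall fun k i hi => absurd hi (Nat.not_lt_zero i)
  | succ n ih =>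
    filter_upwards [ih fun i hi => h i (by omega), h n (by omega)] with k h1 h2 i hi
    rcases Nat.lt_succ_iff_lt_or_eq.1 hi with hi | rfl
    · exact h1 i hi
    · exact h2

/-- `(r, P, N, ys, xs)`: the information `P`, `N` about the c.e. set with index `e` and parameter
`r` is complete below the relevant values, and shows that `xs` is an initial segment of its settling
function if `ys` is an initial segment of the final values -/
def Info (e : ℕ) (a : ℕ × ℕ × ℕ × List ℕ × List ℕ) : Prop :=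
  ∀ i < a.2.2.2.2.length, i < a.2.2.2.1.length ∧ a.2.2.2.2.getD i 0 < a.2.2.2.1.length ∧
    (∀ x < a.2.2.2.1.getD i 0, (a.2.1.testBit x = true ∧
      haltN (a.2.2.2.1.getD (a.2.2.2.2.getD i 0) 0) e (Nat.pair x a.1) = true) ∨
        a.2.2.1.testBit x = true) ∧
    ∀ j < a.2.2.2.2.getD i 0, ∃ x < a.2.2.2.1.getD i 0, a.2.1.testBit x = true ∧
      haltN (a.2.2.2.1.getD j 0) e (Nat.pair x a.1) = false

theorem re_Info (e : ℕ) : REPred (Info e) := by
  refine re_of_primrecPred ?_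
  unfold Info
  -- the components
  have gD : ∀ {α : Type} [Primcodable α] {l : α → List ℕ} {i : α → ℕ}, Primrec l → Primrec i →
      Primrec (fun a => (l a).getD (i a) 0) := fun hl hi => (Primrec.list_getD 0).comp hl hi
  have hN : ∀ {α : Type} [Primcodable α] {s x r : α → ℕ} {b : Bool}, Primrec s → Primrec x →
      Primrec r → PrimrecPred (fun a => haltN (s a) e (Nat.pair (x a) (r a)) = b) :=
    fun hs hx hr => Primrec.eq.comp (primrec_haltN.comp (hs.pair ((Primrec.const e).pair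
      (Primrec₂.natPair.comp hx hr)))) (Primrec.const _)
  -- functions of `a`
  have r0 : Primrec (fun a : ℕ × ℕ × ℕ × List ℕ × List ℕ => a.1) := Primrec.fst
  have t1 : Primrec (fun a : ℕ × ℕ × ℕ × List ℕ × List ℕ => a.2) := Primrec.snd
  have P0 : Primrec (fun a : ℕ × ℕ × ℕ × List ℕ × List ℕ => a.2.1) := Primrec.fst.comp t1
  have t2 : Primrec (fun a : ℕ × ℕ × ℕ × List ℕ × List ℕ => a.2.2) := Primrec.snd.comp t1
  have N0 : Primrec (fun a : ℕ × ℕ × ℕ × List ℕ × List ℕ => a.2.2.1) := Primrec.fst.comp t2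
  have t3 : Primrec (fun a : ℕ × ℕ × ℕ × List ℕ × List ℕ => a.2.2.2) := Primrec.snd.comp t2
  have ys : Primrec (fun a : ℕ × ℕ × ℕ × List ℕ × List ℕ => a.2.2.2.1) := Primrec.fst.comp t3
  have xs : Primrec (fun a : ℕ × ℕ × ℕ × List ℕ × List ℕ => a.2.2.2.2) := Primrec.snd.comp t3
  refine d2_all (R := fun (a : ℕ × ℕ × ℕ × List ℕ × List ℕ) (i : ℕ) =>
    i < a.2.2.2.1.length ∧ a.2.2.2.2.getD i 0 < a.2.2.2.1.length ∧
    (∀ x < a.2.2.2.1.getD i 0, (a.2.1.testBit x = true ∧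
      haltN (a.2.2.2.1.getD (a.2.2.2.2.getD i 0) 0) e (Nat.pair x a.1) = true) ∨
        a.2.2.1.testBit x = true) ∧
    ∀ j < a.2.2.2.2.getD i 0, ∃ x < a.2.2.2.1.getD i 0, a.2.1.testBit x = true ∧
      haltN (a.2.2.2.1.getD j 0) e (Nat.pair x a.1) = false) ?_ (Primrec.list_length.comp xs)
  -- functions of `(a, i)`
  have c1 : PrimrecPred (fun p : (ℕ × ℕ × ℕ × List ℕ × List ℕ) × ℕ =>
      p.2 < p.1.2.2.2.1.length) :=
    Primrec.nat_lt.comp Primrec.snd (Primrec.list_length.comp (ys.comp Primrec.fst))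
  have yi : Primrec (fun p : (ℕ × ℕ × ℕ × List ℕ × List ℕ) × ℕ => p.1.2.2.2.1.getD p.2 0) :=
    gD (ys.comp Primrec.fst) Primrec.snd
  have xi : Primrec (fun p : (ℕ × ℕ × ℕ × List ℕ × List ℕ) × ℕ => p.1.2.2.2.2.getD p.2 0) :=
    gD (xs.comp Primrec.fst) Primrec.snd
  have c2 : PrimrecPred (fun p : (ℕ × ℕ × ℕ × List ℕ × List ℕ) × ℕ =>
      p.1.2.2.2.2.getD p.2 0 < p.1.2.2.2.1.length) :=
    Primrec.nat_lt.comp xi (Primrec.list_length.comp (ys.comp Primrec.fst))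
  have c3 : PrimrecPred (fun p : (ℕ × ℕ × ℕ × List ℕ × List ℕ) × ℕ =>
      ∀ x < p.1.2.2.2.1.getD p.2 0, (p.1.2.1.testBit x = true ∧
      haltN (p.1.2.2.2.1.getD (p.1.2.2.2.2.getD p.2 0) 0) e (Nat.pair x p.1.1) = true) ∨
        p.1.2.2.1.testBit x = true) := by
    refine d2_all (R := fun (p : (ℕ × ℕ × ℕ × List ℕ × List ℕ) × ℕ) (x : ℕ) =>
      (p.1.2.1.testBit x = true ∧
      haltN (p.1.2.2.2.1.getD (p.1.2.2.2.2.getD p.2 0) 0) e (Nat.pair x p.1.1) = true) ∨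
        p.1.2.2.1.testBit x = true) ?_ yi
    have q1 := d2_testBit (P0.comp (Primrec.fst.comp (Primrec.fst (β := ℕ))))
      (Primrec.snd (α := (ℕ × ℕ × ℕ × List ℕ × List ℕ) × ℕ) (β := ℕ))
    have q2 := hN (b := true) (gD (ys.comp (Primrec.fst.comp (Primrec.fst (β := ℕ))))
      (xi.comp Primrec.fst))
      (Primrec.snd (α := (ℕ × ℕ × ℕ × List ℕ × List ℕ) × ℕ) (β := ℕ))
      (r0.comp (Primrec.fst.comp Primrec.fst))
    have q3 := d2_testBit (N0.comp (Primrec.fst.comp (Primrec.fst (β := ℕ))))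
      (Primrec.snd (α := (ℕ × ℕ × ℕ × List ℕ × List ℕ) × ℕ) (β := ℕ))
    exact (q1.and q2).or q3
  have c4 : PrimrecPred (fun p : (ℕ × ℕ × ℕ × List ℕ × List ℕ) × ℕ =>
      ∀ j < p.1.2.2.2.2.getD p.2 0, ∃ x < p.1.2.2.2.1.getD p.2 0, p.1.2.1.testBit x = true ∧
      haltN (p.1.2.2.2.1.getD j 0) e (Nat.pair x p.1.1) = false) := by
    refine d2_all (R := fun (p : (ℕ × ℕ × ℕ × List ℕ × List ℕ) × ℕ) (j : ℕ) =>
      ∃ x < p.1.2.2.2.1.getD p.2 0, p.1.2.1.testBit x = true ∧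
      haltN (p.1.2.2.2.1.getD j 0) e (Nat.pair x p.1.1) = false) ?_ xi
    refine sg7_ex (R := fun (p : ((ℕ × ℕ × ℕ × List ℕ × List ℕ) × ℕ) × ℕ) (x : ℕ) =>
      p.1.1.2.1.testBit x = true ∧
      haltN (p.1.1.2.2.2.1.getD p.2 0) e (Nat.pair x p.1.1.1) = false) ?_ (yi.comp Primrec.fst)
    have a0 : Primrec (fun p : (((ℕ × ℕ × ℕ × List ℕ × List ℕ) × ℕ) × ℕ) × ℕ => p.1.1.1) :=
      Primrec.fst.comp (Primrec.fst.comp Primrec.fst)
    have q1 := d2_testBit (P0.comp a0) (Primrec.snd (α := ((ℕ × ℕ × ℕ × List ℕ × List ℕ) × ℕ) × ℕ)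
      (β := ℕ))
    have q2 := hN (b := false) (gD (ys.comp a0) (Primrec.snd.comp (Primrec.fst
      (α := ((ℕ × ℕ × ℕ × List ℕ × List ℕ) × ℕ) × ℕ) (β := ℕ))))
      (Primrec.snd (α := ((ℕ × ℕ × ℕ × List ℕ × List ℕ) × ℕ) × ℕ) (β := ℕ)) (r0.comp a0)
    exact q1.and q2
  exact c1.and (c2.and (c3.and c4))

theorem Info.mono {e r P N P' N' : ℕ} {ys xs : List ℕ} (h : Info e (r, P, N, ys, xs))
    (hP : BitSub P P') (hN : BitSub N N') : Info e (r, P', N', ys, xs) := by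
  intro i hi
  obtain ⟨h1, h2, h3, h4⟩ := h i hi
  refine ⟨h1, h2, fun x hx => ?_, fun j hj => ?_⟩
  · rcases h3 x hx with h | h
    · exact Or.inl ⟨hP x h.1, h.2⟩
    · exact Or.inr (hN x h)
  · obtain ⟨x, hx, h5, h6⟩ := h4 j hj
    exact ⟨x, hx, hP x h5, h6⟩

section

variable (Γ : Ctx) (p : ℕ → ℕ → ℕ) (hp : ∀ m k, p m k ≤ Γ.c k)

include hp

theorem info_exists (e : ℕ) {r : ℕ → ℕ} (hr : Ms (GG Γ p) r) (j : ℕ) :
    ∃ J₀, ∀ J, J₀ ≤ J → ∃ P N : MM (GG Γ p), Sub P (Cset Γ p e r) ∧ Disj N (Cset Γ p e r) ∧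
      ∀ᶠ k in UU, Info e (r k, rep P k, rep N k, hist (Γ.c k) J, (List.range j).map (Xf Γ e r)) := by
  have hG := gen_GG Γ p hp
  -- a bound for the settling values
  obtain ⟨B, hB⟩ : ∃ B, ∀ i < j, Xf Γ e r i < B := by
    refine ⟨∑ i ∈ Finset.range j, Xf Γ e r i + 1, fun i hi => ?_⟩
    have := Finset.single_le_sum (f := fun i => Xf Γ e r i) (fun i _ => Nat.zero_le _)
      (Finset.mem_range.2 hi)
    omega
  refine ⟨max j B, fun J hJ => ?_⟩
  obtain ⟨X, hX⟩ : ∃ X, X = Xf Γ e r j := ⟨_, rfl⟩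
  -- the codes
  have hD : ∀ b : Bool, Computable₂ (fun (a : List ℕ × ℕ) (x : ℕ) =>
      xor b (haltN (a.1.getD X 0) e (Nat.pair x a.2))) := by
    intro b
    have h1 : Primrec (fun q : (List ℕ × ℕ) × ℕ =>
        haltN (q.1.1.getD X 0) e (Nat.pair q.2 q.1.2)) :=
      primrec_haltN.comp (((Primrec.list_getD 0).comp (Primrec.fst.comp Primrec.fst)
        (Primrec.const X)).pair ((Primrec.const e).pair
        (Primrec₂.natPair.comp Primrec.snd (Primrec.snd.comp Primrec.fst))))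
    cases b
    · refine Computable.of_eq h1.to_comp fun q => ?_
      simp
    · refine Computable.of_eq (Primrec.not.comp h1).to_comp fun q => ?_
      simp
  have hcode : ∀ b : Bool, Computable (fun a : List ℕ × ℕ => d2_code (fun x =>
      xor b (haltN (a.1.getD X 0) e (Nat.pair x a.2))) (a.1.getD j 0)) := fun b =>
    d2_code_comp (hD b) ((Primrec.list_getD 0).comp Primrec.fst (Primrec.const j)).to_comp
  have hgen : MsT (GG Γ p) (fun k => (hist (Γ.c k) (X + j + 1), r k)) :=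
    MsT.prod hG (ms_hist Γ p hp _) (msT_nat.2 hr)
  have hms : ∀ b : Bool, Ms (GG Γ p) (fun k => d2_code (fun x =>
      xor b (haltN (hf (Γ.c k) X) e (Nat.pair x (r k)))) (hf (Γ.c k) j)) := by
    intro b
    refine (msT_nat.1 (hgen.comp (hcode b))).congr (Filter.Eventually.of_forall fun k => ?_)
    rw [hist_getD (by omega), hist_getD (by omega)]
  have hspec := Xf_spec Γ p hp e hr j
  rw [← hX] at hspec
  refine ⟨mkD (GG Γ p) (fun k => d2_code (fun x =>
      xor false (haltN (hf (Γ.c k) X) e (Nat.pair x (r k)))) (hf (Γ.c k) j)),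
    mkD (GG Γ p) (fun k => d2_code (fun x =>
      xor true (haltN (hf (Γ.c k) X) e (Nat.pair x (r k)))) (hf (Γ.c k) j)), ?_, ?_⟩
  · refine (sub_iff hG (re_Cset e) hr _).2 ?_
    filter_upwards [rep_mkD (hms false)] with k k1 y hy
    rw [k1, d2_code_testBit] at hy
    exact ⟨_, by simpa using hy.2⟩
  · refine ⟨(disj_iff hG (re_Cset e) hr _).2 ?_, ?_⟩
    · filter_upwards [rep_mkD (hms true), hspec.1] with k k1 k2 y hy hy2
      rw [k1, d2_code_testBit] at hy
      have h1 := k2 y hy.1 hy2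
      rw [h1] at hy
      simp at hy
    · have hs1 : ∀ᶠ k in UU, ∀ i < j, ∀ x < hf (Γ.c k) i, halt e (Nat.pair x (r k)) →
          haltN (hf (Γ.c k) (Xf Γ e r i)) e (Nat.pair x (r k)) = true :=
        uu_ball fun i _ => (Xf_spec Γ p hp e hr i).1
      have hs2 : ∀ᶠ k in UU, ∀ i < j, ∀ j' < Xf Γ e r i, ∃ x < hf (Γ.c k) i,
          halt e (Nat.pair x (r k)) ∧ haltN (hf (Γ.c k) j') e (Nat.pair x (r k)) = false :=
        uu_ball fun i _ => uu_ball fun j' hj' => (Xf_spec Γ p hp e hr i).2 j' hj'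
      filter_upwards [rep_mkD (hms false), rep_mkD (hms true), hspec.1, hs1, hs2]
        with k k1 k2 k3 k4 k5
      rw [k1, k2]
      intro i hi
      simp only [List.length_map, List.length_range] at hi
      simp only [hist_length]
      rw [range_map_getD hi]
      have hiJ : i < J := by omega
      have hXJ : Xf Γ e r i < J := by have := hB i hi; omega
      have hmon : hf (Γ.c k) i ≤ hf (Γ.c k) j := hf_mono (Γ.c k) hi.le
      rw [hist_getD hiJ, hist_getD hXJ]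
      refine ⟨hiJ, hXJ, fun x hx => ?_, fun j' hj' => ?_⟩
      · by_cases hh : halt e (Nat.pair x (r k))
        · refine Or.inl ⟨?_, k4 i hi x hx hh⟩
          rw [d2_code_testBit]
          refine ⟨lt_of_lt_of_le hx hmon, ?_⟩
          rw [k3 x (lt_of_lt_of_le hx hmon) hh]
          rfl
        · refine Or.inr ?_
          rw [d2_code_testBit]
          refine ⟨lt_of_lt_of_le hx hmon, ?_⟩
          have h1 : haltN (hf (Γ.c k) X) e (Nat.pair x (r k)) = false := by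
            by_contra hcon
            exact hh ⟨_, by simpa using hcon⟩
          rw [h1]
          rfl
      · obtain ⟨x, hx, h5, h6⟩ := k5 i hi j' hj'
        refine ⟨x, hx, ?_, ?_⟩
        · rw [d2_code_testBit]
          refine ⟨lt_of_lt_of_le hx hmon, ?_⟩
          rw [k3 x (lt_of_lt_of_le hx hmon) h5]
          rfl
        · rw [hist_getD (by omega)]
          exact h6

theorem info_sound (e : ℕ) {r : ℕ → ℕ} (hr : Ms (GG Γ p) r) {P N : MM (GG Γ p)}
    (hP : Sub P (Cset Γ p e r)) (hN : Disj N (Cset Γ p e r)) {J : ℕ} {xs : ℕ → List ℕ}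
    (hi : ∀ᶠ k in UU, Info e (r k, rep P k, rep N k, hist (Γ.c k) J, xs k)) :
    ∃ j, j ≤ J ∧ ∀ᶠ k in UU, xs k = (List.range j).map (Xf Γ e r) := by
  have hG := gen_GG Γ p hp
  have hlen : ∀ᶠ k in UU, (xs k).length ≤ J := by
    refine hi.mono fun k hk => ?_
    by_contra hcon
    have h1 := (hk J (by simpa using not_le.1 hcon)).1
    simp at h1
  obtain ⟨j, hjJ, hj⟩ := uu_const hlen
  refine ⟨j, hjJ, ?_⟩
  have hPe := (sub_iff hG (re_Cset e) hr P).1 hP
  have hNe := (disj_iff hG (re_Cset e) hr N).1 hN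
  have key : ∀ i < j, ∀ᶠ k in UU, (xs k).getD i 0 = Xf Γ e r i := by
    intro i hij
    have hb : ∀ᶠ k in UU, (xs k).getD i 0 ≤ J := by
      filter_upwards [hi, hj] with k k1 k2
      have h1 := (k1 i (by simpa [k2] using hij)).2.1
      simp only [hist_length] at h1
      exact h1.le
    obtain ⟨a, haJ, ha⟩ := uu_const hb
    have hspec := Xf_spec Γ p hp e hr i
    have haJ' : a < J := by
      obtain ⟨k, k1, k2, k3⟩ := uu_exists (p := fun k => Info e (r k, rep P k, rep N k,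
        hist (Γ.c k) J, xs k) ∧ (xs k).length = j ∧ (xs k).getD i 0 = a)
        (by filter_upwards [hi, hj, ha] with k k1 k2 k3 using ⟨k1, k2, k3⟩)
      have h1 := (k1 i (by simpa [k2] using hij)).2.1
      simp only [hist_length] at h1
      rw [k3] at h1
      exact h1
    have h1 : Xf Γ e r i ≤ a := by
      refine Nat.sInf_le ?_
      change ∀ᶠ k in UU, ∀ x < hf (Γ.c k) i, halt e (Nat.pair x (r k)) →
        haltN (hf (Γ.c k) a) e (Nat.pair x (r k)) = true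
      filter_upwards [hi, hj, ha, hNe] with k k1 k2 k3 k4 x hx hh
      have h2 := (k1 i (by simpa [k2] using hij)).2.2.1 x
        (by rw [hist_getD (by omega)]; exact hx)
      rcases h2 with h2 | h2
      · have h3 := h2.2
        simp only at h3
        rw [k3, hist_getD haJ'] at h3
        exact h3
      · exact absurd hh (k4 x h2)
    have h2 : ¬ Xf Γ e r i < a := by
      intro hlt
      refine uu_false ?_
      filter_upwards [hi, hj, ha, hPe, hspec.1] with k k1 k2 k3 k4 k5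
      obtain ⟨x, hx, h6, h7⟩ := (k1 i (by simpa [k2] using hij)).2.2.2 (Xf Γ e r i)
        (by rw [k3]; exact hlt)
      simp only at hx h6 h7
      rw [hist_getD (by omega)] at hx h7
      have h8 := k5 x hx (k4 x h6)
      rw [h8] at h7
      exact absurd h7 (by simp)
    have h3 : a = Xf Γ e r i := by omega
    rw [← h3]
    exact ha
  filter_upwards [uu_ball key, hj] with k k1 k2
  refine List.ext_getElem (by simpa using k2) fun i h1 h2 => ?_
  have h3 := k1 i (by omega)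
  rw [List.getD_eq_getElem _ _ h1] at h3
  rw [h3]
  simp

end

end Pool.Agent.Lib.MP_53c40f_lc
end

section

/-!
# If the settling function of `C ≥ A` computes the positions of the levels, then `C` is complete
-/

set_option autoImplicit false

namespace Pool.Agent.Lib.MP_53c40f_lc

open Filter

namespace FinD

/-- certificates: values, settling values, two lengths, argument and two positions -/
abbrev Wt := List ℕ × List ℕ × ℕ × ℕ × ℕ × ℕ × ℕ

theorem re_lt {α : Type} [Primcodable α] {f g : α → ℕ} (hf : Primrec f) (hg : Primrec g) :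
    REPred (fun a => f a < g a) :=
  re_of_dec (fun a => decide (f a < g a)) (Primrec.nat_lt.decide.comp hf hg).to_comp
    (fun a => by simp)

theorem re_le {α : Type} [Primcodable α] {f g : α → ℕ} (hf : Primrec f) (hg : Primrec g) :
    REPred (fun a => f a ≤ g a) :=
  re_of_dec (fun a => decide (f a ≤ g a)) (Primrec.nat_le.decide.comp hf hg).to_comp
    (fun a => by simp)

/-- the bounds -/
def Bd (eK : ℕ) (w : Wt) : Prop :=
  w.2.2.2.2.1 < w.1.length ∧ w.2.2.2.2.2.1 < w.1.length ∧ w.2.2.2.2.2.2 < w.1.length ∧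
    w.2.2.1 ≤ w.2.1.length ∧ w.2.2.2.1 ≤ w.2.1.length ∧ eK ≤ w.2.2.2.2.1

theorem re_Bd (eK : ℕ) : REPred (Bd eK) := by
  have h0 : Primrec (fun w : Wt => w.1.length) := Primrec.list_length.comp Primrec.fst
  have h1 : Primrec (fun w : Wt => w.2.1.length) :=
    Primrec.list_length.comp (Primrec.fst.comp Primrec.snd)
  have s2 : Primrec (fun w : Wt => w.2.2) := Primrec.snd.comp Primrec.snd
  have s3 : Primrec (fun w : Wt => w.2.2.2) := Primrec.snd.comp s2
  have s4 : Primrec (fun w : Wt => w.2.2.2.2) := Primrec.snd.comp s3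
  have s5 : Primrec (fun w : Wt => w.2.2.2.2.2) := Primrec.snd.comp s4
  refine re_and (re_lt (Primrec.fst.comp s4) h0) (re_and (re_lt (Primrec.fst.comp s5) h0)
    (re_and (re_lt (Primrec.snd.comp s5) h0) (re_and (re_le (Primrec.fst.comp s2) h1)
      (re_and (re_le (Primrec.fst.comp s3) h1)
        (re_le (Primrec.const eK) (Primrec.fst.comp s4))))))

/-- the decision -/
def Dc (eK : ℕ) (a : (ℕ × ℕ) × List ℕ × ℕ × ℕ) : Prop :=
  ∀ x < a.1.1, a.1.1.testBit x = true → x < a.2.1.getD a.2.2.1 0 ∧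
    haltN (a.2.1.getD a.2.2.2 0) eK x = decide (a.1.2 = 1)

theorem re_Dc (eK : ℕ) : REPred (Dc eK) := by
  have cF : Primrec (fun a : ((ℕ × ℕ) × List ℕ × ℕ × ℕ) × ℕ => a.1.1.1) :=
    Primrec.fst.comp (Primrec.fst.comp Primrec.fst)
  have ci : Primrec (fun a : ((ℕ × ℕ) × List ℕ × ℕ × ℕ) × ℕ => a.1.1.2) :=
    Primrec.snd.comp (Primrec.fst.comp Primrec.fst)
  have cy : Primrec (fun a : ((ℕ × ℕ) × List ℕ × ℕ × ℕ) × ℕ => a.1.2.1) :=
    Primrec.fst.comp (Primrec.snd.comp Primrec.fst)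
  have c1 : Primrec (fun a : ((ℕ × ℕ) × List ℕ × ℕ × ℕ) × ℕ => a.1.2.2.1) :=
    Primrec.fst.comp (Primrec.snd.comp (Primrec.snd.comp Primrec.fst))
  have c2 : Primrec (fun a : ((ℕ × ℕ) × List ℕ × ℕ × ℕ) × ℕ => a.1.2.2.2) :=
    Primrec.snd.comp (Primrec.snd.comp (Primrec.snd.comp Primrec.fst))
  have cx : Primrec (fun a : ((ℕ × ℕ) × List ℕ × ℕ × ℕ) × ℕ => a.2) := Primrec.snd
  have d1 : Primrec (fun a : ((ℕ × ℕ) × List ℕ × ℕ × ℕ) × ℕ =>
      decide (a.2 < a.1.2.1.getD a.1.2.2.1 0)) :=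
    Primrec.nat_lt.decide.comp cx ((Primrec.list_getD 0).comp cy c1)
  have d2 : Primrec (fun a : ((ℕ × ℕ) × List ℕ × ℕ × ℕ) × ℕ =>
      haltN (a.1.2.1.getD a.1.2.2.2 0) eK a.2) :=
    primrec_haltN.comp (((Primrec.list_getD 0).comp cy c2).pair ((Primrec.const eK).pair cx))
  have d3 : Primrec (fun a : ((ℕ × ℕ) × List ℕ × ℕ × ℕ) × ℕ => decide (a.1.1.2 = 1)) :=
    Primrec.eq.decide.comp ci (Primrec.const 1)
  have d4 : Primrec (fun a : ((ℕ × ℕ) × List ℕ × ℕ × ℕ) × ℕ =>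
      decide (haltN (a.1.2.1.getD a.1.2.2.2 0) eK a.2 = decide (a.1.1.2 = 1))) :=
    Primrec.eq.decide.comp d2 d3
  have db : Primrec (fun a : ((ℕ × ℕ) × List ℕ × ℕ × ℕ) × ℕ => a.1.1.1.testBit a.2) :=
    md_primrec_testBit.comp (cF.pair cx)
  refine re_ball (p := fun b : ((ℕ × ℕ) × List ℕ × ℕ × ℕ) × ℕ =>
    b.1.1.1.testBit b.2 = true → b.2 < b.1.2.1.getD b.1.2.2.1 0 ∧
      haltN (b.1.2.1.getD b.1.2.2.2 0) eK b.2 = decide (b.1.1.2 = 1)) ?_
    (f := fun a : (ℕ × ℕ) × List ℕ × ℕ × ℕ => a.1.1) (Computable.fst.comp Computable.fst)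
  refine re_of_dec (fun b => !(b.1.1.1.testBit b.2) || (decide (b.2 < b.1.2.1.getD b.1.2.2.1 0) &&
    decide (haltN (b.1.2.1.getD b.1.2.2.2 0) eK b.2 = decide (b.1.1.2 = 1)))) ?_ ?_
  · exact (Primrec.or.comp (Primrec.not.comp db) (Primrec.and.comp d1 d4)).to_comp
  · intro b
    cases h : b.1.1.1.testBit b.2 <;> simp

/-- the whole relation -/
def WM (WA : ℕ × ℕ × ℕ × ℕ × ℕ → Prop) (e eK : ℕ) (R : ℕ × List ℕ × List ℕ × ℕ × ℕ → Prop)
    (b : (ℕ × ℕ × ℕ × ℕ × ℕ) × Wt) : Prop :=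
  Cert2 WA (b.1.2.2.2.2.unpair.1, b.1.2.2.1, b.1.2.2.2.1, b.2.1) ∧
  Info e (b.1.2.2.2.2.unpair.2.unpair.2, b.1.2.2.1, b.1.2.2.2.1, b.2.1, b.2.2.1) ∧
  R (b.1.2.2.2.2.unpair.2.unpair.1, b.2.1.take b.2.2.2.1, b.2.2.1.take b.2.2.2.1,
    b.2.2.2.2.2.1, b.2.2.2.2.2.2.1) ∧
  R (b.1.2.2.2.2.unpair.2.unpair.1, b.2.1.take b.2.2.2.2.1, b.2.2.1.take b.2.2.2.2.1,
    b.2.2.2.2.2.1 + 1, b.2.2.2.2.2.2.2) ∧
  Bd eK b.2 ∧ Dc eK ((b.1.1, b.1.2.1), b.2.1, b.2.2.2.2.2.2.1, b.2.2.2.2.2.2.2)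

theorem re_WM {WA : ℕ × ℕ × ℕ × ℕ × ℕ → Prop} (hWA : REPred WA) (e eK : ℕ)
    {R : ℕ × List ℕ × List ℕ × ℕ × ℕ → Prop} (hR : REPred R) : REPred (WM WA e eK R) := by
  have a0 : Primrec (fun b : (ℕ × ℕ × ℕ × ℕ × ℕ) × Wt => b.1) := Primrec.fst
  have a1 : Primrec (fun b : (ℕ × ℕ × ℕ × ℕ × ℕ) × Wt => b.1.2) := Primrec.snd.comp a0
  have a2 : Primrec (fun b : (ℕ × ℕ × ℕ × ℕ × ℕ) × Wt => b.1.2.2) := Primrec.snd.comp a1
  have a3 : Primrec (fun b : (ℕ × ℕ × ℕ × ℕ × ℕ) × Wt => b.1.2.2.2) := Primrec.snd.comp a2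
  have a4 : Primrec (fun b : (ℕ × ℕ × ℕ × ℕ × ℕ) × Wt => b.1.2.2.2.2) := Primrec.snd.comp a3
  have q1 : Primrec (fun b : (ℕ × ℕ × ℕ × ℕ × ℕ) × Wt => b.1.2.2.2.2.unpair.1) :=
    Primrec.fst.comp (Primrec.unpair.comp a4)
  have q2 : Primrec (fun b : (ℕ × ℕ × ℕ × ℕ × ℕ) × Wt => b.1.2.2.2.2.unpair.2) :=
    Primrec.snd.comp (Primrec.unpair.comp a4)
  have q21 : Primrec (fun b : (ℕ × ℕ × ℕ × ℕ × ℕ) × Wt => b.1.2.2.2.2.unpair.2.unpair.1) :=
    Primrec.fst.comp (Primrec.unpair.comp q2)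
  have q22 : Primrec (fun b : (ℕ × ℕ × ℕ × ℕ × ℕ) × Wt => b.1.2.2.2.2.unpair.2.unpair.2) :=
    Primrec.snd.comp (Primrec.unpair.comp q2)
  have w0 : Primrec (fun b : (ℕ × ℕ × ℕ × ℕ × ℕ) × Wt => b.2) := Primrec.snd
  have ys : Primrec (fun b : (ℕ × ℕ × ℕ × ℕ × ℕ) × Wt => b.2.1) := Primrec.fst.comp w0
  have w1 : Primrec (fun b : (ℕ × ℕ × ℕ × ℕ × ℕ) × Wt => b.2.2) := Primrec.snd.comp w0
  have xs : Primrec (fun b : (ℕ × ℕ × ℕ × ℕ × ℕ) × Wt => b.2.2.1) := Primrec.fst.comp w1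
  have w2 : Primrec (fun b : (ℕ × ℕ × ℕ × ℕ × ℕ) × Wt => b.2.2.2) := Primrec.snd.comp w1
  have j1 : Primrec (fun b : (ℕ × ℕ × ℕ × ℕ × ℕ) × Wt => b.2.2.2.1) := Primrec.fst.comp w2
  have w3 : Primrec (fun b : (ℕ × ℕ × ℕ × ℕ × ℕ) × Wt => b.2.2.2.2) := Primrec.snd.comp w2
  have j2 : Primrec (fun b : (ℕ × ℕ × ℕ × ℕ × ℕ) × Wt => b.2.2.2.2.1) := Primrec.fst.comp w3
  have w4 : Primrec (fun b : (ℕ × ℕ × ℕ × ℕ × ℕ) × Wt => b.2.2.2.2.2) := Primrec.snd.comp w3
  have aa : Primrec (fun b : (ℕ × ℕ × ℕ × ℕ × ℕ) × Wt => b.2.2.2.2.2.1) := Primrec.fst.comp w4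
  have w5 : Primrec (fun b : (ℕ × ℕ × ℕ × ℕ × ℕ) × Wt => b.2.2.2.2.2.2) := Primrec.snd.comp w4
  have v1 : Primrec (fun b : (ℕ × ℕ × ℕ × ℕ × ℕ) × Wt => b.2.2.2.2.2.2.1) := Primrec.fst.comp w5
  have v2 : Primrec (fun b : (ℕ × ℕ × ℕ × ℕ × ℕ) × Wt => b.2.2.2.2.2.2.2) := Primrec.snd.comp w5
  have cP : Primrec (fun b : (ℕ × ℕ × ℕ × ℕ × ℕ) × Wt => b.1.2.2.1) := Primrec.fst.comp a2
  have cN : Primrec (fun b : (ℕ × ℕ × ℕ × ℕ × ℕ) × Wt => b.1.2.2.2.1) := Primrec.fst.comp a3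
  have cK : Primrec (fun b : (ℕ × ℕ × ℕ × ℕ × ℕ) × Wt => b.1.1) := Primrec.fst.comp a0
  have ci : Primrec (fun b : (ℕ × ℕ × ℕ × ℕ × ℕ) × Wt => b.1.2.1) := Primrec.fst.comp a1
  refine re_and (re_comp (re_Cert2 hWA) (q1.pair (cP.pair (cN.pair ys))).to_comp)
    (re_and (re_comp (re_Info e) (q22.pair (cP.pair (cN.pair (ys.pair xs)))).to_comp)
    (re_and (re_comp hR (q21.pair ((Primrec.list_take.comp j1 ys).pair
      ((Primrec.list_take.comp j1 xs).pair (aa.pair v1)))).to_comp)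
    (re_and (re_comp hR (q21.pair ((Primrec.list_take.comp j2 ys).pair
      ((Primrec.list_take.comp j2 xs).pair ((Primrec.succ.comp aa).pair v2)))).to_comp)
    (re_and (re_comp (re_Bd eK) w0.to_comp)
      (re_comp (re_Dc eK) ((cK.pair ci).pair (ys.pair (v1.pair v2))).to_comp)))))

theorem testBit_lt {K x : ℕ} (h : K.testBit x = true) : x < K := by
  by_contra hc
  have h1 : K < 2 ^ x := lt_of_le_of_lt (not_lt.mp hc) Nat.lt_two_pow_self
  rw [Nat.testBit_lt_two_pow h1] at h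
  exact absurd h (by simp)

section

variable {Γ : Ctx} {p : ℕ → ℕ → ℕ} (hp : ∀ m k, p m k ≤ Γ.c k)

include hp

theorem complete {e n m eK : ℕ} (heK : ∀ u, halt u.unpair.1 u.unpair.2 ↔ halt eK u)
    {WA : ℕ × ℕ × ℕ × ℕ × ℕ → Prop} {qA : ℕ → ℕ}
    (hA : RedBy WA qA (Aset Γ p) (Cset Γ p e (GG Γ p n)))
    {R : ℕ × List ℕ × List ℕ × ℕ × ℕ → Prop}
    (hR : ∀ n' v, v = Γ.bt (n' + 1) ↔ ∃ j, ∀ᶠ k in UU, R (qq Γ.c p m k, hist (Γ.c k) j,
      (List.range j).map (Xf Γ e (GG Γ p n)), n', v))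
    (K : MM (GG Γ p)) (i : ℕ) (hK : ∀ᶠ k in UU, ∀ x, (rep K k).testBit x = true →
      (halt x.unpair.1 x.unpair.2 ↔ i = 1)) :
    ∃ P N : MM (GG Γ p), Sub P (Cset Γ p e (GG Γ p n)) ∧ Disj N (Cset Γ p e (GG Γ p n)) ∧
      ∀ᶠ k in UU, ∃ w : Wt, WM WA e eK R ((rep K k, i, rep P k, rep N k,
        Nat.pair (qA k) (Nat.pair (qq Γ.c p m k) (GG Γ p n k))), w) := by
  have hG := gen_GG Γ p hp
  have hr : Ms (GG Γ p) (GG Γ p n) :=
    ⟨n, id, Computable.id, Filter.Eventually.of_forall fun _ => rfl⟩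
  obtain ⟨i0, hi0⟩ := ms_bounded Γ p hp (rep_ms K)
  obtain ⟨a, ha⟩ : ∃ a, a = max i0 eK := ⟨_, rfl⟩
  obtain ⟨j1, hj1⟩ := (hR a (Γ.bt (a + 1))).mp rfl
  obtain ⟨j2, hj2⟩ := (hR (a + 1) (Γ.bt (a + 2))).mp rfl
  obtain ⟨J0, hJ0⟩ := info_exists Γ p hp e hr (max j1 j2)
  obtain ⟨J, hJ⟩ : ∃ J, J = J0 + a + Γ.bt (a + 1) + Γ.bt (a + 2) + j1 + j2 + 1 := ⟨_, rfl⟩
  obtain ⟨P1, N1, hP1, hN1, h1⟩ := cert2_exists Γ p hp hA J
  obtain ⟨P2, N2, hP2, hN2, h2⟩ := hJ0 J (by omega)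
  obtain ⟨P, hPs, _, hPb⟩ := exists_union hG P1 P2
  obtain ⟨N, _, hNd, hNb⟩ := exists_union hG N1 N2
  refine ⟨P, N, hPs _ hP1 hP2, hNd _ hN1 hN2, ?_⟩
  filter_upwards [h1, h2, hPb, hNb, hj1, hj2, hK, hi0, H_eq_hf Γ (a + 1), H_eq_hf Γ (a + 2)]
    with k h1 h2 hPb hNb hj1 hj2 hK hi0 hH1 hH2
  refine ⟨(hist (Γ.c k) J, (List.range (max j1 j2)).map (Xf Γ e (GG Γ p n)), j1, j2, a,
    Γ.bt (a + 1), Γ.bt (a + 2)), ?_⟩
  unfold WM
  simp only [Nat.unpair_pair]
  refine ⟨h1.mono hPb.1 hNb.1, h2.mono hPb.2 hNb.2, ?_, ?_, ?_, ?_⟩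
  · rw [hist_take (by omega), range_map_take (by omega)]
    exact hj1
  · rw [hist_take (by omega), range_map_take (by omega)]
    exact hj2
  · unfold Bd
    simp only [hist_length, List.length_map, List.length_range]
    refine ⟨by omega, by omega, by omega, by omega, by omega, by omega⟩
  · intro x hx hbx
    simp only
    rw [hist_getD (by omega), hist_getD (by omega), ← hH1, ← hH2]
    have hx1 : x < H (Γ.c k) (a + 1) :=
      lt_of_lt_of_le (testBit_lt hbx) (hi0.trans (H_mono _ (by omega)))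
    refine ⟨hx1, ?_⟩
    rw [Bool.eq_iff_iff, decide_eq_true_iff, ← hK x hbx, heK]
    exact ⟨fun h => ⟨_, h⟩, fun h => H_close (Γ.c k) (a + 1) eK x (by omega) hx1.le h⟩

theorem sound {e n m eK : ℕ} (heK : ∀ u, halt u.unpair.1 u.unpair.2 ↔ halt eK u)
    {WA : ℕ × ℕ × ℕ × ℕ × ℕ → Prop} (hWA : REPred WA) {qA : ℕ → ℕ} (hqA : Ms (GG Γ p) qA)
    (hA : RedBy WA qA (Aset Γ p) (Cset Γ p e (GG Γ p n)))
    {R : ℕ × List ℕ × List ℕ × ℕ × ℕ → Prop} (hRr : REPred R)
    (hR : ∀ n' v, v = Γ.bt (n' + 1) ↔ ∃ j, ∀ᶠ k in UU, R (qq Γ.c p m k, hist (Γ.c k) j,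
      (List.range j).map (Xf Γ e (GG Γ p n)), n', v))
    (K : MM (GG Γ p)) (i : ℕ) (P N : MM (GG Γ p)) (hP : Sub P (Cset Γ p e (GG Γ p n)))
    (hN : Disj N (Cset Γ p e (GG Γ p n)))
    (hW : ∀ᶠ k in UU, ∃ w : Wt, WM WA e eK R ((rep K k, i, rep P k, rep N k,
        Nat.pair (qA k) (Nat.pair (qq Γ.c p m k) (GG Γ p n k))), w)) :
    ∀ᶠ k in UU, ∀ x, (rep K k).testBit x = true → (halt x.unpair.1 x.unpair.2 ↔ i = 1) := by
  have hG := gen_GG Γ p hp
  have hr : Ms (GG Γ p) (GG Γ p n) :=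
    ⟨n, id, Computable.id, Filter.Eventually.of_forall fun _ => rfl⟩
  have hq : MsT (GG Γ p) (fun k => Nat.pair (qA k) (Nat.pair (qq Γ.c p m k) (GG Γ p n k))) := by
    have := (MsT.prod hG (msT_nat.mpr hqA) (MsT.prod hG (msT_nat.mpr (ms_qq Γ p hp m))
      (msT_nat.mpr hr))).comp (f := fun a : ℕ × ℕ × ℕ => Nat.pair a.1 (Nat.pair a.2.1 a.2.2))
      (Primrec₂.natPair.comp Primrec.fst (Primrec₂.natPair.comp (Primrec.fst.comp Primrec.snd)
        (Primrec.snd.comp Primrec.snd))).to_comp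
    exact this
  obtain ⟨w, hw, hw1⟩ := MsT.wit hG (MsT.prod hG (msT_nat.mpr (rep_ms K)) (MsT.prod hG
    (MsT.const i) (MsT.prod hG (msT_nat.mpr (rep_ms P)) (MsT.prod hG (msT_nat.mpr (rep_ms N)) hq))))
    (re_WM hWA e eK hRr) hW
  have hys : MsT (GG Γ p) (fun k => (w k).1) := hw.comp Computable.fst
  obtain ⟨J, hJ⟩ := cert2_sound Γ p hp hWA hqA hA hP hN hys (by
    filter_upwards [hw1] with k h
    have := h.1
    simpa only [Nat.unpair_pair] using this)
  obtain ⟨j, hjJ, hj⟩ := info_sound Γ p hp e hr hP hN (J := J) (xs := fun k => (w k).2.1) (by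
    filter_upwards [hw1, hJ] with k h hJ
    have := h.2.1
    simp only [Nat.unpair_pair, hJ] at this
    exact this)
  have hB : ∀ᶠ k in UU, Bd eK (w k) := by
    filter_upwards [hw1] with k h
    exact h.2.2.2.2.1
  have hB' : ∀ᶠ k in UU, (w k).2.2.2.2.1 ≤ J ∧ (w k).2.2.2.2.2.1 ≤ J ∧ (w k).2.2.2.2.2.2 ≤ J ∧
      (w k).2.2.1 ≤ j ∧ (w k).2.2.2.1 ≤ j := by
    filter_upwards [hB, hJ, hj] with k hB hJ hj
    unfold Bd at hB
    rw [hJ, hist_length, hj, List.length_map, List.length_range] at hB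
    omega
  obtain ⟨a, _, ha⟩ := uu_const (hB'.mono fun k h => h.1)
  obtain ⟨v1, _, hv1⟩ := uu_const (hB'.mono fun k h => h.2.1)
  obtain ⟨v2, _, hv2⟩ := uu_const (hB'.mono fun k h => h.2.2.1)
  obtain ⟨j1, hj1j, hj1⟩ := uu_const (hB'.mono fun k h => h.2.2.2.1)
  obtain ⟨j2, hj2j, hj2⟩ := uu_const (hB'.mono fun k h => h.2.2.2.2)
  have e1 : v1 = Γ.bt (a + 1) := by
    rw [hR]
    refine ⟨j1, ?_⟩
    filter_upwards [hw1, hJ, hj, ha, hv1, hj1] with k h hJ hj ha hv1 hj1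
    have := h.2.2.1
    simp only [Nat.unpair_pair] at this
    rw [hJ, hj, ha, hv1, hj1, hist_take (by omega), range_map_take (by omega)] at this
    exact this
  have e2 : v2 = Γ.bt (a + 1 + 1) := by
    rw [hR]
    refine ⟨j2, ?_⟩
    filter_upwards [hw1, hJ, hj, ha, hv2, hj2] with k h hJ hj ha hv2 hj2
    have := h.2.2.2.1
    simp only [Nat.unpair_pair] at this
    rw [hJ, hj, ha, hv2, hj2, hist_take (by omega), range_map_take (by omega)] at this
    exact this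
  filter_upwards [hw1, hJ, hB, ha, hv1, hv2, H_eq_hf Γ (a + 1), H_eq_hf Γ (a + 1 + 1)]
    with k h hJ hB ha hv1 hv2 hH1 hH2
  intro x hx
  have h3 := h.2.2.2.2.2 x (testBit_lt hx) hx
  unfold Bd at hB
  simp only at h3
  rw [hJ, hist_length] at hB
  rw [hJ, hist_getD (by omega), hist_getD (by omega), hv1, hv2, e1, e2, ← hH1, ← hH2] at h3
  rw [Bool.eq_iff_iff, decide_eq_true_iff] at h3
  rw [← h3.2, heK]
  exact ⟨fun h => H_close (Γ.c k) (a + 1) eK x (by omega) h3.1.le h, fun h => ⟨_, h⟩⟩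

end

end FinD

open FinD

theorem case_two (Γ : Ctx) (p : ℕ → ℕ → ℕ) (hp : ∀ m k, p m k ≤ Γ.c k) (e n m : ℕ)
    (hc : Comp Γ (Xf Γ e (GG Γ p n)) (qq Γ.c p m))
    (hA : Red (Aset Γ p) (Cset Γ p e (GG Γ p n))) :
    Red (Kset Γ p) (Cset Γ p e (GG Γ p n)) := by
  have hG := gen_GG Γ p hp
  have hr : Ms (GG Γ p) (GG Γ p n) :=
    ⟨n, id, Computable.id, Filter.Eventually.of_forall fun _ => rfl⟩
  have h0 : Ms (GG Γ p) (fun _ => 0) := msT_nat.mp (MsT.const 0)
  obtain ⟨R, hR, hRs⟩ := hc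
  obtain ⟨WA, qA, hWA, hqA, hA'⟩ := (red_iff hG _ _).mp hA
  obtain ⟨eK, heK⟩ := re_index (p := fun u : ℕ => halt u.unpair.1 u.unpair.2)
    (re_comp re_halt Primrec.unpair.to_comp)
  have heK' : ∀ u, halt u.unpair.1 u.unpair.2 ↔ halt eK u := heK
  refine (red_iff hG _ _).mpr ⟨fun a => ∃ w : Wt, WM WA e eK R (a, w),
    fun k => Nat.pair (qA k) (Nat.pair (qq Γ.c p m k) (GG Γ p n k)),
    re_ex (re_WM hWA e eK hR), ?_, ?_, ?_⟩
  · have := (MsT.prod hG (msT_nat.mpr hqA) (MsT.prod hG (msT_nat.mpr (ms_qq Γ p hp m))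
      (msT_nat.mpr hr))).comp (f := fun a : ℕ × ℕ × ℕ => Nat.pair a.1 (Nat.pair a.2.1 a.2.2))
      (Primrec₂.natPair.comp Primrec.fst (Primrec₂.natPair.comp (Primrec.fst.comp Primrec.snd)
        (Primrec.snd.comp Primrec.snd))).to_comp
    exact msT_nat.mp this
  · intro K
    unfold Kset
    rw [sub_iff hG re_RK h0]
    constructor
    · intro h
      exact complete hp heK' hA' hRs K 1 (by
        filter_upwards [h] with k h x hx
        simpa [RK] using h x hx)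
    · rintro ⟨P, N, hP, hN, h⟩
      filter_upwards [sound hp heK' hWA hqA hA' hR hRs K 1 P N hP hN h] with k h x hx
      simpa [RK] using h x hx
  · intro K
    unfold Kset
    rw [disj_iff hG re_RK h0]
    constructor
    · intro h
      exact complete hp heK' hA' hRs K 0 (by
        filter_upwards [h] with k h x hx
        simpa [RK] using h x hx)
    · rintro ⟨P, N, hP, hN, h⟩
      filter_upwards [sound hp heK' hWA hqA hA' hR hRs K 0 P N hP hN h] with k h x hx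
      simpa [RK] using h x hx

end Pool.Agent.Lib.MP_53c40f_lc
end

section

/-!
# `BΣ₂` fails
-/

set_option autoImplicit false

namespace Pool.Agent.Lib.MP_53c40f_lc

open Filter

theorem computable_dec : Computable₂ dec := by
  unfold dec
  have h1 : Computable (fun a : ℕ × ℕ => Denumerable.ofNat (List ℕ) a.1) :=
    (Primrec.ofNat (List ℕ)).to_comp.comp Computable.fst
  exact (Primrec.list_getD 0).to_comp.comp h1 Computable.snd

/-- the refutable part of the formula -/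
def FE (v : Fin 4 → ℕ) : Prop :=
  (∃ s', stb (v 3) (v 2).unpair.1 (v 2).unpair.2.unpair.1 (v 2).unpair.2.unpair.2 s' = false) ∨
    dec (v 1) (v 2).unpair.1 = (v 2).unpair.2.unpair.2

theorem re_FE : REPred FE := by
  have c3 : Computable (fun v : Fin 4 → ℕ => v 3) := Computable.fin_app.comp Computable.id (Computable.const 3)
  have c2 : Computable (fun v : Fin 4 → ℕ => v 2) := Computable.fin_app.comp Computable.id (Computable.const 2)
  have c1 : Computable (fun v : Fin 4 → ℕ => v 1) := Computable.fin_app.comp Computable.id (Computable.const 1)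
  have up := Primrec.unpair.to_comp
  have w1 : Computable (fun v : Fin 4 → ℕ => (v 2).unpair.1) := Computable.fst.comp (up.comp c2)
  have w2 : Computable (fun v : Fin 4 → ℕ => (v 2).unpair.2) := Computable.snd.comp (up.comp c2)
  have w21 : Computable (fun v : Fin 4 → ℕ => (v 2).unpair.2.unpair.1) :=
    Computable.fst.comp (up.comp w2)
  have w22 : Computable (fun v : Fin 4 → ℕ => (v 2).unpair.2.unpair.2) :=
    Computable.snd.comp (up.comp w2)
  refine re_or ?_ ?_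
  · exact re_comp (p := fun a : ℕ × ℕ × ℕ × ℕ => ∃ s', stb a.1 a.2.1 a.2.2.1 a.2.2.2 s' = false)
      re_unstb (f := fun v : Fin 4 → ℕ => (v 3, (v 2).unpair.1, (v 2).unpair.2.unpair.1,
        (v 2).unpair.2.unpair.2)) (c3.pair (w1.pair (w21.pair w22)))
  · refine re_of_dec (fun v : Fin 4 → ℕ => decide (dec (v 1) (v 2).unpair.1 =
      (v 2).unpair.2.unpair.2)) ?_ (fun v => by simp)
    exact Primrec.eq.decide.to_comp.comp (computable_dec.comp c1 w1) w22

theorem S2_FE {G : ℕ → ℕ → ℕ} {c : ℕ → ℕ} (hc : Ms G c) {φ : D0 (4 + 1)}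
    (hφ : ∀ v : Fin 4 → MM G, S1 φ v ↔ ∀ᶠ k in UU, FE (fun i => rep (v i) k)) (u w : MM G) :
    S2 (n := 3) (.neg φ) (acons u (acons w (fun _ => mkD G c))) ↔ ∀ᶠ k in UU,
      (∀ s', stb (c k) (rep w k).unpair.1 (rep w k).unpair.2.unpair.1
        (rep w k).unpair.2.unpair.2 s' = true) ∧
      dec (rep u k) (rep w k).unpair.1 ≠ (rep w k).unpair.2.unpair.2 := by
  have key : ∀ y : MM G, (¬ S1 φ (acons y (acons u (acons w (fun _ => mkD G c))))) ↔
      ∀ᶠ k in UU, (∀ s', stb (c k) (rep w k).unpair.1 (rep w k).unpair.2.unpair.1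
        (rep w k).unpair.2.unpair.2 s' = true) ∧
      dec (rep u k) (rep w k).unpair.1 ≠ (rep w k).unpair.2.unpair.2 := by
    intro y
    rw [hφ, uu_not]
    apply Filter.eventually_congr
    filter_upwards [rep_mkD hc] with k hk
    have e1 : rep (acons (n := 3) y (acons u (acons w (fun _ => mkD G c))) 1) k = rep u k := rfl
    have e2 : rep (acons (n := 3) y (acons u (acons w (fun _ => mkD G c))) 2) k = rep w k := rfl
    have e3 : rep (acons (n := 3) y (acons u (acons w (fun _ => mkD G c))) 3) k = c k := hk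
    simp only [FE, e1, e2, e3]
    constructor
    · intro h
      rw [not_or] at h
      refine ⟨fun s' => ?_, h.2⟩
      have := h.1
      push Not at this
      simpa using this s'
    · rintro ⟨h1, h2⟩ (⟨s', h⟩ | h)
      · rw [h1 s'] at h
        exact absurd h (by simp)
      · exact h2 h
  constructor
  · rintro ⟨y, hy⟩
    rw [← key y]
    rintro ⟨z, hz⟩
    exact hy z hz
  · intro h
    refine ⟨mkD G c, ?_⟩
    intro z hz
    exact (key (mkD G c)).mpr h ⟨z, hz⟩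

theorem not_bSigma2 (Γ : Ctx) (p : ℕ → ℕ → ℕ) (hp : ∀ m k, p m k ≤ Γ.c k)
    (hnc : ∀ m, ¬ Comp0 Γ (qq Γ.c p m)) : ¬ BSigma2 (MM (GG Γ p)) := by
  intro hB
  have hG := gen_GG Γ p hp
  have hc := ms_c Γ p hp
  obtain ⟨φ, hφ⟩ := re_def hG re_FE
  obtain ⟨st', hst⟩ := hB 1 (.neg φ) (fun _ => mkD _ Γ.c) (mkD _ Γ.c) (by
    intro u _
    -- `u` does not code `bt`
    have h1 : ∃ n, ∀ᶠ k in UU, dec (rep u k) (n + 1) ≠ Γ.bt (n + 1) := by
      by_contra hcon
      push Not at hcon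
      obtain ⟨m, f, hf, hu⟩ := rep_ms u
      refine hnc m ⟨fun a => m ≤ a.2.1.length ∧
        dec (f (Nat.pair (Encodable.encode (a.2.1.take m)) a.1)) (a.2.2.1 + 1) = a.2.2.2, ?_, ?_⟩
      · refine re_of_dec (fun a : ℕ × List ℕ × ℕ × ℕ => decide (m ≤ a.2.1.length) && decide
          (dec (f (Nat.pair (Encodable.encode (a.2.1.take m)) a.1)) (a.2.2.1 + 1) = a.2.2.2)) ?_ ?_
        · refine Primrec.and.to_comp.comp ?_ ?_
          · exact (Primrec.nat_le.decide.comp (Primrec.const m)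
              (Primrec.list_length.comp (Primrec.fst.comp Primrec.snd))).to_comp
          · have ht : Primrec (fun a : ℕ × List ℕ × ℕ × ℕ => a.2.1.take m) :=
              Primrec.list_take.comp (Primrec.const m) (Primrec.fst.comp Primrec.snd)
            have hp : Primrec (fun a : ℕ × List ℕ × ℕ × ℕ =>
                Nat.pair (Encodable.encode (a.2.1.take m)) a.1) :=
              Primrec₂.natPair.comp (Primrec.encode.comp ht) Primrec.fst
            have hn : Primrec (fun a : ℕ × List ℕ × ℕ × ℕ => a.2.2.1 + 1) :=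
              Primrec.succ.comp (Primrec.fst.comp (Primrec.snd.comp Primrec.snd))
            have hd : Computable (fun a : ℕ × List ℕ × ℕ × ℕ =>
                dec (f (Nat.pair (Encodable.encode (a.2.1.take m)) a.1)) (a.2.2.1 + 1)) :=
              computable_dec.comp (hf.comp hp.to_comp) hn.to_comp
            exact Primrec.eq.decide.to_comp.comp hd
              (Primrec.snd.comp (Primrec.snd.comp Primrec.snd)).to_comp
        · intro a
          simp
      · intro n v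
        have hgen : ∀ j, m ≤ j → ∀ᶠ k in UU,
            rep u k = f (Nat.pair (Encodable.encode ((hist (Γ.c k) j).take m)) (qq Γ.c p m k)) := by
          intro j hj
          filter_upwards [hu] with k hk
          rw [hist_take hj, hk]
          rfl
        have hcn : ∀ᶠ k in UU, dec (rep u k) (n + 1) = Γ.bt (n + 1) := hcon n
        constructor
        · rintro rfl
          refine ⟨m, ?_⟩
          filter_upwards [hgen m le_rfl, hcn] with k h1 h2
          refine ⟨by simp, ?_⟩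
          rw [← h1]
          exact h2
        · rintro ⟨j, hj⟩
          obtain ⟨k, hk⟩ := uu_exists hj
          have hmj : m ≤ j := by simpa using hk.1
          obtain ⟨k, ⟨_, h1⟩, h2, h3⟩ := uu_exists (hj.and ((hgen j hmj).and hcn))
          rw [← h2, h3] at h1
          exact h1.symm
    obtain ⟨n, hn⟩ := h1
    choose S hS1 hS2 using fun k => stb_complete (Γ.c k) (n + 1)
    have hSms : Ms (GG Γ p) S := by
      have := (MsT.prod hG (msT_nat.mpr (ms_H Γ p hp (n + 2))) (msT_nat.mpr hc)).comp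
        (f := fun a : ℕ × ℕ => a.1 - a.2) (Primrec.nat_sub.to_comp)
      refine (msT_nat.mp this).congr ?_
      filter_upwards with k
      have := hS1 k
      show H (Γ.c k) (n + 1 + 1) - Γ.c k = S k
      omega
    have hWms : Ms (GG Γ p) (fun k => Nat.pair (n + 1) (Nat.pair (S k) (Γ.bt (n + 1)))) := by
      have := (msT_nat.mpr hSms).comp
        (f := fun s : ℕ => Nat.pair (n + 1) (Nat.pair s (Γ.bt (n + 1))))
        (Primrec₂.natPair.comp (Primrec.const _)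
          (Primrec₂.natPair.comp Primrec.id (Primrec.const _))).to_comp
      exact msT_nat.mp this
    refine ⟨mkD _ (fun k => Nat.pair (n + 1) (Nat.pair (S k) (Γ.bt (n + 1)))),
      (S2_FE hc hφ u _).mpr ?_⟩
    filter_upwards [rep_mkD hWms, hn, Γ.hbt (n + 1)] with k h1 h2 h3
    rw [h1]
    simp only [Nat.unpair_pair]
    refine ⟨?_, h2⟩
    intro s'
    have := hS2 k s'
    rwa [h3] at this)
  -- the bound fails
  obtain ⟨i0, hi0⟩ := ms_bounded Γ p hp (rep_ms st')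
  obtain ⟨e, he⟩ := growth (f := fun x => x + x) (Primrec.nat_add.comp Primrec.id Primrec.id).to_comp
  obtain ⟨i, hi⟩ : ∃ i, i = max i0 e := ⟨_, rfl⟩
  have hb : ∀ᶠ k in UU, rep st' k ≤ H (Γ.c k) i := by
    filter_upwards [hi0] with k hk
    exact hk.trans (H_mono _ (by omega))
  -- the standard code
  obtain ⟨N, hN⟩ : ∃ N : ℕ, ∀ n ≤ i, dec N n = Γ.bt n := by
    refine ⟨Encodable.encode ((List.range (i + 1)).map Γ.bt), ?_⟩
    intro n hn
    unfold dec
    rw [Denumerable.ofNat_encode]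
    exact range_map_getD (by omega) 0
  have hNms : Ms (GG Γ p) (fun _ => N) := msT_nat.mp (MsT.const N)
  obtain ⟨w, hw1, hw2⟩ := hst (mkD _ (fun _ => N)) (by
    show ∀ᶠ k in UU, rep (mkD (GG Γ p) (fun _ => N)) k < rep (mkD (GG Γ p) Γ.c) k
    filter_upwards [rep_mkD hNms, rep_mkD hc, Γ.c_inf (N + 1)] with k h1 h2 h3
    rw [h1, h2]
    omega)
  have hw3 := (S2_FE hc hφ _ w).mp hw2
  have hw1' : ∀ᶠ k in UU, rep w k < rep st' k := hw1
  have hfin : ∀ᶠ k in UU, (rep w k).unpair.1 ≤ i := by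
    filter_upwards [hw3, hw1', hb] with k h1 h2 h3
    obtain ⟨h4, h5⟩ := stb_sound _ _ _ _ h1.1
    have h6 : (rep w k).unpair.2.unpair.1 ≤ rep w k :=
      (Nat.unpair_left_le _).trans (Nat.unpair_right_le _)
    have h7 := he i (by omega) (Γ.c k) (H (Γ.c k) i) le_rfl
    have h8 := c_le_H (Γ.c k) i
    by_contra hcon
    have h9 : H (Γ.c k) (i + 1) ≤ H (Γ.c k) (rep w k).unpair.1 := H_mono _ (by omega)
    omega
  obtain ⟨n, hn, hnc'⟩ := uu_const hfin
  obtain ⟨k, ⟨h1, h2⟩, h3, h4, h5⟩ := uu_exists (hw3.and (hnc'.and ((rep_mkD hNms).and (Γ.hbt n))))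
  obtain ⟨h6, _⟩ := stb_sound _ _ _ _ h1
  rw [h4, h3, hN n hn] at h2
  rw [h3, h5] at h6
  exact h2 h6.symm

end Pool.Agent.Lib.MP_53c40f_lc
end
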