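import Pool.Agent.Lib.MP_53c40f_lc.Mg.G001
import Pool.Agent.Lib.MP_53c40f_lc.Mg.G003

section

/-!
# Initial segments of the final values
-/

set_option autoImplicit false

namespace Pool.Agent.Lib.MP_53c40f_lc

@[simp] theorem hist_length (c j : ℕ) : (hist c j).length = j := by simp [hist]

theorem hist_getD {c m i : ℕ} (h : i < m) (d : ℕ) : (hist c m).getD i d = hf c i := by
  simp [hist, List.getD, h]

theorem hist_take {c m j : ℕ} (h : j ≤ m) : (hist c m).take j = hist c j := by
  apply List.ext_getElem
  · simp [h]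
  · intro i h1 h2
    simp [hist]

theorem hist_succ (c j : ℕ) : hist c (j + 1) = hist c j ++ [hf c j] := by
  simp [hist, List.range_succ]

theorem range_map_take {x : ℕ → ℕ} {m j : ℕ} (h : j ≤ m) :
    ((List.range m).map x).take j = (List.range j).map x := by
  apply List.ext_getElem
  · simp [h]
  · intro i h1 h2
    simp

theorem range_map_getD {x : ℕ → ℕ} {m i : ℕ} (h : i < m) (d : ℕ) :
    ((List.range m).map x).getD i d = x i := by
  simp [List.getD, h]

end Pool.Agent.Lib.MP_53c40f_lc
end

section

/-!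
# Final values
-/

set_option autoImplicit false

namespace Pool.Agent.Lib.MP_53c40f_lc

theorem g_stab (c i : ℕ) : Stab c i (stabT c i) := by
  classical
  exact Nat.find_spec (exists_stab c i)

theorem g_vals_pos (l : Level) : 1 ≤ (vals l).length := by
  simp [vals]

theorem g_flat_append (a b : State) : flat (a ++ b) = flat a ++ flat b := by
  simp [flat]

theorem g_flat_cons (l : Level) (b : State) : flat (l :: b) = vals l ++ flat b := by
  simp [flat]

theorem g_length_le (a : State) : a.length ≤ (flat a).length := by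
  induction a with
  | nil => simp
  | cons l a ih =>
    rw [g_flat_cons, List.length_append, List.length_cons]
    have := g_vals_pos l
    omega

/-- the values at positions inside the first `i` levels -/
theorem g_getD (a : State) (i j d d' : ℕ) (hj : j < (flat (a.take i)).length) :
    (flat a).getD j d = (flat (a.take i)).getD j d' := by
  have h1 : flat a = flat (a.take i) ++ flat (a.drop i) := by
    rw [← g_flat_append, List.take_append_drop]
  rw [h1, List.getD_eq_getElem?_getD, List.getD_eq_getElem?_getD,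
    List.getElem?_append_left hj, List.getElem?_eq_getElem hj]
  rfl

theorem hf_eq (c j : ℕ) : ∃ S, ∀ s, S ≤ s → h c s j = hf c j := by
  refine ⟨stabT c j, fun s hs => ?_⟩
  have h1 := g_stab c j s hs
  have h2 := g_stab c j (stabT c j) le_rfl
  have h3 : j < (flat ((st c (stabT c j)).take (j + 1))).length := by
    have h4 := g_length_le ((st c (stabT c j)).take (j + 1))
    rw [List.length_take] at h4
    omega
  have h3' : j < (flat ((st c s).take (j + 1))).length := by
    rw [h1.2]
    exact h3
  show (flat (st c s)).getD j (c + s) = (flat (st c (stabT c j))).getD j (c + stabT c j)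
  rw [g_getD _ (j + 1) j _ 0 h3, g_getD _ (j + 1) j _ 0 h3', h1.2]

theorem h_le_hf (c s j : ℕ) : h c s j ≤ hf c j := by
  obtain ⟨S, hS⟩ := hf_eq c j
  rw [← hS (max s S) (le_max_right _ _)]
  exact h_mono_stage c j (le_max_left s S)

theorem hf_mono (c : ℕ) : Monotone (hf c) := by
  intro i j hij
  obtain ⟨S, hS⟩ := hf_eq c i
  obtain ⟨S', hS'⟩ := hf_eq c j
  rw [← hS (max S S') (le_max_left _ _), ← hS' (max S S') (le_max_right _ _)]
  exact h_mono_pos c _ hij

theorem beta_lt (c i : ℕ) : beta c i < beta c (i + 1) := by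
  have := g_vals_pos (fl c i)
  show beta c i < beta c i + (vals (fl c i)).length
  omega

theorem H_zero (c : ℕ) : H c 0 = c := by
  obtain ⟨l, h1, h2, _⟩ := st_zero c (stabT c 0)
  rw [fl_spec c 0 _ le_rfl 0 le_rfl] at h1
  exact (congrArg Prod.fst (Option.some.inj h1)).trans h2

/-- the flattening of the first `i` final levels -/
theorem g_beta (c s i : ℕ) (hl : ∀ j, j < i → (st c s)[j]? = some (fl c j)) :
    pos (st c s) i = beta c i := by
  induction i with
  | zero => simp [pos, flat, beta]
  | succ i ih =>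
    have h1 := ih fun j hj => hl j (by omega)
    have h2 := hl i (by omega)
    unfold pos at h1 ⊢
    rw [List.take_add_one, h2, g_flat_append, List.length_append, h1]
    simp [flat, beta]

theorem g_hv (c s i : ℕ) (hl : ∀ j, j ≤ i → (st c s)[j]? = some (fl c j)) :
    h c s (beta c i) = H c i := by
  have h1 := g_beta c s i fun j hj => hl j (by omega)
  have h2 := hl i le_rfl
  have h3 : flat ((st c s).take (i + 1)) = flat ((st c s).take i) ++ vals (fl c i) := by
    rw [List.take_add_one, h2, g_flat_append]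
    simp [flat]
  have h4 : (flat ((st c s).take i)).length = beta c i := h1
  have h5 := g_vals_pos (fl c i)
  show (flat (st c s)).getD (beta c i) (c + s) = _
  rw [g_getD _ (i + 1) _ _ 0 (by rw [h3, List.length_append]; omega), h3,
    List.getD_append_right _ _ _ _ h4.le, h4, Nat.sub_self]
  rfl

theorem hf_beta (c i : ℕ) : hf c (beta c i) = H c i := by
  obtain ⟨S, hS⟩ := hf_eq c (beta c i)
  rw [← hS (max S (stabT c i)) (le_max_left _ _)]
  exact g_hv c _ i (fl_spec c i _ (le_max_right _ _))

theorem tree_zero (c : ℕ) : tree c 0 = c.unpair.2 := by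
  obtain ⟨l, h1, _, h2⟩ := st_zero c (stabT c 0)
  rw [fl_spec c 0 _ le_rfl 0 le_rfl] at h1
  rw [← h2, ← Option.some.inj h1]
  rfl

/-- the final level `i + 1` has been created at a stage `s + 1` -/
theorem g_create (c i : ℕ) : ∃ s, H c (i + 1) = c + s + 1 := by
  by_contra h
  push Not at h
  have h1 : H c (i + 1) ≤ c + 0 := by
    by_contra h2
    exact h (H c (i + 1) - c - 1) (by omega)
  obtain ⟨_, _, l, h3, _⟩ := stab_from c i 0 h1
  simp [st] at h3

theorem tree_succ (c i : ℕ) :
    tree c (i + 1) = if acted c i then tr (tree c i) else tl (tree c i) := by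
  obtain ⟨s, hs⟩ := g_create c i
  obtain ⟨_, h1, l, h2, h3, h4⟩ := stab_from c i (s + 1) (by omega)
  have h5 := h1 i le_rfl
  have h6 : st c (s + 1) = step c s (st c s) := rfl
  have hlen : idx c s (st c s) < (st c s).length := by
    have h7 : 0 < (st c s).length := List.length_pos_iff.2 (st_ne c s)
    unfold idx
    omega
  obtain ⟨l0, h8⟩ : ∃ l0, (st c s)[idx c s (st c s)]? = some l0 :=
    ⟨_, List.getElem?_eq_getElem hlen⟩
  have h9 : st c (s + 1) = (st c s).take (idx c s (st c s)) ++
      [upd c s (idx c s (st c s)) (st c s) l0,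
        (c + s + 1, child (upd c s (idx c s (st c s)) (st c s) l0), none)] := by
    rw [h6, step, h8]
  have hval : ∀ (x : Level), x ∈ st c s → x.1 ≤ c + s := by
    intro x hx
    apply flat_le c s
    unfold flat
    rw [List.mem_flatMap]
    exact ⟨x, hx, by simp [vals]⟩
  have h12 : (upd c s (idx c s (st c s)) (st c s) l0).1 = l0.1 := by
    unfold upd
    split
    · rfl
    · split <;> rfl
  generalize upd c s (idx c s (st c s)) (st c s) l0 = l1 at h9 h12
  generalize idx c s (st c s) = J at *
  have h10 : ((st c s).take J).length = J := by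
    rw [List.length_take]
    omega
  rcases lt_trichotomy (i + 1) (J + 1) with hi | hi | hi
  · exfalso
    rcases Nat.lt_or_ge (i + 1) J with hi' | hi'
    · rw [h9, List.getElem?_append_left (by omega), List.getElem?_take_of_lt hi'] at h2
      have := hval l (List.mem_of_getElem? h2)
      omega
    · have hi'' : i + 1 = J := by omega
      rw [h9, List.getElem?_append_right (by omega), h10, hi'', Nat.sub_self] at h2
      have h11 : l1 = l := Option.some.inj h2
      have := hval _ (List.mem_of_getElem? h8)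
      rw [← h11] at h3
      omega
  · obtain rfl : i = J := by omega
    rw [h9, List.getElem?_append_right (by omega), h10] at h2 h5
    rw [Nat.add_sub_cancel_left] at h2
    rw [Nat.sub_self] at h5
    have h11 : (c + s + 1, child l1, none) = l := Option.some.inj h2
    have h13 : l1 = fl c i := Option.some.inj h5
    rw [← h4, ← h11, h13]
    rfl
  · exfalso
    rw [h9, List.getElem?_append_right (by omega), h10] at h2
    rw [List.getElem?_eq_none (by simp; omega)] at h2
    exact absurd h2 (by simp)

end Pool.Agent.Lib.MP_53c40f_lc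
end

section

/-!
# Halting times and outcomes of the requirements
-/

set_option autoImplicit false

namespace Pool.Agent.Lib.MP_53c40f_lc

/-- the values of the levels bound halting times -/
theorem H_close (c i e x : ℕ) (he : e ≤ i) (hx : x ≤ H c i) (hh : halt e x) :
    haltN (H c (i + 1)) e x = true := by
  classical
  by_contra hcon
  have h1 := Nat.find_spec hh
  have h2 : ∀ m, m < Nat.find hh → ¬ haltN m e x = true := fun m hm => Nat.find_min hh hm
  have h3 : H c (i + 1) < Nat.find hh := by
    by_contra h4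
    exact hcon (haltN_mono (not_lt.1 h4) h1)
  obtain ⟨s, hs⟩ : ∃ s, Nat.find hh = s + 1 := ⟨Nat.find hh - 1, by omega⟩
  rw [hs] at h1 h3
  have h4 : haltN s e x = false := by
    have := h2 s (by omega)
    simpa using this
  have h5 : H c (i + 1) ≤ c + s := by omega
  have h6 := no_event c i s h5 i le_rfl
  obtain ⟨-, h7, -⟩ := stab_from c i s h5
  have h8 := h7 i le_rfl
  unfold ev at h6
  rw [h8] at h6
  simp only [Bool.or_eq_false_iff] at h6
  have h9 := h6.2
  unfold newTest at h9
  rw [decide_eq_false_iff_not] at h9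
  exact h9 ⟨e, by omega, x, Nat.lt_succ_of_le hx, h1, h4⟩

/-! ### one step -/

theorem k_idx_lt (c s : ℕ) {st : State} (h : st ≠ []) : idx c s st < st.length := by
  have : 0 < st.length := List.length_pos_iff.2 h
  unfold idx
  omega

theorem k_step_eq (c s : ℕ) (st : State) (l : Level) (hl : st[idx c s st]? = some l) :
    step c s st = st.take (idx c s st) ++
      [upd c s (idx c s st) st l, (c + s + 1, child (upd c s (idx c s st) st l), none)] := by
  unfold step
  rw [hl]

theorem k_step_lt (c s : ℕ) {st : State} (h : st ≠ []) {j : ℕ} (hj : j < idx c s st) :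
    (step c s st)[j]? = st[j]? := by
  have h1 := k_idx_lt c s h
  have h2 : st[idx c s st]? = some st[idx c s st] := List.getElem?_eq_getElem h1
  rw [k_step_eq c s st _ h2, List.getElem?_append_left (by rw [List.length_take]; omega),
    List.getElem?_take_of_lt hj]

theorem k_step_idx (c s : ℕ) {st : State} (h : st ≠ []) :
    ∃ l, st[idx c s st]? = some l ∧ (step c s st)[idx c s st]? = some (upd c s (idx c s st) st l) ∧
      (step c s st)[idx c s st + 1]? =
        some (c + s + 1, child (upd c s (idx c s st) st l), none) ∧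
      ∀ j, idx c s st + 1 < j → (step c s st)[j]? = none := by
  have h1 := k_idx_lt c s h
  have h2 : st[idx c s st]? = some st[idx c s st] := List.getElem?_eq_getElem h1
  have h3 : (st.take (idx c s st)).length = idx c s st := by rw [List.length_take]; omega
  refine ⟨_, h2, ?_, ?_, fun j hj => ?_⟩
  · rw [k_step_eq c s st _ h2, List.getElem?_append_right h3.le, h3, Nat.sub_self]
    rfl
  · rw [k_step_eq c s st _ h2, List.getElem?_append_right (by omega), h3,
      show idx c s st + 1 - idx c s st = 1 by omega]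
    rfl
  · rw [k_step_eq c s st _ h2, List.getElem?_eq_none]
    rw [List.length_append, h3]
    simp only [List.length_cons, List.length_nil]
    omega

/-! ### the levels after the creation of the final level `i` -/

theorem k_levels (c i s : ℕ) (hs : H c i ≤ c + s) : (∀ j, j < i → (st c s)[j]? = some (fl c j)) ∧
    ∃ l, (st c s)[i]? = some l ∧ l.1 = H c i ∧ l.2.1 = tree c i := by
  cases i with
  | zero =>
    refine ⟨fun j hj => absurd hj (Nat.not_lt_zero _), ?_⟩
    obtain ⟨l, h1, h2, h3⟩ := st_zero c s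
    exact ⟨l, h1, by rw [h2, H_zero], by rw [h3, tree_zero]⟩
  | succ i =>
    obtain ⟨-, h2, h3⟩ := stab_from c i s hs
    exact ⟨fun j hj => h2 j (by omega), h3⟩

theorem k_pos (c i : ℕ) {st : State} (h : ∀ j, j < i → st[j]? = some (fl c j)) :
    pos st i = beta c i := by
  induction i with
  | zero => rfl
  | succ i ih =>
    have h1 := ih fun j hj => h j (by omega)
    have h2 := h i (Nat.lt_succ_self i)
    unfold pos at h1 ⊢
    rw [List.take_add_one, h2]
    unfold flat at h1 ⊢
    rw [List.flatMap_append, List.length_append, h1]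
    simp [beta]

theorem k_trans (c i s : ℕ) (hs : H c i ≤ c + s) : ∃ l, (st c s)[i]? = some l ∧
    ((st c (s + 1))[i]? = some l ∨
      (idx c s (st c s) = i ∧ (st c (s + 1))[i]? = some (upd c s i (st c s) l))) := by
  obtain ⟨-, l, hl, -, -⟩ := k_levels c i s hs
  obtain ⟨-, l', hl', hv', -⟩ := k_levels c i (s + 1) (by omega)
  refine ⟨l, hl, ?_⟩
  have hne := st_ne c s
  have hst : st c (s + 1) = step c s (st c s) := rfl
  obtain ⟨m, h1, h2, h3, h4⟩ := k_step_idx c s hne
  rcases lt_trichotomy i (idx c s (st c s)) with h5 | h5 | h5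
  · left
    rw [hst, k_step_lt c s hne h5, hl]
  · right
    refine ⟨h5.symm, ?_⟩
    rw [← h5] at h1 h2
    rw [hl] at h1
    rw [hst, h2, Option.some.inj h1]
  · exfalso
    rcases Nat.lt_or_ge (idx c s (st c s) + 1) i with h6 | h6
    · rw [hst, h4 i h6] at hl'
      exact absurd hl' (by simp)
    · have h7 : i = idx c s (st c s) + 1 := by omega
      rw [hst, h7, h3] at hl'
      have h8 := Option.some.inj hl'
      rw [← h8] at hv'
      simp only at hv'
      omega

theorem k_split (st : State) (k : ℕ) : flat st = flat (st.take k) ++ flat (st.drop k) := by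
  unfold flat
  rw [← List.flatMap_append, List.take_append_drop]

theorem k_hv (c s k j : ℕ) (st : State) (hj : j < pos st k) :
    hv c s st j = (flat (st.take k)).getD j 0 := by
  unfold hv
  rw [k_split st k, List.getD_append _ _ _ _ hj]
  unfold pos at hj
  rw [List.getD_eq_getElem _ _ hj, List.getD_eq_getElem _ _ hj]

theorem k_take (c i : ℕ) {st st' : State} (h : ∀ j, j ≤ i → st[j]? = some (fl c j))
    (h' : ∀ j, j ≤ i → st'[j]? = some (fl c j)) : st.take (i + 1) = st'.take (i + 1) := by
  refine List.ext_getElem? fun j => ?_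
  rcases Nat.lt_or_ge j (i + 1) with hj | hj
  · rw [List.getElem?_take_of_lt hj, List.getElem?_take_of_lt hj, h j (by omega), h' j (by omega)]
  · rw [List.getElem?_eq_none, List.getElem?_eq_none]
    · exact le_trans (List.length_take_le _ _) hj
    · exact le_trans (List.length_take_le _ _) hj

theorem k_hf (c i s j : ℕ) (h : ∀ j, j ≤ i → (st c s)[j]? = some (fl c j))
    (hj : j < beta c (i + 1)) : Pool.Agent.Lib.MP_53c40f_lc.h c s j = hf c j := by
  obtain ⟨S, hS⟩ := hf_eq c j
  have h1 := hS (max S (stabT c i)) (le_max_left _ _)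
  rw [← h1]
  have h2 := fl_spec c i (max S (stabT c i)) (le_max_right _ _)
  have h3 : pos (st c s) (i + 1) = beta c (i + 1) := k_pos c (i + 1) fun j hj => h j (by omega)
  have h4 : pos (st c (max S (stabT c i))) (i + 1) = beta c (i + 1) :=
    k_pos c (i + 1) fun j hj => h2 j (by omega)
  unfold Pool.Agent.Lib.MP_53c40f_lc.h
  rw [k_hv c s (i + 1) j _ (by omega), k_hv c _ (i + 1) j _ (by omega), k_take c i h h2]

/-- if the requirement of level `i` has acted, the adversary is wrong -/
theorem acted_spec (c i : ℕ) (ha : acted c i = true) :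
    beta c (i + 1) ≤ max (th (tree c i)) (beta c i) + 1 ∧
    ∃ j v, j ≤ th (tree c i) ∧ v ≤ th (tree c i) ∧ v < beta c (i + 1) ∧
      halt i (args c (hist c j) i v) := by
  classical
  -- at the creation of the level its frozen part is `none`
  have hHc : c ≤ H c i := by
    have h1 := k_levels c i (stabT c i + H c i) (by omega)
    obtain ⟨l, hlv, hl1, -⟩ := h1.2
    have h2 : hf c (beta c i) = H c i := hf_beta c i
    have h3 : hf c (beta c 0) = H c 0 := hf_beta c 0
    rw [H_zero] at h3
    have h4 : hf c (beta c 0) ≤ hf c (beta c i) := hf_mono c (Nat.zero_le _)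
    omega
  obtain ⟨s0, hs0⟩ : ∃ s0, H c i = c + s0 := ⟨H c i - c, by omega⟩
  have hcre : ∃ l, (st c s0)[i]? = some l ∧ l.2.2 = none := by
    obtain ⟨-, l, hlv, hl1, -⟩ := k_levels c i s0 hs0.le
    refine ⟨l, hlv, ?_⟩
    cases s0 with
    | zero =>
      have h1 : st c 0 = [(c, c.unpair.2, none)] := rfl
      rw [h1] at hlv
      cases i with
      | zero =>
        simp only [List.getElem?_cons_zero, Option.some.injEq] at hlv
        rw [← hlv]
      | succ i => simp at hlv
    | succ s =>
      have hne := st_ne c s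
      have hst : st c (s + 1) = step c s (st c s) := rfl
      obtain ⟨m, h1, h2, h3, h4⟩ := k_step_idx c s hne
      have hold : ∀ (j : ℕ) (m' : Level), (st c s)[j]? = some m' → m'.1 ≤ c + s := by
        intro j m' hm
        refine flat_le c s m'.1 ?_
        unfold flat
        rw [List.mem_flatMap]
        refine ⟨m', List.mem_of_getElem? hm, ?_⟩
        unfold vals
        exact List.mem_cons_self
      rcases lt_trichotomy i (idx c s (st c s)) with h5 | h5 | h5
      · rw [hst, k_step_lt c s hne h5] at hlv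
        have := hold i l hlv
        omega
      · rw [hst, h5, h2] at hlv
        have h6 := Option.some.inj hlv
        have h7 : l.1 = m.1 := by
          rw [← h6]
          unfold upd
          split
          · rfl
          · split <;> rfl
        have := hold _ m h1
        omega
      · rcases Nat.lt_or_ge (idx c s (st c s) + 1) i with h6 | h6
        · rw [hst, h4 i h6] at hlv
          exact absurd hlv (by simp)
        · have h7 : i = idx c s (st c s) + 1 := by omega
          rw [hst, h7, h3] at hlv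
          rw [← Option.some.inj hlv]
  -- the stage at which the requirement acts
  have hex : ∃ d, ∃ l, (st c (s0 + d))[i]? = some l ∧ l.2.2.isSome = true := by
    refine ⟨stabT c i, fl c i, fl_spec c i _ (by omega) i le_rfl, ha⟩
  obtain ⟨l1, hl1, hl1s⟩ := Nat.find_spec hex
  have hd0 : Nat.find hex ≠ 0 := by
    intro h0
    rw [h0, Nat.add_zero] at hl1
    obtain ⟨l, hlv, hln⟩ := hcre
    rw [hlv] at hl1
    rw [← Option.some.inj hl1, hln] at hl1s
    exact absurd hl1s (by simp)
  obtain ⟨d, hd⟩ : ∃ d, Nat.find hex = d + 1 := ⟨Nat.find hex - 1, by omega⟩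
  rw [hd] at hl1
  obtain ⟨s, hs⟩ : ∃ s, s = s0 + d := ⟨_, rfl⟩
  rw [← Nat.add_assoc, ← hs] at hl1
  have hsH : H c i ≤ c + s := by omega
  obtain ⟨l, hlv, htr⟩ := k_trans c i s hsH
  have hlnone : l.2.2 = none := by
    have h1 := Nat.find_min hex (m := d) (by omega)
    by_contra h2
    refine h1 ⟨l, by rw [← hs]; exact hlv, ?_⟩
    exact Option.isSome_iff_ne_none.2 h2
  have hidx : idx c s (st c s) = i ∧ l1 = upd c s i (st c s) l := by
    rcases htr with h1 | ⟨h1, h2⟩
    · exfalso
      rw [hl1] at h1
      rw [Option.some.inj h1, hlnone] at hl1s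
      exact absurd hl1s (by simp)
    · rw [hl1] at h2
      exact ⟨h1, Option.some.inj h2⟩
  obtain ⟨hidx, hl1u⟩ := hidx
  obtain ⟨hlow, l2, hl2, -, hltree⟩ := k_levels c i s hsH
  rw [hlv] at hl2
  rw [← Option.some.inj hl2] at hltree
  have hpos : pos (st c s) i = beta c i := k_pos c i hlow
  obtain ⟨L, hL, hl1e⟩ : ∃ L, actL c s i (st c s) (th (tree c i)) = some L ∧
      l1 = (l.1, l.2.1, some ((hl c s (st c s) (max L (beta c i) + 1)).drop (beta c i + 1))) := by
    rw [hl1u] at hl1s
    unfold upd at hl1u hl1s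
    rw [hlnone] at hl1u hl1s
    simp only [Option.isSome_none, Bool.false_eq_true, if_false] at hl1u hl1s
    rw [hltree, hpos] at hl1u hl1s
    cases hact : actL c s i (st c s) (th (tree c i)) with
    | none =>
      rw [hact] at hl1s
      simp only [hlnone] at hl1s
      exact absurd hl1s (by simp)
    | some L =>
      rw [hact] at hl1u
      exact ⟨L, rfl, by rw [hl1u, hltree]⟩
  -- from then on the level does not change
  have hkeep : ∀ d', (st c (s + 1 + d'))[i]? = some l1 := by
    intro d'
    induction d' with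
    | zero => exact hl1
    | succ d' ih =>
      obtain ⟨l', hl', htr'⟩ := k_trans c i (s + 1 + d') (by omega)
      rw [ih] at hl'
      have h1 := Option.some.inj hl'
      rw [← h1] at htr'
      rcases htr' with h2 | ⟨-, h2⟩
      · exact h2
      · rw [← Nat.add_assoc, h2]
        unfold upd
        rw [if_pos hl1s]
  have hfl : l1 = fl c i := by
    have h1 := hkeep (stabT c i)
    rw [fl_spec c i _ (by omega) i le_rfl] at h1
    exact (Option.some.inj h1).symm
  have hlev : ∀ j, j ≤ i → (st c (s + 1))[j]? = some (fl c j) := by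
    intro j hj
    rcases Nat.lt_or_ge j i with h1 | h1
    · exact (k_levels c i (s + 1) (by omega)).1 j h1
    · have h2 : j = i := by omega
      rw [h2, ← hfl]
      exact hl1
  have hbeta : beta c (i + 1) = max L (beta c i) + 1 := by
    have h1 : beta c (i + 1) = beta c i + (vals (fl c i)).length := rfl
    rw [h1, ← hfl, hl1e]
    unfold vals
    simp only [Option.getD_some, List.length_cons, List.length_drop]
    unfold hl
    rw [List.length_map, List.length_range]
    have := le_max_right L (beta c i)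
    omega
  -- the values below `beta c (i + 1)` are the final ones at stage `s`
  have hval : ∀ j, j < beta c (i + 1) → h c s j = hf c j := by
    intro j hj
    obtain ⟨J, hJ1, hJ2, hJ3, -⟩ := h_step c s
    have hst : st c (s + 1) = step c s (st c s) := rfl
    have hJ : J = beta c (i + 1) := by
      have h1 : pos (st c (s + 1)) (i + 1) = beta c (i + 1) :=
        k_pos c (i + 1) fun j hj => hlev j (by omega)
      obtain ⟨m, h5, h6, h7, h8⟩ := k_step_idx c s (st_ne c s)
      rw [hidx, ← hst] at h7 h8
      have h2 : (st c (s + 1)).drop (i + 1) =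
          [(c + s + 1, child (upd c s i (st c s) m), none)] := by
        refine List.ext_getElem? fun k => ?_
        rw [List.getElem?_drop]
        cases k with
        | zero => rw [Nat.add_zero, h7, List.getElem?_cons_zero]
        | succ k =>
          rw [h8 _ (by omega), List.getElem?_cons_succ]
          simp
      have h3 := k_split (st c (s + 1)) (i + 1)
      rw [h3, List.length_append, h2] at hJ2
      unfold pos at h1
      rw [h1] at hJ2
      simp only [flat, vals, List.flatMap_cons, List.flatMap_nil, Option.getD_none,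
        List.append_nil, List.length_cons, List.length_nil] at hJ2
      omega
    rw [← hJ3 j (by omega)]
    exact k_hf c i (s + 1) j hlev hj
  have hLth : L < th (tree c i) + 1 := by
    unfold actL at hL
    exact List.mem_range.1 (List.mem_of_find?_eq_some hL)
  have hLtest : actTest c s i (st c s) L = true := by
    unfold actL at hL
    exact List.find?_some hL
  unfold actTest at hLtest
  rw [decide_eq_true_iff] at hLtest
  obtain ⟨j, hj, v, hv, hh⟩ := hLtest
  have hmax := le_max_left L (beta c i)
  refine ⟨?_, j, v, by omega, by omega, by omega, s, ?_⟩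
  · rw [hbeta]
    have : max L (beta c i) ≤ max (th (tree c i)) (beta c i) := max_le_max (by omega) le_rfl
    omega
  · have h1 : hl c s (st c s) j = hist c j := by
      unfold hl hist
      refine List.map_congr_left fun k hk => ?_
      rw [List.mem_range] at hk
      exact hval k (by omega)
    rw [← h1]
    exact hh

/-- if the requirement of level `i` has not acted, the adversary gives no short computation -/
theorem not_acted_spec (c i : ℕ) (ha : acted c i = false) :
    beta c (i + 1) = beta c i + 1 ∧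
    ∀ j v, j ≤ th (tree c i) → v ≤ th (tree c i) → ¬ halt i (args c (hist c j) i v) := by
  have hnone : (fl c i).2.2 = none := by
    unfold acted at ha
    simpa using ha
  refine ⟨?_, fun j v hj hv hh => ?_⟩
  · have h1 : beta c (i + 1) = beta c i + (vals (fl c i)).length := rfl
    rw [h1]
    unfold vals
    rw [hnone]
    rfl
  · obtain ⟨s1, hs1⟩ := hh
    have hhist : ∃ S, ∀ s, S ≤ s → hl c s (st c s) j = hist c j := by
      clear hj hs1
      induction j with
      | zero => exact ⟨0, fun s _ => rfl⟩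
      | succ j ih =>
        obtain ⟨S, hS⟩ := ih
        obtain ⟨S', hS'⟩ := hf_eq c j
        refine ⟨max S S', fun s hs => ?_⟩
        have h1 := hS s (le_trans (le_max_left _ _) hs)
        have h2 := hS' s (le_trans (le_max_right _ _) hs)
        unfold hl hist at h1 ⊢
        rw [List.range_succ, List.map_append, List.map_append, h1]
        simp only [List.map_cons, List.map_nil]
        rw [← h2]
        rfl
    obtain ⟨S, hS⟩ := hhist
    obtain ⟨s, hs⟩ : ∃ s, s = S + s1 + stabT c i + H c (i + 1) := ⟨_, rfl⟩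
    have h1 := no_event c i s (by omega) i le_rfl
    have h2 := fl_spec c i s (by omega) i le_rfl
    unfold ev at h1
    rw [h2] at h1
    simp only [Bool.or_eq_false_iff, hnone, Option.isNone_none, Bool.true_and] at h1
    have h3 := h1.1
    have h4 : actL c s i (st c s) (th (tree c i)) = none := by
      unfold tree
      exact Option.not_isSome_iff_eq_none.1 (by rw [h3]; simp)
    unfold actL at h4
    rw [List.find?_eq_none] at h4
    refine h4 (max j v) (List.mem_range.2 (by have := max_le hj hv; omega)) ?_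
    unfold actTest
    rw [decide_eq_true_iff]
    refine ⟨j, by have := le_max_left j v; omega, v, by have := le_max_right j v; omega, ?_⟩
    rw [hS s (by omega)]
    exact haltN_mono (by omega) hs1

end Pool.Agent.Lib.MP_53c40f_lc
end

section

/-!
# Stability of levels as a co-r.e. property
-/

set_option autoImplicit false

namespace Pool.Agent.Lib.MP_53c40f_lc

theorem l_lev (c s n : ℕ) (hl : ∀ j, j ≤ n → (st c s)[j]? = some (fl c j)) :
    lev c s n = some (beta c n, H c n) := by
  unfold lev
  rw [hl n le_rfl, g_beta c s n fun j hj => hl j (by omega)]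
  rfl

theorem stb_sound (c n s v : ℕ) (hs : ∀ s', stb c n s v s' = true) :
    v = beta c n ∧ H c n ≤ c + s := by
  have h1 := hs (max s (stabT c n))
  simp only [stb, decide_eq_true_eq] at h1
  rcases h1 with h1 | ⟨h1, h2⟩
  · exact absurd h1 (not_lt.2 (le_max_left _ _))
  · rw [l_lev c _ n (fl_spec c n _ (le_max_right _ _))] at h1
    rw [← h1] at h2
    refine ⟨(Option.some.inj h2).symm, ?_⟩
    unfold lev at h1
    cases h3 : (st c s)[n]? with
    | none => rw [h3] at h1; exact absurd h1 (by simp)
    | some l =>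
      rw [h3] at h1
      have h4 : H c n = l.1 := congrArg Prod.snd (Option.some.inj h1)
      rw [h4]
      apply flat_le c s
      unfold flat
      rw [List.mem_flatMap]
      exact ⟨l, List.mem_of_getElem? h3, by simp [vals]⟩

theorem stb_complete (c n : ℕ) :
    ∃ s, c + s = H c (n + 1) ∧ ∀ s', stb c n s (beta c n) s' = true := by
  obtain ⟨s, hs⟩ := g_create c n
  refine ⟨s + 1, by omega, fun s' => ?_⟩
  simp only [stb, decide_eq_true_eq]
  rcases Nat.lt_or_ge s' (s + 1) with h1 | h1
  · exact Or.inl h1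
  · right
    have h2 : ∀ t, s + 1 ≤ t → lev c t n = some (beta c n, H c n) := fun t ht =>
      l_lev c t n (stab_from c n t (by omega)).2.1
    rw [h2 s' h1, h2 (s + 1) le_rfl]
    exact ⟨rfl, rfl⟩

end Pool.Agent.Lib.MP_53c40f_lc
end

section

/-!
# The parameter sequence
-/

set_option autoImplicit false

namespace Pool.Agent.Lib.MP_53c40f_lc

open Filter

/-- A sequence of parameters for which every level has a standard position `bt i`, and such that
the function `n ↦ bt (n + 1)` is not computable from the final values. -/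
structure Ctx where
  c : ℕ → ℕ
  bt : ℕ → ℕ
  c_inf : ∀ m, ∀ᶠ k in UU, m ≤ c k
  hbt : ∀ i, ∀ᶠ k in UU, beta (c k) i = bt i
  noncomp : ∀ R : ℕ × List ℕ × ℕ × ℕ → Prop, REPred R →
    ¬ ∀ n v, v = bt (n + 1) ↔ ∃ j, ∀ᶠ k in UU, R (c k, hist (c k) j, n, v)

theorem sg19_walk (k T i : ℕ) :
    tree (Nat.pair k T) i = walk (fun i => acted (Nat.pair k T) i) T i := by
  induction i with
  | zero =>
    rw [tree_zero, Nat.unpair_pair]
    rfl
  | succ i ih =>
    rw [tree_succ, walk, ih]

theorem exists_ctx : Nonempty Ctx := by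
  classical
  obtain ⟨T, hT⟩ := selection (fun k T i => acted (Nat.pair k T) i)
  let c : ℕ → ℕ := fun k => Nat.pair k (T k)
  have hT' : ∀ i, (∃ m, ∀ᶠ k in UU, acted (c k) i = true ∧ th (tree (c k) i) ≤ m) ∨
      ((∀ᶠ k in UU, acted (c k) i = false) ∧ ∀ m, ∀ᶠ k in UU, m < th (tree (c k) i)) := by
    intro i
    rcases hT i with ⟨m, hm⟩ | ⟨h1, h2⟩
    · left
      refine ⟨m, hm.mono fun k hk => ?_⟩
      rw [sg19_walk]
      exact hk
    · right
      refine ⟨h1, fun m => (h2 m).mono fun k hk => ?_⟩
      rw [sg19_walk]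
      exact hk
  have hb : ∀ i, ∃ b, ∀ᶠ k in UU, beta (c k) i = b := by
    intro i
    induction i with
    | zero => exact ⟨0, Filter.Eventually.of_forall fun k => rfl⟩
    | succ i ih =>
      obtain ⟨b, hb⟩ := ih
      rcases hT' i with ⟨m, hm⟩ | ⟨h1, -⟩
      · have h2 : ∀ᶠ k in UU, beta (c k) (i + 1) ≤ max m b + 1 := by
          filter_upwards [hb, hm] with k h3 h4
          have h5 := (acted_spec (c k) i h4.1).1
          have h6 := h4.2
          rw [h3] at h5
          omega
        obtain ⟨v, -, hv⟩ := uu_const h2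
        exact ⟨v, hv⟩
      · refine ⟨b + 1, ?_⟩
        filter_upwards [hb, h1] with k h3 h4
        rw [(not_acted_spec (c k) i h4).1, h3]
  choose bt hbt using hb
  refine ⟨⟨c, bt, fun m => (uu_ge m).mono fun k hk => hk.trans (Nat.left_le_pair _ _), hbt, ?_⟩⟩
  intro R hR hcon
  obtain ⟨e, he⟩ := re_index hR
  rcases hT' e with ⟨m, hm⟩ | ⟨h1, h2⟩
  · have h3 : ∀ k, ∃ p : ℕ × ℕ, (acted (c k) e = true ∧ th (tree (c k) e) ≤ m) →
        p.1 ≤ m ∧ p.2 ≤ m ∧ p.2 < beta (c k) (e + 1) ∧
          halt e (args (c k) (hist (c k) p.1) e p.2) := by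
      intro k
      by_cases h : acted (c k) e = true ∧ th (tree (c k) e) ≤ m
      · obtain ⟨-, j, v, hj, hv, hv2, hh⟩ := acted_spec (c k) e h.1
        exact ⟨(j, v), fun _ => ⟨hj.trans h.2, hv.trans h.2, hv2, hh⟩⟩
      · exact ⟨(0, 0), fun h' => absurd h' h⟩
    choose p hp using h3
    obtain ⟨j, -, hj⟩ := uu_const (f := fun k => (p k).1) (m := m)
      (hm.mono fun k hk => (hp k hk).1)
    obtain ⟨v, -, hv⟩ := uu_const (f := fun k => (p k).2) (m := m)
      (hm.mono fun k hk => (hp k hk).2.1)
    have h4 : ∀ᶠ k in UU, R (c k, hist (c k) j, e, v) := by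
      filter_upwards [hm, hj, hv] with k a1 a2 a3
      obtain ⟨-, -, -, h5⟩ := hp k a1
      rw [a2, a3] at h5
      exact (he _).2 h5
    have h5 : v = bt (e + 1) := (hcon e v).2 ⟨j, h4⟩
    have h6 : ∀ᶠ k in UU, v < bt (e + 1) := by
      filter_upwards [hm, hv, hbt (e + 1)] with k a1 a3 a4
      obtain ⟨-, -, h7, -⟩ := hp k a1
      rw [a3, a4] at h7
      exact h7
    obtain ⟨_, h7⟩ := uu_exists h6
    omega
  · obtain ⟨j, hj⟩ := (hcon e (bt (e + 1))).1 rfl
    have h3 : ∀ᶠ k in UU, False := by
      filter_upwards [h1, h2 (max j (bt (e + 1))), hj] with k a1 a2 a3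
      exact (not_acted_spec (c k) e a1).2 j (bt (e + 1)) (by omega) (by omega) ((he _).1 a3)
    exact uu_false h3

end Pool.Agent.Lib.MP_53c40f_lc
end

section

/-!
# Growth of the values of the levels
-/

set_option autoImplicit false

namespace Pool.Agent.Lib.MP_53c40f_lc

open Filter

theorem beta_mono (c : ℕ) : StrictMono (beta c) :=
  strictMono_nat_of_lt_succ fun i => beta_lt c i

theorem le_beta (c i : ℕ) : i ≤ beta c i := (beta_mono c).le_apply

theorem H_mono (c : ℕ) : Monotone (H c) := by
  intro i j hij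
  rw [← hf_beta c i, ← hf_beta c j]
  exact hf_mono c ((beta_mono c).monotone hij)

theorem c_le_H (c i : ℕ) : c ≤ H c i := by
  have h := H_mono c (Nat.zero_le i)
  rwa [H_zero] at h

theorem growth {f : ℕ → ℕ} (hf : Computable f) :
    ∃ e, ∀ i, e ≤ i → ∀ c x, x ≤ H c i → f x < H c (i + 1) := by
  obtain ⟨e, he⟩ := dominate hf
  refine ⟨e, fun i hi c x hx => ?_⟩
  exact (he x).2 _ (H_close c i e x hi hx (he x).1)

/-- maximum of `g z` for `z ≤ n` -/
theorem growth_max {g : ℕ → ℕ} (hg : Computable g) :
    ∃ F : ℕ → ℕ, Computable F ∧ ∀ n z, z ≤ n → g z ≤ F n := by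
  have hh : Computable₂ fun (_ : ℕ) (p : ℕ × ℕ) => max p.2 (g (p.1 + 1)) := by
    have h1 : Computable fun p : ℕ × ℕ × ℕ => g (p.2.1 + 1) :=
      hg.comp (Computable.succ.comp (Computable.fst.comp Computable.snd))
    exact (Primrec.nat_max.to_comp.comp (Computable.snd.comp Computable.snd) h1).to₂
  refine ⟨fun n => Nat.rec (g 0) (fun m r => max r (g (m + 1))) n,
    Computable.nat_rec Computable.id (Computable.const (g 0)) hh, ?_⟩
  · intro n
    induction n with
    | zero =>
      intro z hz
      rw [Nat.le_zero.1 hz]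
      exact le_rfl
    | succ n ih =>
      intro z hz
      rcases Nat.lt_or_ge n z with h | h
      · have : z = n + 1 := by omega
        subst this
        exact le_max_right _ _
      · exact (ih z h).trans (le_max_left _ _)

theorem growth₂ {f : ℕ → ℕ → ℕ} (hf : Computable₂ f) :
    ∃ e, ∀ i, e ≤ i → ∀ c x y, x ≤ H c i → y ≤ H c i → f x y < H c (i + 1) := by
  have h1 : Computable fun z : ℕ => f z.unpair.1 z.unpair.2 :=
    hf.comp (Computable.fst.comp Computable.unpair) (Computable.snd.comp Computable.unpair)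
  obtain ⟨F, hF, hF'⟩ := growth_max h1
  have h2 : Computable fun m : ℕ => F (Nat.pair m m) :=
    hF.comp (Primrec₂.natPair.to_comp.comp Computable.id Computable.id)
  obtain ⟨e, he⟩ := growth h2
  refine ⟨e, fun i hi c x y hx hy => ?_⟩
  have h3 := he i hi c (max x y) (max_le hx hy)
  refine lt_of_le_of_lt ?_ h3
  have h4 : Nat.pair x y ≤ Nat.pair (max x y) (max x y) :=
    ((StrictMono.monotone fun a b h => Nat.pair_lt_pair_left y h : Monotone fun a => Nat.pair a y)
      (le_max_left x y)).trans
    ((StrictMono.monotone fun a b h => Nat.pair_lt_pair_right (max x y) h :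
      Monotone fun b => Nat.pair (max x y) b) (le_max_right x y))
  have h5 := hF' _ _ h4
  rw [Nat.unpair_pair] at h5
  exact h5

/-- witnesses are bounded by the value of the next level -/
theorem settle_H {D : ℕ → ℕ → Bool} (hD : Computable₂ D) :
    ∃ e, ∀ i, e ≤ i → ∀ c x, x ≤ H c i → (∃ y, D x y = true) → ∃ y < H c (i + 1), D x y = true := by
  obtain ⟨e, he⟩ := search hD
  refine ⟨e, fun i hi c x hx hex => ?_⟩
  exact (he x).2 _ (H_close c i e x hi hx ((he x).1 hex))

/-- codes of initial segments of the values are bounded by the value of some level -/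
theorem hist_bound (Γ : Ctx) (j : ℕ) :
    ∃ i, ∀ᶠ k in UU, Encodable.encode (hist (Γ.c k) j) ≤ H (Γ.c k) i := by
  induction j with
  | zero =>
    refine ⟨0, ?_⟩
    filter_upwards [Γ.c_inf (Encodable.encode ([] : List ℕ))] with k hk
    rw [H_zero]
    exact hk
  | succ j ih =>
    obtain ⟨i, hi⟩ := ih
    have hC : Computable₂ fun (a b : ℕ) =>
        Encodable.encode ((((Encodable.decode a : Option (List ℕ)).getD []) ++ [b] : List ℕ)) := by
      have h1 : Computable fun p : ℕ × ℕ => ((Encodable.decode p.1 : Option (List ℕ)).getD []) :=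
        Computable.option_getD (Computable.decode.comp Computable.fst) (Computable.const [])
      exact (Computable.encode.comp (Computable.list_append.comp h1
        (Computable.list_cons.comp Computable.snd (Computable.const []))))
    obtain ⟨e, he⟩ := growth₂ hC
    refine ⟨max (max e i) j + 1, ?_⟩
    filter_upwards [hi] with k hk
    have h1 : Encodable.encode (hist (Γ.c k) j) ≤ H (Γ.c k) (max (max e i) j) :=
      hk.trans (H_mono _ ((le_max_right _ _).trans (le_max_left _ _)))
    have h2 : hf (Γ.c k) j ≤ H (Γ.c k) (max (max e i) j) := by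
      rw [← hf_beta]
      exact hf_mono _ ((le_beta _ _).trans ((beta_mono _).monotone (le_max_right _ _)))
    have h3 := he _ ((le_max_left e i).trans (le_max_left _ _)) (Γ.c k) _ _ h1 h2
    rw [Encodable.encodek] at h3
    rw [hist_succ]
    exact h3.le

/-- the value of level `i` is the value at position `bt i` -/
theorem H_eq_hf (Γ : Ctx) (i : ℕ) : ∀ᶠ k in UU, H (Γ.c k) i = hf (Γ.c k) (Γ.bt i) := by
  filter_upwards [Γ.hbt i] with k hk
  rw [← hk, hf_beta]

/-- standard positions of levels increase -/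
theorem bt_mono (Γ : Ctx) : StrictMono Γ.bt := by
  refine strictMono_nat_of_lt_succ fun i => ?_
  obtain ⟨k, h1, h2⟩ := uu_exists ((Γ.hbt i).and (Γ.hbt (i + 1)))
  rw [← h1, ← h2]
  exact beta_lt _ i

end Pool.Agent.Lib.MP_53c40f_lc
end

section

/-!
# Computability from the final values, and systems of candidates
-/

set_option autoImplicit false

namespace Pool.Agent.Lib.MP_53c40f_lc

open Filter

/-- the function `n ↦ bt (n + 1)` is computable from the final values, the parameter `q` and the
real `x` -/
def Comp (Γ : Ctx) (x q : ℕ → ℕ) : Prop :=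
  ∃ R : ℕ × List ℕ × List ℕ × ℕ × ℕ → Prop, REPred R ∧
    ∀ n v, v = Γ.bt (n + 1) ↔
      ∃ j, ∀ᶠ k in UU, R (q k, hist (Γ.c k) j, (List.range j).map x, n, v)

/-- the function `n ↦ bt (n + 1)` is computable from the final values and the parameter `q` -/
def Comp0 (Γ : Ctx) (q : ℕ → ℕ) : Prop :=
  ∃ R : ℕ × List ℕ × ℕ × ℕ → Prop, REPred R ∧
    ∀ n v, v = Γ.bt (n + 1) ↔ ∃ j, ∀ᶠ k in UU, R (q k, hist (Γ.c k) j, n, v)

/-- decoding -/
def dec (p n : ℕ) : ℕ := (Denumerable.ofNat (List ℕ) p).getD n 0

/-- A system of nonempty co-r.e. sets of candidates `p' ≤ c k`. -/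
structure Sys (Γ : Ctx) (x q : ℕ → ℕ) where
  P : ℕ → ℕ → ℕ → Prop
  S : ℕ × ℕ × List ℕ × List ℕ × ℕ → Prop
  reS : REPred S
  hS : ∀ m, ∀ᶠ k in UU, ∀ p' ≤ Γ.c k,
    P m k p' ↔ ¬ S (q k, p', hist (Γ.c k) m, (List.range m).map x, m)
  anti : ∀ m, ∀ᶠ k in UU, ∀ p' ≤ Γ.c k, P (m + 1) k p' → P m k p'
  ne : ∀ m, ∀ᶠ k in UU, ∃ p' ≤ Γ.c k, P m k p'

end Pool.Agent.Lib.MP_53c40f_lc
end

section

/-!
# Parameters and generators
-/

set_option autoImplicit false

namespace Pool.Agent.Lib.MP_53c40f_lc

open Filter

/-- the tuple of the parameters up to `m` -/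
def qq (c : ℕ → ℕ) (p : ℕ → ℕ → ℕ) : ℕ → ℕ → ℕ
  | 0, k => c k
  | m + 1, k => Nat.pair (qq c p m k) (p m k)

/-- the parameter `c` is computable from the tuples -/
theorem qq_base (m : ℕ) :
    ∃ f : ℕ → ℕ, Computable f ∧ ∀ (c : ℕ → ℕ) (p : ℕ → ℕ → ℕ) (k : ℕ), f (qq c p m k) = c k := by
  induction m with
  | zero => exact ⟨id, Computable.id, fun _ _ _ => rfl⟩
  | succ m ih =>
    obtain ⟨f, hf, h⟩ := ih
    refine ⟨fun q => f q.unpair.1, hf.comp (Computable.fst.comp Primrec.unpair.to_comp), ?_⟩
    intro c p k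
    simp only [qq, Nat.unpair_pair]
    exact h c p k

/-- the generators of the model: initial segments of the values, and the parameters -/
noncomputable def GG (Γ : Ctx) (p : ℕ → ℕ → ℕ) (n k : ℕ) : ℕ :=
  Nat.pair (Encodable.encode (hist (Γ.c k) n)) (qq Γ.c p n k)

end Pool.Agent.Lib.MP_53c40f_lc
end

section

/-!
# The generators satisfy the conditions of `Gen`
-/

set_option autoImplicit false

namespace Pool.Agent.Lib.MP_53c40f_lc

open Filter

private theorem g25_pair : Computable₂ Nat.pair := Primrec₂.natPair.to_comp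

private theorem g25_fst : Computable fun x : ℕ => x.unpair.1 :=
  Computable.fst.comp Computable.unpair

private theorem g25_snd : Computable fun x : ℕ => x.unpair.2 :=
  Computable.snd.comp Computable.unpair

private theorem g25_list : Computable fun x : ℕ => Denumerable.ofNat (List ℕ) x.unpair.1 :=
  (Primrec.ofNat (List ℕ)).to_comp.comp g25_fst

/-- the members of a list are at most its code -/
private theorem g25_mem_le {l : List ℕ} {x : ℕ} (h : x ∈ l) : x ≤ Encodable.encode l := by
  induction l with
  | nil => simp at h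
  | cons a l ih =>
    rw [Encodable.encode_list_cons]
    rcases List.mem_cons.1 h with rfl | h
    · exact (Nat.left_le_pair _ _).trans (Nat.le_succ _)
    · exact (ih h).trans ((Nat.right_le_pair _ _).trans (Nat.le_succ _))

theorem qq_bound (Γ : Ctx) (p : ℕ → ℕ → ℕ) (hp : ∀ m k, p m k ≤ Γ.c k) (m : ℕ) :
    ∃ i, ∀ᶠ k in UU, qq Γ.c p m k ≤ H (Γ.c k) i := by
  induction m with
  | zero => exact ⟨0, Filter.Eventually.of_forall fun k => (H_zero (Γ.c k)).ge⟩
  | succ m ih =>
    obtain ⟨i, hi⟩ := ih
    obtain ⟨e, he⟩ := growth₂ g25_pair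
    refine ⟨max i e + 1, ?_⟩
    filter_upwards [hi] with k hk
    exact (he (max i e) (le_max_right _ _) (Γ.c k) _ _
      (hk.trans (H_mono _ (le_max_left _ _))) ((hp m k).trans (c_le_H _ _))).le

private theorem g25_bound (Γ : Ctx) (p : ℕ → ℕ → ℕ) (hp : ∀ m k, p m k ≤ Γ.c k) (n : ℕ) :
    ∃ i, ∀ᶠ k in UU, GG Γ p n k ≤ H (Γ.c k) i := by
  obtain ⟨i1, h1⟩ := hist_bound Γ n
  obtain ⟨i2, h2⟩ := qq_bound Γ p hp n
  obtain ⟨e, he⟩ := growth₂ g25_pair
  refine ⟨max (max i1 i2) e + 1, ?_⟩
  filter_upwards [h1, h2] with k a1 a2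
  exact (he (max (max i1 i2) e) (le_max_right _ _) (Γ.c k) _ _
    (a1.trans (H_mono _ ((le_max_left _ _).trans (le_max_left _ _))))
    (a2.trans (H_mono _ ((le_max_right _ _).trans (le_max_left _ _))))).le

/-- the value of level `i` is computable from a generator -/
private theorem g25_H (Γ : Ctx) (p : ℕ → ℕ → ℕ) (i : ℕ) :
    ∀ᶠ k in UU, H (Γ.c k) i =
      (Denumerable.ofNat (List ℕ) (GG Γ p (Γ.bt i + 1) k).unpair.1).getD (Γ.bt i) 0 := by
  filter_upwards [H_eq_hf Γ i] with k hk
  rw [GG, Nat.unpair_pair]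
  simp only [Denumerable.ofNat_encode]
  rw [hist_getD (Nat.lt_succ_self _), hk]

private theorem g25_H_le (Γ : Ctx) (p : ℕ → ℕ → ℕ) (i : ℕ) :
    ∀ᶠ k in UU, H (Γ.c k) i ≤ GG Γ p (Γ.bt i + 1) k := by
  filter_upwards [H_eq_hf Γ i] with k hk
  have h1 : hf (Γ.c k) (Γ.bt i) ∈ hist (Γ.c k) (Γ.bt i + 1) := by
    unfold hist
    exact List.mem_map.2 ⟨Γ.bt i, List.mem_range.2 (Nat.lt_succ_self _), rfl⟩
  rw [hk]
  exact (g25_mem_le h1).trans (Nat.left_le_pair _ _)

theorem gen_GG (Γ : Ctx) (p : ℕ → ℕ → ℕ) (hp : ∀ m k, p m k ≤ Γ.c k) : Gen (GG Γ p) where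
  proj n := by
    refine ⟨fun x => Nat.pair (Encodable.encode
      (List.take n (Denumerable.ofNat (List ℕ) x.unpair.1))) x.unpair.2.unpair.1, ?_, ?_⟩
    · exact g25_pair.comp (Computable.encode.comp (Primrec.list_take.to_comp.comp
        (Computable.const n) g25_list)) (g25_fst.comp g25_snd)
    · refine Filter.Eventually.of_forall fun k => ?_
      simp only [GG, qq, Nat.unpair_pair, Denumerable.ofNat_encode]
      rw [hist_take (Nat.le_succ n)]
  dom n f hf := by
    obtain ⟨i, hi⟩ := g25_bound Γ p hp n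
    obtain ⟨e, he⟩ := growth hf
    refine ⟨Γ.bt (max i e + 1) + 1, ?_⟩
    filter_upwards [hi, g25_H_le Γ p (max i e + 1)] with k a1 a2
    exact (he (max i e) (le_max_right _ _) (Γ.c k) _
      (a1.trans (H_mono _ (le_max_left _ _)))).le.trans a2
  settle n D hD := by
    obtain ⟨i, hi⟩ := g25_bound Γ p hp n
    obtain ⟨e, he⟩ := settle_H hD
    refine ⟨Γ.bt (max i e + 1) + 1, fun x => (Denumerable.ofNat (List ℕ) x.unpair.1).getD
      (Γ.bt (max i e + 1)) 0, ?_, ?_⟩
    · exact (Primrec.list_getD (α := ℕ) 0).to_comp.comp g25_list (Computable.const _)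
    · filter_upwards [hi, g25_H Γ p (max i e + 1)] with k a1 a2 x hx hy
      obtain ⟨y, hy1, hy2⟩ := he (max i e) (le_max_right _ _) (Γ.c k) x
        (hx.trans (a1.trans (H_mono _ (le_max_left _ _)))) hy
      exact ⟨y, by rw [← a2]; exact hy1.le, hy2⟩

end Pool.Agent.Lib.MP_53c40f_lc
end

section

/-!
# Coded sets, c.e. sets and reductions in the model, fibrewise
-/

set_option autoImplicit false

namespace Pool.Agent.Lib.MP_53c40f_lc

open Filter

variable {G : ℕ → ℕ → ℕ}

/-- the set defined fibrewise by an r.e. predicate with parameter `q` -/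
def RS (G : ℕ → ℕ → ℕ) (R : ℕ × ℕ → Prop) (q : ℕ → ℕ) : Set (MM G) :=
  {x | ∀ᶠ k in UU, R (rep x k, q k)}

theorem md_primrec_two_pow : Primrec (fun n : ℕ => 2 ^ n) := by
  refine (Primrec.nat_rec₁ 1 (f := fun _ y => y + y)
    (Primrec.nat_add.comp Primrec.snd Primrec.snd)).of_eq ?_
  intro n
  induction n with
  | zero => rfl
  | succ n ih =>
    show _ + _ = _
    rw [ih, pow_succ]
    ring

theorem md_primrec_testBit : Primrec (fun a : ℕ × ℕ => a.1.testBit a.2) := by
  have h1 : Primrec (fun a : ℕ × ℕ => a.1 / 2 ^ a.2 % 2) :=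
    Primrec.nat_mod.comp (Primrec.nat_div.comp Primrec.fst (md_primrec_two_pow.comp Primrec.snd))
      (Primrec.const 2)
  have h2 : PrimrecPred (fun a : ℕ × ℕ => a.1 / 2 ^ a.2 % 2 = 1) :=
    Primrec.eq.comp h1 (Primrec.const 1)
  obtain ⟨inst, h3⟩ := h2
  refine h3.of_eq fun a => ?_
  rw [Nat.testBit_eq_decide_div_mod_eq]
  simp

theorem md_testBit {q x r a : ℕ} (ha : a = (q + q + 1) * 2 ^ x + r) (hr : r < 2 ^ x) :
    a.testBit x = true := by
  have h2 : 0 < 2 ^ x := by positivity
  have h1 : a / 2 ^ x = q + q + 1 := by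
    rw [ha, add_comm, Nat.add_mul_div_right _ _ h2, Nat.div_eq_of_lt hr, zero_add]
  rw [Nat.testBit_eq_decide_div_mod_eq, h1, decide_eq_true_iff]
  omega

theorem mem_iff (hG : Gen G) (x a : MM G) :
    Mem x a ↔ ∀ᶠ k in UU, (rep a k).testBit (rep x k) = true := by
  have key : ∀ q r : MM G, ∀ᶠ k in UU, rep ((q + q + 1) * Arith.exp2 x + r) k =
      (rep q k + rep q k + 1) * 2 ^ rep x k + rep r k := by
    intro q r
    have h := rep_tm hG (n := 3) (.add (.mul (.add (.add (.var 0) (.var 0)) .one) (.exp (.var 1)))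
      (.var 2)) ![q, x, r]
    exact h
  constructor
  · rintro ⟨q, r, h1, h2⟩
    have h3 := (eq_iff_rep _ _).1 h1
    have h4 : ∀ᶠ k in UU, rep r k < rep (Arith.exp2 x : MM G) k := h2
    have h5 : ∀ᶠ k in UU, rep (Arith.exp2 x : MM G) k = 2 ^ rep x k :=
      rep_tm hG (n := 1) (.exp (.var 0)) ![x]
    filter_upwards [h3, h4, h5, key q r] with k h3 h4 h5 h6
    exact md_testBit (h3.trans h6) (h4.trans_eq h5)
  · intro h
    have hax : MsT G (fun k => (rep a k, rep x k)) :=
      MsT.prod hG (msT_nat.2 (rep_ms a)) (msT_nat.2 (rep_ms x))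
    have hq : Ms G (fun k => rep a k / 2 ^ (rep x k + 1)) := by
      refine msT_nat.1 (hax.comp (f := fun p : ℕ × ℕ => p.1 / 2 ^ (p.2 + 1)) ?_)
      exact (Primrec.nat_div.comp Primrec.fst
        (md_primrec_two_pow.comp (Primrec.succ.comp Primrec.snd))).to_comp
    have hr : Ms G (fun k => rep a k % 2 ^ rep x k) := by
      refine msT_nat.1 (hax.comp (f := fun p : ℕ × ℕ => p.1 % 2 ^ p.2) ?_)
      exact (Primrec.nat_mod.comp Primrec.fst (md_primrec_two_pow.comp Primrec.snd)).to_comp
    refine ⟨mkD G fun k => rep a k / 2 ^ (rep x k + 1), mkD G fun k => rep a k % 2 ^ rep x k,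
      ?_, ?_⟩
    · rw [eq_iff_rep]
      filter_upwards [h, rep_mkD hq, rep_mkD hr, key (mkD G fun k => rep a k / 2 ^ (rep x k + 1))
        (mkD G fun k => rep a k % 2 ^ rep x k)] with k h1 h2 h3 h4
      rw [h4, h2, h3]
      rw [Nat.testBit_eq_decide_div_mod_eq, decide_eq_true_iff] at h1
      have h5 : rep a k / 2 ^ (rep x k + 1) = rep a k / 2 ^ rep x k / 2 := by
        rw [pow_succ, Nat.div_div_eq_div_mul]
      have h6 : rep a k / 2 ^ (rep x k + 1) + rep a k / 2 ^ (rep x k + 1) + 1 =
          rep a k / 2 ^ rep x k := by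
        rw [h5]
        omega
      rw [h6, mul_comm]
      exact (Nat.div_add_mod _ _).symm
    · have h5 : ∀ᶠ k in UU, rep (Arith.exp2 x : MM G) k = 2 ^ rep x k :=
        rep_tm hG (n := 1) (.exp (.var 0)) ![x]
      show ∀ᶠ k in UU, rep (mkD G fun k => rep a k % 2 ^ rep x k) k < rep (Arith.exp2 x : MM G) k
      filter_upwards [rep_mkD hr, h5] with k h1 h2
      rw [h1, h2]
      exact Nat.mod_lt _ (by positivity)

theorem sub_iff (hG : Gen G) {R : ℕ × ℕ → Prop} (hR : REPred R) {q : ℕ → ℕ} (hq : Ms G q)
    (a : MM G) :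
    Sub a (RS G R q) ↔ ∀ᶠ k in UU, ∀ y, (rep a k).testBit y = true → R (y, q k) := by
  constructor
  · intro h
    by_contra hcon
    rw [uu_not] at hcon
    obtain ⟨b, D, hb, hD, hbD⟩ := Ms.decide_below hG (rep_ms a) hq hR
    have hle : ∀ {u y : ℕ}, u.testBit y = true → y ≤ u := fun {u y} h1 =>
      (Nat.lt_two_pow_self (n := y)).le.trans (Nat.ge_two_pow_of_testBit h1)
    have hprod : MsT G (fun k => (rep a k, q k, b k)) :=
      MsT.prod hG (msT_nat.2 (rep_ms a)) (MsT.prod hG (msT_nat.2 hq) (msT_nat.2 hb))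
    have hre : REPred (fun p : (ℕ × ℕ × ℕ) × ℕ =>
        p.1.1.testBit p.2 = true ∧ D (p.2, p.1.2) = false) := by
      refine re_of_dec (fun p => p.1.1.testBit p.2 && !(D (p.2, p.1.2))) ?_ fun p => ?_
      · have h1 : Computable (fun p : (ℕ × ℕ × ℕ) × ℕ => p.1.1.testBit p.2) :=
          (md_primrec_testBit.comp ((Primrec.fst.comp Primrec.fst).pair Primrec.snd)).to_comp
        have h2 : Computable (fun p : (ℕ × ℕ × ℕ) × ℕ => D (p.2, p.1.2)) :=
          hD.comp (Primrec.snd.pair (Primrec.snd.comp Primrec.fst)).to_comp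
        exact Primrec.and.to_comp.comp h1 (Primrec.not.to_comp.comp h2)
      · simp
    obtain ⟨y, hy, hy'⟩ := MsT.wit hG hprod hre (by
      filter_upwards [hcon, hbD] with k h1 h2
      push Not at h1
      obtain ⟨y, hy1, hy2⟩ := h1
      refine ⟨y, hy1, ?_⟩
      have h3 := h2 y (hle hy1)
      simpa using fun h4 => hy2 (h3.2 h4))
    have hy1 := msT_nat.1 hy
    have hmem : Mem (mkD G y) a := by
      rw [mem_iff hG]
      filter_upwards [rep_mkD hy1, hy'] with k h1 h2
      rw [h1]
      exact h2.1
    have h1 := h _ hmem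
    have h1' : ∀ᶠ k in UU, R (rep (mkD G y) k, q k) := h1
    refine uu_false ?_
    filter_upwards [h1', rep_mkD hy1, hy', hbD] with k h1 h2 h3 h4
    rw [h2] at h1
    have h5 := (h4 _ (hle h3.1)).1 h1
    have h6 := h3.2
    rw [h6] at h5
    exact absurd h5 (by simp)
  · intro h x hx
    rw [mem_iff hG] at hx
    show ∀ᶠ k in UU, R (rep x k, q k)
    filter_upwards [h, hx] with k h1 h2
    exact h1 _ h2

theorem disj_iff (hG : Gen G) {R : ℕ × ℕ → Prop} (hR : REPred R) {q : ℕ → ℕ} (hq : Ms G q)
    (a : MM G) :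
    Disj a (RS G R q) ↔ ∀ᶠ k in UU, ∀ y, (rep a k).testBit y = true → ¬ R (y, q k) := by
  constructor
  · intro h
    by_contra hcon
    rw [uu_not] at hcon
    have hprod : MsT G (fun k => (rep a k, q k)) :=
      MsT.prod hG (msT_nat.2 (rep_ms a)) (msT_nat.2 hq)
    have hre : REPred (fun p : (ℕ × ℕ) × ℕ => p.1.1.testBit p.2 = true ∧ R (p.2, p.1.2)) := by
      refine re_and (re_of_dec (fun p : (ℕ × ℕ) × ℕ => p.1.1.testBit p.2) ?_ fun p => Iff.rfl)
        (re_comp hR (Primrec.snd.pair (Primrec.snd.comp Primrec.fst)).to_comp)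
      exact (md_primrec_testBit.comp ((Primrec.fst.comp Primrec.fst).pair Primrec.snd)).to_comp
    obtain ⟨y, hy, hy'⟩ := MsT.wit hG hprod hre (by
      filter_upwards [hcon] with k h1
      push Not at h1
      exact h1)
    have hy1 := msT_nat.1 hy
    have hmem : Mem (mkD G y) a := by
      rw [mem_iff hG]
      filter_upwards [rep_mkD hy1, hy'] with k h1 h2
      rw [h1]
      exact h2.1
    refine h _ hmem ?_
    show ∀ᶠ k in UU, R (rep (mkD G y) k, q k)
    filter_upwards [rep_mkD hy1, hy'] with k h1 h2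
    rw [h1]
    exact h2.2
  · intro h x hx hxR
    rw [mem_iff hG] at hx
    have h1 : ∀ᶠ k in UU, R (rep x k, q k) := hxR
    refine uu_false ?_
    filter_upwards [h, hx, h1] with k h1 h2 h3
    exact h1 _ h2 h3

theorem md_acons {n : ℕ} (x : MM G) (v : Fin n → MM G) (k : ℕ) :
    (fun i => rep ((acons x v : Fin (n + 1) → MM G) i) k) =
      (acons (rep x k) (fun i => rep (v i) k) : Fin (n + 1) → ℕ) := by
  funext i
  refine Fin.cases rfl (fun j => rfl) i

theorem ce_RS (hG : Gen G) {R : ℕ × ℕ → Prop} (hR : REPred R) {q : ℕ → ℕ} (hq : Ms G q) :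
    CE (RS G R q) := by
  have h1 : REPred (fun v : Fin 2 → ℕ => R (v 0, v 1)) := by
    refine re_comp hR (f := fun v : Fin 2 → ℕ => (v 0, v 1)) ?_
    exact ((Primrec.fin_app.comp Primrec.id (Primrec.const 0)).pair
      (Primrec.fin_app.comp Primrec.id (Primrec.const 1))).to_comp
  obtain ⟨φ, hφ⟩ := re_def hG h1
  refine ⟨1, φ, fun _ => mkD G q, fun x => ?_⟩
  rw [hφ]
  show (∀ᶠ k in UU, R (rep x k, q k)) ↔ ∀ᶠ k in UU, R (rep x k, rep (mkD G q) k)
  constructor
  · intro h
    filter_upwards [h, rep_mkD hq] with k h1 h2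
    rw [h2]
    exact h1
  · intro h
    filter_upwards [h, rep_mkD hq] with k h1 h2
    rw [h2] at h1
    exact h1

theorem ce_iff (hG : Gen G) {C : Set (MM G)} (hC : CE C) :
    ∃ (R : ℕ × ℕ → Prop) (q : ℕ → ℕ), REPred R ∧ Ms G q ∧ C = RS G R q := by
  obtain ⟨n, φ, v, h⟩ := hC
  have hq : MsT G (fun k => fun i => rep (v i) k) := MsT.pi hG fun i => rep_ms (v i)
  refine ⟨fun p => S1 φ (acons p.1 ((@Encodable.decode (Fin n → ℕ) Primcodable.finArrow.toEncodable p.2).getD
    fun _ => 0)), fun k => @Encodable.encode (Fin n → ℕ) Primcodable.finArrow.toEncodable (fun i => rep (v i) k), ?_, hq, ?_⟩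
  · refine re_comp (s1_re φ) (f := fun p : ℕ × ℕ => (acons p.1
      ((@Encodable.decode (Fin n → ℕ) Primcodable.finArrow.toEncodable p.2).getD fun _ => 0) : Fin (n + 1) → ℕ)) ?_
    have h1 : Primrec (fun p : ℕ × ℕ => (@Encodable.decode (Fin n → ℕ) Primcodable.finArrow.toEncodable p.2).getD
        fun _ => 0) :=
      Primrec.option_getD.comp (Primrec.decode.comp Primrec.snd) (Primrec.const _)
    exact (primrec_acons.comp (Primrec.fst.pair h1)).to_comp
  · ext x
    rw [h x, losS1 hG]
    show _ ↔ ∀ᶠ k in UU, S1 φ (acons (rep x k) ((@Encodable.decode (Fin n → ℕ)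
      Primcodable.finArrow.toEncodable (@Encodable.encode (Fin n → ℕ)
      Primcodable.finArrow.toEncodable (fun i => rep (v i) k))).getD fun _ => 0))
    simp only [Encodable.encodek, Option.getD_some, md_acons]

/-- reductions, fibrewise -/
theorem red_iff (hG : Gen G) (A B : Set (MM G)) :
    Red A B ↔ ∃ (W : ℕ × ℕ × ℕ × ℕ × ℕ → Prop) (q : ℕ → ℕ), REPred W ∧ Ms G q ∧
      (∀ K : MM G, Sub K A ↔ ∃ P N : MM G, Sub P B ∧ Disj N B ∧
        ∀ᶠ k in UU, W (rep K k, 1, rep P k, rep N k, q k)) ∧
      (∀ K : MM G, Disj K A ↔ ∃ P N : MM G, Sub P B ∧ Disj N B ∧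
        ∀ᶠ k in UU, W (rep K k, 0, rep P k, rep N k, q k)) := by
  have hone : ∀ᶠ k in UU, rep (1 : MM G) k = 1 := rep_tm hG (n := 0) .one ![]
  have hzero : ∀ᶠ k in UU, rep (0 : MM G) k = 0 := rep_tm hG (n := 0) .zero ![]
  constructor
  · rintro ⟨n, φ, v, h1, h2⟩
    have hq : MsT G (fun k => fun i => rep (v i) k) := MsT.pi hG fun i => rep_ms (v i)
    obtain ⟨W, hW⟩ : ∃ W : ℕ × ℕ × ℕ × ℕ × ℕ → Prop, W = fun p =>
        S1 φ (acons p.1 (acons p.2.1 (acons p.2.2.1 (acons p.2.2.2.1
          ((@Encodable.decode (Fin n → ℕ) Primcodable.finArrow.toEncodable p.2.2.2.2).getD fun _ => 0))))) := ⟨_, rfl⟩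
    have hWre : REPred W := by
      rw [hW]
      refine re_comp (s1_re φ) (f := fun p : ℕ × ℕ × ℕ × ℕ × ℕ =>
        (acons p.1 (acons p.2.1 (acons p.2.2.1 (acons p.2.2.2.1
          ((@Encodable.decode (Fin n → ℕ) Primcodable.finArrow.toEncodable p.2.2.2.2).getD fun _ => 0)))) :
            Fin (n + 4) → ℕ)) ?_
      have h3 : Primrec (fun p : ℕ × ℕ × ℕ × ℕ × ℕ =>
          (@Encodable.decode (Fin n → ℕ) Primcodable.finArrow.toEncodable p.2.2.2.2).getD fun _ => 0) :=
        Primrec.option_getD.comp (Primrec.decode.comp (Primrec.snd.comp (Primrec.snd.comp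
          (Primrec.snd.comp Primrec.snd)))) (Primrec.const _)
      have h4 := primrec_acons.comp ((Primrec.fst.comp (Primrec.snd.comp
          (Primrec.snd.comp Primrec.snd))).pair h3)
      have h5 := primrec_acons.comp ((Primrec.fst.comp (Primrec.snd.comp Primrec.snd)).pair h4)
      have h6 := primrec_acons.comp ((Primrec.fst.comp Primrec.snd).pair h5)
      exact (primrec_acons.comp (Primrec.fst.pair h6)).to_comp
    refine ⟨W, fun k => @Encodable.encode (Fin n → ℕ) Primcodable.finArrow.toEncodable (fun i => rep (v i) k), hWre, hq, fun K => ?_,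
      fun K => ?_⟩
    · rw [h1 K]
      refine exists_congr fun P => exists_congr fun N => and_congr_right fun _ =>
        and_congr_right fun _ => ?_
      rw [losS1 hG, hW]
      simp only [md_acons, Encodable.encodek, Option.getD_some]
      constructor
      · intro h
        filter_upwards [h, hone] with k h3 h4
        rw [h4] at h3
        exact h3
      · intro h
        filter_upwards [h, hone] with k h3 h4
        rw [h4]
        exact h3
    · rw [h2 K]
      refine exists_congr fun P => exists_congr fun N => and_congr_right fun _ =>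
        and_congr_right fun _ => ?_
      rw [losS1 hG, hW]
      simp only [md_acons, Encodable.encodek, Option.getD_some]
      constructor
      · intro h
        filter_upwards [h, hzero] with k h3 h4
        rw [h4] at h3
        exact h3
      · intro h
        filter_upwards [h, hzero] with k h3 h4
        rw [h4]
        exact h3
  · rintro ⟨W, q, hW, hq, h1, h2⟩
    have h3 : REPred (fun v : Fin 5 → ℕ => W (v 0, v 1, v 2, v 3, v 4)) := by
      refine re_comp hW (f := fun v : Fin 5 → ℕ => (v 0, v 1, v 2, v 3, v 4)) ?_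
      have h4 : ∀ i : Fin 5, Primrec (fun v : Fin 5 → ℕ => v i) := fun i =>
        Primrec.fin_app.comp Primrec.id (Primrec.const i)
      exact ((h4 0).pair ((h4 1).pair ((h4 2).pair ((h4 3).pair (h4 4))))).to_comp
    obtain ⟨φ, hφ⟩ := re_def hG h3
    refine ⟨1, φ, fun _ => mkD G q, fun K => ?_, fun K => ?_⟩
    · rw [h1 K]
      refine exists_congr fun P => exists_congr fun N => and_congr_right fun _ =>
        and_congr_right fun _ => ?_
      rw [hφ]
      show _ ↔ ∀ᶠ k in UU, W (rep K k, rep (1 : MM G) k, rep P k, rep N k, rep (mkD G q) k)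
      constructor
      · intro h
        filter_upwards [h, hone, rep_mkD hq] with k h4 h5 h6
        rw [h5, h6]
        exact h4
      · intro h
        filter_upwards [h, hone, rep_mkD hq] with k h4 h5 h6
        rw [h5, h6] at h4
        exact h4
    · rw [h2 K]
      refine exists_congr fun P => exists_congr fun N => and_congr_right fun _ =>
        and_congr_right fun _ => ?_
      rw [hφ]
      show _ ↔ ∀ᶠ k in UU, W (rep K k, rep (0 : MM G) k, rep P k, rep N k, rep (mkD G q) k)
      constructor
      · intro h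
        filter_upwards [h, hzero, rep_mkD hq] with k h4 h5 h6
        rw [h5, h6]
        exact h4
      · intro h
        filter_upwards [h, hzero, rep_mkD hq] with k h4 h5 h6
        rw [h5, h6] at h4
        exact h4

end Pool.Agent.Lib.MP_53c40f_lc
end

section

/-!
# Unions of coded sets
-/

set_option autoImplicit false

namespace Pool.Agent.Lib.MP_53c40f_lc

open Filter

/-- the finite set coded by `P'` is contained in the one coded by `P` -/
def BitSub (P' P : ℕ) : Prop := ∀ x, P'.testBit x = true → P.testBit x = true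

theorem sg32_pow : Primrec (fun n : ℕ => 2 ^ n) := by
  refine (Primrec.nat_rec₁ 1 (f := fun _ y => y + y)
    (Primrec.nat_add.comp Primrec.snd Primrec.snd)).of_eq ?_
  intro n
  induction n with
  | zero => rfl
  | succ n ih =>
    show _ + _ = _
    rw [ih, pow_succ]
    ring

theorem sg32_testBit : Primrec (fun a : ℕ × ℕ => a.1.testBit a.2) := by
  have h : PrimrecPred (fun a : ℕ × ℕ => a.1 / 2 ^ a.2 % 2 = 1) :=
    Primrec.eq.comp (Primrec.nat_mod.comp (Primrec.nat_div.comp Primrec.fst
      (sg32_pow.comp Primrec.snd)) (Primrec.const 2)) (Primrec.const 1)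
  obtain ⟨hd, h'⟩ := h
  refine h'.of_eq fun a => ?_
  rw [Nat.testBit_eq_decide_div_mod_eq]
  congr

theorem re_BitSub : REPred (fun a : ℕ × ℕ => BitSub a.1 a.2) := by
  have h1 : Computable (fun a : (ℕ × ℕ) × ℕ => !(a.1.1.testBit a.2) || a.1.2.testBit a.2) :=
    (Primrec.or.comp (Primrec.not.comp (sg32_testBit.comp ((Primrec.fst.comp Primrec.fst).pair
      Primrec.snd))) (sg32_testBit.comp ((Primrec.snd.comp Primrec.fst).pair
      Primrec.snd))).to_comp
  have h2 : REPred (fun a : (ℕ × ℕ) × ℕ => (!(a.1.1.testBit a.2) || a.1.2.testBit a.2) = true) :=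
    re_of_dec _ h1 fun a => Iff.rfl
  have h3 := re_ball h2 (f := fun a : ℕ × ℕ => a.1) Computable.fst
  refine h3.of_eq fun a => ?_
  constructor
  · intro h x hx
    have hlt : x < a.1 := by
      have h4 := Nat.ge_two_pow_of_testBit hx
      exact lt_of_lt_of_le Nat.lt_two_pow_self h4
    have h5 := h x hlt
    simp only [hx, Bool.not_true, Bool.false_or] at h5
    exact h5
  · intro h x _
    have h5 := h x
    cases h6 : a.1.testBit x with
    | false => simp
    | true => simp [h5 h6]

theorem BitSub.refl (P : ℕ) : BitSub P P := fun _ h => h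

theorem BitSub.trans {P Q R : ℕ} (h : BitSub P Q) (h' : BitSub Q R) : BitSub P R :=
  fun x hx => h' x (h x hx)

theorem sg32_add_pow {r n : ℕ} (h : r.testBit n = false) (x : ℕ) :
    (r + 2 ^ n).testBit x = (r.testBit x || decide (x = n)) := by
  have h1 : r / 2 ^ n % 2 = 0 := by
    rw [Nat.testBit_eq_decide_div_mod_eq, decide_eq_false_iff_not] at h
    omega
  rcases lt_trichotomy x n with hi | hi | hi
  · rw [add_comm, Nat.testBit_two_pow_add_gt hi]
    simp [hi.ne]
  · subst hi
    rw [add_comm, Nat.testBit_two_pow_add_eq, h]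
    simp
  · obtain ⟨j, rfl⟩ := Nat.exists_eq_add_of_lt hi
    have h2 : n + j + 1 = j + (n + 1) := by ring
    rw [h2, Nat.testBit_add, Nat.testBit_add]
    have h3 : (r + 2 ^ n) / 2 ^ (n + 1) = r / 2 ^ (n + 1) := by
      rw [pow_succ, ← Nat.div_div_eq_div_mul, ← Nat.div_div_eq_div_mul,
        Nat.add_div_right _ (by positivity)]
      omega
    rw [h3]
    have h4 : ¬ (j + (n + 1) = n) := by omega
    simp [h4]

theorem sg32_union : ∃ f : ℕ × ℕ → ℕ, Computable f ∧ ∀ a x,
    (f a).testBit x = (a.1.testBit x || a.2.testBit x) := by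
  -- add the bits of `a.1` one after the other
  have hstep : Primrec₂ (fun (a : ℕ × ℕ) (r : ℕ × ℕ) =>
      bif (a.1.testBit r.1 && !(a.2.testBit r.1)) then r.2 + 2 ^ r.1 else r.2) := by
    refine Primrec.cond ?_ ?_ ?_
    · exact Primrec.and.comp
        (sg32_testBit.comp ((Primrec.fst.comp Primrec.fst).pair (Primrec.fst.comp Primrec.snd)))
        (Primrec.not.comp (sg32_testBit.comp ((Primrec.snd.comp Primrec.fst).pair
          (Primrec.fst.comp Primrec.snd))))
    · exact Primrec.nat_add.comp (Primrec.snd.comp Primrec.snd)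
        (sg32_pow.comp (Primrec.fst.comp Primrec.snd))
    · exact Primrec.snd.comp Primrec.snd
  refine ⟨fun a => Nat.rec (motive := fun _ => ℕ) a.2 (fun n r =>
    bif (a.1.testBit n && !(a.2.testBit n)) then r + 2 ^ n else r) a.1, ?_, ?_⟩
  · exact (Primrec.nat_rec' Primrec.fst Primrec.snd hstep).to_comp
  · intro a
    have key : ∀ N : ℕ, ∀ x, (Nat.rec (motive := fun _ => ℕ) a.2 (fun n r =>
        bif (a.1.testBit n && !(a.2.testBit n)) then r + 2 ^ n else r) N : ℕ).testBit x =
        ((decide (x < N) && a.1.testBit x) || a.2.testBit x) := by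
      intro N
      induction N with
      | zero => intro x; simp
      | succ n ih =>
        intro x
        set r : ℕ := (Nat.rec (motive := fun _ => ℕ) a.2 (fun n r =>
          bif (a.1.testBit n && !(a.2.testBit n)) then r + 2 ^ n else r) n : ℕ) with hr
        show (bif (a.1.testBit n && !(a.2.testBit n)) then r + 2 ^ n else r : ℕ).testBit x = _
        have ihn := ih n
        simp only [lt_irrefl, decide_false, Bool.false_and, Bool.false_or] at ihn
        cases h1 : a.1.testBit n with
        | false =>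
          simp only [Bool.false_and, cond_false]
          rw [ih x]
          by_cases hx : x = n
          · subst hx; simp [h1]
          · have : (x < n + 1) ↔ x < n := by omega
            simp [this]
        | true =>
          cases h2 : a.2.testBit n with
          | true =>
            simp only [Bool.not_true, Bool.and_false, cond_false]
            rw [ih x]
            by_cases hx : x = n
            · subst hx; simp [h2]
            · have : (x < n + 1) ↔ x < n := by omega
              simp [this]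
          | false =>
            simp only [Bool.not_false, Bool.and_true, cond_true]
            rw [h2] at ihn
            have ihn' : r.testBit n = false := ihn
            rw [sg32_add_pow ihn', ih x]
            by_cases hx : x = n
            · subst hx
              simp [h1]
            · have h3 : (x < n + 1) ↔ x < n := by omega
              simp [h3, hx]
    intro x
    rw [key a.1 x]
    cases h6 : a.1.testBit x with
    | false => simp
    | true =>
      have h4 := Nat.ge_two_pow_of_testBit h6
      have hlt : x < a.1 := lt_of_lt_of_le Nat.lt_two_pow_self h4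
      simp [hlt]

section

variable {G : ℕ → ℕ → ℕ} (hG : Gen G)

include hG

theorem sub_of_bitSub {P' P : MM G} (h : ∀ᶠ k in UU, BitSub (rep P' k) (rep P k)) {B : Set (MM G)}
    (hP : Sub P B) : Sub P' B := by
  intro x hx
  apply hP
  rw [mem_iff hG] at hx ⊢
  filter_upwards [h, hx] with k h1 h2 using h1 _ h2

theorem disj_of_bitSub {P' P : MM G} (h : ∀ᶠ k in UU, BitSub (rep P' k) (rep P k))
    {B : Set (MM G)} (hP : Disj P B) : Disj P' B := by
  intro x hx
  apply hP
  rw [mem_iff hG] at hx ⊢
  filter_upwards [h, hx] with k h1 h2 using h1 _ h2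

theorem exists_union (P P' : MM G) :
    ∃ U : MM G, (∀ B : Set (MM G), Sub P B → Sub P' B → Sub U B) ∧
      (∀ B : Set (MM G), Disj P B → Disj P' B → Disj U B) ∧
      ∀ᶠ k in UU, BitSub (rep P k) (rep U k) ∧ BitSub (rep P' k) (rep U k) := by
  obtain ⟨f, hf, hbit⟩ := sg32_union
  have hms : Ms G (fun k => f (rep P k, rep P' k)) := by
    rw [← msT_nat]
    exact (MsT.prod hG (msT_nat.2 (rep_ms P)) (msT_nat.2 (rep_ms P'))).comp hf
  have hU := rep_mkD hms
  have key : ∀ x : MM G, Mem x (mkD G (fun k => f (rep P k, rep P' k))) → Mem x P ∨ Mem x P' := by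
    intro x hx
    rw [mem_iff hG] at hx ⊢
    rw [mem_iff hG, ← uu_or]
    filter_upwards [hx, hU] with k h1 h2
    rw [h2, hbit] at h1
    simpa using h1
  refine ⟨mkD G (fun k => f (rep P k, rep P' k)), ?_, ?_, ?_⟩
  · intro B h1 h2 x hx
    rcases key x hx with h | h
    · exact h1 x h
    · exact h2 x h
  · intro B h1 h2 x hx
    rcases key x hx with h | h
    · exact h1 x h
    · exact h2 x h
  · filter_upwards [hU] with k h2
    rw [h2]
    constructor
    · intro x hx
      rw [hbit, hx]
      rfl
    · intro x hx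
      rw [hbit, hx]
      simp

end

/-- `W` with parameter `q` reduces `A` to `B` -/
def RedBy {G : ℕ → ℕ → ℕ} (W : ℕ × ℕ × ℕ × ℕ × ℕ → Prop) (q : ℕ → ℕ) (A B : Set (MM G)) : Prop :=
  (∀ K : MM G, Sub K A ↔ ∃ P N : MM G, Sub P B ∧ Disj N B ∧
    ∀ᶠ k in UU, W (rep K k, 1, rep P k, rep N k, q k)) ∧
  (∀ K : MM G, Disj K A ↔ ∃ P N : MM G, Sub P B ∧ Disj N B ∧
    ∀ᶠ k in UU, W (rep K k, 0, rep P k, rep N k, q k))

end Pool.Agent.Lib.MP_53c40f_lc
end

section

/-!
# Initial system and saturation
-/

set_option autoImplicit false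

namespace Pool.Agent.Lib.MP_53c40f_lc

open Filter

/-- the initial system: candidates that code `x` -/
theorem sys_zero (Γ : Ctx) (x q : ℕ → ℕ) :
    ∃ Y₀ : Sys Γ x q, ∀ m k p', Y₀.P m k p' → ∀ i < m, dec p' i = x i := by
  refine ⟨{
    P := fun m _ p' => ∀ i < m, dec p' i = x i
    S := fun s => ∃ i, i < s.2.2.2.2 ∧ dec s.2.1 i ≠ s.2.2.2.1.getD i 0
    reS := ?_
    hS := ?_
    anti := ?_
    ne := ?_ }, fun _ _ _ h => h⟩
  · refine re_ex (p := fun a : (ℕ × ℕ × List ℕ × List ℕ × ℕ) × ℕ =>
      a.2 < a.1.2.2.2.2 ∧ dec a.1.2.1 a.2 ≠ a.1.2.2.2.1.getD a.2 0) ?_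
    have h1 : Primrec (fun a : (ℕ × ℕ × List ℕ × List ℕ × ℕ) × ℕ => a.1.2.2.2.2) :=
      Primrec.snd.comp (Primrec.snd.comp (Primrec.snd.comp (Primrec.snd.comp Primrec.fst)))
    have h2 : Primrec (fun a : (ℕ × ℕ × List ℕ × List ℕ × ℕ) × ℕ => dec a.1.2.1 a.2) :=
      (Primrec.list_getD 0).comp ((Primrec.ofNat (List ℕ)).comp
        (Primrec.fst.comp (Primrec.snd.comp Primrec.fst))) Primrec.snd
    have h3 : Primrec (fun a : (ℕ × ℕ × List ℕ × List ℕ × ℕ) × ℕ => a.1.2.2.2.1.getD a.2 0) :=
      (Primrec.list_getD 0).comp (Primrec.fst.comp (Primrec.snd.comp (Primrec.snd.comp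
        (Primrec.snd.comp Primrec.fst)))) Primrec.snd
    have h4 : PrimrecPred (fun a : (ℕ × ℕ × List ℕ × List ℕ × ℕ) × ℕ => a.2 < a.1.2.2.2.2) :=
      Primrec.nat_lt.comp Primrec.snd h1
    have h5 : PrimrecPred (fun a : (ℕ × ℕ × List ℕ × List ℕ × ℕ) × ℕ =>
        dec a.1.2.1 a.2 = a.1.2.2.2.1.getD a.2 0) := Primrec.eq.comp h2 h3
    obtain ⟨inst, h6⟩ := h4.and h5.not
    exact re_of_dec _ h6.to_comp fun a => by simp
  · intro m
    filter_upwards with k p' _
    constructor
    · rintro h ⟨i, hi, h1⟩
      refine h1 ?_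
      show dec p' i = ((List.range m).map x).getD i 0
      rw [range_map_getD hi, h i hi]
    · intro h i hi
      by_contra hne
      refine h ⟨i, hi, ?_⟩
      show dec p' i ≠ ((List.range m).map x).getD i 0
      rw [range_map_getD hi]
      exact hne
  · intro m
    filter_upwards with k p' _ h i hi
    exact h i (by omega)
  · intro m
    filter_upwards [Γ.c_inf (Encodable.encode ((List.range m).map x))] with k hk
    refine ⟨_, hk, fun i hi => ?_⟩
    unfold dec
    have h1 : Denumerable.ofNat (List ℕ) (Encodable.encode ((List.range m).map x)) =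
        (List.range m).map x := Denumerable.ofNat_encode _
    rw [h1, range_map_getD hi]

/-- saturation -/
theorem sys_limit (Γ : Ctx) (x q : ℕ → ℕ) (Y : ℕ → Sys Γ x q)
    (h : ∀ e m k p', (Y (e + 1)).P m k p' → (Y e).P m k p') :
    ∃ p : ℕ → ℕ, (∀ k, p k ≤ Γ.c k) ∧ ∀ e m, ∀ᶠ k in UU, (Y e).P m k (p k) := by
  classical
  have hgood : ∀ N, ∀ᶠ k in UU, ∃ p' ≤ Γ.c k, ∀ e ≤ N, ∀ m ≤ N, (Y e).P m k p' := by
    intro N
    have h1 : ∀ᶠ k in UU, ∀ m ∈ {m | m < N}, ∀ p' ≤ Γ.c k,
        (Y N).P (m + 1) k p' → (Y N).P m k p' :=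
      (Filter.eventually_all_finite (Set.finite_lt_nat N)).2 fun m _ => (Y N).anti m
    filter_upwards [h1, (Y N).ne N] with k h1 h2
    obtain ⟨p', hp', h2⟩ := h2
    refine ⟨p', hp', fun e he m hm => ?_⟩
    have h3 : ∀ d, d ≤ N → (Y N).P (N - d) k p' := by
      intro d
      induction d with
      | zero => exact fun _ => h2
      | succ d ih =>
        intro hd
        have h4 := ih (by omega)
        have h5 : N - d = N - (d + 1) + 1 := by omega
        rw [h5] at h4
        exact h1 _ (by show N - (d + 1) < N; omega) p' hp' h4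
    have h4 : ∀ d, d ≤ N → (Y (N - d)).P m k p' := by
      intro d
      induction d with
      | zero =>
        intro _
        have h5 := h3 (N - m) (by omega)
        rwa [Nat.sub_sub_self hm] at h5
      | succ d ih =>
        intro hd
        have h4 := ih (by omega)
        have h5 : N - d = N - (d + 1) + 1 := by omega
        rw [h5] at h4
        exact h _ _ _ _ h4
    have h5 := h4 (N - e) (by omega)
    rwa [Nat.sub_sub_self he] at h5
  obtain ⟨good, hgd⟩ : ∃ good : ℕ → ℕ → Prop, good = fun k N =>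
    ∃ p' ≤ Γ.c k, ∀ e ≤ N, ∀ m ≤ N, (Y e).P m k p' := ⟨_, rfl⟩
  have hex : ∀ k, ∃ p' ≤ Γ.c k, good k (Nat.findGreatest (good k) k) →
      ∀ e ≤ Nat.findGreatest (good k) k, ∀ m ≤ Nat.findGreatest (good k) k, (Y e).P m k p' := by
    intro k
    by_cases hk : good k (Nat.findGreatest (good k) k)
    · have hk' := hk
      rw [hgd] at hk'
      obtain ⟨p', hp', h1⟩ := hk'
      refine ⟨p', hp', fun _ => ?_⟩
      rw [hgd]
      exact h1
    · exact ⟨0, Nat.zero_le _, fun h => absurd h hk⟩
  choose p hp hp' using hex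
  refine ⟨p, hp, fun e m => ?_⟩
  filter_upwards [hgood (max e m), uu_ge (max e m)] with k h1 h2
  have h3 : good k (max e m) := by
    rw [hgd]
    exact h1
  have h4 := Nat.findGreatest_spec h2 h3
  have h5 := Nat.le_findGreatest h2 h3
  exact hp' k h4 e ((le_max_left _ _).trans h5) m ((le_max_right _ _).trans h5)

end Pool.Agent.Lib.MP_53c40f_lc
end
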