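import Pool.Agent.Lib.MP_53c40f_lc.Mg.G002

section

/-!
# One step of the cone avoidance
-/

set_option autoImplicit false

namespace Pool.Agent.Lib.MP_53c40f_lc

open Filter

/-- the codes of the arguments are bounded by the value of some level -/
theorem coneb_code (Γ : Ctx) (q : ℕ → ℕ) (hqb : ∃ i, ∀ᶠ k in UU, q k ≤ H (Γ.c k) i) (j n v : ℕ) :
    ∃ i1, ∀ i, i1 ≤ i → ∀ᶠ k in UU, ∀ p' ≤ Γ.c k,
      Encodable.encode ((Nat.pair (q k) p', hist (Γ.c k) j, n, v) : ℕ × List ℕ × ℕ × ℕ) ≤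
        H (Γ.c k) i := by
  obtain ⟨iq, hiq⟩ := hqb
  obtain ⟨ih, hih⟩ := hist_bound Γ j
  obtain ⟨e0, he0⟩ := growth₂ (f := Nat.pair) Primrec₂.natPair.to_comp
  refine ⟨max e0 (max iq ih) + 2, fun i hi => ?_⟩
  filter_upwards [hiq, hih, Γ.c_inf (Nat.pair n v)] with k h1 h2 h3 p' hp'
  set i0 := max e0 (max iq ih) with hi0
  have hi1 : e0 ≤ i0 := le_max_left _ _
  have hi2 : iq ≤ i0 := le_trans (le_max_left _ _) (le_max_right _ _)
  have hi3 : ih ≤ i0 := le_trans (le_max_right _ _) (le_max_right _ _)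
  have h4 : Nat.pair (Encodable.encode (hist (Γ.c k) j)) (Nat.pair n v) < H (Γ.c k) (i0 + 1) :=
    he0 i0 hi1 _ _ _ (h2.trans (H_mono _ hi3)) (h3.trans (c_le_H _ _))
  have h5 : Nat.pair (q k) p' < H (Γ.c k) (i0 + 1) :=
    he0 i0 hi1 _ _ _ (h1.trans (H_mono _ hi2)) (hp'.trans (c_le_H _ _))
  have h6 := he0 (i0 + 1) (hi1.trans (Nat.le_succ _)) (Γ.c k) _ _ h5.le h4.le
  have h7 : Encodable.encode ((Nat.pair (q k) p', hist (Γ.c k) j, n, v) : ℕ × List ℕ × ℕ × ℕ) =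
      Nat.pair (Nat.pair (q k) p')
        (Nat.pair (Encodable.encode (hist (Γ.c k) j)) (Nat.pair n v)) := by
    simp [Encodable.encode_prod_val]
  rw [h7]
  exact h6.le.trans (H_mono _ hi)

/-- membership in `R` is decided by a final value -/
theorem coneb_dec (Γ : Ctx) (q : ℕ → ℕ) (hqb : ∃ i, ∀ᶠ k in UU, q k ≤ H (Γ.c k) i)
    (R : ℕ × List ℕ × ℕ × ℕ → Prop) (e : ℕ) (he : ∀ a, R a ↔ halt e (Encodable.encode a))
    (j n v : ℕ) :
    ∃ a, ∀ᶠ k in UU, ∀ p' ≤ Γ.c k, (R (Nat.pair (q k) p', hist (Γ.c k) j, n, v) ↔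
      haltN (hf (Γ.c k) a) e
        (Encodable.encode ((Nat.pair (q k) p', hist (Γ.c k) j, n, v) : ℕ × List ℕ × ℕ × ℕ)) =
          true) := by
  obtain ⟨i1, hi1⟩ := coneb_code Γ q hqb j n v
  refine ⟨Γ.bt (max i1 e + 1), ?_⟩
  filter_upwards [hi1 (max i1 e) (le_max_left _ _), H_eq_hf Γ (max i1 e + 1)] with k h1 h2 p' hp'
  rw [he, ← h2]
  exact ⟨fun h => H_close _ _ _ _ (le_max_right _ _) (h1 p' hp') h, fun h => ⟨_, h⟩⟩

/-- the first kind of a smaller system -/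
theorem coneb_one (Γ : Ctx) (x q : ℕ → ℕ) (hqb : ∃ i, ∀ᶠ k in UU, q k ≤ H (Γ.c k) i)
    (Y₀ : Sys Γ x q) (R : ℕ × List ℕ × ℕ × ℕ → Prop) (hR : REPred R) (n v j : ℕ)
    (hv : v ≠ Γ.bt (n + 1))
    (h : ∀ m, ∀ᶠ k in UU, ∃ p' ≤ Γ.c k, Y₀.P m k p' ∧
      R (Nat.pair (q k) p', hist (Γ.c k) j, n, v)) :
    ∃ Y₁ : Sys Γ x q, (∀ m k p', Y₁.P m k p' → Y₀.P m k p') ∧
      ∀ p : ℕ → ℕ, (∀ k, p k ≤ Γ.c k) → (∀ m, ∀ᶠ k in UU, Y₁.P m k (p k)) →
        ¬ ∀ n v, v = Γ.bt (n + 1) ↔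
          ∃ j, ∀ᶠ k in UU, R (Nat.pair (q k) (p k), hist (Γ.c k) j, n, v) := by
  obtain ⟨e, he⟩ := re_index hR
  obtain ⟨a, ha⟩ := coneb_dec Γ q hqb R e he j n v
  set m0 := max j (a + 1) with hm0
  have hj0 : j ≤ m0 := le_max_left _ _
  have ha0 : a < m0 := lt_of_lt_of_le (Nat.lt_succ_self a) (le_max_right _ _)
  refine ⟨{ P := fun m k p' => Y₀.P m k p' ∧ (m0 ≤ m →
              haltN ((hist (Γ.c k) m).getD a 0) e (Encodable.encode
                ((Nat.pair (q k) p', (hist (Γ.c k) m).take j, n, v) : ℕ × List ℕ × ℕ × ℕ)) = true)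
            S := fun t => Y₀.S t ∨ (decide (m0 ≤ t.2.2.2.2) && !haltN (t.2.2.1.getD a 0) e
              (Encodable.encode
                ((Nat.pair t.1 t.2.1, t.2.2.1.take j, n, v) : ℕ × List ℕ × ℕ × ℕ))) = true
            reS := ?_, hS := ?_, anti := ?_, ne := ?_ }, ?_, ?_⟩
  · refine re_or Y₀.reS (re_of_dec _ ?_ fun _ => Iff.rfl)
    have ho : Primrec fun t : ℕ × ℕ × List ℕ × List ℕ × ℕ => t.2.2.1 :=
      Primrec.fst.comp (Primrec.snd.comp Primrec.snd)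
    have hm : Primrec fun t : ℕ × ℕ × List ℕ × List ℕ × ℕ => t.2.2.2.2 :=
      Primrec.snd.comp (Primrec.snd.comp (Primrec.snd.comp Primrec.snd))
    have h1 : Primrec fun t : ℕ × ℕ × List ℕ × List ℕ × ℕ => decide (m0 ≤ t.2.2.2.2) :=
      (Primrec.nat_le.comp (Primrec.const m0) hm).decide
    have h2 : Primrec fun t : ℕ × ℕ × List ℕ × List ℕ × ℕ => t.2.2.1.getD a 0 :=
      (Primrec.list_getD 0).comp ho (Primrec.const a)
    have h3 : Primrec fun t : ℕ × ℕ × List ℕ × List ℕ × ℕ => Encodable.encode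
        ((Nat.pair t.1 t.2.1, t.2.2.1.take j, n, v) : ℕ × List ℕ × ℕ × ℕ) :=
      Primrec.encode.comp ((Primrec₂.natPair.comp Primrec.fst
        (Primrec.fst.comp Primrec.snd)).pair
          ((Primrec.list_take.comp (Primrec.const j) ho).pair (Primrec.const (n, v))))
    have h4 : Primrec fun t : ℕ × ℕ × List ℕ × List ℕ × ℕ => haltN (t.2.2.1.getD a 0) e
        (Encodable.encode ((Nat.pair t.1 t.2.1, t.2.2.1.take j, n, v) : ℕ × List ℕ × ℕ × ℕ)) :=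
      primrec_haltN.comp (h2.pair ((Primrec.const e).pair h3))
    exact (Primrec.and.comp h1 (Primrec.not.comp h4)).to_comp
  · intro m
    filter_upwards [Y₀.hS m] with k hk p' hp'
    rw [hk p' hp']
    simp only [Bool.and_eq_true, decide_eq_true_eq, Bool.not_eq_true', not_or, not_and,
      Bool.not_eq_false]
  · intro m
    filter_upwards [Y₀.anti m] with k hk p' hp' h1
    refine ⟨hk p' hp' h1.1, fun hm => ?_⟩
    have h2 := h1.2 (hm.trans (Nat.le_succ m))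
    rw [hist_getD (by omega), hist_take (by omega)] at h2
    rw [hist_getD (by omega), hist_take (by omega)]
    exact h2
  · intro m
    filter_upwards [h m, ha] with k hk hak
    obtain ⟨p', hp', h1, h2⟩ := hk
    refine ⟨p', hp', h1, fun hm => ?_⟩
    rw [hist_getD (by omega), hist_take (by omega)]
    exact (hak p' hp').1 h2
  · intro m k p' h1
    exact h1.1
  · intro p hp hall hcon
    apply hv
    rw [hcon n v]
    refine ⟨j, ?_⟩
    filter_upwards [hall m0, ha] with k hk hak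
    have h1 := hk.2 le_rfl
    rw [hist_getD (by omega), hist_take (by omega)] at h1
    exact (hak (p k) (hp k)).2 h1

/-- the second kind of a smaller system -/
theorem coneb_two (Γ : Ctx) (x q : ℕ → ℕ)
    (Y₀ : Sys Γ x q) (R : ℕ × List ℕ × ℕ × ℕ → Prop) (hR : REPred R) (n : ℕ)
    (h : ∀ m, ∀ᶠ k in UU, ∃ p' ≤ Γ.c k, Y₀.P m k p' ∧
      ∀ j ≤ m, ¬ R (Nat.pair (q k) p', hist (Γ.c k) j, n, Γ.bt (n + 1))) :
    ∃ Y₁ : Sys Γ x q, (∀ m k p', Y₁.P m k p' → Y₀.P m k p') ∧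
      ∀ p : ℕ → ℕ, (∀ k, p k ≤ Γ.c k) → (∀ m, ∀ᶠ k in UU, Y₁.P m k (p k)) →
        ¬ ∀ n v, v = Γ.bt (n + 1) ↔
          ∃ j, ∀ᶠ k in UU, R (Nat.pair (q k) (p k), hist (Γ.c k) j, n, v) := by
  refine ⟨{ P := fun m k p' => Y₀.P m k p' ∧
              ∀ j ≤ m, ¬ R (Nat.pair (q k) p', hist (Γ.c k) j, n, Γ.bt (n + 1))
            S := fun t => Y₀.S t ∨ ∃ j : ℕ, (decide (j ≤ t.2.2.2.2) = true ∧
              R (Nat.pair t.1 t.2.1, t.2.2.1.take j, n, Γ.bt (n + 1)))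
            reS := ?_, hS := ?_, anti := ?_, ne := h }, ?_, ?_⟩
  · refine re_or Y₀.reS (re_ex (p := fun z : (ℕ × ℕ × List ℕ × List ℕ × ℕ) × ℕ =>
      decide (z.2 ≤ z.1.2.2.2.2) = true ∧
        R (Nat.pair z.1.1 z.1.2.1, z.1.2.2.1.take z.2, n, Γ.bt (n + 1))) ?_)
    refine re_and (re_of_dec _ ?_ fun _ => Iff.rfl) (re_comp hR ?_)
    · exact (Primrec.nat_le.comp Primrec.snd (Primrec.snd.comp (Primrec.snd.comp
        (Primrec.snd.comp (Primrec.snd.comp Primrec.fst))))).decide.to_comp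
    · exact ((Primrec₂.natPair.comp (Primrec.fst.comp Primrec.fst)
        (Primrec.fst.comp (Primrec.snd.comp Primrec.fst))).pair
          ((Primrec.list_take.comp Primrec.snd
            (Primrec.fst.comp (Primrec.snd.comp (Primrec.snd.comp Primrec.fst)))).pair
              (Primrec.const (n, Γ.bt (n + 1))))).to_comp
  · intro m
    filter_upwards [Y₀.hS m] with k hk p' hp'
    rw [hk p' hp']
    simp only [decide_eq_true_eq, not_or, not_exists, not_and]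
    refine and_congr_right fun _ => forall_congr' fun j => ?_
    constructor
    · intro h1 hj
      rw [hist_take hj]
      exact h1 hj
    · intro h1 hj
      have h2 := h1 hj
      rw [hist_take hj] at h2
      exact h2
  · intro m
    filter_upwards [Y₀.anti m] with k hk p' hp' h1
    exact ⟨hk p' hp' h1.1, fun j hj => h1.2 j (hj.trans (Nat.le_succ m))⟩
  · intro m k p' h1
    exact h1.1
  · intro p hp hall hcon
    obtain ⟨j, hj⟩ := (hcon n (Γ.bt (n + 1))).1 rfl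
    have h1 : ∀ᶠ _k : ℕ in UU, False := by
      filter_upwards [hall j, hj] with k hk hjk
      exact hk.2 j le_rfl hjk
    exact uu_false h1

theorem coneb_anti {Γ : Ctx} {x q : ℕ → ℕ} (Y₀ : Sys Γ x q) (m' d : ℕ) :
    ∀ᶠ k in UU, ∀ p' ≤ Γ.c k, Y₀.P (m' + d) k p' → Y₀.P m' k p' := by
  induction d with
  | zero => exact Eventually.of_forall fun _ _ _ h => h
  | succ d ih =>
    filter_upwards [ih, Y₀.anti (m' + d)] with k h1 h2 p' hp' h3
    exact h1 p' hp' (h2 p' hp' h3)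

/-- one requirement: a smaller system such that no candidate that satisfies all its conditions
computes `n ↦ bt (n + 1)` with `R` -/
theorem sys_step (Γ : Ctx) (x q : ℕ → ℕ) (bn : ℕ → ℕ) (hbn : Computable bn)
    (hq : ∀ᶠ k in UU, bn (q k) = Γ.c k) (hqb : ∃ i, ∀ᶠ k in UU, q k ≤ H (Γ.c k) i)
    (hx : ¬ Comp Γ x q) (Y₀ : Sys Γ x q)
    (R : ℕ × List ℕ × ℕ × ℕ → Prop) (hR : REPred R) :
    ∃ Y₁ : Sys Γ x q, (∀ m k p', Y₁.P m k p' → Y₀.P m k p') ∧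
      ∀ p : ℕ → ℕ, (∀ k, p k ≤ Γ.c k) → (∀ m, ∀ᶠ k in UU, Y₁.P m k (p k)) →
        ¬ ∀ n v, v = Γ.bt (n + 1) ↔
          ∃ j, ∀ᶠ k in UU, R (Nat.pair (q k) (p k), hist (Γ.c k) j, n, v) := by
  by_cases H1 : ∃ n v j, v ≠ Γ.bt (n + 1) ∧ ∀ m, ∀ᶠ k in UU, ∃ p' ≤ Γ.c k, Y₀.P m k p' ∧
      R (Nat.pair (q k) p', hist (Γ.c k) j, n, v)
  · obtain ⟨n, v, j, hv, h⟩ := H1
    exact coneb_one Γ x q hqb Y₀ R hR n v j hv h
  by_cases H2 : ∃ n, ∀ m, ∀ᶠ k in UU, ∃ p' ≤ Γ.c k, Y₀.P m k p' ∧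
      ∀ j ≤ m, ¬ R (Nat.pair (q k) p', hist (Γ.c k) j, n, Γ.bt (n + 1))
  · obtain ⟨n, h⟩ := H2
    exact coneb_two Γ x q Y₀ R hR n h
  exfalso
  apply hx
  refine ⟨fun t => ∀ p' < bn t.1 + 1, Y₀.S (t.1, p', t.2.1, t.2.2.1, t.2.1.length) ∨
    ∃ j : ℕ, (decide (j ≤ t.2.1.length) = true ∧
      R (Nat.pair t.1 p', t.2.1.take j, t.2.2.2)), ?_, ?_⟩
  · refine re_ball (p := fun z : (ℕ × List ℕ × List ℕ × ℕ × ℕ) × ℕ =>
      Y₀.S (z.1.1, z.2, z.1.2.1, z.1.2.2.1, z.1.2.1.length) ∨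
        ∃ j : ℕ, (decide (j ≤ z.1.2.1.length) = true ∧
          R (Nat.pair z.1.1 z.2, z.1.2.1.take j, z.1.2.2.2)))
      (f := fun t : ℕ × List ℕ × List ℕ × ℕ × ℕ => bn t.1 + 1) ?_ ?_
    · have hz1 : Primrec fun z : (ℕ × List ℕ × List ℕ × ℕ × ℕ) × ℕ => z.1.1 :=
        Primrec.fst.comp Primrec.fst
      have hz2 : Primrec fun z : (ℕ × List ℕ × List ℕ × ℕ × ℕ) × ℕ => z.1.2.1 :=
        Primrec.fst.comp (Primrec.snd.comp Primrec.fst)
      have hz3 : Primrec fun z : (ℕ × List ℕ × List ℕ × ℕ × ℕ) × ℕ => z.1.2.2.1 :=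
        Primrec.fst.comp (Primrec.snd.comp (Primrec.snd.comp Primrec.fst))
      have hz4 : Primrec fun z : (ℕ × List ℕ × List ℕ × ℕ × ℕ) × ℕ => z.1.2.2.2 :=
        Primrec.snd.comp (Primrec.snd.comp (Primrec.snd.comp Primrec.fst))
      refine re_or (re_comp Y₀.reS (f := fun z : (ℕ × List ℕ × List ℕ × ℕ × ℕ) × ℕ =>
        (z.1.1, z.2, z.1.2.1, z.1.2.2.1, z.1.2.1.length)) ?_)
        (re_ex (p := fun w : ((ℕ × List ℕ × List ℕ × ℕ × ℕ) × ℕ) × ℕ =>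
          decide (w.2 ≤ w.1.1.2.1.length) = true ∧
            R (Nat.pair w.1.1.1 w.1.2, w.1.1.2.1.take w.2, w.1.1.2.2.2)) ?_)
      · exact (hz1.pair (Primrec.snd.pair (hz2.pair (hz3.pair
          (Primrec.list_length.comp hz2))))).to_comp
      · refine re_and (re_of_dec _ ?_ fun _ => Iff.rfl) (re_comp hR ?_)
        · exact (Primrec.nat_le.comp Primrec.snd
            (Primrec.list_length.comp (hz2.comp Primrec.fst))).decide.to_comp
        · exact ((Primrec₂.natPair.comp (hz1.comp Primrec.fst)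
            (Primrec.snd.comp Primrec.fst)).pair
              ((Primrec.list_take.comp Primrec.snd (hz2.comp Primrec.fst)).pair
                (hz4.comp Primrec.fst))).to_comp
    · exact (Computable.succ.comp (hbn.comp Computable.fst))
  · intro n v
    push Not at H1 H2
    constructor
    · rintro rfl
      obtain ⟨m, hm⟩ := H2 n
      refine ⟨m, ?_⟩
      filter_upwards [hm, hq, Y₀.hS m] with k h1 h2 h3 p' hp'
      have hp : p' ≤ Γ.c k := by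
        simp only [h2] at hp'
        omega
      simp only [hist_length, decide_eq_true_eq]
      by_cases h4 : Y₀.P m k p'
      · right
        obtain ⟨j, hj, hj2⟩ := h1 p' hp h4
        refine ⟨j, hj, ?_⟩
        rw [hist_take hj]
        exact hj2
      · left
        by_contra h5
        exact h4 ((h3 p' hp).2 h5)
    · rintro ⟨j0, hj0⟩
      by_contra hv
      have H1' := fun j => H1 n v j hv
      choose mf hmf using H1'
      set m := j0 + ∑ j ∈ Finset.range (j0 + 1), mf j with hm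
      have hle : ∀ j ≤ j0, mf j ≤ m := by
        intro j hj
        have : mf j ≤ ∑ j ∈ Finset.range (j0 + 1), mf j :=
          Finset.single_le_sum (f := mf) (fun _ _ => Nat.zero_le _)
            (Finset.mem_range.2 (Nat.lt_succ_of_le hj))
        omega
      have h1 : ∀ᶠ k in UU, ∀ j ∈ Finset.range (j0 + 1), ∀ p' ≤ Γ.c k, Y₀.P m k p' →
          ¬ R (Nat.pair (q k) p', hist (Γ.c k) j, n, v) := by
        rw [Filter.eventually_all_finset]
        intro j hj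
        have hj' : j ≤ j0 := Nat.lt_succ_iff.1 (Finset.mem_range.1 hj)
        have h3 := coneb_anti Y₀ (mf j) (m - mf j)
        rw [Nat.add_sub_cancel' (hle j hj')] at h3
        filter_upwards [hmf j, h3] with k h4 h5 p' hp' h6
        exact h4 p' hp' (h5 p' hp' h6)
      have h2 := coneb_anti Y₀ j0 (m - j0)
      rw [Nat.add_sub_cancel' (show j0 ≤ m by omega)] at h2
      have h3 : ∀ᶠ _k : ℕ in UU, False := by
        filter_upwards [h1, h2, hj0, hq, Y₀.ne m, Y₀.hS j0] with k a1 a2 a3 a4 a5 a6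
        obtain ⟨p', hp', hP⟩ := a5
        have a7 := a3 p' (by simp only [a4]; omega)
        simp only [hist_length, decide_eq_true_eq] at a7
        rcases a7 with a7 | ⟨j, hj, a7⟩
        · exact (a6 p' hp').1 (a2 p' hp' hP) a7
        · rw [hist_take hj] at a7
          exact a1 j (Finset.mem_range.2 (Nat.lt_succ_of_le hj)) p' hp' hP a7
      exact uu_false h3

end Pool.Agent.Lib.MP_53c40f_lc
end

section

/-!
# Cone avoidance
-/

set_option autoImplicit false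

namespace Pool.Agent.Lib.MP_53c40f_lc

open Filter

/-- **Cone avoidance**: a real `x` that does not help to compute `n ↦ bt (n + 1)` can be coded by
a new parameter. -/
theorem cone (Γ : Ctx) (q : ℕ → ℕ) (bn : ℕ → ℕ) (hbn : Computable bn)
    (hq : ∀ᶠ k in UU, bn (q k) = Γ.c k) (hqb : ∃ i, ∀ᶠ k in UU, q k ≤ H (Γ.c k) i)
    (x : ℕ → ℕ) (hx : ¬ Comp Γ x q) :
    ∃ p : ℕ → ℕ, (∀ k, p k ≤ Γ.c k) ∧ (∀ n, ∀ᶠ k in UU, dec (p k) n = x n) ∧
      ¬ Comp0 Γ (fun k => Nat.pair (q k) (p k)) := by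
  classical
  obtain ⟨Z, hZ⟩ := sys_zero Γ x q
  have hstep : ∀ (e : ℕ) (Y₀ : Sys Γ x q), ∃ Y₁ : Sys Γ x q,
      (∀ m k p', Y₁.P m k p' → Y₀.P m k p') ∧
      ∀ p : ℕ → ℕ, (∀ k, p k ≤ Γ.c k) → (∀ m, ∀ᶠ k in UU, Y₁.P m k (p k)) →
        ¬ ∀ n v, v = Γ.bt (n + 1) ↔ ∃ j, ∀ᶠ k in UU,
          halt e (Encodable.encode (Nat.pair (q k) (p k), hist (Γ.c k) j, n, v)) := by
    intro e Y₀
    refine sys_step Γ x q bn hbn hq hqb hx Y₀
      (fun a : ℕ × List ℕ × ℕ × ℕ => halt e (Encodable.encode a)) ?_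
    exact re_comp re_halt (f := fun a : ℕ × List ℕ × ℕ × ℕ => (e, Encodable.encode a))
      ((Primrec.const e).pair Primrec.encode).to_comp
  choose F hF1 hF2 using hstep
  obtain ⟨Y, hY0, hY1⟩ : ∃ Y : ℕ → Sys Γ x q, Y 0 = Z ∧ ∀ e, Y (e + 1) = F e (Y e) :=
    ⟨fun e => Nat.rec Z (fun e Y₀ => F e Y₀) e, rfl, fun _ => rfl⟩
  obtain ⟨p, hp, hp'⟩ := sys_limit Γ x q Y fun e m k p' h => by
    rw [hY1] at h
    exact hF1 e (Y e) m k p' h
  refine ⟨p, hp, fun n => ?_, ?_⟩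
  · filter_upwards [hp' 0 (n + 1)] with k hk
    rw [hY0] at hk
    exact hZ (n + 1) k (p k) hk n (Nat.lt_succ_self n)
  · rintro ⟨R, hR, h⟩
    obtain ⟨e, he⟩ := re_index hR
    refine hF2 e (Y e) p hp (fun m => ?_) fun n v => ?_
    · rw [← hY1]
      exact hp' (e + 1) m
    · rw [h n v]
      simp only [he]

end Pool.Agent.Lib.MP_53c40f_lc
end

section

/-!
# Iteration
-/

set_option autoImplicit false

namespace Pool.Agent.Lib.MP_53c40f_lc

open Filter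

/-- the invariant of the iteration -/
private def Inv (Γ : Ctx) (q : ℕ → ℕ) : Prop :=
  (∃ bn : ℕ → ℕ, Computable bn ∧ ∀ᶠ k in UU, bn (q k) = Γ.c k) ∧
  (∃ i, ∀ᶠ k in UU, q k ≤ H (Γ.c k) i) ∧ ¬ Comp0 Γ q

private theorem inv_zero (Γ : Ctx) : Inv Γ Γ.c := by
  refine ⟨⟨id, Computable.id, Filter.Eventually.of_forall fun _ => rfl⟩,
    ⟨0, Filter.Eventually.of_forall fun k => c_le_H _ _⟩, ?_⟩
  rintro ⟨R, hR, h⟩
  exact Γ.noncomp R hR h

private theorem inv_pair {Γ : Ctx} {q p : ℕ → ℕ} (hq : Inv Γ q) (hp : ∀ k, p k ≤ Γ.c k)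
    (h : ¬ Comp0 Γ (fun k => Nat.pair (q k) (p k))) : Inv Γ (fun k => Nat.pair (q k) (p k)) := by
  obtain ⟨⟨bn, hbn, hbn'⟩, ⟨i, hi⟩, -⟩ := hq
  refine ⟨⟨fun n => bn n.unpair.1, hbn.comp (Computable.fst.comp Primrec.unpair.to_comp), ?_⟩,
    ?_, h⟩
  · filter_upwards [hbn'] with k hk
    rw [Nat.unpair_pair]
    exact hk
  · obtain ⟨e, he⟩ := growth₂ (f := Nat.pair) Primrec₂.natPair.to_comp
    refine ⟨max i e + 1, ?_⟩
    filter_upwards [hi] with k hk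
    refine (he (max i e) (le_max_right _ _) (Γ.c k) (q k) (p k) ?_ ?_).le
    · exact hk.trans (H_mono _ (le_max_left _ _))
    · exact (hp k).trans (c_le_H _ _)

private theorem inv_step (Γ : Ctx) (Ξ : ℕ → (ℕ → ℕ) → (ℕ → ℕ)) (m : ℕ) (q : ℕ → ℕ)
    (hq : Inv Γ q) : ∃ p : ℕ → ℕ, (∀ k, p k ≤ Γ.c k) ∧
      Inv Γ (fun k => Nat.pair (q k) (p k)) ∧
      (Comp Γ (Ξ m q) q ∨ ∀ n, ∀ᶠ k in UU, dec (p k) n = Ξ m q n) := by
  by_cases hx : Comp Γ (Ξ m q) q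
  · refine ⟨fun _ => 0, fun _ => Nat.zero_le _, ?_, Or.inl hx⟩
    refine inv_pair hq (fun _ => Nat.zero_le _) ?_
    rintro ⟨R, hR, h⟩
    refine hq.2.2 ⟨fun a => R (Nat.pair a.1 0, a.2.1, a.2.2), ?_, h⟩
    refine re_comp hR (f := fun a : ℕ × List ℕ × ℕ × ℕ => (Nat.pair a.1 0, a.2.1, a.2.2)) ?_
    exact ((Primrec₂.natPair.comp Primrec.fst (Primrec.const 0)).pair
      ((Primrec.fst.comp Primrec.snd).pair (Primrec.snd.comp Primrec.snd))).to_comp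
  · obtain ⟨⟨bn, hbn, hbn'⟩, hqb, hc⟩ := hq
    obtain ⟨p, hp, hp1, hp2⟩ := cone Γ q bn hbn hbn' hqb (Ξ m q) hx
    exact ⟨p, hp, inv_pair ⟨⟨bn, hbn, hbn'⟩, hqb, hc⟩ hp hp2, Or.inr hp1⟩

/-- Parameters `p m ≤ c` such that `n ↦ bt (n + 1)` is not computable from finitely many of them,
and such that, for every `m`, the real `Ξ m (qq m)` either computes `n ↦ bt (n + 1)` together with
`qq m`, or is coded by `p m`. -/
theorem exists_params (Γ : Ctx) (Ξ : ℕ → (ℕ → ℕ) → (ℕ → ℕ)) :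
    ∃ p : ℕ → ℕ → ℕ, (∀ m k, p m k ≤ Γ.c k) ∧ (∀ m, ¬ Comp0 Γ (qq Γ.c p m)) ∧
      ∀ m, Comp Γ (Ξ m (qq Γ.c p m)) (qq Γ.c p m) ∨
        ∀ n, ∀ᶠ k in UU, dec (p m k) n = Ξ m (qq Γ.c p m) n := by
  classical
  choose P hP1 hP2 hP3 using inv_step Γ Ξ
  obtain ⟨Q, hQ0, hQ1⟩ : ∃ Q : ℕ → {q // Inv Γ q}, Q 0 = ⟨Γ.c, inv_zero Γ⟩ ∧
      ∀ m, Q (m + 1) = ⟨fun k => Nat.pair ((Q m).1 k) (P m (Q m).1 (Q m).2 k),
        hP2 m (Q m).1 (Q m).2⟩ :=
    ⟨fun m => Nat.rec ⟨Γ.c, inv_zero Γ⟩ (fun m q =>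
      ⟨fun k => Nat.pair (q.1 k) (P m q.1 q.2 k), hP2 m q.1 q.2⟩) m, rfl, fun _ => rfl⟩
  obtain ⟨p, hp⟩ : ∃ p : ℕ → ℕ → ℕ, ∀ m, p m = P m (Q m).1 (Q m).2 := ⟨_, fun _ => rfl⟩
  have hq : ∀ m, qq Γ.c p m = (Q m).1 := by
    intro m
    induction m with
    | zero =>
      rw [hQ0]
      rfl
    | succ m ih =>
      rw [hQ1]
      funext k
      show Nat.pair (qq Γ.c p m k) (p m k) = Nat.pair ((Q m).1 k) (P m (Q m).1 (Q m).2 k)
      rw [ih, hp]
  refine ⟨p, fun m k => ?_, fun m => ?_, fun m => ?_⟩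
  · rw [hp]
    exact hP1 _ _ _ _
  · rw [hq]
    exact (Q m).2.2.2
  · rw [hq, hp]
    exact hP3 _ _ _

end Pool.Agent.Lib.MP_53c40f_lc
end
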